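import Pool.Agent.PT56.FFac

set_option autoImplicit false
set_option linter.unusedSectionVars false

/-!
# PT56/FDim: facets as sets

`dim_iff`: `face P u = (spt P u • u + ·) '' hface P u`, so `vectorSpan ℝ (face P u)` is the image of
`vectorSpan ℝ (hface P u)` under the inclusion of `(ℝ ∙ u)ᗮ`; it has dimension `d - 1` iff it is everything iff
`affineSpan ℝ (hface P u) = ⊤` iff `hface P u` has interior points (`interior_nonempty_iff_affineSpan_eq_top` or
`Convex.interior_nonempty_iff_affineSpan_eq_top`), i.e. `mem_FN_iff`.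
`span_face`: for `u ∈ FN P` the vector span of `face P u` is `(ℝ ∙ u)ᗮ`.
`facets_eq`: `Facets P` is the image of `FN P` under `face P` (normalise the normal vector, `face P (c • u) = face P u`
for `c > 0`), and `face P` is injective on `FN P` (equal faces have equal vector spans, so `u' = ± u`; `u' = -u`
would give `spt P (-u) = - spt P u`, so `P` would lie in a hyperplane).
-/

namespace Pool.PT56

open Set Filter Topology MeasureTheory
open scoped RealInnerProductSpace ENNReal

variable {E : Type} [NormedAddCommGroup E] [InnerProductSpace ℝ E] [FiniteDimensional ℝ E]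
  [MeasurableSpace E] [BorelSpace E]

/-- the facets of `P` -/
def Facets {E : Type} [NormedAddCommGroup E] [InnerProductSpace ℝ E] (P : Set E) : Set (Set E) :=
  {F | ∃ u : E, u ≠ 0 ∧ F = face P u ∧
    Module.finrank ℝ (vectorSpan ℝ F) + 1 = Module.finrank ℝ E}

private theorem poly_nonempty {P : Set E} (hP : Polytope P) : P.Nonempty :=
  hP.2.mono interior_subset

private theorem vs_face {P : Set E} (hP : Polytope P) {u : E} (hu : ‖u‖ = 1) :
    vectorSpan ℝ (face P u) = (vectorSpan ℝ (hface P u)).map (ℝ ∙ u)ᗮ.subtype := by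
  rw [face_eq_image hP.isCompact' (poly_nonempty hP) hu]
  let f : (ℝ ∙ u)ᗮ →ᵃ[ℝ] E :=
    { toFun := fun y => spt P u • u + (y : E)
      linear := (ℝ ∙ u)ᗮ.subtype
      map_vadd' := by
        intro p v
        simp only [vadd_eq_add, Submodule.coe_add, Submodule.subtype_apply]
        abel }
  have h := f.vectorSpan_image_eq_submodule_map (s := hface P u)
  exact h.symm

private theorem vs_top {P : Set E} (hP : Polytope P) {u : E} (hu : ‖u‖ = 1) :
    u ∈ FN P ↔ vectorSpan ℝ (hface P u) = ⊤ := by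
  rw [mem_FN_iff hP.isCompact' hP.convex' (poly_nonempty hP) hu,
    (hface_convex hP.convex' u).interior_nonempty_iff_affineSpan_eq_top,
    AffineSubspace.affineSpan_eq_top_iff_vectorSpan_eq_top_of_nonempty ℝ _ _
      (hface_nonempty hP.isCompact' (poly_nonempty hP) hu)]

private theorem finrank_perp {u : E} (hu : ‖u‖ = 1) :
    Module.finrank ℝ (ℝ ∙ u)ᗮ + 1 = Module.finrank ℝ E := by
  have hu0 : u ≠ 0 := by
    rintro rfl
    simp at hu
  have h := Submodule.finrank_add_finrank_orthogonal (𝕜 := ℝ) (ℝ ∙ u)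
  rw [finrank_span_singleton hu0] at h
  omega

theorem dim_iff {P : Set E} (hP : Polytope P) {u : E} (hu : ‖u‖ = 1) :
    u ∈ FN P ↔ Module.finrank ℝ (vectorSpan ℝ (face P u)) + 1 = Module.finrank ℝ E := by
  rw [vs_top hP hu, vs_face hP hu, Submodule.finrank_map_subtype_eq]
  have h := finrank_perp hu
  constructor
  · intro e
    rw [e, finrank_top]
    exact h
  · intro e
    apply Submodule.eq_top_of_finrank_eq
    omega

theorem span_face {P : Set E} (hP : Polytope P) {u : E} (hu : u ∈ FN P) :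
    vectorSpan ℝ (face P u) = (ℝ ∙ u)ᗮ := by
  rw [vs_face hP hu.1, (vs_top hP hu.1).1 hu, Submodule.map_subtype_top]

private theorem fdim_face_smul {T : Set E} {u : E} {c : ℝ} (hc : 0 < c) : face T (c • u) = face T u := by
  ext x
  simp only [face, mem_setOf_eq, real_inner_smul_left]
  constructor
  · rintro ⟨h1, h2⟩
    exact ⟨h1, fun y hy => le_of_mul_le_mul_left (h2 y hy) hc⟩
  · rintro ⟨h1, h2⟩
    exact ⟨h1, fun y hy => mul_le_mul_of_nonneg_left (h2 y hy) hc.le⟩

theorem facets_eq {P : Set E} (hP : Polytope P) : Facets P = face P '' FN P := by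
  ext F
  constructor
  · rintro ⟨u, hu, rfl, hd⟩
    have hn : 0 < ‖u‖ := norm_pos_iff.2 hu
    have hu1 : ‖(‖u‖⁻¹ • u)‖ = 1 := by
      rw [norm_smul, norm_inv, norm_norm, inv_mul_cancel₀ hn.ne']
    have hf : face P (‖u‖⁻¹ • u) = face P u := fdim_face_smul (inv_pos.2 hn)
    refine ⟨‖u‖⁻¹ • u, ?_, hf⟩
    rw [dim_iff hP hu1, hf]
    exact hd
  · rintro ⟨u, hu, rfl⟩
    refine ⟨u, ?_, rfl, (dim_iff hP hu.1).1 hu⟩
    rintro rfl
    have := hu.1
    simp at this

private theorem eq_or_neg {u u' : E} (hu : ‖u‖ = 1) (hu' : ‖u'‖ = 1)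
    (h : (ℝ ∙ u)ᗮ = (ℝ ∙ u')ᗮ) : u' = u ∨ u' = -u := by
  have h2 : (ℝ ∙ u) = (ℝ ∙ u') := by
    rw [← Submodule.orthogonal_orthogonal (ℝ ∙ u), h, Submodule.orthogonal_orthogonal]
  have h3 : u' ∈ (ℝ ∙ u) := by
    rw [h2]
    exact Submodule.mem_span_singleton_self u'
  obtain ⟨r, hr⟩ := Submodule.mem_span_singleton.1 h3
  have h4 : |r| = 1 := by
    have := congrArg norm hr
    rw [norm_smul, hu, hu', mul_one, Real.norm_eq_abs] at this
    exact this
  rcases (abs_eq (by norm_num)).1 h4 with h5 | h5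
  · left
    rw [← hr, h5, one_smul]
  · right
    rw [← hr, h5, neg_smul, one_smul]

theorem face_inj {P : Set E} (hP : Polytope P) : Set.InjOn (face P) (FN P) := by
  intro u hu u' hu' h
  have h1 : (ℝ ∙ u)ᗮ = (ℝ ∙ u')ᗮ := by
    rw [← span_face hP hu, ← span_face hP hu', h]
  rcases eq_or_neg hu.1 hu'.1 h1 with h2 | h2
  · exact h2.symm
  · exfalso
    obtain ⟨y, hy⟩ := hface_nonempty hP.isCompact' (poly_nonempty hP) hu.1
    have hx := (mem_hface hP.isCompact' (poly_nonempty hP) hu.1 y).1 hy
    set x := spt P u • u + (y : E) with hxd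
    have hx' : x ∈ face P (-u) := by
      rw [← h2, ← h]
      exact hx
    obtain ⟨x0, hx0⟩ := hP.2
    obtain ⟨ε, hε, hb⟩ := Metric.isOpen_iff.1 isOpen_interior x0 hx0
    have hz : x0 + (ε / 2) • u ∈ P := by
      apply interior_subset
      apply hb
      rw [Metric.mem_ball, dist_eq_norm, add_sub_cancel_left, norm_smul, hu.1, mul_one,
        Real.norm_eq_abs, abs_of_pos (by positivity)]
      linarith
    have hx0' : x0 ∈ P := interior_subset hx0
    have e1 := hx.2 _ hz
    have e2 := hx'.2 _ hx0'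
    rw [inner_neg_left, inner_neg_left] at e2
    rw [inner_add_right, real_inner_smul_right, real_inner_self_eq_norm_sq, hu.1] at e1
    linarith

/-- `face P u` and `face P u'` are parallel iff `u' = ± u` -/
theorem parallel_iff {P : Set E} (hP : Polytope P) {u u' : E} (hu : u ∈ FN P) (hu' : u' ∈ FN P) :
    vectorSpan ℝ (face P u) = vectorSpan ℝ (face P u') ↔ u' = u ∨ u' = -u := by
  rw [span_face hP hu, span_face hP hu']
  constructor
  · exact eq_or_neg hu.1 hu'.1
  · rintro (rfl | rfl)
    · rfl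
    · rw [← Set.neg_singleton, Submodule.span_neg]

end Pool.PT56
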