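import Pool.Agent.PT56.Base

set_option autoImplicit false
set_option linter.unusedSectionVars false

/-!
# PT56/HRep: a polytope with interior points is an intersection of finitely many half-spaces

Translate so that `0 ∈ interior P`.  `P = convexHull S`, `S` finite.  Let `Q = {y | ∀ x ∈ S, ⟪y, x⟫ ≤ 1}` be the
polar: compact (a ball `closedBall 0 δ ⊆ P` gives `‖y‖ ≤ 1/δ`) and convex.  `Q` has finitely many extreme points:
`y ↦ {x ∈ S | ⟪y, x⟫ = 1}` is injective on extreme points (if `y ≠ y'` have the same set, then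
`y ± η (y - y') ∈ Q` for small `η > 0`, so `y` is not extreme).  Krein-Milman
(`closure_convexHull_extremePoints`; the hull of a finite set is closed): `Q = convexHull (extreme points)`.
If `⟪y, x⟫ ≤ 1` for all extreme points `y` then for all `y ∈ Q`, and then `x ∈ P` (otherwise separate `x`
from the closed convex set `P ∋ 0`: some `y` with `⟪y, z⟫ ≤ 1` on `P`, `⟪y, x⟫ > 1`).  For the nonzero
extreme points put `u = y / ‖y‖`; `spt P u ≤ 1 / ‖y‖`.  (For the translated back polytope:
`spt (x0 + P) u = ⟪u, x0⟫ + spt P u`.)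
-/

namespace Pool.PT56

open Set Filter Topology MeasureTheory
open scoped RealInnerProductSpace ENNReal

variable {E : Type} [NormedAddCommGroup E] [InnerProductSpace ℝ E] [FiniteDimensional ℝ E]

theorem Polytope.isCompact' {P : Set E} (hP : Polytope P) : IsCompact P := by
  obtain ⟨⟨S, hS, rfl⟩, -⟩ := hP
  exact hS.isCompact_convexHull (𝕜 := ℝ)

theorem Polytope.convex' {P : Set E} (hP : Polytope P) : Convex ℝ P := by
  obtain ⟨⟨S, hS, rfl⟩, -⟩ := hP
  exact convex_convexHull ℝ S

/-- the translate `P - x0` -/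
def sh (P : Set E) (x0 : E) : Set E := (fun x => x + x0) ⁻¹' P

theorem mem_sh {P : Set E} {x0 x : E} : x ∈ sh P x0 ↔ x + x0 ∈ P := Iff.rfl

theorem sh_eq_image (P : Set E) (x0 : E) : sh P x0 = (fun x => -x0 + x) '' P := by
  ext x
  rw [mem_sh]
  constructor
  · intro h
    exact ⟨x + x0, h, by simp only; abel⟩
  · rintro ⟨z, hz, rfl⟩
    have : -x0 + z + x0 = z := by abel
    simp only
    rwa [this]

theorem Polytope.sh {P : Set E} (hP : Polytope P) (x0 : E) : Polytope (sh P x0) := by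
  obtain ⟨⟨S, hS, hPS⟩, hint⟩ := hP
  refine ⟨⟨(fun x => -x0 + x) '' S, hS.image _, ?_⟩, ?_⟩
  · rw [sh_eq_image, hPS]
    have h := (AffineEquiv.constVAdd ℝ E (-x0)).toAffineMap.image_convexHull (𝕜 := ℝ) S
    simpa using h
  · obtain ⟨x, hx⟩ := hint
    refine ⟨x - x0, ?_⟩
    have h := (Homeomorph.addRight x0).preimage_interior P
    have h2 : x - x0 ∈ (Homeomorph.addRight x0) ⁻¹' interior P := by
      simpa using hx
    rw [h] at h2
    exact h2

theorem zero_mem_interior_sh {P : Set E} {x0 : E} (h0 : x0 ∈ interior P) :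
    (0 : E) ∈ interior (sh P x0) := by
  have h := (Homeomorph.addRight x0).preimage_interior P
  have h2 : (0 : E) ∈ (Homeomorph.addRight x0) ⁻¹' interior P := by
    simpa using h0
  rw [h] at h2
  exact h2

theorem le_spt {K : Set E} (hK : IsCompact K) {u x : E} (hx : x ∈ K) : ⟪u, x⟫ ≤ spt K u := by
  unfold spt
  apply le_csSup
  · exact (hK.image (by fun_prop)).bddAbove
  · exact ⟨x, hx, rfl⟩

/-- the polar of `S` -/
def pol (S : Set E) : Set E := {y | ∀ x ∈ S, ⟪y, x⟫ ≤ 1}

theorem pol_closed (S : Set E) : IsClosed (pol S) := by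
  have : pol S = ⋂ x ∈ S, {y | ⟪y, x⟫ ≤ 1} := by
    ext y; simp [pol]
  rw [this]
  exact isClosed_biInter fun x _ =>
    isClosed_le (continuous_id.inner continuous_const) continuous_const

theorem convex_half_left (x : E) (a : ℝ) : Convex ℝ {y : E | ⟪y, x⟫ ≤ a} := by
  intro y hy z hz s t hs ht hst
  simp only [mem_ofPred_eq] at *
  rw [inner_add_left, real_inner_smul_left, real_inner_smul_left]
  calc s * ⟪y, x⟫ + t * ⟪z, x⟫ ≤ s * a + t * a :=
        add_le_add (mul_le_mul_of_nonneg_left hy hs) (mul_le_mul_of_nonneg_left hz ht)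
    _ = a := by rw [← add_mul, hst, one_mul]

theorem convex_half_right (y : E) (a : ℝ) : Convex ℝ {x : E | ⟪y, x⟫ ≤ a} := by
  have h : {x : E | ⟪y, x⟫ ≤ a} = {x : E | ⟪x, y⟫ ≤ a} := by
    ext x; simp only [mem_ofPred_eq, real_inner_comm]
  rw [h]
  exact convex_half_left y a

theorem pol_convex (S : Set E) : Convex ℝ (pol S) := by
  have : pol S = ⋂ x ∈ S, {y | ⟪y, x⟫ ≤ 1} := by
    ext y; simp [pol]
  rw [this]
  exact convex_iInter₂ fun x _ => convex_half_left x 1

theorem pol_hull {S : Set E} {y : E} (hy : y ∈ pol S) {z : E} (hz : z ∈ convexHull ℝ S) :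
    ⟪y, z⟫ ≤ 1 :=
  (convexHull_min (fun x hx => hy x hx) (convex_half_right y 1)) hz

theorem pol_compact {S : Set E} (h0 : (0 : E) ∈ interior (convexHull ℝ S)) :
    IsCompact (pol S) := by
  obtain ⟨δ, hδ, hb⟩ := Metric.nhds_basis_closedBall.mem_iff.1 (mem_interior_iff_mem_nhds.1 h0)
  refine (isCompact_closedBall (0 : E) (1 / δ)).of_isClosed_subset (pol_closed S) ?_
  intro y hy
  rw [mem_closedBall_zero_iff]
  by_cases hy0 : y = 0
  · rw [hy0, norm_zero]; positivity
  have hn : 0 < ‖y‖ := norm_pos_iff.2 hy0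
  have h1 : (δ / ‖y‖) • y ∈ convexHull ℝ S := by
    apply hb
    rw [mem_closedBall_zero_iff, norm_smul, Real.norm_of_nonneg (by positivity)]
    rw [div_mul_cancel₀ _ hn.ne']
  have h2 := pol_hull hy h1
  rw [real_inner_smul_right, real_inner_self_eq_norm_sq] at h2
  have h3 : δ / ‖y‖ * ‖y‖ ^ 2 = δ * ‖y‖ := by field_simp
  rw [h3] at h2
  rw [le_div_iff₀ hδ]
  linarith

theorem pol_extreme_finite {S : Set E} (hS : S.Finite) :
    ((pol S).extremePoints ℝ).Finite := by
  have hsub : ((fun y : E => {x ∈ S | ⟪y, x⟫ = 1}) '' (pol S).extremePoints ℝ).Finite := by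
    refine hS.finite_subsets.subset ?_
    rintro _ ⟨y, -, rfl⟩
    exact fun x hx => hx.1
  refine Set.Finite.of_finite_image hsub ?_
  intro y hy y' hy' heq
  simp only at heq
  by_contra hne
  have hyp := (mem_extremePoints_iff_left.1 hy)
  have hyp' := (mem_extremePoints_iff_left.1 hy').1
  have key : ∀ x ∈ S, ∀ᶠ η : ℝ in 𝓝[>] 0, ⟪y + η • (y - y'), x⟫ ≤ 1 ∧
      ⟪y - η • (y - y'), x⟫ ≤ 1 := by
    intro x hx
    by_cases h1 : ⟪y, x⟫ = 1
    · have h2 : x ∈ {x ∈ S | ⟪y', x⟫ = 1} := by rw [← heq]; exact ⟨hx, h1⟩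
      have h3 : ⟪y - y', x⟫ = 0 := by rw [inner_sub_left, h1, h2.2, sub_self]
      refine Filter.Eventually.of_forall fun η => ?_
      rw [inner_add_left, inner_sub_left, real_inner_smul_left, h3, h1]
      simp
    · have h2 : ⟪y, x⟫ < 1 := lt_of_le_of_ne (hyp.1 x hx) h1
      have c1 : Tendsto (fun η : ℝ => ⟪y + η • (y - y'), x⟫) (𝓝[>] 0) (𝓝 ⟪y, x⟫) := by
        have : Continuous (fun η : ℝ => ⟪y + η • (y - y'), x⟫) := by fun_prop
        have h := this.tendsto 0
        simp only [zero_smul, add_zero] at h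
        exact h.mono_left nhdsWithin_le_nhds
      have c2 : Tendsto (fun η : ℝ => ⟪y - η • (y - y'), x⟫) (𝓝[>] 0) (𝓝 ⟪y, x⟫) := by
        have : Continuous (fun η : ℝ => ⟪y - η • (y - y'), x⟫) := by fun_prop
        have h := this.tendsto 0
        simp only [zero_smul, sub_zero] at h
        exact h.mono_left nhdsWithin_le_nhds
      filter_upwards [c1.eventually_lt_const h2, c2.eventually_lt_const h2] with η a b
      exact ⟨a.le, b.le⟩
  have key2 : ∀ᶠ η : ℝ in 𝓝[>] 0, ∀ x ∈ S, ⟪y + η • (y - y'), x⟫ ≤ 1 ∧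
      ⟪y - η • (y - y'), x⟫ ≤ 1 := (eventually_all_finite hS).2 key
  obtain ⟨η, hη, hη0⟩ := (key2.and self_mem_nhdsWithin).exists
  have hη0 : 0 < η := hη0
  have hs : y ∈ openSegment ℝ (y + η • (y - y')) (y - η • (y - y')) := by
    refine ⟨1 / 2, 1 / 2, by norm_num, by norm_num, by norm_num, ?_⟩
    module
  have h := hyp.2 _ (fun x hx => (hη x hx).1) _ (fun x hx => (hη x hx).2) hs
  have h5 : η • (y - y') = 0 := by
    have := h
    rwa [add_eq_left] at this
  rcases smul_eq_zero.1 h5 with h6 | h6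
  · exact hη0.ne' h6
  · exact hne (sub_eq_zero.1 h6)

theorem hrep0 {P : Set E} (hP : Polytope P) (h0 : (0 : E) ∈ interior P) :
    ∃ U : Finset E, (∀ u ∈ U, ‖u‖ = 1) ∧
    ∀ x, (∀ u ∈ U, ⟪u, x⟫ ≤ spt P u) → x ∈ P := by
  classical
  have hPc := hP.isCompact'
  have hPv := hP.convex'
  obtain ⟨⟨S, hS, rfl⟩, -⟩ := hP
  have hX := pol_extreme_finite hS
  refine ⟨(hX.toFinset.filter (fun y => y ≠ 0)).image (fun y => (1 / ‖y‖) • y), ?_, ?_⟩
  · intro u hu
    obtain ⟨y, hy, rfl⟩ := Finset.mem_image.1 hu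
    have hy0 : y ≠ 0 := (Finset.mem_filter.1 hy).2
    have hn : 0 < ‖y‖ := norm_pos_iff.2 hy0
    rw [norm_smul, Real.norm_of_nonneg (by positivity)]
    field_simp
  · intro x hx
    have h1 : ∀ y ∈ (pol S).extremePoints ℝ, ⟪y, x⟫ ≤ 1 := by
      intro y hy
      by_cases hy0 : y = 0
      · rw [hy0, inner_zero_left]; norm_num
      have hn : 0 < ‖y‖ := norm_pos_iff.2 hy0
      have h2 := hx ((1 / ‖y‖) • y) (Finset.mem_image.2 ⟨y, Finset.mem_filter.2
        ⟨hX.mem_toFinset.2 hy, hy0⟩, rfl⟩)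
      have h3 : spt (convexHull ℝ S) ((1 / ‖y‖) • y) ≤ 1 / ‖y‖ := by
        unfold spt
        apply csSup_le
        · exact ⟨_, 0, interior_subset h0, rfl⟩
        · rintro _ ⟨z, hz, rfl⟩
          simp only
          rw [real_inner_smul_left]
          have := pol_hull (extremePoints_subset hy) hz
          calc 1 / ‖y‖ * ⟪y, z⟫ ≤ 1 / ‖y‖ * 1 := mul_le_mul_of_nonneg_left this (by positivity)
            _ = _ := mul_one _
      have h4 := h2.trans h3
      rw [real_inner_smul_left] at h4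
      have h5 : 1 / ‖y‖ * ⟪y, x⟫ ≤ 1 / ‖y‖ * 1 := by rw [mul_one]; exact h4
      exact le_of_mul_le_mul_left h5 (by positivity)
    have h2 : ∀ y ∈ pol S, ⟪y, x⟫ ≤ 1 := by
      intro y hy
      rw [← closure_convexHull_extremePoints (pol_compact h0) (pol_convex S)] at hy
      have : closure (convexHull ℝ ((pol S).extremePoints ℝ)) ⊆ {y | ⟪y, x⟫ ≤ 1} := by
        apply closure_minimal
        · exact convexHull_min (fun y hy => h1 y hy) (convex_half_left x 1)
        · exact isClosed_le (continuous_id.inner continuous_const) continuous_const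
      exact this hy
    by_contra hxP
    obtain ⟨f, a, hfa, hax⟩ := geometric_hahn_banach_closed_point hPv hPc.isClosed hxP
    have ha : 0 < a := by
      have := hfa 0 (interior_subset h0)
      simpa using this
    have h3 : (1 / a) • (InnerProductSpace.toDual ℝ E).symm f ∈ pol S := by
      intro z hz
      rw [real_inner_smul_left, InnerProductSpace.toDual_symm_apply]
      have := hfa z (subset_convexHull ℝ S hz)
      rw [one_div, inv_mul_le_iff₀ ha, mul_one]
      exact this.le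
    have h4 := h2 _ h3
    rw [real_inner_smul_left, InnerProductSpace.toDual_symm_apply, one_div,
      inv_mul_le_iff₀ ha, mul_one] at h4
    linarith

theorem spt_sh {P : Set E} (hP : IsCompact P) (hne : P.Nonempty) (x0 u : E) :
    spt P u ≤ spt (sh P x0) u + ⟪u, x0⟫ := by
  have hc : IsCompact (sh P x0) := by
    rw [sh_eq_image]
    exact hP.image (by fun_prop)
  conv_lhs => unfold spt
  apply csSup_le (hne.image _)
  rintro _ ⟨z, hz, rfl⟩
  have h1 : z - x0 ∈ sh P x0 := by rw [mem_sh]; simpa using hz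
  have h2 := le_spt hc (u := u) h1
  rw [inner_sub_right] at h2
  simp only
  linarith

theorem hrep {P : Set E} (hP : Polytope P) : ∃ U : Finset E, (∀ u ∈ U, ‖u‖ = 1) ∧
    ∀ x, (∀ u ∈ U, ⟪u, x⟫ ≤ spt P u) → x ∈ P := by
  obtain ⟨x0, hx0⟩ := hP.2
  obtain ⟨U, hU1, hU⟩ := hrep0 (hP.sh x0) (zero_mem_interior_sh hx0)
  refine ⟨U, hU1, fun x hx => ?_⟩
  have h := hU (x - x0) (fun u hu => ?_)
  · rw [mem_sh] at h
    simpa using h
  · have h1 := hx u hu
    have h2 := spt_sh hP.isCompact' ⟨x0, interior_subset hx0⟩ x0 u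
    rw [inner_sub_right]
    linarith

end Pool.PT56
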