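import Pool.Agent.PT56.ProdS

set_option autoImplicit false
set_option linter.unusedSectionVars false

/-!
# PT56/Aff: affine invariance
-/

namespace Pool.PT56

open Set Filter Topology MeasureTheory

theorem aff_translate {V : Type} [NormedAddCommGroup V] [NormedSpace ℝ V] (p : V) {K : Set V}
    (hK : Tiles K) : Tiles ((fun x => p + x) '' K) := by
  obtain ⟨ι, t, s, h⟩ := tiles_iff.1 hK
  refine tiles_iff.2 ⟨ι, fun i => t i - s i • p, s, ?_⟩
  have he : ∀ i, tile ((fun x => p + x) '' K) (t i - s i • p) (s i) = tile K (t i) (s i) := by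
    intro i
    simp only [tile, Set.image_image]
    apply Set.image_congr
    intro x _
    simp only [smul_add]
    abel
  refine ⟨h.sgn, fun x => ?_, fun i j hij => ?_⟩
  · obtain ⟨i, hi⟩ := h.cov x
    exact ⟨i, by rw [he]; exact hi⟩
  · rw [he, he]
    exact h.dis i j hij

theorem aff_translate_iff {V : Type} [NormedAddCommGroup V] [NormedSpace ℝ V] (p : V)
    (K : Set V) : Tiles ((fun x => p + x) '' K) ↔ Tiles K := by
  constructor
  · intro h
    have := aff_translate (-p) h
    rwa [Set.image_image, show (fun x : V => -p + (p + x)) = id by funext x; simp,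
      Set.image_id] at this
  · exact aff_translate p

theorem tiles_affineEquiv {V W : Type} [NormedAddCommGroup V] [NormedSpace ℝ V]
    [FiniteDimensional ℝ V] [NormedAddCommGroup W] [NormedSpace ℝ W] (φ : V ≃ᵃ[ℝ] W)
    (P : Set V) : Tiles (φ '' P) ↔ Tiles P := by
  have hW : FiniteDimensional ℝ W := Module.Finite.equiv φ.linear
  let e : V ≃L[ℝ] W := φ.linear.toContinuousLinearEquiv
  have h : φ '' P = (fun x => φ 0 + x) '' (e '' P) := by
    rw [Set.image_image]
    apply Set.image_congr
    intro x _
    show φ x = φ 0 + φ.linear x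
    have := φ.map_vadd (0 : V) x
    simp only [vadd_eq_add, add_zero] at this
    rw [this, add_comm]
  rw [h, aff_translate_iff, tiles_image]

end Pool.PT56
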