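import Pool.Agent.PT56.Fib

set_option autoImplicit false
set_option linter.unusedSectionVars false

/-!
# PT56/Pyr: the cones over the facets

`cone F = {r • x | 0 ≤ r ≤ 1, x ∈ F}`.  For a unit vector `u`, `h = spt L u > 0`, `F = face L u` (compact, on the
hyperplane `⟪u, x⟫ = h`): `vol (cone F) = h * vol (prism F u) / dim E`: in the coordinates of `Fib` the section of
the cone at height `s ∈ [0, h]` is `(s/h) F'`, `F' = {y | h • u + y ∈ F}`, of measure `(s/h)^(dim E - 1) μ F'`
(`addHaar_smul`, `finrank (ℝ ∙ u)ᗮ = dim E - 1`), `vol (prism F u) = μ F'`.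
The cones lie in `L` (`0 ∈ L`, convex).  For `u ≠ u'` in `U` the cones meet in a null set: if
`r • x = r' • x'`, `x ∈ face L u`, `x' ∈ face L u'`, then `r h = r' ⟪u, x'⟫ ≤ r' h` and conversely, so `r = r'` and
the point `z = r • x` satisfies `h' ⟪u, z⟫ = r h h' = h ⟪u', z⟫`: it lies in the hyperplane orthogonal to
`h' u - h u'`, which is not `0` (otherwise `h = h'` by the norms, `u = u'`).
-/

namespace Pool.PT56

open Set Filter Topology MeasureTheory
open scoped RealInnerProductSpace ENNReal Pointwise

variable {E : Type} [NormedAddCommGroup E] [InnerProductSpace ℝ E] [FiniteDimensional ℝ E]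
  [MeasurableSpace E] [BorelSpace E]

/-- the cone with apex `0` over `F` -/
def pcone (F : Set E) : Set E := {z | ∃ r : ℝ, 0 ≤ r ∧ r ≤ 1 ∧ ∃ x ∈ F, z = r • x}

theorem pcone_compact {F : Set E} (hF : IsCompact F) : IsCompact (pcone F) := by
  have h : pcone F = (fun p : ℝ × E => p.1 • p.2) '' (Set.Icc (0 : ℝ) 1 ×ˢ F) := by
    ext z
    constructor
    · rintro ⟨r, h0, h1, x, hx, rfl⟩
      exact ⟨(r, x), ⟨⟨h0, h1⟩, hx⟩, rfl⟩
    · rintro ⟨⟨r, x⟩, ⟨⟨h0, h1⟩, hx⟩, rfl⟩
      exact ⟨r, h0, h1, x, hx, rfl⟩
  rw [h]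
  exact (isCompact_Icc.prod hF).image (continuous_fst.smul continuous_snd)

theorem face_inner_eq {L : Set E} {u x : E} (hx : x ∈ face L u) : ⟪u, x⟫ = spt L u := by
  unfold spt
  symm
  apply IsGreatest.csSup_eq
  refine ⟨⟨x, hx.1, rfl⟩, ?_⟩
  rintro _ ⟨y, hy, rfl⟩
  exact hx.2 y hy

theorem inner_le_spt' {L : Set E} (hc : IsCompact L) {u y : E} (hy : y ∈ L) :
    ⟪u, y⟫ ≤ spt L u := by
  have h1 : Continuous (fun x : E => ⟪u, x⟫) := by fun_prop
  exact le_csSup (hc.image h1).bddAbove ⟨y, hy, rfl⟩

theorem face_compact' {L : Set E} (hc : IsCompact L) (u : E) : IsCompact (face L u) := by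
  have h : face L u = L ∩ ⋂ y ∈ L, {x | ⟪u, y⟫ ≤ ⟪u, x⟫} := by
    ext x
    simp [Pool.Agent.H14Belt.face]
  rw [h]
  refine hc.inter_right ?_
  refine isClosed_biInter fun y _ => ?_
  exact isClosed_le continuous_const (by fun_prop)

theorem spt_pos {L : Set E} (hc : IsCompact L) (h0 : (0 : E) ∈ interior L) {u : E} (hu : ‖u‖ = 1) :
    0 < spt L u := by
  obtain ⟨ε, hε, hb⟩ := Metric.mem_nhds_iff.1 (mem_interior_iff_mem_nhds.1 h0)
  have h1 : (ε / 2) • u ∈ L := by
    apply hb
    rw [mem_ball_zero_iff, norm_smul, hu, Real.norm_of_nonneg (by positivity)]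
    linarith
  have h2 := inner_le_spt' hc (u := u) h1
  rw [inner_smul_right, real_inner_self_eq_norm_sq, hu] at h2
  nlinarith

theorem vol_pcone {u : E} (hu : ‖u‖ = 1) {F : Set E} (hF : IsCompact F) {h : ℝ} (hh : 0 < h)
    (hin : ∀ x ∈ F, ⟪u, x⟫ = h) :
    (Module.finrank ℝ E : ℝ) * (volume (pcone F)).toReal = h * (volume (prism F u)).toReal := by
  have hu0 : u ≠ 0 := by
    intro h0
    rw [h0, norm_zero] at hu
    exact zero_ne_one hu
  have : Nontrivial E := ⟨u, 0, hu0⟩
  obtain ⟨m, hm⟩ : ∃ m, Module.finrank ℝ E = m + 1 :=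
    Nat.exists_eq_succ_of_ne_zero (Module.finrank_pos (R := ℝ) (M := E)).ne'
  have : Fact (Module.finrank ℝ E = m + 1) := ⟨hm⟩
  have hfr : Module.finrank ℝ (ℝ ∙ u)ᗮ = m := Submodule.finrank_orthogonal_span_singleton hu0
  obtain ⟨μ, hμ, h1, h2⟩ := exists_fib hu
  have := hμ
  set F' : Set (ℝ ∙ u)ᗮ := {y | h • u + (y : E) ∈ F} with hF'
  have hp : volume (prism F u) = μ F' := h2 h F hin
  set S : Set (ℝ × (ℝ ∙ u)ᗮ) := {p | p.1 • u + (p.2 : E) ∈ pcone F} with hS
  have hSm : MeasurableSet S := by
    have hcl : IsClosed (pcone F) := (pcone_compact hF).isClosed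
    have hct : Continuous (fun p : ℝ × (ℝ ∙ u)ᗮ => p.1 • u + (p.2 : E)) := by fun_prop
    exact (hcl.preimage hct).measurableSet
  have huu : ⟪u, u⟫ = (1 : ℝ) := by rw [real_inner_self_eq_norm_sq, hu]; norm_num
  have horth : ∀ y : (ℝ ∙ u)ᗮ, ⟪u, (y : E)⟫ = (0 : ℝ) := fun y =>
    (Submodule.mem_orthogonal_singleton_iff_inner_right).1 y.2
  -- the sections
  have hsec : ∀ s : ℝ, s ≠ 0 → μ (Prod.mk s ⁻¹' S) =
      (Ioc 0 h).indicator (fun s => ENNReal.ofReal ((s / h) ^ m) * μ F') s := by
    intro s hs
    by_cases hsI : s ∈ Ioc 0 h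
    · rw [indicator_of_mem hsI]
      have hr : 0 < s / h := div_pos hsI.1 hh
      have hset : Prod.mk s ⁻¹' S = (s / h) • F' := by
        ext y
        simp only [mem_preimage, hS, mem_ofPred_eq, Set.mem_smul_set]
        constructor
        · rintro ⟨r, hr0, hr1, x, hx, hxy⟩
          have h3 : s = r * h := by
            have := congrArg (fun z => ⟪u, z⟫) hxy
            simpa only [inner_add_right, inner_smul_right, huu, horth, hin x hx, mul_one,
              add_zero] using this
          have hrs : r = s / h := by rw [h3]; field_simp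
          have hr' : r ≠ 0 := by rw [hrs]; exact hr.ne'
          have hmem : x - h • u ∈ (ℝ ∙ u)ᗮ := by
            rw [Submodule.mem_orthogonal_singleton_iff_inner_right, inner_sub_right, inner_smul_right,
              huu, hin x hx]
            ring
          refine ⟨⟨x - h • u, hmem⟩, ?_, ?_⟩
          · simp only [hF', mem_ofPred_eq]
            simpa using hx
          · apply Subtype.ext
            simp only [Submodule.coe_smul]
            have : (y : E) = r • x - s • u := by rw [← hxy]; abel
            rw [this, ← hrs, smul_sub, smul_smul, h3]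
        · rintro ⟨w, hw, rfl⟩
          refine ⟨s / h, hr.le, (div_le_one hh).2 hsI.2, h • u + (w : E), hw, ?_⟩
          simp only [Submodule.coe_smul, smul_add, smul_smul]
          rw [div_mul_cancel₀ _ hh.ne']
      rw [hset, Measure.addHaar_smul, hfr, abs_of_nonneg (by positivity)]
    · rw [indicator_of_notMem hsI]
      have hset : Prod.mk s ⁻¹' S = ∅ := by
        ext y
        simp only [mem_preimage, hS, mem_ofPred_eq, mem_empty_iff_false, iff_false]
        rintro ⟨r, hr0, hr1, x, hx, hxy⟩
        have h3 : s = r * h := by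
          have := congrArg (fun z => ⟪u, z⟫) hxy
          simpa only [inner_add_right, inner_smul_right, huu, horth, hin x hx, mul_one,
            add_zero] using this
        apply hsI
        constructor
        · rcases hr0.lt_or_eq with h4 | h4
          · rw [h3]; positivity
          · exact absurd (by rw [h3, ← h4, zero_mul]) hs
        · rw [h3]; nlinarith
      rw [hset, measure_empty]
  have hint : ∫ s in (0 : ℝ)..h, (s / h) ^ m = h / (m + 1) := by
    simp only [div_pow]
    rw [intervalIntegral.integral_div, integral_pow]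
    have : h ^ m ≠ 0 := pow_ne_zero _ hh.ne'
    field_simp
    simp [pow_succ]
  have hvol : volume (pcone F) = ENNReal.ofReal (h / (m + 1)) * μ F' := by
    rw [h1 (pcone F), Measure.prod_apply hSm]
    calc ∫⁻ s, μ (Prod.mk s ⁻¹' S)
        = ∫⁻ s, (Ioc 0 h).indicator (fun s => ENNReal.ofReal ((s / h) ^ m) * μ F') s := by
          apply lintegral_congr_ae
          have h0 : ∀ᵐ s : ℝ, s ≠ 0 := by
            rw [ae_iff]
            simp
          filter_upwards [h0] with s hs
          exact hsec s hs
      _ = ∫⁻ s in Ioc 0 h, ENNReal.ofReal ((s / h) ^ m) * μ F' := lintegral_indicator measurableSet_Ioc _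
      _ = (∫⁻ s in Ioc 0 h, ENNReal.ofReal ((s / h) ^ m)) * μ F' := by
          rw [lintegral_mul_const]
          fun_prop
      _ = ENNReal.ofReal (h / (m + 1)) * μ F' := by
          rw [← hint, intervalIntegral.integral_of_le hh.le]
          rw [ofReal_integral_eq_lintegral_ofReal]
          · have : IntervalIntegrable (fun s : ℝ => (s / h) ^ m) volume 0 h :=
              Continuous.intervalIntegrable (by fun_prop) _ _
            exact (intervalIntegrable_iff_integrableOn_Ioc_of_le hh.le).1 this
          · filter_upwards [self_mem_ae_restrict (measurableSet_Ioc (a := (0 : ℝ)) (b := h))] with s hs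
            have := hs.1
            simp only [Pi.zero_apply]
            positivity
  rw [hvol, hp, ENNReal.toReal_mul, ENNReal.toReal_ofReal (by positivity), hm]
  push_cast
  field_simp

theorem pyr {L : Set E} (hc : IsCompact L) (hconv : Convex ℝ L) (h0 : (0 : E) ∈ interior L)
    (U : Finset E) (hU1 : ∀ u ∈ U, ‖u‖ = 1) :
    ∑ u ∈ U, spt L u * (volume (prism (face L u) u)).toReal ≤
      Module.finrank ℝ E * (volume L).toReal := by
  have hpos : ∀ u ∈ U, 0 < spt L u := fun u hu => spt_pos hc h0 (hU1 u hu)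
  have hsub : ∀ u ∈ U, pcone (face L u) ⊆ L := by
    rintro u hu _ ⟨r, hr0, hr1, x, hx, rfl⟩
    have := hconv (interior_subset h0) hx.1 (sub_nonneg.2 hr1) hr0 (by ring)
    simpa using this
  have hcomp : ∀ u, IsCompact (pcone (face L u)) := fun u => pcone_compact (face_compact' hc u)
  have hdisj : (U : Set E).Pairwise
      (Function.onFun (AEDisjoint (volume : Measure E)) (fun u => pcone (face L u))) := by
    intro u hu u' hu' hne
    have hw : spt L u' • u - spt L u • u' ≠ 0 := by
      intro h
      rw [sub_eq_zero] at h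
      have h1 := congrArg norm h
      rw [norm_smul, norm_smul, hU1 u hu, hU1 u' hu', Real.norm_of_nonneg (hpos u hu).le,
        Real.norm_of_nonneg (hpos u' hu').le, mul_one, mul_one] at h1
      rw [h1] at h
      exact hne (smul_right_injective E (hpos u hu).ne' h)
    set w := spt L u' • u - spt L u • u' with hwd
    have hnull : volume ((ℝ ∙ w)ᗮ : Set E) = 0 := by
      apply Measure.addHaar_submodule
      intro htop
      have : w ∈ (ℝ ∙ w)ᗮ := by rw [htop]; trivial
      rw [Submodule.mem_orthogonal_singleton_iff_inner_right, inner_self_eq_zero] at this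
      exact hw this
    refine measure_mono_null ?_ hnull
    rintro z ⟨⟨r, hr0, hr1, x, hx, hz⟩, ⟨r', hr0', hr1', x', hx', hz'⟩⟩
    have e1 : ⟪u, z⟫ = r * spt L u := by rw [hz, inner_smul_right, face_inner_eq hx]
    have e2 : ⟪u', z⟫ = r' * spt L u' := by rw [hz', inner_smul_right, face_inner_eq hx']
    have e3 : ⟪u, z⟫ ≤ r' * spt L u := by
      rw [hz', inner_smul_right]
      exact mul_le_mul_of_nonneg_left (inner_le_spt' hc hx'.1) hr0'
    have e4 : ⟪u', z⟫ ≤ r * spt L u' := by
      rw [hz, inner_smul_right]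
      exact mul_le_mul_of_nonneg_left (inner_le_spt' hc hx.1) hr0
    have e5 : r = r' := by
      apply le_antisymm
      · rw [e1] at e3
        exact le_of_mul_le_mul_right e3 (hpos u hu)
      · rw [e2] at e4
        exact le_of_mul_le_mul_right e4 (hpos u' hu')
    show z ∈ (ℝ ∙ w)ᗮ
    rw [Submodule.mem_orthogonal_singleton_iff_inner_right, hwd, inner_sub_left, real_inner_smul_left,
      real_inner_smul_left, e1, e2, e5]
    ring
  have hunion : ∑ u ∈ U, volume (pcone (face L u)) ≤ volume L := by
    rw [← measure_biUnion_finset₀ hdisj (fun u _ => (hcomp u).measurableSet.nullMeasurableSet)]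
    exact measure_mono (iUnion₂_subset hsub)
  calc ∑ u ∈ U, spt L u * (volume (prism (face L u) u)).toReal
      = ∑ u ∈ U, (Module.finrank ℝ E : ℝ) * (volume (pcone (face L u))).toReal := by
        refine Finset.sum_congr rfl fun u hu => ?_
        exact (vol_pcone (hU1 u hu) (face_compact' hc u) (hpos u hu)
          (fun x hx => face_inner_eq hx)).symm
    _ = (Module.finrank ℝ E : ℝ) * (∑ u ∈ U, volume (pcone (face L u))).toReal := by
        rw [← Finset.mul_sum, ENNReal.toReal_sum]
        intro u _
        exact (hcomp u).measure_ne_top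
    _ ≤ Module.finrank ℝ E * (volume L).toReal := by
        apply mul_le_mul_of_nonneg_left _ (Nat.cast_nonneg _)
        exact ENNReal.toReal_mono hc.measure_ne_top hunion

end Pool.PT56
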