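import Pool.Agent.PT56.Base
import Pool.Agent.PT57.Sec

set_option autoImplicit false
set_option linter.unusedSectionVars false

/-!
# PT56/Var: the first variation, upper bound

For `u ∈ U`, `h u = spt K u`, `δ > 0` put `G u δ = {y | ⟪u, y⟫ = h u, dist y K ≤ δ}` (compact), so
`⋂ G u δ = face K u` as `δ ↓ 0`.
Let `L ⊆ closedBall 0 R`, `0 ≤ spt L u`.  A point `x = k + t l` of `K + t L` that is not in `K` violates some
inequality `u ∈ U`: `⟪u, x⟫ = h u + s`, `0 < s ≤ t spt L u`, and `y = x - s u` has `⟪u, y⟫ = h u`,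
`dist y K ≤ t R + s ≤ 2 t R`.  So `x ∈ {y + s u | y ∈ G u (2 t R), 0 ≤ s ≤ t spt L u}`, a set of measure
`t (spt L u) vol (prism (G u (2 t R)) u)` (`vol_slab`).
-/

namespace Pool.PT56

open Set Filter Topology MeasureTheory
open scoped RealInnerProductSpace ENNReal Pointwise

variable {E : Type} [NormedAddCommGroup E] [InnerProductSpace ℝ E] [FiniteDimensional ℝ E]
  [MeasurableSpace E] [BorelSpace E]

/-- the prism of height `c` in direction `u` over `F` -/
def slabset (F : Set E) (u : E) (c : ℝ) : Set E :=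
  {x | ∃ y ∈ F, ∃ s : ℝ, 0 ≤ s ∧ s ≤ c ∧ x = y + s • u}

theorem slabset_compact {F : Set E} (hF : IsCompact F) (u : E) (c : ℝ) :
    IsCompact (slabset F u c) := by
  have e : slabset F u c = (fun p : E × ℝ => p.1 + p.2 • u) '' (F ×ˢ Icc 0 c) := by
    ext x
    constructor
    · rintro ⟨y, hy, s, h0, h1, rfl⟩
      exact ⟨(y, s), ⟨hy, h0, h1⟩, rfl⟩
    · rintro ⟨⟨y, s⟩, ⟨hy, h0, h1⟩, rfl⟩
      exact ⟨y, hy, s, h0, h1, rfl⟩
  rw [e]
  exact (hF.prod isCompact_Icc).image (by fun_prop)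

theorem vol_slab {u : E} (hu : ‖u‖ = 1) {G : Set E} (hG : IsCompact G) {p : ℝ}
    (hGp : ∀ x ∈ G, ⟪u, x⟫ = p) (c : ℝ) :
    volume (slabset G u c) = ENNReal.ofReal c * PT57.sec u G p := by
  have huu : ⟪u, u⟫ = 1 := by rw [real_inner_self_eq_norm_sq, hu]; norm_num
  rw [← PT57.lintegral_sec hu (slabset_compact hG u c).measurableSet]
  have e : ∀ r : ℝ, PT57.sec u (slabset G u c) r =
      (Icc p (p + c)).indicator (fun _ => PT57.sec u G p) r := by
    intro r
    by_cases hr : r ∈ Icc p (p + c)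
    · rw [indicator_of_mem hr]
      unfold PT57.sec
      congr 1
      ext y
      simp only [mem_preimage]
      constructor
      · rintro ⟨z, hz, s, h0, h1, hz'⟩
        have h2 : ⟪u, r • u + (y : E)⟫ = r := by
          rw [inner_add_right, inner_smul_right, huu, PT57.mem_perp_iff.mp y.2]
          ring
        have h3 : ⟪u, z + s • u⟫ = p + s := by
          rw [inner_add_right, inner_smul_right, huu, hGp z hz]
          ring
        have h4 : r = p + s := by rw [← h2, ← h3, hz']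
        have h5 : p • u + (y : E) = z := by
          rw [h4] at hz'
          rw [← add_right_cancel_iff (a := s • u), ← hz']
          module
        rw [h5]
        exact hz
      · intro hy
        refine ⟨p • u + (y : E), hy, r - p, by linarith [hr.1], by linarith [hr.2], by module⟩
    · rw [indicator_of_notMem hr]
      apply PT57.sec_eq_zero hu
      rintro x ⟨z, hz, s, h0, h1, rfl⟩ h
      apply hr
      rw [inner_add_right, inner_smul_right, huu, hGp z hz] at h
      constructor <;> linarith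
  simp_rw [e]
  rw [lintegral_indicator measurableSet_Icc, setLIntegral_const, Real.volume_Icc, mul_comm]
  congr 2
  ring

theorem prism_eq (F : Set E) (u : E) : prism F u = slabset F u 1 := rfl

theorem vol_prism_sec {u : E} (hu : ‖u‖ = 1) {G : Set E} (hG : IsCompact G) {p : ℝ}
    (hGp : ∀ x ∈ G, ⟪u, x⟫ = p) : volume (prism G u) = PT57.sec u G p := by
  rw [prism_eq, vol_slab hu hG hGp]
  simp

/-- the enlarged face -/
def bigface (K : Set E) (u : E) (δ : ℝ) : Set E :=
  {y | ⟪u, y⟫ = spt K u ∧ Metric.infDist y K ≤ δ}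

theorem bigface_compact {K : Set E} (hK : IsCompact K) (hK0 : K.Nonempty) (u : E) (δ : ℝ) :
    IsCompact (bigface K u δ) := by
  apply IsCompact.of_isClosed_subset (hK.cthickening (r := δ))
  · exact (isClosed_eq (by fun_prop) continuous_const).inter
      (isClosed_le (Metric.continuous_infDist_pt K) continuous_const)
  · intro y hy
    obtain ⟨k, hk, hk'⟩ := hK.exists_infDist_eq_dist hK0 y
    exact Metric.mem_cthickening_of_dist_le y k δ K hk (hk' ▸ hy.2)

theorem spt_le {K : Set E} (hK : IsCompact K) {x : E} (hx : x ∈ K) (u : E) :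
    ⟪u, x⟫ ≤ spt K u :=
  le_csSup (hK.image (f := fun x => ⟪u, x⟫) (by fun_prop)).bddAbove ⟨x, hx, rfl⟩

theorem exists_spt {K : Set E} (hK : IsCompact K) (hK0 : K.Nonempty) (u : E) :
    ∃ x ∈ K, ⟪u, x⟫ = spt K u := by
  have := (hK.image (f := fun x => ⟪u, x⟫) (by fun_prop)).sSup_mem (hK0.image _)
  obtain ⟨x, hx, h⟩ := this
  exact ⟨x, hx, h⟩

theorem mem_face_iff {K : Set E} (hK : IsCompact K) {u x : E} :
    x ∈ face K u ↔ x ∈ K ∧ ⟪u, x⟫ = spt K u := by
  constructor
  · rintro ⟨h1, h2⟩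
    refine ⟨h1, ?_⟩
    obtain ⟨y, hy, h3⟩ := exists_spt hK ⟨x, h1⟩ u
    apply le_antisymm (spt_le hK h1 u)
    rw [← h3]
    exact h2 y hy
  · rintro ⟨h1, h2⟩
    refine ⟨h1, fun y hy => ?_⟩
    rw [h2]
    exact spt_le hK hy u

theorem face_compact {K : Set E} (hK : IsCompact K) (u : E) : IsCompact (face K u) := by
  have : face K u = K ∩ {x | ⟪u, x⟫ = spt K u} := by
    ext x
    exact mem_face_iff hK
  rw [this]
  exact hK.inter_right (isClosed_eq (by fun_prop) continuous_const)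

theorem tendsto_bigface {K : Set E} (hK : IsCompact K) (hK0 : K.Nonempty) {u : E}
    (hu : ‖u‖ = 1) :
    Tendsto (fun δ : ℝ => PT57.sec u (bigface K u δ) (spt K u)) (𝓝[>] 0)
      (𝓝 (PT57.sec u (face K u) (spt K u))) := by
  have h := tendsto_measure_biInter_gt (μ := (volume : Measure (ℝ ∙ u)ᗮ)) (a := (0:ℝ))
    (s := fun δ : ℝ => (fun y : (ℝ ∙ u)ᗮ => spt K u • u + (y : E)) ⁻¹' (bigface K u δ))
    (fun r _ => ((PT57.sec_compact hu (bigface_compact hK hK0 u r) _).measurableSet).nullMeasurableSet)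
    (fun i j _ hij => preimage_mono (fun y hy => ⟨hy.1, hy.2.trans hij⟩))
    ⟨1, one_pos, (PT57.sec_compact hu (bigface_compact hK hK0 u 1) _).measure_lt_top.ne⟩
  have e : (⋂ r > (0:ℝ), (fun y : (ℝ ∙ u)ᗮ => spt K u • u + (y : E)) ⁻¹' (bigface K u r)) =
      (fun y : (ℝ ∙ u)ᗮ => spt K u • u + (y : E)) ⁻¹' (face K u) := by
    ext y
    simp only [mem_iInter, mem_preimage]
    constructor
    · intro hy
      rw [mem_face_iff hK]
      refine ⟨?_, (hy 1 one_pos).1⟩
      have h0 : Metric.infDist (spt K u • u + (y : E)) K = 0 := by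
        apply le_antisymm _ Metric.infDist_nonneg
        apply le_of_forall_pos_le_add
        intro ε hε
        rw [zero_add]
        exact (hy ε hε).2
      exact (hK.isClosed.mem_iff_infDist_zero hK0).mpr h0
    · intro hy r hr
      rw [mem_face_iff hK] at hy
      exact ⟨hy.2, by rw [Metric.infDist_zero_of_mem hy.1]; exact le_of_lt hr⟩
  rw [e] at h
  exact h

theorem spt_nonneg {L : Set E} (hL : IsCompact L) (h0 : (0 : E) ∈ L) (u : E) : 0 ≤ spt L u := by
  have := spt_le hL h0 u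
  simpa using this

theorem cover_slabs {K L : Set E} (hK : IsCompact K) (hL : IsCompact L)
    (h0 : (0 : E) ∈ L) {R : ℝ} (hR : ∀ l ∈ L, ‖l‖ ≤ R) (U : Finset E)
    (hU1 : ∀ u ∈ U, ‖u‖ = 1)
    (hU : ∀ x, (∀ u ∈ U, ⟪u, x⟫ ≤ spt K u) → x ∈ K) {t : ℝ} (ht : 0 < t) :
    K + t • L ⊆ K ∪ ⋃ u ∈ U, slabset (bigface K u (2 * R * t)) u (t * spt L u) := by
  rintro x ⟨k, hk, _, ⟨l, hl, rfl⟩, rfl⟩
  by_cases hx : k + t • l ∈ K
  · exact Or.inl hx
  right
  have hx' : ∃ u ∈ U, spt K u < ⟪u, k + t • l⟫ := by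
    by_contra hcon
    push Not at hcon
    exact hx (hU _ hcon)
  obtain ⟨u, huU, hux⟩ := hx'
  have hu := hU1 u huU
  have huu : ⟪u, u⟫ = 1 := by rw [real_inner_self_eq_norm_sq, hu]; norm_num
  have h1 : ⟪u, k + t • l⟫ = ⟪u, k⟫ + t * ⟪u, l⟫ := by
    rw [inner_add_right, inner_smul_right]
  have h2 : ⟪u, k⟫ ≤ spt K u := spt_le hK hk u
  have h3 : ⟪u, l⟫ ≤ spt L u := spt_le hL hl u
  have h4 : spt L u ≤ R := by
    obtain ⟨z, hz, hz'⟩ := exists_spt hL ⟨0, h0⟩ u
    rw [← hz']
    calc ⟪u, z⟫ ≤ ‖u‖ * ‖z‖ := real_inner_le_norm u z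
      _ ≤ R := by rw [hu, one_mul]; exact hR z hz
  set s := ⟪u, k + t • l⟫ - spt K u with hs
  have hs0 : 0 < s := by linarith
  have hs1 : s ≤ t * spt L u := by
    have : t * ⟪u, l⟫ ≤ t * spt L u := mul_le_mul_of_nonneg_left h3 ht.le
    linarith
  simp only [mem_iUnion]
  refine ⟨u, huU, k + t • l - s • u, ⟨?_, ?_⟩, s, hs0.le, hs1, by module⟩
  · rw [inner_sub_right, inner_smul_right, huu]
    linarith
  · calc Metric.infDist (k + t • l - s • u) K ≤ dist (k + t • l - s • u) k :=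
        Metric.infDist_le_dist_of_mem hk
      _ = ‖t • l - s • u‖ := by rw [dist_eq_norm]; congr 1; module
      _ ≤ ‖t • l‖ + ‖s • u‖ := norm_sub_le _ _
      _ = t * ‖l‖ + s := by
        rw [norm_smul, norm_smul, hu, Real.norm_of_nonneg ht.le, Real.norm_of_nonneg hs0.le]
        ring
      _ ≤ t * R + t * R := by
        have := mul_le_mul_of_nonneg_left (hR l hl) ht.le
        have := mul_le_mul_of_nonneg_left h4 ht.le
        linarith
      _ = 2 * R * t := by ring

theorem var_upper {K L : Set E} (hK : IsCompact K) (hK0 : K.Nonempty) (hL : IsCompact L)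
    (h0 : (0 : E) ∈ L) (U : Finset E) (hU1 : ∀ u ∈ U, ‖u‖ = 1)
    (hU : ∀ x, (∀ u ∈ U, ⟪u, x⟫ ≤ spt K u) → x ∈ K) {ε : ℝ} (hε : 0 < ε) :
    ∀ᶠ t : ℝ in 𝓝[>] 0, (volume (K + t • L)).toReal ≤ (volume K).toReal +
      t * (∑ u ∈ U, spt L u * (volume (prism (face K u) u)).toReal + ε) := by
  obtain ⟨R, hR0, hR⟩ : ∃ R : ℝ, 0 < R ∧ ∀ l ∈ L, ‖l‖ ≤ R := by
    obtain ⟨R, hR⟩ := hL.isBounded.exists_norm_le
    exact ⟨max R 1, lt_max_of_lt_right one_pos, fun l hl => (hR l hl).trans (le_max_left _ _)⟩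
  have hT : Tendsto (fun t : ℝ => ∑ u ∈ U, spt L u *
      (PT57.sec u (bigface K u (2 * R * t)) (spt K u)).toReal) (𝓝[>] 0)
      (𝓝 (∑ u ∈ U, spt L u * (volume (prism (face K u) u)).toReal)) := by
    apply tendsto_finsetSum
    intro u hu
    apply Tendsto.const_mul
    rw [vol_prism_sec (hU1 u hu) (face_compact hK u) (p := spt K u)
      (fun x hx => ((mem_face_iff hK).mp hx).2)]
    have hne : PT57.sec u (face K u) (spt K u) ≠ ∞ :=
      (PT57.sec_lt_top (hU1 u hu) (face_compact hK u) _).ne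
    apply (ENNReal.tendsto_toReal hne).comp
    apply (tendsto_bigface hK hK0 (hU1 u hu)).comp
    apply tendsto_nhdsWithin_of_tendsto_nhds_of_eventually_within
    · have : Tendsto (fun t : ℝ => 2 * R * t) (𝓝 0) (𝓝 (2 * R * 0)) :=
        (continuous_const.mul continuous_id).tendsto 0
      rw [mul_zero] at this
      exact this.mono_left nhdsWithin_le_nhds
    · filter_upwards [self_mem_nhdsWithin] with t ht
      have : (0:ℝ) < t := ht
      exact mem_Ioi.mpr (by positivity)
  have hev := hT.eventually_lt_const (lt_add_of_pos_right _ hε)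
  filter_upwards [hev, self_mem_nhdsWithin] with t ht1 ht0
  have ht : (0:ℝ) < t := ht0
  have hvol : volume (K + t • L) ≤ volume K +
      ∑ u ∈ U, volume (slabset (bigface K u (2 * R * t)) u (t * spt L u)) := by
    refine (measure_mono (cover_slabs hK hL h0 hR U hU1 hU ht)).trans ?_
    refine (measure_union_le _ _).trans ?_
    gcongr
    exact measure_biUnion_finset_le _ _
  have hfin : ∀ u ∈ U, volume (slabset (bigface K u (2 * R * t)) u (t * spt L u)) ≠ ∞ :=
    fun u _ => (slabset_compact (bigface_compact hK hK0 u _) u _).measure_lt_top.ne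
  have h1 := ENNReal.toReal_mono (ENNReal.add_ne_top.mpr
    ⟨hK.measure_lt_top.ne, (ENNReal.sum_ne_top.mpr hfin)⟩) hvol
  rw [ENNReal.toReal_add hK.measure_lt_top.ne (ENNReal.sum_ne_top.mpr hfin),
    ENNReal.toReal_sum hfin] at h1
  refine h1.trans ?_
  have h2 : ∑ u ∈ U, (volume (slabset (bigface K u (2 * R * t)) u (t * spt L u))).toReal =
      t * ∑ u ∈ U, spt L u * (PT57.sec u (bigface K u (2 * R * t)) (spt K u)).toReal := by
    rw [Finset.mul_sum]
    apply Finset.sum_congr rfl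
    intro u hu
    rw [vol_slab (hU1 u hu) (bigface_compact hK hK0 u _) (p := spt K u) (fun x hx => hx.1),
      ENNReal.toReal_mul, ENNReal.toReal_ofReal (mul_nonneg ht.le (spt_nonneg hL h0 u))]
    ring
  rw [h2]
  have h3 := mul_le_mul_of_nonneg_left ht1.le ht.le
  linarith

end Pool.PT56
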