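import Pool.Agent.PT56.HRep
import Pool.Agent.PT56.Var

set_option autoImplicit false
set_option linter.unusedSectionVars false

/-!
# PT56/HRepF: a polytope is the intersection of the half-spaces of its facets

`Facet P u`: `u` is a unit vector and the face of `P` in direction `u` has dimension `d - 1`
(positive `(d-1)`-dimensional volume).
`hrepF`: take a minimal finite set of unit vectors representing `P` (`hrep`).  Every element of it is
a facet: if `u` cannot be removed there is `x` satisfying all the other inequalities but not the one of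
`u`; the points `(1 - l) x + l b`, `b` in a small ball in `P`, on the hyperplane, fill a relatively open
set of the face.  Conversely a facet not in the set is covered by the other faces, and two faces in
different directions meet in a null set of the hyperplane.
-/

namespace Pool.PT56

open Set Filter Topology MeasureTheory
open scoped RealInnerProductSpace ENNReal

variable {E : Type} [NormedAddCommGroup E] [InnerProductSpace ℝ E] [FiniteDimensional ℝ E]
  [MeasurableSpace E] [BorelSpace E]

/-- `u` is the unit normal of a facet -/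
def Facet (P : Set E) (u : E) : Prop := ‖u‖ = 1 ∧ volume (prism (face P u) u) ≠ 0

theorem vol_prism_face {P : Set E} (hP : IsCompact P) {u : E} (hu : ‖u‖ = 1) :
    volume (prism (face P u) u) = PT57.sec u (face P u) (spt P u) :=
  vol_prism_sec hu (face_compact hP u) (fun _ hx => ((mem_face_iff hP).mp hx).2)

/-- a level set of a nonzero functional is a null set -/
theorem level_null {F : Type} [NormedAddCommGroup F] [InnerProductSpace ℝ F]
    [FiniteDimensional ℝ F] [MeasurableSpace F] [BorelSpace F] {f : F →ₗ[ℝ] ℝ} (hf : f ≠ 0)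
    (c : ℝ) : volume {y : F | f y = c} = 0 := by
  by_cases hne : ∃ y0, f y0 = c
  · obtain ⟨y0, hy0⟩ := hne
    have h1 : {y : F | f y = c} = (fun y => y + -y0) ⁻¹' (LinearMap.ker f : Set F) := by
      ext y
      simp only [mem_ofPred_eq, mem_preimage, SetLike.mem_coe, LinearMap.mem_ker, map_add, map_neg,
        hy0]
      constructor
      · intro h; rw [h]; ring
      · intro h; linarith
    rw [h1, measure_preimage_add_right]
    apply Measure.addHaar_submodule
    intro htop
    exact hf (LinearMap.ker_eq_top.mp htop)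
  · have : {y : F | f y = c} = ∅ := by
      ext y
      simp only [mem_ofPred_eq, mem_empty_iff_false, iff_false]
      intro h
      exact hne ⟨y, h⟩
    rw [this]
    simp

/-- `h` represents `P` -/
def Rep (P : Set E) (U : Finset E) : Prop :=
  (∀ u ∈ U, ‖u‖ = 1) ∧ ∀ x, (∀ u ∈ U, ⟪u, x⟫ ≤ spt P u) → x ∈ P

theorem exists_minimal_rep {P : Set E} (hP : Polytope P) :
    ∃ U : Finset E, Rep P U ∧ ∀ V : Finset E, V ⊂ U → ¬ Rep P V := by
  obtain ⟨U0, h1, h2⟩ := hrep hP
  obtain ⟨U, hU, hmin⟩ := WellFounded.has_min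
    (wellFounded_lt : WellFounded (fun a b : Finset E => a < b)) {U | Rep P U} ⟨U0, h1, h2⟩
  exact ⟨U, hU, fun V hV hR => hmin V hR hV⟩

theorem Polytope.compact {P : Set E} (hP : Polytope P) : IsCompact P := by
  obtain ⟨⟨S, hS, rfl⟩, -⟩ := hP
  exact hS.isCompact_convexHull (𝕜 := ℝ)

theorem Polytope.conv {P : Set E} (hP : Polytope P) : Convex ℝ P := by
  obtain ⟨⟨S, hS, rfl⟩, -⟩ := hP
  exact convex_convexHull ℝ S

/-- interior points satisfy the inequalities strictly -/
theorem lt_spt {P : Set E} (hP : IsCompact P) {b : E} (hb : b ∈ interior P) {u : E}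
    (hu : u ≠ 0) : ⟪u, b⟫ < spt P u := by
  obtain ⟨δ, hδ, hball⟩ := Metric.isOpen_iff.mp isOpen_interior b hb
  have hun : 0 < ‖u‖ := norm_pos_iff.mpr hu
  have h1 : b + (δ / (2 * ‖u‖)) • u ∈ P := by
    apply interior_subset
    apply hball
    rw [Metric.mem_ball, dist_eq_norm, add_sub_cancel_left, norm_smul, Real.norm_of_nonneg
      (by positivity)]
    have : δ / (2 * ‖u‖) * ‖u‖ = δ / 2 := by field_simp
    rw [this]
    linarith
  have h2 := spt_le hP h1 u
  rw [inner_add_right, inner_smul_right, real_inner_self_eq_norm_sq] at h2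
  have : 0 < δ / (2 * ‖u‖) * ‖u‖ ^ 2 := by positivity
  linarith

theorem facet_of_minimal {P : Set E} (hP : Polytope P) {U : Finset E} (hU : Rep P U)
    (hmin : ∀ V : Finset E, V ⊂ U → ¬ Rep P V) {u : E} (hu : u ∈ U) : Facet P u := by
  classical
  have hPc := hP.compact
  have hu1 := hU.1 u hu
  have huu : ⟪u, u⟫ = 1 := by rw [real_inner_self_eq_norm_sq, hu1]; norm_num
  have hu0 : u ≠ 0 := by
    intro h; rw [h] at hu1; simp at hu1
  refine ⟨hu1, ?_⟩
  have h1 : ∃ x, (∀ u' ∈ U.erase u, ⟪u', x⟫ ≤ spt P u') ∧ x ∉ P := by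
    by_contra hcon
    push Not at hcon
    exact hmin _ (Finset.erase_ssubset hu)
      ⟨fun u' hu' => hU.1 u' (Finset.mem_of_mem_erase hu'), hcon⟩
  obtain ⟨x, hx1, hx2⟩ := h1
  have hx3 : spt P u < ⟪u, x⟫ := by
    by_contra hcon
    push Not at hcon
    apply hx2
    apply hU.2
    intro u' hu'
    by_cases h : u' = u
    · rw [h]; exact hcon
    · exact hx1 u' (Finset.mem_erase.mpr ⟨h, hu'⟩)
  obtain ⟨b, hb⟩ := hP.2
  obtain ⟨δ, hδ, hball⟩ := Metric.isOpen_iff.mp isOpen_interior b hb
  have hb1 : ⟪u, b⟫ < spt P u := lt_spt hPc hb hu0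
  -- the parameter
  set l := (⟪u, x⟫ - spt P u) / (⟪u, x⟫ - ⟪u, b⟫) with hl
  have hden : 0 < ⟪u, x⟫ - ⟪u, b⟫ := by linarith
  have hl0 : 0 < l := div_pos (by linarith) hden
  have hl1 : l < 1 := by
    rw [hl, div_lt_one hden]
    linarith
  have hle : l * (⟪u, x⟫ - ⟪u, b⟫) = ⟪u, x⟫ - spt P u := by
    rw [hl]; field_simp
  set z := (1 - l) • x + l • b with hz
  have hzu : ⟪u, z⟫ = spt P u := by
    rw [hz, inner_add_right, inner_smul_right, inner_smul_right]
    linarith
  have hmem : ∀ w : E, ⟪u, w⟫ = 0 → ‖w‖ < l * δ → z + w ∈ face P u := by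
    intro w hw hwn
    rw [mem_face_iff hPc]
    have hzw : ⟪u, z + w⟫ = spt P u := by rw [inner_add_right, hzu, hw, add_zero]
    refine ⟨?_, hzw⟩
    have hbw : b + (1 / l) • w ∈ P := by
      apply interior_subset
      apply hball
      rw [Metric.mem_ball, dist_eq_norm, add_sub_cancel_left, norm_smul,
        Real.norm_of_nonneg (by positivity)]
      rw [one_div, inv_mul_lt_iff₀ hl0]
      exact hwn
    have hzw2 : z + w = (1 - l) • x + l • (b + (1 / l) • w) := by
      rw [hz, smul_add, smul_smul]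
      have : l * (1 / l) = 1 := by field_simp
      rw [this]
      module
    apply hU.2
    intro u' hu'
    by_cases h : u' = u
    · rw [h, hzw]
    · rw [hzw2, inner_add_right, inner_smul_right, inner_smul_right]
      have h3 := hx1 u' (Finset.mem_erase.mpr ⟨h, hu'⟩)
      have h4 := spt_le hPc hbw u'
      nlinarith
  rw [vol_prism_face hPc hu1]
  -- a ball in the section
  let y0 : (ℝ ∙ u)ᗮ := ⟨z - spt P u • u, by
    rw [PT57.mem_perp_iff, inner_sub_right, inner_smul_right, huu, hzu]
    ring⟩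
  have hsub : Metric.ball y0 (l * δ) ⊆
      (fun y : (ℝ ∙ u)ᗮ => spt P u • u + (y : E)) ⁻¹' (face P u) := by
    intro y hy
    rw [Metric.mem_ball, dist_eq_norm] at hy
    show spt P u • u + (y : E) ∈ face P u
    have : spt P u • u + (y : E) = z + ((y : E) - (y0 : E)) := by
      show _ = z + ((y : E) - (z - spt P u • u))
      module
    rw [this]
    apply hmem
    · have h5 := PT57.mem_perp_iff.mp y.2
      have h6 := PT57.mem_perp_iff.mp y0.2
      rw [inner_sub_right, h5, h6, sub_zero]
    · exact hy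
  exact ((Metric.measure_ball_pos volume y0 (mul_pos hl0 hδ)).trans_le (measure_mono hsub)).ne'

/-- a face is covered by the faces of a representation -/
theorem face_cover {P : Set E} (hP : IsCompact P) {U : Finset E} (hU : Rep P U) {u : E}
    (hu : u ≠ 0) {x : E} (hx : x ∈ face P u) : ∃ u' ∈ U, x ∈ face P u' := by
  by_contra hcon
  push Not at hcon
  have h1 : ∀ u' ∈ U, ⟪u', x⟫ < spt P u' := by
    intro u' hu'
    refine lt_of_le_of_ne (spt_le hP hx.1 u') (fun h => hcon u' hu' ?_)
    exact (mem_face_iff hP).mpr ⟨hx.1, h⟩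
  have h2 : ∀ᶠ r : ℝ in 𝓝[>] 0, ∀ u' ∈ U, ⟪u', x + r • u⟫ ≤ spt P u' := by
    rw [Filter.eventually_all_finset]
    intro u' hu'
    have hc : Tendsto (fun r : ℝ => ⟪u', x + r • u⟫) (𝓝 0) (𝓝 ⟪u', x + (0:ℝ) • u⟫) := by
      have : Continuous (fun r : ℝ => ⟪u', x + r • u⟫) := by fun_prop
      exact this.tendsto 0
    rw [zero_smul, add_zero] at hc
    have h3 : ∀ᶠ r : ℝ in 𝓝[>] 0, ⟪u', x + r • u⟫ < spt P u' :=
      (hc.eventually_lt_const (h1 u' hu')).filter_mono nhdsWithin_le_nhds
    filter_upwards [h3] with r hr using hr.le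
  obtain ⟨r, hr, hr0⟩ := (h2.and self_mem_nhdsWithin).exists
  have hr0' : (0:ℝ) < r := hr0
  have h4 := hU.2 _ hr
  have h5 := hx.2 _ h4
  rw [inner_add_right, inner_smul_right, real_inner_self_eq_norm_sq] at h5
  have : 0 < r * ‖u‖ ^ 2 := by
    have := norm_pos_iff.mpr hu
    positivity
  linarith

/-- two different faces meet in a null set -/
theorem inter_faces_null {P : Set E} (hP : IsCompact P) (hint : (interior P).Nonempty) {u u' : E}
    (hu : ‖u‖ = 1) (hu' : ‖u'‖ = 1) (hne : u ≠ u') :
    volume ((fun y : (ℝ ∙ u)ᗮ => spt P u • u + (y : E)) ⁻¹' (face P u ∩ face P u')) = 0 := by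
  have huu : ⟪u, u⟫ = 1 := by rw [real_inner_self_eq_norm_sq, hu]; norm_num
  have hu'u' : ⟪u', u'⟫ = 1 := by rw [real_inner_self_eq_norm_sq, hu']; norm_num
  by_cases hf : ∀ y : (ℝ ∙ u)ᗮ, ⟪u', (y : E)⟫ = 0
  · -- `u' = ± u`
    have h1 := hf ⟨u' - ⟪u, u'⟫ • u, by
      rw [PT57.mem_perp_iff, inner_sub_right, inner_smul_right, huu]; ring⟩
    simp only [inner_sub_right, inner_smul_right, hu'u'] at h1
    rw [real_inner_comm u u'] at h1
    have h2 : (⟪u, u'⟫ - 1) * (⟪u, u'⟫ + 1) = 0 := by
      rw [real_inner_comm u' u] at h1 ⊢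
      nlinarith
    rcases mul_eq_zero.mp h2 with h3 | h3
    · exfalso
      apply hne
      have h4 : ⟪u, u'⟫ = 1 := by linarith
      exact (inner_eq_one_iff_of_norm_eq_one hu hu').mp h4
    · have h4 : ⟪u, u'⟫ = -1 := by linarith
      have h5 : u' = -u := by
        have h6 : ⟪-u, u'⟫ = 1 := by rw [inner_neg_left, h4]; norm_num
        exact ((inner_eq_one_iff_of_norm_eq_one (by rw [norm_neg, hu]) hu').mp h6).symm
      have h7 : face P u ∩ face P u' = ∅ := by
        ext x
        simp only [mem_inter_iff, mem_empty_iff_false, iff_false, not_and]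
        intro hx hx'
        obtain ⟨b, hb⟩ := hint
        have hu0 : u ≠ 0 := by
          intro h; rw [h] at hu; simp at hu
        have h8 := lt_spt hP hb hu0
        rw [h5] at hx'
        have h9 := hx'.2 b (interior_subset hb)
        rw [inner_neg_left, inner_neg_left, ((mem_face_iff hP).mp hx).2] at h9
        linarith
      rw [h7]
      simp
  · push Not at hf
    let f : (ℝ ∙ u)ᗮ →ₗ[ℝ] ℝ :=
      { toFun := fun y => ⟪u', (y : E)⟫
        map_add' := fun a b => by rw [Submodule.coe_add, inner_add_right]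
        map_smul' := fun c a => by rw [Submodule.coe_smul, inner_smul_right]; rfl }
    have hf0 : f ≠ 0 := by
      obtain ⟨y, hy⟩ := hf
      intro h
      exact hy (by rw [show ⟪u', (y : E)⟫ = f y from rfl, h]; rfl)
    refine measure_mono_null ?_ (level_null hf0 (spt P u' - spt P u * ⟪u', u⟫))
    intro y hy
    have h1 := ((mem_face_iff hP).mp hy.2).2
    rw [inner_add_right, inner_smul_right] at h1
    show ⟪u', (y : E)⟫ = spt P u' - spt P u * ⟪u', u⟫
    linarith

/-- the facets form a finite set, and the polytope is the intersection of their half-spaces -/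
theorem hrepF {P : Set E} (hP : Polytope P) : ∃ U : Finset E, (∀ u, u ∈ U ↔ Facet P u) ∧
    ∀ x, x ∈ P ↔ ∀ u ∈ U, ⟪u, x⟫ ≤ spt P u := by
  have hPc := hP.compact
  obtain ⟨U, hU, hmin⟩ := exists_minimal_rep hP
  refine ⟨U, fun u => ⟨fun hu => facet_of_minimal hP hU hmin hu, ?_⟩,
    fun x => ⟨fun hx u _ => spt_le hPc hx u, hU.2 x⟩⟩
  rintro ⟨hu1, hvol⟩
  by_contra huU
  apply hvol
  have hu0 : u ≠ 0 := by
    intro h; rw [h] at hu1; simp at hu1
  rw [vol_prism_face hPc hu1]
  have hsub : (fun y : (ℝ ∙ u)ᗮ => spt P u • u + (y : E)) ⁻¹' (face P u) ⊆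
      ⋃ u' ∈ U, (fun y : (ℝ ∙ u)ᗮ => spt P u • u + (y : E)) ⁻¹' (face P u ∩ face P u') := by
    intro y hy
    obtain ⟨u', hu', hy'⟩ := face_cover hPc hU hu0 hy
    simp only [mem_iUnion]
    exact ⟨u', hu', hy, hy'⟩
  refine measure_mono_null hsub ?_
  refine (measure_biUnion_null_iff U.countable_toSet).mpr ?_
  intro u' hu'
  exact inter_faces_null hPc hP.2 hu1 (hU.1 u' hu') (fun h => huU (h ▸ hu'))

end Pool.PT56
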