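import Pool.Agent.PT56.FacA

set_option autoImplicit false
set_option linter.unusedSectionVars false

/-!
# PT56/FacC: the ridge lemma and the circle lemma

`null3`: a set on which three functionals `u`, `v` (orthonormal) and `w ∉ span {u, v}` are constant
is null for the `(d-2)`-dimensional measure.
`exists_other`: across a ridge of a facet there is another facet, with normal in the plane of `u`
and `v`.
`face_rot`: for a polytope and small `e > 0` the face in direction `cos e w + sin e w'` is the face in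
direction `w'` of the face in direction `w`.
`circle`: if no pair of opposite vectors of the plane of `u`, `v` consists of two facet normals then
`gv P u v = gv P (-u) (-v)`.
`thin_unique`: a face which is not a facet has at most one pair of ridge normals.
-/

namespace Pool.PT56

open Set Filter Topology MeasureTheory
open scoped RealInnerProductSpace ENNReal Pointwise

variable {E : Type} [NormedAddCommGroup E] [InnerProductSpace ℝ E] [FiniteDimensional ℝ E]
  [MeasurableSpace E] [BorelSpace E]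

theorem null3 {u v w : E} (hu : ‖u‖ = 1) (hv : ‖v‖ = 1) (huv : ⟪u, v⟫ = 0)
    (hw : w ∉ Submodule.span ℝ {u, v}) {p q r : ℝ} {A : Set E}
    (hA : ∀ x ∈ A, ⟪u, x⟫ = p ∧ ⟪v, x⟫ = q ∧ ⟪w, x⟫ = r) :
    μHE[Module.finrank ℝ E - 2] A = 0 := by
  have huu : ⟪u, u⟫ = 1 := by rw [real_inner_self_eq_norm_sq, hu]; norm_num
  have hvv : ⟪v, v⟫ = 1 := by rw [real_inner_self_eq_norm_sq, hv]; norm_num
  have hvu : ⟪v, u⟫ = 0 := by rw [real_inner_comm]; exact huv
  let ψ : perp u v → E := fun z => (p • u + q • v) + (z : E)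
  have hiso : Isometry ψ :=
    (IsometryEquiv.addLeft (p • u + q • v)).isometry.comp isometry_subtype_coe
  have himg : ψ '' (ψ ⁻¹' A) = A := by
    apply image_preimage_eq_of_subset
    intro x hx
    obtain ⟨h1, h2, -⟩ := hA x hx
    refine ⟨⟨x - (p • u + q • v), ?_⟩, ?_⟩
    · rw [mem_perp]
      constructor
      · rw [inner_sub_right, inner_add_right, inner_smul_right, inner_smul_right, huu, huv, h1]
        ring
      · rw [inner_sub_right, inner_add_right, inner_smul_right, inner_smul_right, hvv, hvu, h2]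
        ring
    · show (p • u + q • v) + (x - (p • u + q • v)) = x
      abel
  have hr : Module.finrank ℝ (perp u v) = Module.finrank ℝ E - 2 := by
    have := Pool.Agent.H14Belt.finrank_perp hu hv huv
    omega
  rw [← himg, hiso.euclideanHausdorffMeasure_image, ← hr,
    InnerProductSpace.euclideanHausdorffMeasure_eq_volume]
  let f : perp u v →ₗ[ℝ] ℝ :=
    { toFun := fun z => ⟪w, (z : E)⟫
      map_add' := fun a b => by rw [Submodule.coe_add, inner_add_right]
      map_smul' := fun c a => by rw [Submodule.coe_smul, inner_smul_right]; rfl }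
  have hf : f ≠ 0 := by
    intro h
    apply hw
    have h1 : w ∈ (perp u v)ᗮ := by
      rw [Submodule.mem_orthogonal]
      intro z hz
      rw [real_inner_comm]
      have : f ⟨z, hz⟩ = 0 := by rw [h]; rfl
      exact this
    unfold Pool.Agent.H14Belt.perp at h1
    rwa [Submodule.orthogonal_orthogonal] at h1
  refine measure_mono_null ?_ (level_null hf (r - ⟪w, p • u + q • v⟫))
  intro z hz
  have h1 := (hA _ hz).2.2
  have h2 : ⟪w, (p • u + q • v) + (z : E)⟫ = r := h1
  rw [inner_add_right] at h2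
  show ⟪w, (z : E)⟫ = r - ⟪w, p • u + q • v⟫
  linarith

/-- a facet is not contained in a level set of a functional orthogonal to its normal -/
theorem facet_not_level {P : Set E} (hP : IsCompact P) {u v : E} (h : Facet P u) (hv : v ≠ 0)
    (huv : ⟪u, v⟫ = 0) (c : ℝ) : ∃ x ∈ face P u, ⟪v, x⟫ ≠ c := by
  by_contra hcon
  push Not at hcon
  apply h.2
  rw [vol_prism_face hP h.1]
  let f : (ℝ ∙ u)ᗮ →ₗ[ℝ] ℝ :=
    { toFun := fun z => ⟪v, (z : E)⟫
      map_add' := fun a b => by rw [Submodule.coe_add, inner_add_right]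
      map_smul' := fun c a => by rw [Submodule.coe_smul, inner_smul_right]; rfl }
  have hf : f ≠ 0 := by
    intro h1
    have h2 : f ⟨v, PT57.mem_perp_iff.mpr huv⟩ = 0 := by rw [h1]; rfl
    have h3 : ⟪v, v⟫ = 0 := h2
    exact hv (inner_self_eq_zero.mp h3)
  refine measure_mono_null ?_ (level_null hf c)
  intro y hy
  have h1 := hcon _ hy
  rw [inner_add_right, inner_smul_right, real_inner_comm, huv] at h1
  show ⟪v, (y : E)⟫ = c
  linarith

/-- **ridge lemma**: across a ridge of a facet there is another facet -/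
theorem exists_other {P : Set E} (hP : Polytope P) {u v : E} (hu : Facet P u) (hv : ‖v‖ = 1)
    (huv : ⟪u, v⟫ = 0) (hg : gv P u v ≠ 0) :
    ∃ w, Facet P w ∧ (∃ a b : ℝ, 0 < b ∧ w = a • u + b • v) ∧ face (face P u) v ⊆ face P w := by
  have hc := hP.compact
  have hv0 : v ≠ 0 := by
    intro h; rw [h] at hv; simp at hv
  have hFc := face_compact hc u
  obtain ⟨U, hU1, hU2⟩ := hrepF hP
  have hcov : face (face P u) v ⊆ ⋃ w ∈ {w | w ∈ U ∧ w ≠ u}, face (face P u) v ∩ face P w := by
    intro x hx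
    simp only [mem_iUnion]
    by_contra hcon
    push Not at hcon
    have hxP : x ∈ P := hx.1.1
    have h1 : ∀ w ∈ U, w ≠ u → ⟪w, x⟫ < spt P w := by
      intro w hw hwu
      refine lt_of_le_of_ne (spt_le hc hxP w) (fun h => hcon w ⟨hw, hwu⟩ ⟨hx, ?_⟩)
      exact (mem_face_iff hc).mpr ⟨hxP, h⟩
    have h2 : ∀ᶠ r : ℝ in 𝓝[>] 0, ∀ w ∈ U, w ≠ u → ⟪w, x + r • v⟫ ≤ spt P w := by
      rw [Filter.eventually_all_finset]
      intro w hw
      by_cases hwu : w = u
      · exact Filter.Eventually.of_forall (fun r h => absurd hwu h)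
      have hc : Tendsto (fun r : ℝ => ⟪w, x + r • v⟫) (𝓝 0) (𝓝 ⟪w, x + (0:ℝ) • v⟫) := by
        have : Continuous (fun r : ℝ => ⟪w, x + r • v⟫) := by fun_prop
        exact this.tendsto 0
      rw [zero_smul, add_zero] at hc
      have h3 : ∀ᶠ r : ℝ in 𝓝[>] 0, ⟪w, x + r • v⟫ < spt P w :=
        (hc.eventually_lt_const (h1 w hw hwu)).filter_mono nhdsWithin_le_nhds
      filter_upwards [h3] with r hr _ using hr.le
    obtain ⟨r, hr, hr0⟩ := (h2.and self_mem_nhdsWithin).exists
    have hr0' : (0:ℝ) < r := hr0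
    have hux : ⟪u, x⟫ = spt P u := ((mem_face_iff hc).mp hx.1).2
    have huy : ⟪u, x + r • v⟫ = spt P u := by
      rw [inner_add_right, inner_smul_right, huv, hux]; ring
    have hyP : x + r • v ∈ P := by
      rw [hU2]
      intro w hw
      by_cases hwu : w = u
      · rw [hwu, huy]
      · exact hr w hw hwu
    have hyF : x + r • v ∈ face P u := (mem_face_iff hc).mpr ⟨hyP, huy⟩
    have h4 := hx.2 _ hyF
    rw [inner_add_right, inner_smul_right, real_inner_self_eq_norm_sq, hv] at h4
    linarith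
  have hex : ∃ w, (w ∈ U ∧ w ≠ u) ∧
      μHE[Module.finrank ℝ E - 2] (face (face P u) v ∩ face P w) ≠ 0 := by
    by_contra hcon
    push Not at hcon
    apply hg
    have hfin : {w | w ∈ U ∧ w ≠ u}.Finite := U.finite_toSet.subset (fun w hw => hw.1)
    refine measure_mono_null hcov ?_
    exact (measure_biUnion_null_iff hfin.countable).mpr hcon
  obtain ⟨w, ⟨hwU, hwu⟩, hmeas⟩ := hex
  have hwF := (hU1 w).mp hwU
  have hspan : w ∈ Submodule.span ℝ {u, v} := by
    by_contra hcon
    apply hmeas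
    apply null3 hu.1 hv huv hcon (p := spt P u) (q := spt (face P u) v) (r := spt P w)
    intro x hx
    exact ⟨((mem_face_iff hc).mp hx.1.1).2, ((mem_face_iff hFc).mp hx.1).2,
      ((mem_face_iff hc).mp hx.2).2⟩
  obtain ⟨a, b, hab⟩ := Submodule.mem_span_pair.mp hspan
  obtain ⟨x0, hx0⟩ : (face (face P u) v ∩ face P w).Nonempty := by
    rw [nonempty_iff_ne_empty]
    intro h
    apply hmeas
    rw [h]
    simp
  have hval : ∀ x, ⟪w, x⟫ = a * ⟪u, x⟫ + b * ⟪v, x⟫ := by
    intro x
    rw [← hab, inner_add_left, inner_smul_left, inner_smul_left]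
    simp
  have hx0w := ((mem_face_iff hc).mp hx0.2).2
  have hx0u := ((mem_face_iff hc).mp hx0.1.1).2
  have hx0v := ((mem_face_iff hFc).mp hx0.1).2
  have hsub : face (face P u) v ⊆ face P w := by
    intro x hx
    refine (mem_face_iff hc).mpr ⟨hx.1.1, ?_⟩
    rw [hval, ((mem_face_iff hc).mp hx.1).2, ((mem_face_iff hFc).mp hx).2, ← hx0u, ← hx0v, ← hval,
      hx0w]
  refine ⟨w, hwF, ⟨a, b, ?_, hab.symm⟩, hsub⟩
  obtain ⟨x, hx, hxne⟩ := facet_not_level hc hu hv0 huv (spt (face P u) v)
  have hxlt : ⟪v, x⟫ < spt (face P u) v := lt_of_le_of_ne (spt_le hFc hx v) hxne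
  have h5 := spt_le hc hx.1 w
  rw [← hx0w, hval, hval, hx0u, hx0v, ((mem_face_iff hc).mp hx).2] at h5
  have h6 : 0 ≤ b := by
    by_contra hb
    push Not at hb
    nlinarith
  rcases h6.lt_or_eq with h7 | h7
  · exact h7
  · exfalso
    rw [← h7, zero_smul, add_zero] at hab
    have h8 : |a| = 1 := by
      have := hwF.1
      rw [← hab, norm_smul, hu.1, mul_one] at this
      exact this
    rcases abs_eq (by norm_num : (0:ℝ) ≤ 1) |>.mp h8 with h9 | h9
    · exact hwu (by rw [← hab, h9, one_smul])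
    · obtain ⟨z, hz⟩ := hP.2
      have hu0 : u ≠ 0 := by
        intro h
        have := hu.1
        rw [h] at this
        simp at this
      have h10 := lt_spt hc hz hu0
      have h11 := spt_le hc (interior_subset hz) w
      rw [← hx0w, ← hab, h9, inner_smul_left, inner_smul_left, hx0u] at h11
      simp at h11
      linarith

/-! ### Small rotations -/

theorem face_smul (K : Set E) (u : E) {c : ℝ} (hc : 0 < c) : face K (c • u) = face K u := by
  ext x
  constructor
  · rintro ⟨h1, h2⟩
    refine ⟨h1, fun y hy => ?_⟩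
    have := h2 y hy
    rw [inner_smul_left, inner_smul_left] at this
    simp only [conj_trivial] at this
    exact le_of_mul_le_mul_left this hc
  · rintro ⟨h1, h2⟩
    refine ⟨h1, fun y hy => ?_⟩
    rw [inner_smul_left, inner_smul_left]
    simp only [conj_trivial]
    exact mul_le_mul_of_nonneg_left (h2 y hy) hc.le

theorem face_rot {P : Set E} (hP : Polytope P) (w w' : E) :
    ∀ᶠ e : ℝ in 𝓝[>] 0, face P (Real.cos e • w + Real.sin e • w') = face (face P w) w' := by
  have hc := hP.compact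
  have hPne : P.Nonempty := hP.2.mono interior_subset
  obtain ⟨⟨S, hS, hPS⟩, -⟩ := hP
  have hF : face P w = convexHull ℝ (S ∩ face P w) := by
    rw [hPS]; exact face_hull hS w
  have hFc := face_compact hc w
  have hG : face (face P w) w' = convexHull ℝ (S ∩ face (face P w) w') := by
    have h1 := face_hull (hS.inter_of_left (face P w)) w'
    rw [← hF] at h1
    have h2 : (S ∩ face P w) ∩ face (face P w) w' = S ∩ face (face P w) w' := by
      ext x
      exact ⟨fun h => ⟨h.1.1, h.2⟩, fun h => ⟨⟨h.1, h.2.1⟩, h.2⟩⟩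
    rwa [h2] at h1
  have hFne : (face P w).Nonempty := by
    obtain ⟨x, hx, hx'⟩ := exists_spt hc hPne w
    exact ⟨x, (mem_face_iff hc).mpr ⟨hx, hx'⟩⟩
  obtain ⟨g0, hg0⟩ : (S ∩ face (face P w) w').Nonempty := by
    rw [nonempty_iff_ne_empty]
    intro h
    rw [h, convexHull_empty] at hG
    obtain ⟨x, hx, hx'⟩ := exists_spt hFc hFne w'
    have : x ∈ face (face P w) w' := (mem_face_iff hFc).mpr ⟨hx, hx'⟩
    rw [hG] at this
    exact this
  have hkey : ∀ᶠ e : ℝ in 𝓝[>] 0, ∀ y ∈ S, y ∉ face (face P w) w' →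
      ⟪Real.cos e • w + Real.sin e • w', y⟫ < ⟪Real.cos e • w + Real.sin e • w', g0⟫ := by
    rw [Filter.eventually_all_finite hS]
    intro y hy
    by_cases hyG : y ∈ face (face P w) w'
    · exact Filter.Eventually.of_forall (fun e h => absurd hyG h)
    have hyP : y ∈ P := hPS ▸ subset_convexHull ℝ S hy
    rcases (hg0.2.1.2 y hyP).lt_or_eq with h1 | h1
    · have hcont : Continuous (fun e : ℝ => ⟪Real.cos e • w + Real.sin e • w', g0⟫ -
          ⟪Real.cos e • w + Real.sin e • w', y⟫) := by fun_prop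
      have h2 := hcont.tendsto 0
      simp only [Real.cos_zero, Real.sin_zero, one_smul, zero_smul, add_zero] at h2
      have h3 := h2.eventually_const_lt (show (0:ℝ) < ⟪w, g0⟫ - ⟪w, y⟫ by linarith)
      have h4 : ∀ᶠ e : ℝ in 𝓝[>] 0, 0 < ⟪Real.cos e • w + Real.sin e • w', g0⟫ -
          ⟪Real.cos e • w + Real.sin e • w', y⟫ := h3.filter_mono nhdsWithin_le_nhds
      filter_upwards [h4] with e he _
      linarith
    · have hyF : y ∈ face P w := ⟨hyP, fun z hz => by rw [h1]; exact hg0.2.1.2 z hz⟩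
      have h2 : ⟪w', y⟫ < ⟪w', g0⟫ := by
        refine lt_of_le_of_ne (hg0.2.2 y hyF) (fun h => hyG ⟨hyF, fun z hz => ?_⟩)
        rw [h]
        exact hg0.2.2 z hz
      have h3 : ∀ᶠ e : ℝ in 𝓝[>] 0, e ∈ Ioo 0 Real.pi :=
        Ioo_mem_nhdsGT Real.pi_pos
      filter_upwards [h3] with e he _
      have hsin := Real.sin_pos_of_mem_Ioo he
      rw [inner_add_left, inner_add_left, inner_smul_left, inner_smul_left, inner_smul_left,
        inner_smul_left]
      simp only [conj_trivial]
      rw [h1]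
      nlinarith
  filter_upwards [hkey] with e he
  set a := Real.cos e • w + Real.sin e • w' with ha
  have hconst : ∀ x ∈ face (face P w) w', ⟪a, x⟫ = ⟪a, g0⟫ := by
    intro x hx
    have h1 : ⟪w, x⟫ = ⟪w, g0⟫ := by
      rw [((mem_face_iff hc).mp hx.1).2, ((mem_face_iff hc).mp hg0.2.1).2]
    have h2 : ⟪w', x⟫ = ⟪w', g0⟫ := by
      rw [((mem_face_iff hFc).mp hx).2, ((mem_face_iff hFc).mp hg0.2).2]
    rw [ha, inner_add_left, inner_add_left, inner_smul_left, inner_smul_left, inner_smul_left,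
      inner_smul_left, h1, h2]
  have hmax : ∀ y ∈ P, ⟪a, y⟫ ≤ ⟪a, g0⟫ := by
    have hconvx : Convex ℝ {y : E | ⟪a, y⟫ ≤ ⟪a, g0⟫} :=
      convex_halfSpace_le (f := fun y => ⟪a, y⟫)
        ⟨fun x y => inner_add_right _ _ _, fun c x => inner_smul_right _ _ _⟩ _
    have hsub : S ⊆ {y : E | ⟪a, y⟫ ≤ ⟪a, g0⟫} := by
      intro y hy
      by_cases hyG : y ∈ face (face P w) w'
      · exact (hconst y hyG).le
      · exact (he y hy hyG).le
    rw [hPS]
    intro y hy
    exact convexHull_min hsub hconvx hy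
  have hSa : S ∩ face P a = S ∩ face (face P w) w' := by
    ext y
    constructor
    · rintro ⟨hy, hy2⟩
      refine ⟨hy, ?_⟩
      by_contra hyG
      have h1 := he y hy hyG
      have h2 := hy2.2 g0 hg0.2.1.1
      linarith
    · rintro ⟨hy, hy2⟩
      refine ⟨hy, hy2.1.1, fun z hz => ?_⟩
      rw [hconst y hy2]
      exact hmax z hz
  have h3 := face_hull hS a
  rw [← hPS] at h3
  rw [h3, hSa, ← hG]

/-- a functional in the span is constant on the double face -/
theorem face_of_const {K : Set E} {a : E} (h : ∀ x ∈ K, ∀ y ∈ K, ⟪a, x⟫ = ⟪a, y⟫) :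
    face K a = K := by
  ext x
  exact ⟨fun hx => hx.1, fun hx => ⟨hx, fun y hy => (h y hy x hx).le⟩⟩

theorem gv_rot {P : Set E} (hP : Polytope P) (w w' : E) :
    ∀ᶠ e : ℝ in 𝓝[>] 0, gv P (Real.cos e • w + Real.sin e • w')
      (-Real.sin e • w + Real.cos e • w') = gv P w w' := by
  have hc := hP.compact
  have hFc := face_compact hc w
  filter_upwards [face_rot hP w w'] with e he
  unfold gv
  rw [he, face_of_const]
  intro x hx y hy
  have h1 : ⟪w, x⟫ = ⟪w, y⟫ := by
    rw [((mem_face_iff hc).mp hx.1).2, ((mem_face_iff hc).mp hy.1).2]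
  have h2 : ⟪w', x⟫ = ⟪w', y⟫ := by
    rw [((mem_face_iff hFc).mp hx).2, ((mem_face_iff hFc).mp hy).2]
  rw [inner_add_left, inner_add_left, inner_smul_left, inner_smul_left, inner_smul_left,
    inner_smul_left, h1, h2]

/-- the rotating frame -/
noncomputable def ww (u v : E) (t : ℝ) : E := Real.cos t • u + Real.sin t • v

/-- its derivative -/
noncomputable def ww' (u v : E) (t : ℝ) : E := -Real.sin t • u + Real.cos t • v

theorem ww_add (u v : E) (t e : ℝ) :
    ww u v (t + e) = Real.cos e • ww u v t + Real.sin e • ww' u v t := by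
  unfold ww ww'
  rw [Real.cos_add, Real.sin_add]
  module

theorem ww'_add (u v : E) (t e : ℝ) :
    ww' u v (t + e) = -Real.sin e • ww u v t + Real.cos e • ww' u v t := by
  unfold ww ww'
  rw [Real.cos_add, Real.sin_add]
  module

theorem ww_sub (u v : E) (t e : ℝ) :
    ww u v (t - e) = Real.cos e • ww u v t + Real.sin e • (-ww' u v t) := by
  rw [sub_eq_add_neg, ww_add, Real.cos_neg, Real.sin_neg]
  module

theorem ww'_sub (u v : E) (t e : ℝ) :
    ww' u v (t - e) = -(-Real.sin e • ww u v t + Real.cos e • (-ww' u v t)) := by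
  rw [sub_eq_add_neg, ww'_add, Real.cos_neg, Real.sin_neg]
  module

theorem norm_ww {u v : E} (hu : ‖u‖ = 1) (hv : ‖v‖ = 1) (huv : ⟪u, v⟫ = 0) (t : ℝ) :
    ‖ww u v t‖ = 1 := by
  have h : ‖ww u v t‖ ^ 2 = 1 := by
    rw [← real_inner_self_eq_norm_sq]
    unfold ww
    rw [inner_add_left, inner_add_right, inner_add_right, inner_smul_left, inner_smul_left,
      inner_smul_left, inner_smul_left, inner_smul_right, inner_smul_right, inner_smul_right,
      inner_smul_right, real_inner_self_eq_norm_sq, real_inner_self_eq_norm_sq, hu, hv,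
      real_inner_comm u v, huv]
    simp only [conj_trivial]
    nlinarith [Real.sin_sq_add_cos_sq t]
  nlinarith [norm_nonneg (ww u v t)]

theorem norm_ww' {u v : E} (hu : ‖u‖ = 1) (hv : ‖v‖ = 1) (huv : ⟪u, v⟫ = 0) (t : ℝ) :
    ‖ww' u v t‖ = 1 := by
  have h : ‖ww' u v t‖ ^ 2 = 1 := by
    rw [← real_inner_self_eq_norm_sq]
    unfold ww'
    rw [inner_add_left, inner_add_right, inner_add_right, inner_smul_left, inner_smul_left,
      inner_smul_left, inner_smul_left, inner_smul_right, inner_smul_right, inner_smul_right,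
      inner_smul_right, real_inner_self_eq_norm_sq, real_inner_self_eq_norm_sq, hu, hv,
      real_inner_comm u v, huv]
    simp only [conj_trivial]
    nlinarith [Real.sin_sq_add_cos_sq t]
  nlinarith [norm_nonneg (ww' u v t)]

theorem inner_ww {u v : E} (hu : ‖u‖ = 1) (hv : ‖v‖ = 1) (huv : ⟪u, v⟫ = 0) (t : ℝ) :
    ⟪ww u v t, ww' u v t⟫ = 0 := by
  unfold ww ww'
  rw [inner_add_left, inner_add_right, inner_add_right, inner_smul_left, inner_smul_left,
    inner_smul_left, inner_smul_left, inner_smul_right, inner_smul_right, inner_smul_right,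
    inner_smul_right, real_inner_self_eq_norm_sq, real_inner_self_eq_norm_sq, hu, hv,
    real_inner_comm u v, huv]
  simp only [conj_trivial]
  ring

/-- **circle lemma** -/
theorem facC_circle {P : Set E} (hP : Polytope P) (hT : Tiles P) {u v : E} (hu : ‖u‖ = 1)
    (hv : ‖v‖ = 1) (huv : ⟪u, v⟫ = 0)
    (hno : ∀ w ∈ Submodule.span ℝ {u, v}, ¬ (Facet P w ∧ Facet P (-w))) :
    gv P (-u) (-v) = gv P u v := by
  have hc := hP.compact
  have hspan : ∀ t, ww u v t ∈ Submodule.span ℝ {u, v} := by
    intro t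
    exact Submodule.mem_span_pair.mpr ⟨_, _, rfl⟩
  have hsymm : ∀ t, gv P (ww u v t) (-ww' u v t) = gv P (ww u v t) (ww' u v t) := by
    intro t
    have h1 := norm_ww hu hv huv t
    have h2 := norm_ww' hu hv huv t
    have h3 := inner_ww hu hv huv t
    by_cases h : Facet P (-ww u v t)
    · have h4 : ¬ Facet P (ww u v t) := fun h5 => hno _ (hspan t) ⟨h5, h⟩
      exact (gv_symm_of_not_facet hc hP.conv h1 h2 h3 h4).symm
    · exact (gv_symm_of_single hc hP.conv hP.2 hT h1 h2 h3 h).symm
  have hloc : IsLocallyConstant (fun t : ℝ => gv P (ww u v t) (ww' u v t)) := by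
    rw [IsLocallyConstant.iff_eventually_eq]
    intro t
    have hr := gv_rot hP (ww u v t) (ww' u v t)
    have hl := gv_rot hP (ww u v t) (-ww' u v t)
    obtain ⟨δ1, hδ1, h1⟩ := mem_nhdsGT_iff_exists_Ioo_subset.mp hr
    obtain ⟨δ2, hδ2, h2⟩ := mem_nhdsGT_iff_exists_Ioo_subset.mp hl
    have hδ1' : (0:ℝ) < δ1 := hδ1
    have hδ2' : (0:ℝ) < δ2 := hδ2
    rw [Metric.eventually_nhds_iff]
    refine ⟨min δ1 δ2, lt_min hδ1' hδ2', fun y hy => ?_⟩
    rw [Real.dist_eq] at hy
    show gv P (ww u v y) (ww' u v y) = gv P (ww u v t) (ww' u v t)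
    rcases lt_trichotomy y t with hyt | hyt | hyt
    · have hmem : t - y ∈ Ioo (0:ℝ) δ2 := by
        refine ⟨by linarith, ?_⟩
        rw [abs_of_neg (by linarith)] at hy
        linarith [min_le_right δ1 δ2]
      have h3 := h2 hmem
      have h3' : gv P (Real.cos (t - y) • ww u v t + Real.sin (t - y) • (-ww' u v t))
        (-Real.sin (t - y) • ww u v t + Real.cos (t - y) • (-ww' u v t)) =
        gv P (ww u v t) (-ww' u v t) := h3
      have h4 : y = t - (t - y) := by ring
      have h5 := hsymm y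
      have h6 : ww u v y = Real.cos (t - y) • ww u v t + Real.sin (t - y) • (-ww' u v t) := by
        conv_lhs => rw [h4]
        exact ww_sub u v t (t - y)
      have h7 : -ww' u v y = (-Real.sin (t - y) • ww u v t + Real.cos (t - y) • (-ww' u v t)) := by
        conv_lhs => rw [h4]
        rw [ww'_sub u v t (t - y), neg_neg]
      rw [← h5, h6, h7, h3', hsymm t]
    · rw [hyt]
    · have hmem : y - t ∈ Ioo (0:ℝ) δ1 := by
        refine ⟨by linarith, ?_⟩
        rw [abs_of_pos (by linarith)] at hy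
        linarith [min_le_left δ1 δ2]
      have h3 := h1 hmem
      have h3' : gv P (Real.cos (y - t) • ww u v t + Real.sin (y - t) • (ww' u v t))
        (-Real.sin (y - t) • ww u v t + Real.cos (y - t) • (ww' u v t)) =
        gv P (ww u v t) (ww' u v t) := h3
      have h4 : y = t + (y - t) := by ring
      have h6 : ww u v y = Real.cos (y - t) • ww u v t + Real.sin (y - t) • (ww' u v t) := by
        conv_lhs => rw [h4]
        exact ww_add u v t (y - t)
      have h7 : ww' u v y = (-Real.sin (y - t) • ww u v t + Real.cos (y - t) • (ww' u v t)) := by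
        conv_lhs => rw [h4]
        exact ww'_add u v t (y - t)
      rw [h6, h7, h3']
  have hfin := hloc.apply_eq_of_preconnectedSpace Real.pi 0
  have e1 : ww u v Real.pi = -u := by unfold ww; simp
  have e2 : ww' u v Real.pi = -v := by unfold ww'; simp
  have e3 : ww u v 0 = u := by unfold ww; simp
  have e4 : ww' u v 0 = v := by unfold ww'; simp
  simp only [e1, e2, e3, e4] at hfin
  exact hfin

/-- a face that is not a facet has at most one pair of ridge normals -/
theorem thin_unique {P : Set E} (hP : IsCompact P) (hconv : Convex ℝ P) {u v v' : E}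
    (hu : ‖u‖ = 1) (hv : ‖v‖ = 1) (hv' : ‖v'‖ = 1) (huv : ⟪u, v⟫ = 0) (huv' : ⟪u, v'⟫ = 0)
    (h : ¬ Facet P u) (h1 : gv P u v ≠ 0) (h2 : gv P u v' ≠ 0) : v' = v ∨ v' = -v := by
  have h0 : volume (secQ P u) = 0 := by
    rw [vol_secQ hP hu]
    by_contra hcon
    exact h ⟨hu, hcon⟩
  have hQ := secQ_compact hP hu
  have hlev : ∀ z : E, ‖z‖ = 1 → ⟪u, z⟫ = 0 → gv P u z ≠ 0 → ∃ q, ∀ x ∈ face P u, ⟪z, x⟫ = q := by
    intro z hz huz hgz
    let z' : (ℝ ∙ u)ᗮ := ⟨z, PT57.mem_perp_iff.mpr huz⟩
    have e1 : gv P u z = _ := gv_eq hP hu z'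
    rw [e1] at hgz
    refine ⟨spt (secQ P u) z', fun x hx => ?_⟩
    rw [← image_secQ hP hu] at hx
    obtain ⟨y, hy, rfl⟩ := hx
    have hin : ⟪z, spt P u • u + (y : E)⟫ = ⟪z', y⟫ := by
      rw [inner_add_right, inner_smul_right, real_inner_comm, huz]
      show _ * 0 + _ = ⟪z, (y : E)⟫
      simp
    show ⟪z, spt P u • u + (y : E)⟫ = _
    rw [hin]
    refine le_antisymm (spt_le hQ hy z') ?_
    by_contra hcon
    push Not at hcon
    exact vol_ne_zero_of_face hQ (secQ_convex hconv u) (v := z') hz hgz hy hcon h0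
  obtain ⟨q, hq⟩ := hlev v hv huv h1
  obtain ⟨q', hq'⟩ := hlev v' hv' huv' h2
  have hspan : v' ∈ Submodule.span ℝ {u, v} := by
    by_contra hcon
    apply h1
    apply null3 hu hv huv hcon (p := spt P u) (q := q) (r := q')
    intro x hx
    exact ⟨((mem_face_iff hP).mp hx.1).2, hq x hx.1, hq' x hx.1⟩
  obtain ⟨a, b, hab⟩ := Submodule.mem_span_pair.mp hspan
  have ha : a = 0 := by
    rw [← hab, inner_add_right, inner_smul_right, inner_smul_right, huv,
      real_inner_self_eq_norm_sq, hu] at huv'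
    linarith
  rw [ha, zero_smul, zero_add] at hab
  have hb : |b| = 1 := by
    rw [← hab, norm_smul, hv, mul_one] at hv'
    exact hv'
  rcases abs_eq (by norm_num : (0:ℝ) ≤ 1) |>.mp hb with h9 | h9
  · left; rw [← hab, h9, one_smul]
  · right; rw [← hab, h9]; simp

/-- boundedness: a polytope has no recession direction -/
theorem recession {P : Set E} (hP : Polytope P) {x : E} (h : ∀ u, Facet P u → ⟪u, x⟫ ≤ 0) :
    x = 0 := by
  by_contra hx
  have hc := hP.compact
  obtain ⟨U, hU1, hU2⟩ := hrepF hP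
  obtain ⟨b, hb⟩ := hP.2
  have hbP := interior_subset hb
  have h1 : ∀ r : ℝ, 0 ≤ r → b + r • x ∈ P := by
    intro r hr
    rw [hU2]
    intro u hu
    rw [inner_add_right, inner_smul_right]
    have h2 := spt_le hc hbP u
    have h3 := h u ((hU1 u).mp hu)
    nlinarith
  obtain ⟨R, hR⟩ := hc.isBounded.exists_norm_le
  have hxn : 0 < ‖x‖ := norm_pos_iff.mpr hx
  have hR0 : 0 ≤ R := (norm_nonneg b).trans (hR b hbP)
  have h4 := hR _ (h1 ((2 * R + 1) / ‖x‖) (by positivity))
  have h5 : ‖((2 * R + 1) / ‖x‖) • x‖ = 2 * R + 1 := by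
    rw [norm_smul, Real.norm_of_nonneg (by positivity)]
    field_simp
  have h6 := norm_le_add_norm_add' (((2 * R + 1) / ‖x‖) • x) b
  have h7 : ‖((2 * R + 1) / ‖x‖) • x‖ ≤ ‖b + ((2 * R + 1) / ‖x‖) • x‖ + ‖b‖ := by
    have := norm_sub_le (b + ((2 * R + 1) / ‖x‖) • x) b
    rwa [add_sub_cancel_left] at this
  have h8 := hR b hbP
  linarith

end Pool.PT56
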