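import Pool.Agent.PT56.Base

set_option autoImplicit false
set_option linter.unusedSectionVars false

/-!
# PT56/ProdS: products of tilings

`tile_flip`: `t + s K = (t + s c) - s K`.
`tiles_pi`: take tilings with index types `κ i`.  If all `P i` are centrally symmetric make all signs `1`;
otherwise let `i0` be the factor that is not.  For `k : ∀ i, κ i` put `σ k = s i0 (k i0)` (or `1`) and choose
`t' k i` with `tile (P i) (t' k i) (σ k) = tile (P i) (t i (k i)) (s i (k i))` (`tile_flip` if the sign
differs).  Then `tile (univ.pi P) (t' k) (σ k) = univ.pi fun i => tile (P i) (t i (k i)) (s i (k i))`.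
Cover: coordinatewise.  Disjoint interiors: if `k ≠ k'`, some coordinate differs (`interior_pi_set`).
`tiles_image`: `e` maps tiles to tiles, interiors to interiors.
-/

namespace Pool.PT56

open Set Filter Topology MeasureTheory

theorem tile_flip {V : Type} [NormedAddCommGroup V] [NormedSpace ℝ V] {K : Set V} (hK : CSym K)
    (t : V) {s : ℝ} (hs : s = 1 ∨ s = -1) : ∃ t', tile K t' (-s) = tile K t s := by
  obtain ⟨c, hc⟩ := hK
  refine ⟨t + s • c, ?_⟩
  have hs' : -s = 1 ∨ -s = -1 := by rcases hs with rfl | rfl <;> norm_num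
  have h2 : s * s = 1 := by rcases hs with rfl | rfl <;> norm_num
  have key : ∀ x : V, (-s) • (x - (t + s • c)) = c - s • (x - t) := by
    intro x
    have : s • s • c = c := by rw [smul_smul, h2, one_smul]
    rw [neg_smul, smul_sub, smul_add, this, smul_sub]
    abel
  ext x
  rw [mem_tile hs', mem_tile hs, key]
  constructor
  · intro h
    have := hc _ h
    simpa using this
  · intro h
    exact hc _ h

theorem tiles_pi {r : ℕ} {E : Fin r → Type} [∀ i, NormedAddCommGroup (E i)]
    [∀ i, NormedSpace ℝ (E i)] {P : ∀ i, Set (E i)} (hT : ∀ i, Tiles (P i))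
    (h1 : ∀ i j, ¬ CSym (P i) → ¬ CSym (P j) → i = j) : Tiles (univ.pi P) := by
  classical
  have hT' : ∀ i, ∃ (ι : Type) (t : ι → E i) (s : ι → ℝ), Tiling (P i) t s :=
    fun i => tiles_iff.mp (hT i)
  choose κ t s hts using hT'
  -- the common sign
  have hσ : ∃ σ : (∀ i, κ i) → ℝ, (∀ k, σ k = 1 ∨ σ k = -1) ∧
      ∀ k i, ¬ CSym (P i) → σ k = s i (k i) := by
    by_cases h : ∃ i, ¬ CSym (P i)
    · obtain ⟨i0, hi0⟩ := h
      refine ⟨fun k => s i0 (k i0), fun k => (hts i0).sgn _, ?_⟩
      intro k i hi
      have : i = i0 := h1 i i0 hi hi0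
      subst this
      rfl
    · refine ⟨fun _ => 1, fun _ => Or.inl rfl, ?_⟩
      intro k i hi
      exact absurd ⟨i, hi⟩ h
  obtain ⟨σ, hσ1, hσ2⟩ := hσ
  have ht' : ∀ (k : ∀ i, κ i) (i : Fin r), ∃ t' : E i,
      tile (P i) t' (σ k) = tile (P i) (t i (k i)) (s i (k i)) := by
    intro k i
    by_cases h : σ k = s i (k i)
    · exact ⟨_, by rw [h]⟩
    · have hc : CSym (P i) := by
        by_contra hc
        exact h (hσ2 k i hc)
      have hneg : σ k = -(s i (k i)) := by
        rcases hσ1 k with h3 | h3 <;> rcases (hts i).sgn (k i) with h4 | h4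
        · exact absurd (h3.trans h4.symm) h
        · rw [h3, h4]; norm_num
        · rw [h3, h4]
        · exact absurd (h3.trans h4.symm) h
      rw [hneg]
      exact tile_flip hc _ ((hts i).sgn _)
  choose t' ht' using ht'
  have htile : ∀ k : ∀ i, κ i, tile (univ.pi P) (t' k) (σ k) =
      univ.pi fun i => tile (P i) (t i (k i)) (s i (k i)) := by
    intro k
    ext x
    rw [mem_tile (hσ1 k)]
    simp only [mem_univ_pi]
    constructor
    · intro h i
      rw [← ht' k i, mem_tile (hσ1 k)]
      exact h i
    · intro h i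
      have := h i
      rw [← ht' k i, mem_tile (hσ1 k)] at this
      exact this
  rw [tiles_iff]
  refine ⟨∀ i, κ i, t', σ, hσ1, ?_, ?_⟩
  · intro x
    have : ∀ i, ∃ j, x i ∈ tile (P i) (t i j) (s i j) := fun i => (hts i).cov (x i)
    choose k hk using this
    refine ⟨k, ?_⟩
    rw [htile]
    exact fun i _ => hk i
  · intro k k' hkk
    rw [htile, htile, interior_pi_set finite_univ, interior_pi_set finite_univ]
    obtain ⟨i, hi⟩ := Function.ne_iff.mp hkk
    rw [Set.disjoint_left]
    intro x hx hx'
    exact Set.disjoint_left.mp ((hts i).dis _ _ hi) (hx i (mem_univ i)) (hx' i (mem_univ i))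

theorem tiles_image_aux {V W : Type} [NormedAddCommGroup V] [NormedSpace ℝ V]
    [NormedAddCommGroup W] [NormedSpace ℝ W] (e : V ≃L[ℝ] W) {P : Set V} (h : Tiles P) :
    Tiles (e '' P) := by
  rw [tiles_iff] at h ⊢
  obtain ⟨ι, t, s, h⟩ := h
  refine ⟨ι, fun i => e (t i), s, h.sgn, ?_, ?_⟩
  · intro x
    obtain ⟨i, hi⟩ := h.cov (e.symm x)
    refine ⟨i, ?_⟩
    rw [mem_tile (h.sgn i)] at hi ⊢
    exact ⟨_, hi, by simp⟩
  · intro i j hij
    have := h.dis i j hij
    rw [Set.disjoint_left] at this ⊢
    have hi : interior (e '' P) = e '' interior P := by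
      have := e.toHomeomorph.image_interior P
      simpa using this.symm
    intro x hx hx'
    rw [mem_interior_tile (h.sgn i), hi] at hx
    rw [mem_interior_tile (h.sgn j), hi] at hx'
    obtain ⟨y, hy, hye⟩ := hx
    obtain ⟨z, hz, hze⟩ := hx'
    apply this (a := e.symm x)
    · rw [mem_interior_tile (h.sgn i)]
      have : s i • (e.symm x - t i) = y := by
        apply e.injective
        rw [hye]; simp
      rwa [this]
    · rw [mem_interior_tile (h.sgn j)]
      have : s j • (e.symm x - t j) = z := by
        apply e.injective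
        rw [hze]; simp
      rwa [this]

theorem tiles_image {V W : Type} [NormedAddCommGroup V] [NormedSpace ℝ V] [NormedAddCommGroup W]
    [NormedSpace ℝ W] (e : V ≃L[ℝ] W) (P : Set V) : Tiles (e '' P) ↔ Tiles P := by
  constructor
  · intro h
    have := tiles_image_aux e.symm h
    rw [Set.image_image] at this
    simpa using this
  · exact tiles_image_aux e

end Pool.PT56
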