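import Pool.Agent.PT56.PolyBase

set_option autoImplicit false
set_option linter.unusedSectionVars false

/-!
# PT56/NF: explicit tilings

`NF w a b α β` is the polygon with the vertices `(0,0), (w,0), (w+a,α), (w,1), (0,1), (-b,β)`.
Vertical slices: at `x ∈ [-b, w+a]` the interval `[lo x, lo x + ℓ x]`, `lo x = β(-x)/b, 0, α(x-w)/a` and
`ℓ x = (b+x)/b, 1, 1-(x-w)/a` on `[-b,0], [0,w], [w,w+a]`.  Put `W = 2w+a+b`, `δ = α-β`.  The tiles are
`T⁺ k j = NF + (jW, k+jδ)` and `T⁻ k j = (2w+a+jW, α+k+jδ) - NF` (`k, j : ℤ`).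
By the translations take `x ∈ [-b, 2w+a)`, `j = 0`:
`x ∈ [-b,0)`: the tiles over `x` are `T⁺ k 0` with slices `k + [lo x, lo x + ℓ x]` and `T⁻ k (-1)`; with
`x' = 2w+a-W-x = -b-x ∈ [-b,0]`, `lo x' = β - lo x`, `ℓ x' = 1 - ℓ x` its slice is
`k + α - δ - [lo x', lo x' + ℓ x'] = k + [lo x + ℓ x - 1, lo x]`;
`x ∈ [0,w]`: `T⁺ k 0` with `k + [0,1]` (for `x = 0` or `w` other tiles may touch);
`x ∈ (w,w+a]`: `T⁺ k 0` with `k + [lo x, lo x + ℓ x]` and `T⁻ k 0`: `x' = 2w+a-x ∈ [w,w+a]`, `lo x' = α - lo x`,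
`ℓ x' = 1 - ℓ x`, slice `k + [lo x + ℓ x - 1, lo x]`;
`x ∈ [w+a,2w+a]`: `T⁻ k 0`: `x' ∈ [0,w]`, slice `k + α + [-1,0]`.
In each case the slices cover the line and two of them have at most one point in common.
Cover: clear.  Interiors: if an open set is contained in two different tiles take a point of it whose first
coordinate is not in the countable set `{jW, jW + w, jW + w + a, jW + 2w + a, jW - b}`; the slices at this `x` of
the two tiles have an open interval in common.
(It may be convenient to write the set as `{p | (0 < b ∧ …) ∨ … }` as below and to use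
`tiles_iff` with the index type `ℤ × ℤ × Bool`.)
-/

namespace Pool.PT56

open Set Filter Topology

/-- the polygon with the vertices `(0,0), (w,0), (w+a,α), (w,1), (0,1), (-b,β)` -/
def NF (w a b α β : ℝ) : Set (ℝ × ℝ) :=
  {p | (0 < b ∧ -b ≤ p.1 ∧ p.1 ≤ 0 ∧ β * (-p.1) ≤ b * p.2 ∧ b * p.2 ≤ b + (β - 1) * (-p.1)) ∨
    (0 ≤ p.1 ∧ p.1 ≤ w ∧ 0 ≤ p.2 ∧ p.2 ≤ 1) ∨
    (0 < a ∧ w ≤ p.1 ∧ p.1 ≤ w + a ∧ α * (p.1 - w) ≤ a * p.2 ∧
      a * p.2 ≤ a + (α - 1) * (p.1 - w))}

/-- the translation part of the tiles -/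
def nft (w a b α β : ℝ) (i : Bool × ℤ × ℤ) : ℝ × ℝ :=
  if i.1 then ((i.2.2 : ℝ) * (2 * w + a + b), (i.2.1 : ℝ) + i.2.2 * (α - β))
  else (2 * w + a + (i.2.2 : ℝ) * (2 * w + a + b), α + i.2.1 + i.2.2 * (α - β))

/-- the signs of the tiles -/
def nfs (i : Bool × ℤ × ℤ) : ℝ := if i.1 then 1 else -1

theorem nfs_sgn (i : Bool × ℤ × ℤ) : nfs i = 1 ∨ nfs i = -1 := by
  unfold nfs
  split_ifs
  · exact Or.inl rfl
  · exact Or.inr rfl

theorem mem_nf_plus {w a b α β x y : ℝ} {k j : ℤ} :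
    (x, y) ∈ tile (NF w a b α β) (nft w a b α β (true, k, j)) (nfs (true, k, j)) ↔
      (x - j * (2 * w + a + b), y - k - j * (α - β)) ∈ NF w a b α β := by
  rw [mem_tile (nfs_sgn _)]
  have : nfs (true, k, j) • ((x, y) - nft w a b α β (true, k, j)) =
      (x - j * (2 * w + a + b), y - k - j * (α - β)) := by
    simp [nfs, nft, sub_sub]
  rw [this]

theorem mem_nf_minus {w a b α β x y : ℝ} {k j : ℤ} :
    (x, y) ∈ tile (NF w a b α β) (nft w a b α β (false, k, j)) (nfs (false, k, j)) ↔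
      (2 * w + a + j * (2 * w + a + b) - x, α + k + j * (α - β) - y) ∈ NF w a b α β := by
  rw [mem_tile (nfs_sgn _)]
  have : nfs (false, k, j) • ((x, y) - nft w a b α β (false, k, j)) =
      (2 * w + a + j * (2 * w + a + b) - x, α + k + j * (α - β) - y) := by
    simp [nfs, nft]
  rw [this]

/-- the lower end of the slice -/
noncomputable def sfn (w a b α β : ℝ) (x : ℝ) : ℝ :=
  if x < 0 then β * (-x) / b else if x ≤ w then 0 else if x ≤ w + a then α * (x - w) / a else α

/-- the missing length -/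
noncomputable def tfn (w a b : ℝ) (x : ℝ) : ℝ :=
  if x < 0 then (-x) / b else if x ≤ w then 0 else if x ≤ w + a then (x - w) / a else 1

theorem tfn_mem {w a b x : ℝ} (ha : 0 ≤ a) (hb : 0 ≤ b) (hx : -b ≤ x) :
    0 ≤ tfn w a b x ∧ tfn w a b x ≤ 1 := by
  unfold tfn
  split_ifs with h1 h2 h3
  · have hb' : 0 < b := by linarith
    exact ⟨div_nonneg (by linarith) hb, (div_le_one hb').2 (by linarith)⟩
  · exact ⟨le_refl _, zero_le_one⟩
  · have ha' : 0 < a := by linarith
    exact ⟨div_nonneg (by linarith) ha, (div_le_one ha').2 (by linarith)⟩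
  · exact ⟨zero_le_one, le_refl _⟩

theorem floor_eq_of {W b x : ℝ} {j : ℤ} (hW : 0 < W) (h1 : -b ≤ x - j * W)
    (h2 : x - j * W < W - b) : ⌊(x + b) / W⌋ = j := by
  rw [Int.floor_eq_iff]
  constructor
  · rw [le_div_iff₀ hW]; linarith
  · rw [div_lt_iff₀ hW]; linarith

/-- slices of the positive tiles -/
theorem plus_slice {w a b α β x y : ℝ} {k j : ℤ} (hw : 0 ≤ w) (ha : 0 ≤ a) (hb : 0 ≤ b)
    (hs : 0 < w + a + b) (hg2 : x - j * (2 * w + a + b) ≠ 0)
    (hg3 : x - j * (2 * w + a + b) ≠ w) (hg4 : x - j * (2 * w + a + b) ≠ w + a)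
    (h : (x - j * (2 * w + a + b), y - k - j * (α - β)) ∈ NF w a b α β) :
    ⌊(x + b) / (2 * w + a + b)⌋ = j ∧
      (k : ℝ) ≤ y - j * (α - β) - sfn w a b α β (x - j * (2 * w + a + b)) ∧
      y - j * (α - β) - sfn w a b α β (x - j * (2 * w + a + b)) ≤
        k + 1 - tfn w a b (x - j * (2 * w + a + b)) := by
  have hW : 0 < 2 * w + a + b := by linarith
  set x₀ := x - j * (2 * w + a + b) with hx₀
  rcases h with ⟨hb', h1, h2, h3, h4⟩ | ⟨h1, h2, h3, h4⟩ | ⟨ha', h1, h2, h3, h4⟩
  · simp only at h1 h2 h3 h4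
    have h2' : x₀ < 0 := lt_of_le_of_ne h2 hg2
    refine ⟨floor_eq_of hW h1 (by linarith), ?_, ?_⟩
    · simp only [sfn, if_pos h2']
      have : β * (-x₀) / b ≤ y - k - j * (α - β) := by
        rw [div_le_iff₀ hb']; linarith
      linarith
    · simp only [sfn, tfn, if_pos h2']
      have : y - k - j * (α - β) ≤ 1 + (β * (-x₀) / b - (-x₀) / b) := by
        rw [← sub_div, ← sub_le_iff_le_add', le_div_iff₀ hb']; linarith
      linarith
  · simp only at h1 h2 h3 h4
    have h1' : ¬ x₀ < 0 := not_lt.2 h1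
    refine ⟨floor_eq_of hW (by linarith) ?_, ?_, ?_⟩
    · have : x₀ < w := lt_of_le_of_ne h2 hg3
      linarith
    · simp only [sfn, if_neg h1', if_pos h2]
      linarith
    · simp only [sfn, tfn, if_neg h1', if_pos h2]
      linarith
  · simp only at h1 h2 h3 h4
    have h1' : ¬ x₀ < 0 := not_lt.2 (by linarith)
    have h1'' : ¬ x₀ ≤ w := not_le.2 (lt_of_le_of_ne h1 (Ne.symm hg3))
    have h2' : x₀ < w + a := lt_of_le_of_ne h2 hg4
    refine ⟨floor_eq_of hW (by linarith) (by linarith), ?_, ?_⟩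
    · simp only [sfn, if_neg h1', if_neg h1'', if_pos h2]
      have : α * (x₀ - w) / a ≤ y - k - j * (α - β) := by
        rw [div_le_iff₀ ha']; linarith
      linarith
    · simp only [sfn, tfn, if_neg h1', if_neg h1'', if_pos h2]
      have : y - k - j * (α - β) ≤ 1 + (α * (x₀ - w) / a - (x₀ - w) / a) := by
        rw [← sub_div, ← sub_le_iff_le_add', le_div_iff₀ ha']; linarith
      linarith

/-- slices of the negative tiles -/
theorem minus_slice {w a b α β x y : ℝ} {k j : ℤ} (hw : 0 ≤ w) (ha : 0 ≤ a) (hb : 0 ≤ b)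
    (hs : 0 < w + a + b) (hg1 : 2 * w + a + j * (2 * w + a + b) - x ≠ -b)
    (hg2 : 2 * w + a + j * (2 * w + a + b) - x ≠ 0)
    (hg3 : 2 * w + a + j * (2 * w + a + b) - x ≠ w)
    (hg4 : 2 * w + a + j * (2 * w + a + b) - x ≠ w + a)
    (h : (2 * w + a + j * (2 * w + a + b) - x, α + k + j * (α - β) - y) ∈ NF w a b α β) :
    ∃ J : ℤ, ⌊(x + b) / (2 * w + a + b)⌋ = J ∧
      j = J - (if x - J * (2 * w + a + b) < 0 then 1 else 0) ∧
      (k : ℝ) - tfn w a b (x - J * (2 * w + a + b)) ≤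
        y - J * (α - β) - sfn w a b α β (x - J * (2 * w + a + b)) ∧
      y - J * (α - β) - sfn w a b α β (x - J * (2 * w + a + b)) ≤ k := by
  have hW : 0 < 2 * w + a + b := by linarith
  set x' := 2 * w + a + j * (2 * w + a + b) - x with hx'
  rcases h with ⟨hb', h1, h2, h3, h4⟩ | ⟨h1, h2, h3, h4⟩ | ⟨ha', h1, h2, h3, h4⟩
  · simp only at h1 h2 h3 h4
    have h1' : -b < x' := lt_of_le_of_ne h1 (Ne.symm hg1)
    have h2' : x' < 0 := lt_of_le_of_ne h2 hg2
    have e0 : x - ((j + 1 : ℤ) : ℝ) * (2 * w + a + b) = -b - x' := by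
      rw [hx']; push_cast; ring
    have e1 : -b - x' < 0 := by linarith
    refine ⟨j + 1, floor_eq_of hW ?_ ?_, ?_, ?_, ?_⟩
    · rw [e0]; linarith
    · rw [e0]; linarith
    · rw [e0, if_pos e1]; ring
    · rw [e0]
      simp only [sfn, tfn, if_pos e1]
      push_cast
      have : α + k + j * (α - β) - y ≤ 1 + ((1 - β) * x') / b := by
        rw [← sub_le_iff_le_add', le_div_iff₀ hb']; linarith
      have e2 : β * -(-b - x') / b = β + β * x' / b := by field_simp; ring
      have e3 : -(-b - x') / b = 1 + x' / b := by field_simp; ring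
      have e4 : ((1 - β) * x') / b = x' / b - β * x' / b := by ring
      rw [e2, e3]
      rw [e4] at this
      linarith
    · rw [e0]
      simp only [sfn, if_pos e1]
      push_cast
      have : (β * -x') / b ≤ α + k + j * (α - β) - y := by
        rw [div_le_iff₀ hb']; linarith
      have e2 : β * -(-b - x') / b = β + β * x' / b := by field_simp; ring
      have e4 : (β * -x') / b = - (β * x' / b) := by ring
      rw [e2]
      rw [e4] at this
      linarith
  · simp only at h1 h2 h3 h4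
    have h1' : 0 < x' := lt_of_le_of_ne h1 (Ne.symm hg2)
    have h2' : x' < w := lt_of_le_of_ne h2 hg3
    have e0 : x - (j : ℝ) * (2 * w + a + b) = 2 * w + a - x' := by rw [hx']; ring
    have n1 : ¬ (2 * w + a - x' < 0) := by linarith
    have n2 : ¬ (2 * w + a - x' ≤ w) := by linarith
    have n3 : ¬ (2 * w + a - x' ≤ w + a) := by linarith
    refine ⟨j, floor_eq_of hW ?_ ?_, ?_, ?_, ?_⟩
    · rw [e0]; linarith
    · rw [e0]; linarith
    · rw [e0, if_neg n1]; ring
    · rw [e0]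
      simp only [sfn, tfn, if_neg n1, if_neg n2, if_neg n3]
      linarith
    · rw [e0]
      simp only [sfn, if_neg n1, if_neg n2, if_neg n3]
      linarith
  · simp only at h1 h2 h3 h4
    have h1' : w < x' := lt_of_le_of_ne h1 (Ne.symm hg3)
    have h2' : x' < w + a := lt_of_le_of_ne h2 hg4
    have e0 : x - (j : ℝ) * (2 * w + a + b) = 2 * w + a - x' := by rw [hx']; ring
    have n1 : ¬ (2 * w + a - x' < 0) := by linarith
    have n2 : ¬ (2 * w + a - x' ≤ w) := by linarith
    have n3 : 2 * w + a - x' ≤ w + a := by linarith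
    refine ⟨j, floor_eq_of hW ?_ ?_, ?_, ?_, ?_⟩
    · rw [e0]; linarith
    · rw [e0]; linarith
    · rw [e0, if_neg n1]; ring
    · rw [e0]
      simp only [sfn, tfn, if_neg n1, if_neg n2, if_pos n3]
      have : α + k + j * (α - β) - y ≤ 1 + ((α - 1) * (x' - w)) / a := by
        rw [← sub_le_iff_le_add', le_div_iff₀ ha']; linarith
      have e2 : α * (2 * w + a - x' - w) / a = α - α * (x' - w) / a := by field_simp; ring
      have e3 : (2 * w + a - x' - w) / a = 1 - (x' - w) / a := by field_simp; ring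
      have e4 : ((α - 1) * (x' - w)) / a = α * (x' - w) / a - (x' - w) / a := by ring
      rw [e2, e3]
      rw [e4] at this
      linarith
    · rw [e0]
      simp only [sfn, if_neg n1, if_neg n2, if_pos n3]
      have : α * (x' - w) / a ≤ α + k + j * (α - β) - y := by
        rw [div_le_iff₀ ha']; linarith
      have e2 : α * (2 * w + a - x' - w) / a = α - α * (x' - w) / a := by field_simp; ring
      rw [e2]
      linarith

/-- the tile through a point in general position -/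
theorem nf_index {w a b α β x y : ℝ} (hw : 0 ≤ w) (ha : 0 ≤ a) (hb : 0 ≤ b)
    (hs : 0 < w + a + b)
    (hx : ∀ j : ℤ, x ≠ j * (2 * w + a + b) - b ∧ x ≠ j * (2 * w + a + b) ∧
      x ≠ j * (2 * w + a + b) + w ∧ x ≠ j * (2 * w + a + b) + w + a)
    (hy : ∀ m : ℤ, y - ⌊(x + b) / (2 * w + a + b)⌋ * (α - β) - sfn w a b α β
        (x - ⌊(x + b) / (2 * w + a + b)⌋ * (2 * w + a + b)) ≠ m ∧
      y - ⌊(x + b) / (2 * w + a + b)⌋ * (α - β) - sfn w a b α β
        (x - ⌊(x + b) / (2 * w + a + b)⌋ * (2 * w + a + b)) +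
        tfn w a b (x - ⌊(x + b) / (2 * w + a + b)⌋ * (2 * w + a + b)) ≠ m)
    (i : Bool × ℤ × ℤ) (hi : (x, y) ∈ tile (NF w a b α β) (nft w a b α β i) (nfs i)) :
    (i.1 = true ↔ ⌊y - ⌊(x + b) / (2 * w + a + b)⌋ * (α - β) - sfn w a b α β
        (x - ⌊(x + b) / (2 * w + a + b)⌋ * (2 * w + a + b))⌋ =
      ⌊y - ⌊(x + b) / (2 * w + a + b)⌋ * (α - β) - sfn w a b α β
        (x - ⌊(x + b) / (2 * w + a + b)⌋ * (2 * w + a + b)) +
        tfn w a b (x - ⌊(x + b) / (2 * w + a + b)⌋ * (2 * w + a + b))⌋) ∧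
    i.2.1 = ⌊y - ⌊(x + b) / (2 * w + a + b)⌋ * (α - β) - sfn w a b α β
        (x - ⌊(x + b) / (2 * w + a + b)⌋ * (2 * w + a + b)) +
        tfn w a b (x - ⌊(x + b) / (2 * w + a + b)⌋ * (2 * w + a + b))⌋ ∧
    i.2.2 = ⌊(x + b) / (2 * w + a + b)⌋ - (if i.1 then 0 else
      (if x - ⌊(x + b) / (2 * w + a + b)⌋ * (2 * w + a + b) < 0 then 1 else 0)) := by
  have hW : 0 < 2 * w + a + b := by linarith
  obtain ⟨σ, k, j⟩ := i
  have hfl : -b ≤ x - ⌊(x + b) / (2 * w + a + b)⌋ * (2 * w + a + b) := by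
    have := Int.floor_le ((x + b) / (2 * w + a + b))
    rw [le_div_iff₀ hW] at this
    linarith
  have htf := tfn_mem (w := w) ha hb hfl
  cases σ
  · -- negative
    rw [mem_nf_minus] at hi
    obtain ⟨J, hJ, hj, h1, h2⟩ := minus_slice hw ha hb hs
      (fun e => (hx (j + 1)).2.1 (by push_cast; linarith))
      (fun e => (hx (j + 1)).1 (by push_cast; linarith))
      (fun e => (hx j).2.2.2 (by linarith))
      (fun e => (hx j).2.2.1 (by linarith)) hi
    rw [hJ] at hy htf ⊢
    set z := y - J * (α - β) - sfn w a b α β (x - J * (2 * w + a + b)) with hz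
    set θ := tfn w a b (x - J * (2 * w + a + b)) with hθ
    have h2' : z < k := lt_of_le_of_ne h2 (hy k).1
    have h1' : (k : ℝ) < z + θ := lt_of_le_of_ne (by linarith) (Ne.symm (hy k).2)
    have f1 : ⌊z + θ⌋ = k := by
      rw [Int.floor_eq_iff]; exact ⟨h1'.le, by linarith [htf.2]⟩
    have f2 : ⌊z⌋ ≠ k := by
      intro e
      have := Int.floor_le z
      rw [e] at this
      linarith
    refine ⟨?_, ?_, ?_⟩
    · simp [f1, f2]
    · exact f1.symm
    · simp only [Bool.false_eq_true, if_false]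
      exact hj
  · -- positive
    rw [mem_nf_plus] at hi
    obtain ⟨hJ, h1, h2⟩ := plus_slice hw ha hb hs
      (fun e => (hx j).2.1 (by linarith))
      (fun e => (hx j).2.2.1 (by linarith))
      (fun e => (hx j).2.2.2 (by linarith)) hi
    rw [hJ] at hy htf ⊢
    set z := y - j * (α - β) - sfn w a b α β (x - j * (2 * w + a + b)) with hz
    set θ := tfn w a b (x - j * (2 * w + a + b)) with hθ
    have h2' : z + θ < k + 1 := lt_of_le_of_ne (by linarith) (by
      have := (hy (k + 1)).2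
      push_cast at this
      exact this)
    have f1 : ⌊z + θ⌋ = k := by
      rw [Int.floor_eq_iff]; exact ⟨by linarith [htf.1], h2'⟩
    have f2 : ⌊z⌋ = k := by
      rw [Int.floor_eq_iff]; exact ⟨h1, by linarith [htf.1]⟩
    refine ⟨?_, ?_, ?_⟩
    · simp [f1, f2]
    · exact f1.symm
    · simp

theorem nf_dis {w a b α β : ℝ} (hw : 0 ≤ w) (ha : 0 ≤ a) (hb : 0 ≤ b)
    (hs : 0 < w + a + b) (i i' : Bool × ℤ × ℤ) (hii : i ≠ i') :
    Disjoint (interior (tile (NF w a b α β) (nft w a b α β i) (nfs i)))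
      (interior (tile (NF w a b α β) (nft w a b α β i') (nfs i'))) := by
  rw [Set.disjoint_left]
  intro p hp hp'
  have hO : IsOpen (interior (tile (NF w a b α β) (nft w a b α β i) (nfs i)) ∩
      interior (tile (NF w a b α β) (nft w a b α β i') (nfs i'))) :=
    isOpen_interior.inter isOpen_interior
  obtain ⟨U, V, hU, hV, hpU, hpV, hUV⟩ := isOpen_prod_iff.1 hO p.1 p.2 ⟨hp, hp'⟩
  -- a generic first coordinate
  have hcx : (⋃ j : ℤ, ({(j : ℝ) * (2 * w + a + b) - b, (j : ℝ) * (2 * w + a + b),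
      (j : ℝ) * (2 * w + a + b) + w, (j : ℝ) * (2 * w + a + b) + w + a} : Set ℝ)).Countable :=
    countable_iUnion fun j => (Set.toFinite _).countable
  obtain ⟨x, hxC, hxU⟩ := (hcx.dense_compl ℝ).exists_mem_open hU ⟨p.1, hpU⟩
  have hx : ∀ j : ℤ, x ≠ j * (2 * w + a + b) - b ∧ x ≠ j * (2 * w + a + b) ∧
      x ≠ j * (2 * w + a + b) + w ∧ x ≠ j * (2 * w + a + b) + w + a := by
    intro j
    have : x ∉ ({(j : ℝ) * (2 * w + a + b) - b, (j : ℝ) * (2 * w + a + b),
      (j : ℝ) * (2 * w + a + b) + w, (j : ℝ) * (2 * w + a + b) + w + a} : Set ℝ) :=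
      fun h => hxC (mem_iUnion.2 ⟨j, h⟩)
    simp only [mem_insert_iff, mem_singleton_iff, not_or] at this
    exact ⟨this.1, this.2.1, this.2.2.1, this.2.2.2⟩
  -- a generic second coordinate
  set J := ⌊(x + b) / (2 * w + a + b)⌋ with hJ
  set s := sfn w a b α β (x - J * (2 * w + a + b)) with hsd
  set θ := tfn w a b (x - J * (2 * w + a + b)) with hθ
  have hcy : (⋃ m : ℤ, ({(m : ℝ) + J * (α - β) + s, (m : ℝ) + J * (α - β) + s - θ} :
      Set ℝ)).Countable :=
    countable_iUnion fun j => (Set.toFinite _).countable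
  obtain ⟨y, hyC, hyV⟩ := (hcy.dense_compl ℝ).exists_mem_open hV ⟨p.2, hpV⟩
  have hy : ∀ m : ℤ, y - J * (α - β) - s ≠ m ∧ y - J * (α - β) - s + θ ≠ m := by
    intro m
    have : y ∉ ({(m : ℝ) + J * (α - β) + s, (m : ℝ) + J * (α - β) + s - θ} : Set ℝ) :=
      fun h => hyC (mem_iUnion.2 ⟨m, h⟩)
    simp only [mem_insert_iff, mem_singleton_iff, not_or] at this
    exact ⟨fun e => this.1 (by linarith), fun e => this.2 (by linarith)⟩
  have hxy := hUV (show (x, y) ∈ U ×ˢ V from ⟨hxU, hyV⟩)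
  have h1 := nf_index hw ha hb hs hx hy i (interior_subset hxy.1)
  have h2 := nf_index hw ha hb hs hx hy i' (interior_subset hxy.2)
  apply hii
  obtain ⟨σ, k, j⟩ := i
  obtain ⟨σ', k', j'⟩ := i'
  have e1 : σ = σ' := Bool.eq_iff_iff.2 (h1.1.trans h2.1.symm)
  have e2 : k = k' := h1.2.1.trans h2.2.1.symm
  subst e1
  have e3 : j = j' := h1.2.2.trans h2.2.2.symm
  rw [e2, e3]

theorem nf_cov {w a b α β : ℝ} (hw : 0 ≤ w) (ha : 0 ≤ a) (hb : 0 ≤ b)
    (hs : 0 < w + a + b) (p : ℝ × ℝ) :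
    ∃ i, p ∈ tile (NF w a b α β) (nft w a b α β i) (nfs i) := by
  obtain ⟨x, y⟩ := p
  have hW : 0 < 2 * w + a + b := by linarith
  set J := ⌊(x + b) / (2 * w + a + b)⌋ with hJ
  have hfl : -b ≤ x - J * (2 * w + a + b) := by
    have := Int.floor_le ((x + b) / (2 * w + a + b))
    rw [le_div_iff₀ hW] at this
    linarith
  have hfl2 : x - J * (2 * w + a + b) < 2 * w + a := by
    have := Int.lt_floor_add_one ((x + b) / (2 * w + a + b))
    rw [div_lt_iff₀ hW] at this
    linarith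
  set x₀ := x - J * (2 * w + a + b) with hx₀
  by_cases c1 : x₀ < 0
  · have hb' : 0 < b := by linarith
    set s := β * (-x₀) / b with hsd
    set θ := (-x₀) / b with hθ
    have hsb : s * b = β * (-x₀) := by rw [hsd]; field_simp
    have hθb : θ * b = -x₀ := by rw [hθ]; field_simp
    set z := y - J * (α - β) - s with hz
    have f1 := Int.floor_le z
    have f2 := Int.lt_floor_add_one z
    by_cases c : z ≤ ⌊z⌋ + 1 - θ
    · refine ⟨(true, ⌊z⌋, J), ?_⟩
      rw [mem_nf_plus, ← hx₀]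
      left
      refine ⟨hb', hfl, c1.le, ?_, ?_⟩
      · simp only
        have : s ≤ y - ⌊z⌋ - J * (α - β) := by linarith
        calc β * (-x₀) = s * b := hsb.symm
          _ ≤ (y - ⌊z⌋ - J * (α - β)) * b := mul_le_mul_of_nonneg_right this hb
          _ = b * (y - ⌊z⌋ - J * (α - β)) := by ring
      · simp only
        have : y - ⌊z⌋ - J * (α - β) ≤ 1 + s - θ := by linarith
        calc b * (y - ⌊z⌋ - J * (α - β)) = (y - ⌊z⌋ - J * (α - β)) * b := by ring
          _ ≤ (1 + s - θ) * b := mul_le_mul_of_nonneg_right this hb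
          _ = b + s * b - θ * b := by ring
          _ = b + (β - 1) * (-x₀) := by rw [hsb, hθb]; ring
    · push Not at c
      refine ⟨(false, ⌊z⌋ + 1, J - 1), ?_⟩
      rw [mem_nf_minus]
      have e0 : 2 * w + a + ((J - 1 : ℤ) : ℝ) * (2 * w + a + b) - x = -b - x₀ := by
        rw [hx₀]; push_cast; ring
      have e1 : α + ((⌊z⌋ + 1 : ℤ) : ℝ) + ((J - 1 : ℤ) : ℝ) * (α - β) - y =
          β + (⌊z⌋ + 1) - (z + s) := by
        rw [hz]; push_cast; ring
      rw [e0, e1]
      left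
      refine ⟨hb', by simp only; linarith, by simp only; linarith, ?_, ?_⟩
      · simp only
        have : s ≤ (⌊z⌋ : ℝ) + 1 - z + s := by linarith
        have h3 : β * -(-b - x₀) = β * b - s * b := by rw [hsb]; ring
        rw [h3]
        nlinarith
      · simp only
        have h3 : (β - 1) * -(-b - x₀) = (β - 1) * b - s * b + θ * b := by rw [hsb, hθb]; ring
        rw [h3]
        nlinarith
  push Not at c1
  by_cases c2 : x₀ ≤ w
  · set z := y - J * (α - β) with hz
    have f1 := Int.floor_le z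
    have f2 := Int.lt_floor_add_one z
    refine ⟨(true, ⌊z⌋, J), ?_⟩
    rw [mem_nf_plus, ← hx₀]
    right; left
    exact ⟨c1, c2, by simp only; linarith, by simp only; linarith⟩
  push Not at c2
  by_cases c3 : x₀ ≤ w + a
  · have ha' : 0 < a := by linarith
    set s := α * (x₀ - w) / a with hsd
    set θ := (x₀ - w) / a with hθ
    have hsb : s * a = α * (x₀ - w) := by rw [hsd]; field_simp
    have hθb : θ * a = x₀ - w := by rw [hθ]; field_simp
    set z := y - J * (α - β) - s with hz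
    have f1 := Int.floor_le z
    have f2 := Int.lt_floor_add_one z
    by_cases c : z ≤ ⌊z⌋ + 1 - θ
    · refine ⟨(true, ⌊z⌋, J), ?_⟩
      rw [mem_nf_plus, ← hx₀]
      right; right
      refine ⟨ha', c2.le, c3, ?_, ?_⟩
      · simp only
        have : s ≤ y - ⌊z⌋ - J * (α - β) := by linarith
        calc α * (x₀ - w) = s * a := hsb.symm
          _ ≤ (y - ⌊z⌋ - J * (α - β)) * a := mul_le_mul_of_nonneg_right this ha
          _ = a * (y - ⌊z⌋ - J * (α - β)) := by ring
      · simp only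
        have : y - ⌊z⌋ - J * (α - β) ≤ 1 + s - θ := by linarith
        calc a * (y - ⌊z⌋ - J * (α - β)) = (y - ⌊z⌋ - J * (α - β)) * a := by ring
          _ ≤ (1 + s - θ) * a := mul_le_mul_of_nonneg_right this ha
          _ = a + s * a - θ * a := by ring
          _ = a + (α - 1) * (x₀ - w) := by rw [hsb, hθb]; ring
    · push Not at c
      refine ⟨(false, ⌊z⌋ + 1, J), ?_⟩
      rw [mem_nf_minus]
      have e0 : 2 * w + a + (J : ℝ) * (2 * w + a + b) - x = 2 * w + a - x₀ := by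
        rw [hx₀]; ring
      have e1 : α + ((⌊z⌋ + 1 : ℤ) : ℝ) + (J : ℝ) * (α - β) - y =
          α + (⌊z⌋ + 1) - (z + s) := by
        rw [hz]; push_cast; ring
      rw [e0, e1]
      right; right
      refine ⟨ha', by simp only; linarith, by simp only; linarith, ?_, ?_⟩
      · simp only
        have h3 : α * (2 * w + a - x₀ - w) = α * a - s * a := by rw [hsb]; ring
        rw [h3]
        nlinarith
      · simp only
        have h3 : (α - 1) * (2 * w + a - x₀ - w) = (α - 1) * a - s * a + θ * a := by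
          rw [hsb, hθb]; ring
        rw [h3]
        nlinarith
  · push Not at c3
    set z := y - J * (α - β) - α with hz
    have f1 := Int.floor_le z
    have f2 := Int.lt_floor_add_one z
    refine ⟨(false, ⌊z⌋ + 1, J), ?_⟩
    rw [mem_nf_minus]
    have e0 : 2 * w + a + (J : ℝ) * (2 * w + a + b) - x = 2 * w + a - x₀ := by
      rw [hx₀]; ring
    rw [e0]
    right; left
    refine ⟨by simp only; linarith, by simp only; linarith, ?_, ?_⟩
    · simp only; push_cast; linarith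
    · simp only; push_cast; linarith

theorem tiles_NF {w a b : ℝ} (α β : ℝ) (hw : 0 ≤ w) (ha : 0 ≤ a) (hb : 0 ≤ b)
    (hs : 0 < w + a + b) : Tiles (NF w a b α β) := by
  rw [tiles_iff]
  exact ⟨Bool × ℤ × ℤ, nft w a b α β, nfs, nfs_sgn, nf_cov hw ha hb hs, nf_dis hw ha hb hs⟩

end Pool.PT56
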