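import Pool.Agent.PT56.PolyH
import Pool.Agent.PT56.NF

set_option autoImplicit false
set_option linter.unusedSectionVars false

/-!
# PT56/ToNFB: pentagons with two parallel sides and hexagons in normal form

`NF_eq`: the set `NF w a b α β` (`0 ≤ w, a, b`, `0 ≤ α, β ≤ 1`) by linear inequalities.
`co p0 e1 e2 x`: the coordinates of `x` with respect to the origin `p0` and the basis `e1`, `e2`.
`body_eq`: the polygon `body v` is the image of the set given by the inequalities for the coordinates.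
-/

namespace Pool.PT56

open Set Filter Topology

namespace ToNFBAux

theorem NF_eq {w a b α β : ℝ} (hw : 0 ≤ w) (ha : 0 ≤ a) (hb : 0 ≤ b) (hα : 0 ≤ α) (hα1 : α ≤ 1)
    (hβ : 0 ≤ β) (hβ1 : β ≤ 1) (y : ℝ × ℝ) : y ∈ NF w a b α β ↔
      0 ≤ y.2 ∧ y.2 ≤ 1 ∧ α * (y.1 - w) ≤ a * y.2 ∧ a * y.2 ≤ a + (α - 1) * (y.1 - w) ∧
        b * y.2 ≤ b + (1 - β) * y.1 ∧ 0 ≤ b * y.2 + β * y.1 := by
  obtain ⟨x, z⟩ := y
  simp only [NF, mem_ofPred_eq]
  constructor
  · rintro (⟨h0, h1, h2, h3, h4⟩ | ⟨h1, h2, h3, h4⟩ | ⟨h0, h1, h2, h3, h4⟩)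
    · have hz0 : 0 ≤ z := by
        by_contra hz
        push Not at hz
        nlinarith [mul_nonneg hβ (neg_nonneg.mpr h2), mul_pos h0 (neg_pos.mpr hz)]
      have hz1 : z ≤ 1 := by
        by_contra hz
        push Not at hz
        nlinarith [mul_nonneg (sub_nonneg.mpr hβ1) (neg_nonneg.mpr h2),
          mul_pos h0 (sub_pos.mpr hz)]
      have hwx : 0 ≤ w - x := by linarith
      refine ⟨hz0, hz1, ?_, ?_, by linarith, by linarith⟩
      · nlinarith [mul_nonneg hα hwx, mul_nonneg ha hz0]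
      · nlinarith [mul_nonneg (sub_nonneg.mpr hα1) hwx, mul_nonneg ha (sub_nonneg.mpr hz1)]
    · have hwx : 0 ≤ w - x := by linarith
      refine ⟨h3, h4, ?_, ?_, ?_, ?_⟩
      · nlinarith [mul_nonneg hα hwx, mul_nonneg ha h3]
      · nlinarith [mul_nonneg (sub_nonneg.mpr hα1) hwx, mul_nonneg ha (sub_nonneg.mpr h4)]
      · nlinarith [mul_nonneg (sub_nonneg.mpr hβ1) h1, mul_nonneg hb (sub_nonneg.mpr h4)]
      · nlinarith [mul_nonneg hβ h1, mul_nonneg hb h3]
    · have hwx : 0 ≤ x - w := by linarith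
      have hx : 0 ≤ x := by linarith
      have hz0 : 0 ≤ z := by
        by_contra hz
        push Not at hz
        nlinarith [mul_nonneg hα hwx, mul_pos h0 (neg_pos.mpr hz)]
      have hz1 : z ≤ 1 := by
        by_contra hz
        push Not at hz
        nlinarith [mul_nonneg (sub_nonneg.mpr hα1) hwx, mul_pos h0 (sub_pos.mpr hz)]
      refine ⟨hz0, hz1, h3, h4, ?_, ?_⟩
      · nlinarith [mul_nonneg (sub_nonneg.mpr hβ1) hx, mul_nonneg hb (sub_nonneg.mpr hz1)]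
      · nlinarith [mul_nonneg hβ hx, mul_nonneg hb hz0]
  · rintro ⟨h1, h2, h3, h4, h5, h6⟩
    rcases le_total x 0 with hx | hx
    · rcases hb.lt_or_eq with hb' | hb'
      · left
        exact ⟨hb', by linarith, hx, by linarith, by linarith⟩
      · right; left
        rw [← hb'] at h5 h6
        have : 0 ≤ x := by linarith
        exact ⟨this, by linarith, h1, h2⟩
    · rcases le_total x w with hxw | hxw
      · right; left
        exact ⟨hx, hxw, h1, h2⟩
      · rcases ha.lt_or_eq with ha' | ha'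
        · right; right
          exact ⟨ha', hxw, by linarith, h3, h4⟩
        · right; left
          rw [← ha'] at h3 h4
          have : x ≤ w := by linarith
          exact ⟨hx, this, h1, h2⟩

/-- coordinates -/
noncomputable def co (p0 e1 e2 x : ℝ × ℝ) : ℝ × ℝ :=
  (det (x - p0) e2 / det e1 e2, det e1 (x - p0) / det e1 e2)

theorem co_spec {p0 e1 e2 : ℝ × ℝ} (h : 0 < det e1 e2) (x : ℝ × ℝ) :
    p0 + (co p0 e1 e2 x).1 • e1 + (co p0 e1 e2 x).2 • e2 = x := by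
  have h' : det e1 e2 ≠ 0 := h.ne'
  unfold co
  ext
  · simp only [Prod.fst_add, Prod.smul_fst, smul_eq_mul]
    field_simp
    simp only [det, Prod.fst_sub, Prod.snd_sub]
    ring
  · simp only [Prod.snd_add, Prod.smul_snd, smul_eq_mul]
    field_simp
    simp only [det, Prod.fst_sub, Prod.snd_sub]
    ring

theorem co_unique {p0 e1 e2 : ℝ × ℝ} (h : 0 < det e1 e2) {x : ℝ × ℝ} {s t : ℝ}
    (hx : x = p0 + s • e1 + t • e2) : co p0 e1 e2 x = (s, t) := by
  have h' : det e1 e2 ≠ 0 := h.ne'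
  unfold co
  rw [hx]
  ext
  · show det (p0 + s • e1 + t • e2 - p0) e2 / det e1 e2 = s
    rw [div_eq_iff h']
    simp only [det, Prod.fst_sub, Prod.snd_sub, Prod.fst_add, Prod.snd_add, Prod.smul_fst,
      Prod.smul_snd, smul_eq_mul]
    ring
  · show det e1 (p0 + s • e1 + t • e2 - p0) / det e1 e2 = t
    rw [div_eq_iff h']
    simp only [det, Prod.fst_sub, Prod.snd_sub, Prod.fst_add, Prod.snd_add, Prod.smul_fst,
      Prod.smul_snd, smul_eq_mul]
    ring

theorem det_aff (p0 e1 e2 x y z w : ℝ × ℝ) :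
    det ((p0 + x.1 • e1 + x.2 • e2) - (p0 + y.1 • e1 + y.2 • e2))
      ((p0 + z.1 • e1 + z.2 • e2) - (p0 + w.1 • e1 + w.2 • e2)) =
      det e1 e2 * det (x - y) (z - w) := by
  simp only [det, Prod.fst_sub, Prod.snd_sub, Prod.fst_add, Prod.snd_add, Prod.smul_fst,
    Prod.smul_snd, smul_eq_mul]
  ring

theorem det_co {p0 e1 e2 : ℝ × ℝ} (h : 0 < det e1 e2) (x y z w : ℝ × ℝ) :
    det (x - y) (z - w) = det e1 e2 *
      det (co p0 e1 e2 x - co p0 e1 e2 y) (co p0 e1 e2 z - co p0 e1 e2 w) := by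
  rw [← det_aff p0, co_spec h, co_spec h, co_spec h, co_spec h]

theorem body_eq {n : ℕ} {v : ZMod n → ℝ × ℝ} (hv : IsPoly v) {p0 e1 e2 : ℝ × ℝ}
    (h : 0 < det e1 e2) : body v = (fun x : ℝ × ℝ => p0 + x.1 • e1 + x.2 • e2) ''
      {y | ∀ i, 0 ≤ det (co p0 e1 e2 (v (i + 1)) - co p0 e1 e2 (v i))
        (y - co p0 e1 e2 (v i))} := by
  ext x
  rw [hv.mem_body_iff]
  constructor
  · intro hx
    refine ⟨co p0 e1 e2 x, ?_, co_spec h x⟩
    intro i
    have := hx i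
    rw [side, det_co (p0 := p0) h] at this
    exact nonneg_of_mul_nonneg_right this h
  · rintro ⟨y, hy, rfl⟩ i
    rw [side, det_co (p0 := p0) h]
    rw [co_unique h (rfl : p0 + y.1 • e1 + y.2 • e2 = _)]
    exact mul_nonneg h.le (hy i)

theorem pos_co {n : ℕ} {v : ZMod n → ℝ × ℝ} (hv : IsPoly v) {p0 e1 e2 : ℝ × ℝ}
    (h : 0 < det e1 e2) {i j : ZMod n} (h1 : j ≠ i) (h2 : j ≠ i + 1) :
    0 < det (co p0 e1 e2 (v (i + 1)) - co p0 e1 e2 (v i))
        (co p0 e1 e2 (v j) - co p0 e1 e2 (v i)) := by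
  have := hv.pos i j h1 h2
  rw [det_co (p0 := p0) h] at this
  exact (mul_pos_iff_of_pos_left h).mp this

end ToNFBAux

open ToNFBAux

theorem pent_NF {v : ZMod 5 → ℝ × ℝ} (hv : IsPoly v)
    (h : det (v 1 - v 0) (v 3 - v 2) = 0) : ∃ p0 e1 e2 : ℝ × ℝ, ∃ w a b α β : ℝ,
    det e1 e2 ≠ 0 ∧ 0 ≤ w ∧ 0 ≤ a ∧ 0 ≤ b ∧ 0 < w + a + b ∧
      body v = (fun x : ℝ × ℝ => p0 + x.1 • e1 + x.2 • e2) '' NF w a b α β := by
  have hd : 0 < det (v 1 - v 0) (v 3 - v 0) :=
    hv.pos 0 3 (by decide) (by decide)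
  have P : ∀ i j : ZMod 5, j ≠ i → j ≠ i + 1 →
      0 < det (co (v 0) (v 1 - v 0) (v 3 - v 0) (v (i + 1)) -
          co (v 0) (v 1 - v 0) (v 3 - v 0) (v i))
        (co (v 0) (v 1 - v 0) (v 3 - v 0) (v j) - co (v 0) (v 1 - v 0) (v 3 - v 0) (v i)) :=
    fun i j h1 h2 => pos_co hv hd h1 h2
  have u0 : co (v 0) (v 1 - v 0) (v 3 - v 0) (v 0) = (0, 0) :=
    co_unique hd (by simp)
  have u1 : co (v 0) (v 1 - v 0) (v 3 - v 0) (v 1) = (1, 0) :=
    co_unique hd (by simp)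
  have u3 : co (v 0) (v 1 - v 0) (v 3 - v 0) (v 3) = (0, 1) :=
    co_unique hd (by simp)
  have hpar : det (co (v 0) (v 1 - v 0) (v 3 - v 0) (v 1) -
      co (v 0) (v 1 - v 0) (v 3 - v 0) (v 0))
      (co (v 0) (v 1 - v 0) (v 3 - v 0) (v 3) - co (v 0) (v 1 - v 0) (v 3 - v 0) (v 2)) = 0 := by
    have := det_co (p0 := v 0) hd (v 1) (v 0) (v 3) (v 2)
    rw [h] at this
    rcases mul_eq_zero.mp this.symm with h1 | h1
    · exact absurd h1 hd.ne'
    · exact h1
  obtain ⟨c, d, u2⟩ : ∃ c d : ℝ, co (v 0) (v 1 - v 0) (v 3 - v 0) (v 2) = (c, d) :=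
    ⟨_, _, rfl⟩
  obtain ⟨b', β, u4⟩ : ∃ b' β : ℝ, co (v 0) (v 1 - v 0) (v 3 - v 0) (v 4) = (b', β) :=
    ⟨_, _, rfl⟩
  rw [u0, u1, u3, u2] at hpar
  have hd1 : d = 1 := by
    simp [det] at hpar
    linarith
  subst hd1
  have p20 := P 2 0 (by decide) (by decide)
  have p30 := P 3 0 (by decide) (by decide)
  have p04 := P 0 4 (by decide) (by decide)
  have p24 := P 2 4 (by decide) (by decide)
  rw [show (2 : ZMod 5) + 1 = 3 by decide] at p20 p24
  rw [show (3 : ZMod 5) + 1 = 4 by decide] at p30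
  rw [show (0 : ZMod 5) + 1 = 1 by decide] at p04
  rw [u0, u2, u3] at p20
  rw [u0, u3, u4] at p30
  rw [u0, u1, u4] at p04
  rw [u2, u3, u4] at p24
  simp only [det, Prod.mk_sub_mk] at p20 p30 p04 p24
  have hc : 0 < c := by linarith
  have hb : b' < 0 := by linarith
  have hβ : 0 < β := by linarith
  have hβ1 : β < 1 := by nlinarith
  have hset : ∀ y : ℝ × ℝ, (∀ i : ZMod 5, 0 ≤ det (co (v 0) (v 1 - v 0) (v 3 - v 0) (v (i + 1)) -
      co (v 0) (v 1 - v 0) (v 3 - v 0) (v i)) (y - co (v 0) (v 1 - v 0) (v 3 - v 0) (v i))) ↔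
      0 ≤ y.2 ∧ 0 ≤ (c - 1) * y.2 - (y.1 - 1) ∧ y.2 ≤ 1 ∧
        0 ≤ b' * (y.2 - 1) - (β - 1) * y.1 ∧ 0 ≤ -b' * y.2 + β * y.1 := by
    intro y
    constructor
    · intro H
      have H0 := H 0
      have H1 := H 1
      have H2 := H 2
      have H3 := H 3
      have H4 := H 4
      rw [show (0 : ZMod 5) + 1 = 1 by decide, u0, u1] at H0
      rw [show (1 : ZMod 5) + 1 = 2 by decide, u1, u2] at H1
      rw [show (2 : ZMod 5) + 1 = 3 by decide, u2, u3] at H2
      rw [show (3 : ZMod 5) + 1 = 4 by decide, u3, u4] at H3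
      rw [show (4 : ZMod 5) + 1 = 0 by decide, u4, u0] at H4
      simp only [det, Prod.fst_sub, Prod.snd_sub] at H0 H1 H2 H3 H4
      refine ⟨by linarith, by linarith, ?_, by linarith, by linarith⟩
      by_contra hy
      push Not at hy
      nlinarith
    · rintro ⟨H0, H1, H2, H3, H4⟩ i
      fin_cases i
      · show 0 ≤ det (co (v 0) (v 1 - v 0) (v 3 - v 0) (v 1) -
          co (v 0) (v 1 - v 0) (v 3 - v 0) (v 0)) (y - co (v 0) (v 1 - v 0) (v 3 - v 0) (v 0))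
        rw [u0, u1]
        simp only [det, Prod.fst_sub, Prod.snd_sub]
        linarith
      · show 0 ≤ det (co (v 0) (v 1 - v 0) (v 3 - v 0) (v 2) -
          co (v 0) (v 1 - v 0) (v 3 - v 0) (v 1)) (y - co (v 0) (v 1 - v 0) (v 3 - v 0) (v 1))
        rw [u1, u2]
        simp only [det, Prod.fst_sub, Prod.snd_sub]
        linarith
      · show 0 ≤ det (co (v 0) (v 1 - v 0) (v 3 - v 0) (v 3) -
          co (v 0) (v 1 - v 0) (v 3 - v 0) (v 2)) (y - co (v 0) (v 1 - v 0) (v 3 - v 0) (v 2))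
        rw [u2, u3]
        simp only [det, Prod.fst_sub, Prod.snd_sub]
        nlinarith [mul_nonneg hc.le (sub_nonneg.mpr H2)]
      · show 0 ≤ det (co (v 0) (v 1 - v 0) (v 3 - v 0) (v 4) -
          co (v 0) (v 1 - v 0) (v 3 - v 0) (v 3)) (y - co (v 0) (v 1 - v 0) (v 3 - v 0) (v 3))
        rw [u3, u4]
        simp only [det, Prod.fst_sub, Prod.snd_sub]
        linarith
      · show 0 ≤ det (co (v 0) (v 1 - v 0) (v 3 - v 0) (v 0) -
          co (v 0) (v 1 - v 0) (v 3 - v 0) (v 4)) (y - co (v 0) (v 1 - v 0) (v 3 - v 0) (v 4))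
        rw [u0, u4]
        simp only [det, Prod.fst_sub, Prod.snd_sub]
        linarith
  have hbody := body_eq hv (p0 := v 0) hd
  rcases le_total c 1 with hc1 | hc1
  · refine ⟨v 0, v 1 - v 0, v 3 - v 0, c, 1 - c, -b', 0, β, hd.ne', hc.le, by linarith,
      by linarith, by linarith, ?_⟩
    rw [hbody]
    congr 1
    ext y
    rw [NF_eq hc.le (by linarith) (by linarith) le_rfl zero_le_one hβ.le hβ1.le, mem_ofPred_eq,
      hset]
    constructor
    · rintro ⟨H0, H1, H2, H3, H4⟩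
      exact ⟨H0, H2, by nlinarith [mul_nonneg (sub_nonneg.mpr hc1) H0], by linarith,
        by linarith, by linarith⟩
    · rintro ⟨H0, H2, _, H1, H3, H4⟩
      exact ⟨H0, by linarith, H2, by linarith, by linarith⟩
  · refine ⟨v 0, v 1 - v 0, v 3 - v 0, 1, c - 1, -b', 1, β, hd.ne', zero_le_one, by linarith,
      by linarith, by linarith, ?_⟩
    rw [hbody]
    congr 1
    ext y
    rw [NF_eq zero_le_one (by linarith) (by linarith) zero_le_one le_rfl hβ.le hβ1.le,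
      mem_ofPred_eq, hset]
    constructor
    · rintro ⟨H0, H1, H2, H3, H4⟩
      exact ⟨H0, H2, by linarith,
        by nlinarith [mul_nonneg (sub_nonneg.mpr hc1) (sub_nonneg.mpr H2)], by linarith,
        by linarith⟩
    · rintro ⟨H0, H2, H1, _, H3, H4⟩
      exact ⟨H0, by linarith, H2, by linarith, by linarith⟩

theorem hex_NF {v : ZMod 6 → ℝ × ℝ} (hv : IsPoly v)
    (h : v 1 - v 0 = v 3 - v 4) : ∃ p0 e1 e2 : ℝ × ℝ, ∃ w a b α β : ℝ,
    det e1 e2 ≠ 0 ∧ 0 ≤ w ∧ 0 ≤ a ∧ 0 ≤ b ∧ 0 < w + a + b ∧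
      body v = (fun x : ℝ × ℝ => p0 + x.1 • e1 + x.2 • e2) '' NF w a b α β := by
  have hd : 0 < det (v 1 - v 0) (v 4 - v 0) :=
    hv.pos 0 4 (by decide) (by decide)
  have P : ∀ i j : ZMod 6, j ≠ i → j ≠ i + 1 →
      0 < det (co (v 0) (v 1 - v 0) (v 4 - v 0) (v (i + 1)) -
          co (v 0) (v 1 - v 0) (v 4 - v 0) (v i))
        (co (v 0) (v 1 - v 0) (v 4 - v 0) (v j) - co (v 0) (v 1 - v 0) (v 4 - v 0) (v i)) :=
    fun i j h1 h2 => pos_co hv hd h1 h2
  have u0 : co (v 0) (v 1 - v 0) (v 4 - v 0) (v 0) = (0, 0) :=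
    co_unique hd (by simp)
  have u1 : co (v 0) (v 1 - v 0) (v 4 - v 0) (v 1) = (1, 0) :=
    co_unique hd (by simp)
  have u4 : co (v 0) (v 1 - v 0) (v 4 - v 0) (v 4) = (0, 1) :=
    co_unique hd (by simp)
  have u3 : co (v 0) (v 1 - v 0) (v 4 - v 0) (v 3) = (1, 1) := by
    apply co_unique hd
    rw [one_smul, one_smul, h]
    abel
  obtain ⟨a', α, u2⟩ : ∃ a' α : ℝ, co (v 0) (v 1 - v 0) (v 4 - v 0) (v 2) = (a', α) :=
    ⟨_, _, rfl⟩
  obtain ⟨b', β, u5⟩ : ∃ b' β : ℝ, co (v 0) (v 1 - v 0) (v 4 - v 0) (v 5) = (b', β) :=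
    ⟨_, _, rfl⟩
  have p02 := P 0 2 (by decide) (by decide)
  have p13 := P 1 3 (by decide) (by decide)
  have p32 := P 3 2 (by decide) (by decide)
  have p05 := P 0 5 (by decide) (by decide)
  have p35 := P 3 5 (by decide) (by decide)
  have p40 := P 4 0 (by decide) (by decide)
  rw [show (0 : ZMod 6) + 1 = 1 by decide] at p02 p05
  rw [show (1 : ZMod 6) + 1 = 2 by decide] at p13
  rw [show (3 : ZMod 6) + 1 = 4 by decide] at p32 p35
  rw [show (4 : ZMod 6) + 1 = 5 by decide] at p40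
  rw [u0, u1, u2] at p02
  rw [u1, u2, u3] at p13
  rw [u2, u3, u4] at p32
  rw [u0, u1, u5] at p05
  rw [u3, u4, u5] at p35
  rw [u0, u4, u5] at p40
  simp only [det, Prod.mk_sub_mk] at p02 p13 p32 p05 p35 p40
  have ha : 1 < a' := by linarith
  have hα : 0 < α := by linarith
  have hα1 : α < 1 := by linarith
  have hb : b' < 0 := by linarith
  have hβ : 0 < β := by linarith
  have hβ1 : β < 1 := by linarith
  have hset : ∀ y : ℝ × ℝ, (∀ i : ZMod 6, 0 ≤ det (co (v 0) (v 1 - v 0) (v 4 - v 0) (v (i + 1)) -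
      co (v 0) (v 1 - v 0) (v 4 - v 0) (v i)) (y - co (v 0) (v 1 - v 0) (v 4 - v 0) (v i))) ↔
      0 ≤ y.2 ∧ y.2 ≤ 1 ∧ α * (y.1 - 1) ≤ (a' - 1) * y.2 ∧
        (a' - 1) * y.2 ≤ (a' - 1) + (α - 1) * (y.1 - 1) ∧
        (-b') * y.2 ≤ (-b') + (1 - β) * y.1 ∧ 0 ≤ (-b') * y.2 + β * y.1 := by
    intro y
    constructor
    · intro H
      have H0 := H 0
      have H1 := H 1
      have H2 := H 2
      have H3 := H 3
      have H4 := H 4
      have H5 := H 5
      rw [show (0 : ZMod 6) + 1 = 1 by decide, u0, u1] at H0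
      rw [show (1 : ZMod 6) + 1 = 2 by decide, u1, u2] at H1
      rw [show (2 : ZMod 6) + 1 = 3 by decide, u2, u3] at H2
      rw [show (3 : ZMod 6) + 1 = 4 by decide, u3, u4] at H3
      rw [show (4 : ZMod 6) + 1 = 5 by decide, u4, u5] at H4
      rw [show (5 : ZMod 6) + 1 = 0 by decide, u5, u0] at H5
      simp only [det, Prod.fst_sub, Prod.snd_sub] at H0 H1 H2 H3 H4 H5
      exact ⟨by linarith, by linarith, by linarith, by linarith, by linarith, by linarith⟩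
    · rintro ⟨H0, H3, H1, H2, H4, H5⟩ i
      fin_cases i
      · show 0 ≤ det (co (v 0) (v 1 - v 0) (v 4 - v 0) (v 1) -
          co (v 0) (v 1 - v 0) (v 4 - v 0) (v 0)) (y - co (v 0) (v 1 - v 0) (v 4 - v 0) (v 0))
        rw [u0, u1]
        simp only [det, Prod.fst_sub, Prod.snd_sub]
        linarith
      · show 0 ≤ det (co (v 0) (v 1 - v 0) (v 4 - v 0) (v 2) -
          co (v 0) (v 1 - v 0) (v 4 - v 0) (v 1)) (y - co (v 0) (v 1 - v 0) (v 4 - v 0) (v 1))
        rw [u1, u2]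
        simp only [det, Prod.fst_sub, Prod.snd_sub]
        linarith
      · show 0 ≤ det (co (v 0) (v 1 - v 0) (v 4 - v 0) (v 3) -
          co (v 0) (v 1 - v 0) (v 4 - v 0) (v 2)) (y - co (v 0) (v 1 - v 0) (v 4 - v 0) (v 2))
        rw [u2, u3]
        simp only [det, Prod.fst_sub, Prod.snd_sub]
        linarith
      · show 0 ≤ det (co (v 0) (v 1 - v 0) (v 4 - v 0) (v 4) -
          co (v 0) (v 1 - v 0) (v 4 - v 0) (v 3)) (y - co (v 0) (v 1 - v 0) (v 4 - v 0) (v 3))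
        rw [u3, u4]
        simp only [det, Prod.fst_sub, Prod.snd_sub]
        linarith
      · show 0 ≤ det (co (v 0) (v 1 - v 0) (v 4 - v 0) (v 5) -
          co (v 0) (v 1 - v 0) (v 4 - v 0) (v 4)) (y - co (v 0) (v 1 - v 0) (v 4 - v 0) (v 4))
        rw [u4, u5]
        simp only [det, Prod.fst_sub, Prod.snd_sub]
        linarith
      · show 0 ≤ det (co (v 0) (v 1 - v 0) (v 4 - v 0) (v 0) -
          co (v 0) (v 1 - v 0) (v 4 - v 0) (v 5)) (y - co (v 0) (v 1 - v 0) (v 4 - v 0) (v 5))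
        rw [u0, u5]
        simp only [det, Prod.fst_sub, Prod.snd_sub]
        linarith
  refine ⟨v 0, v 1 - v 0, v 4 - v 0, 1, a' - 1, -b', α, β, hd.ne', zero_le_one, by linarith,
    by linarith, by linarith, ?_⟩
  rw [body_eq hv (p0 := v 0) hd]
  congr 1
  ext y
  rw [NF_eq zero_le_one (by linarith) (by linarith) hα.le hα1.le hβ.le hβ1.le, mem_ofPred_eq,
    hset]

end Pool.PT56
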