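import Pool.Agent.PT56.ToNFa
import Pool.Agent.PT56.ToNFB

set_option autoImplicit false
set_option linter.unusedSectionVars false

/-!
# PT56/ToNF: good polygons tile

Relabel the vertices (`IsPoly.rot`, `body_rot`), bring the polygon to normal form (`tri_NF`, `quad_NF`,
`pent_NF`, `hex_NF`) and use `tiles_NF` and `tiles_affine`.
-/

namespace Pool.PT56

open Set Filter Topology

section

variable {n : ℕ} {v : ZMod n → ℝ × ℝ}

theorem tiles_of_form {K : Set (ℝ × ℝ)} (h : ∃ p0 e1 e2 : ℝ × ℝ, ∃ w a b α β : ℝ,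
    det e1 e2 ≠ 0 ∧ 0 ≤ w ∧ 0 ≤ a ∧ 0 ≤ b ∧ 0 < w + a + b ∧
      K = (fun x : ℝ × ℝ => p0 + x.1 • e1 + x.2 • e2) '' NF w a b α β) : Tiles K := by
  obtain ⟨p0, e1, e2, w, a, b, α, β, hd, hw, ha, hb, hs, rfl⟩ := h
  exact tiles_affine p0 e1 e2 hd (tiles_NF α β hw ha hb hs)

theorem tiles_of_good (hv : IsPoly v) (hg : Good v) : Tiles (body v) := by
  rcases hg with h | ⟨rfl, i, hi⟩ | ⟨rfl, i, hi⟩
  · have h3 := hv.three
    rcases (by omega : n = 3 ∨ n = 4) with rfl | rfl
    · exact tiles_of_form (tri_NF hv)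
    · exact tiles_of_form (quad_NF hv)
  · rw [← body_rot v i]
    apply tiles_of_form
    apply pent_NF (hv.rot i)
    simp only [add_zero]
    exact hi
  · rw [← body_rot v i]
    apply tiles_of_form
    apply hex_NF (hv.rot i)
    simp only [add_zero]
    exact hi

end

end Pool.PT56
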