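import Pool.Agent.PT56.Base
import Pool.Agent.PT57.BM

set_option autoImplicit false
set_option linter.unusedSectionVars false

/-!
# PT56/BM: Brunn-Minkowski in multiplicative form, and the sharper form with maximal sections
-/

namespace Pool.PT56

open Set Filter Topology MeasureTheory
open scoped ENNReal Pointwise

theorem mid_eq {V : Type} [AddCommGroup V] [Module ℝ V] (A B : Set V) :
    mid A B = (1 / 2 : ℝ) • (A + B) := by
  unfold mid
  ext x
  constructor
  · rintro ⟨a, ha, b, hb, rfl⟩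
    exact ⟨a + b, ⟨a, ha, b, hb, rfl⟩, rfl⟩
  · rintro ⟨_, ⟨a, ha, b, hb, rfl⟩, rfl⟩
    exact ⟨a, ha, b, hb, rfl⟩

theorem bm_line {X Y : Set ℝ} (hX : IsCompact X) (hY : IsCompact Y) (hX0 : X.Nonempty)
    (hY0 : Y.Nonempty) : volume X + volume Y ≤ 2 * volume (mid X Y) := by
  apply PT57.bm_one hX.measurableSet hY.measurableSet hX0 hY0
  intro s hs t ht
  refine ⟨s, hs, t, ht, ?_⟩
  simp only [smul_eq_mul]
  ring

section

variable {F : Type} [NormedAddCommGroup F] [NormedSpace ℝ F] [FiniteDimensional ℝ F]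
  [MeasurableSpace F] [BorelSpace F] (μ : Measure F) [μ.IsAddHaarMeasure]

theorem sec_usc {A : Set (ℝ × F)} (hA : IsCompact A) :
    UpperSemicontinuous fun s : ℝ => μ {y | (s, y) ∈ A} := by
  have : ProperSpace F := FiniteDimensional.proper ℝ F
  intro s c hc
  have hc' : μ {y | (s, y) ∈ A} < c := hc
  obtain ⟨U, hU, hUo, hUc⟩ := Set.exists_isOpen_lt_of_lt _ _ hc'
  have hcomp : IsCompact (Prod.fst '' (A ∩ {p | p.2 ∈ Uᶜ})) :=
    (hA.inter_right (hUo.isClosed_compl.preimage continuous_snd)).image continuous_fst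
  have hns : s ∉ Prod.fst '' (A ∩ {p | p.2 ∈ Uᶜ}) := by
    rintro ⟨⟨s', y⟩, ⟨h1, h2⟩, rfl⟩
    exact h2 (hU h1)
  filter_upwards [hcomp.isClosed.isOpen_compl.mem_nhds hns] with t ht
  refine lt_of_le_of_lt (measure_mono ?_) hUc
  intro y hy
  by_contra hyU
  exact ht ⟨(t, y), ⟨hy, hyU⟩, rfl⟩

theorem exists_max_sec {A : Set (ℝ × F)} (hA : IsCompact A) :
    ∃ s, ∀ s', sec μ A s' ≤ sec μ A s := by
  have hfin : ∀ s, μ {y | (s, y) ∈ A} ≠ ∞ := fun s =>
    (PT57.slice_compact hA s).measure_lt_top.ne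
  rcases A.eq_empty_or_nonempty with rfl | hne
  · exact ⟨0, fun s' => by simp [sec]⟩
  have hcp : IsCompact (Prod.fst '' A) := hA.image continuous_fst
  obtain ⟨s, hs, hmax⟩ := ((sec_usc μ hA).upperSemicontinuousOn _).exists_isMaxOn
    (hne.image _) hcp
  refine ⟨s, fun s' => ?_⟩
  by_cases h : s' ∈ Prod.fst '' A
  · exact ENNReal.toReal_mono (hfin s) (hmax h)
  · have : {y | (s', y) ∈ A} = ∅ := by
      ext y
      simp only [mem_ofPred_eq, mem_empty_iff_false, iff_false]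
      intro hy
      exact h ⟨_, hy, rfl⟩
    unfold sec
    rw [this]
    simp

theorem iSup_sec {A : Set (ℝ × F)} {MA : ℝ} (hA1 : ∀ s, sec μ A s ≤ MA)
    (hA2 : ∃ s, sec μ A s = MA) :
    (⨆ s : ℝ, (μ (Prod.mk s ⁻¹' A)).toReal) = MA := by
  apply le_antisymm
  · exact ciSup_le hA1
  · obtain ⟨s, hs⟩ := hA2
    have hb : BddAbove (range fun s : ℝ => (μ (Prod.mk s ⁻¹' A)).toReal) :=
      ⟨MA, by rintro _ ⟨s, rfl⟩; exact hA1 s⟩
    rw [← hs]
    exact le_ciSup hb s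

theorem pl_lite
    (hF : ∀ A B : Set F, IsCompact A → IsCompact B → μ A * μ B ≤ μ (mid A B) ^ 2)
    {A B : Set (ℝ × F)} (hA : IsCompact A) (hB : IsCompact B) {MA MB : ℝ} (hMA : 0 < MA)
    (hMB : 0 < MB) (hA1 : ∀ s, sec μ A s ≤ MA) (hA2 : ∃ s, sec μ A s = MA)
    (hB1 : ∀ s, sec μ B s ≤ MB) (hB2 : ∃ s, sec μ B s = MB) :
    ((((volume : Measure ℝ).prod μ) A).toReal * MB +
      (((volume : Measure ℝ).prod μ) B).toReal * MA) ^ 2 ≤
      4 * (((volume : Measure ℝ).prod μ) (mid A B)).toReal ^ 2 * (MA * MB) := by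
  have : ProperSpace F := FiniteDimensional.proper ℝ F
  have : SecondCountableTopology F := secondCountable_of_proper
  have hμ : PT57.BMProp μ := fun A B hA hB => by
    have := hF A B hA hB
    rwa [mid_eq] at this
  have h1 := PT57.slab_sq' μ hμ hA hB (by rw [iSup_sec μ hA1 hA2]; exact hMA)
    (by rw [iSup_sec μ hB1 hB2]; exact hMB)
  rw [iSup_sec μ hA1 hA2, iSup_sec μ hB1 hB2] at h1
  rw [mid_eq]
  exact h1

end

theorem bm {F : Type} [NormedAddCommGroup F] [NormedSpace ℝ F] [FiniteDimensional ℝ F]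
    [MeasurableSpace F] [BorelSpace F] (μ : Measure F) [μ.IsAddHaarMeasure] {A B : Set F}
    (hA : IsCompact A) (hB : IsCompact B) : μ A * μ B ≤ μ (mid A B) ^ 2 := by
  rw [mid_eq]
  exact PT57.bm μ A B hA hB

end Pool.PT56
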