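import Pool.Agent.PT56.HaarP

set_option autoImplicit false
set_option linter.unusedSectionVars false

/-!
# PT56/BalG: the belt balance law for a product

`Tiles (A ×ˢ B)` in `E₁ × E₂` gives a tiling of `WithLp 2 (E₁ × E₂)` by `mot t s '' (eprod A B)` (the map
`WithLp.toLp 2` is a linear homeomorphism).  If `u`, `v` are unit vectors with
`vol (prism (face A u) u) ≠ vol (prism (face A (-u)) u)` and
`vol (prism (face B v) v) ≠ vol (prism (face B (-v)) v)`, apply `H14Belt.balance` to `emb₁ u`, `emb₂ v` (orthonormal):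
`ridge (eprod A B) (± emb₁ u) (± emb₂ v) = eprod (face A (± u)) (face B (± v))`, `haarP` for the four sets
(`face A (-u)` lies in a hyperplane `⟪u, x⟫ = p'`), with `a, a', b, b'` the four volumes (finite):
`κ a b + κ a' b' = κ a b' + κ a' b`, so `(a - a') (b - b') = 0`, contradiction.
-/

namespace Pool.PT56

open Set Filter Topology MeasureTheory
open scoped RealInnerProductSpace ENNReal

variable {E₁ E₂ : Type} [NormedAddCommGroup E₁] [InnerProductSpace ℝ E₁] [FiniteDimensional ℝ E₁]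
  [MeasurableSpace E₁] [BorelSpace E₁] [NormedAddCommGroup E₂] [InnerProductSpace ℝ E₂]
  [FiniteDimensional ℝ E₂] [MeasurableSpace E₂] [BorelSpace E₂]

namespace BalG

/-- the homeomorphism with the plain product -/
noncomputable def eqv : WithLp 2 (E₁ × E₂) ≃L[ℝ] E₁ × E₂ :=
  WithLp.prodContinuousLinearEquiv 2 ℝ E₁ E₂

theorem eqv_apply (z : WithLp 2 (E₁ × E₂)) :
    (eqv z : E₁ × E₂) = ((WithLp.ofLp z).1, (WithLp.ofLp z).2) := rfl

theorem eprod_eq (A : Set E₁) (B : Set E₂) :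
    eprod A B = (eqv : WithLp 2 (E₁ × E₂) ≃L[ℝ] E₁ × E₂) ⁻¹' (A ×ˢ B) := rfl

theorem isCompact_eprod {A : Set E₁} {B : Set E₂} (hA : IsCompact A) (hB : IsCompact B) :
    IsCompact (eprod A B) := by
  rw [eprod_eq]
  exact (eqv (E₁ := E₁) (E₂ := E₂)).toHomeomorph.isCompact_preimage.2 (hA.prod hB)

theorem convex_eprod {A : Set E₁} {B : Set E₂} (hA : Convex ℝ A) (hB : Convex ℝ B) :
    Convex ℝ (eprod A B) := by
  rw [eprod_eq]
  exact (hA.prod hB).linear_preimage (eqv (E₁ := E₁) (E₂ := E₂)).toLinearEquiv.toLinearMap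

theorem interior_eprod_nonempty {A : Set E₁} {B : Set E₂} (hA : (interior A).Nonempty)
    (hB : (interior B).Nonempty) : (interior (eprod A B)).Nonempty := by
  obtain ⟨a, ha⟩ := hA
  obtain ⟨b, hb⟩ := hB
  have h1 : interior (eprod A B) = (eqv : WithLp 2 (E₁ × E₂) ≃L[ℝ] E₁ × E₂) ⁻¹'
      (interior (A ×ˢ B)) := by
    rw [eprod_eq]
    exact ((eqv (E₁ := E₁) (E₂ := E₂)).toHomeomorph.preimage_interior (A ×ˢ B)).symm
  rw [h1, interior_prod_eq]
  refine ⟨(eqv (E₁ := E₁) (E₂ := E₂)).symm (a, b), ?_⟩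
  rw [mem_preimage, ContinuousLinearEquiv.apply_symm_apply]
  exact ⟨ha, hb⟩

theorem inner_emb₁ (u : E₁) (z : WithLp 2 (E₁ × E₂)) :
    ⟪(emb₁ u : WithLp 2 (E₁ × E₂)), z⟫ = ⟪u, (WithLp.ofLp z).1⟫ := by
  simp [emb₁, WithLp.prod_inner_apply]

theorem inner_emb₂ (v : E₂) (z : WithLp 2 (E₁ × E₂)) :
    ⟪(emb₂ v : WithLp 2 (E₁ × E₂)), z⟫ = ⟪v, (WithLp.ofLp z).2⟫ := by
  simp [emb₂, WithLp.prod_inner_apply]

theorem emb₁_neg (u : E₁) : (emb₁ (-u) : WithLp 2 (E₁ × E₂)) = -emb₁ u := by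
  apply (WithLp.ofLp_injective 2)
  ext <;> simp [emb₁]

theorem emb₂_neg (v : E₂) : (emb₂ (-v) : WithLp 2 (E₁ × E₂)) = -emb₂ v := by
  apply (WithLp.ofLp_injective 2)
  ext <;> simp [emb₂]

theorem face_emb₁ {A : Set E₁} {B : Set E₂} (hB : B.Nonempty) (u : E₁) :
    face (eprod A B) (emb₁ u : WithLp 2 (E₁ × E₂)) = eprod (face A u) B := by
  obtain ⟨b, hb⟩ := hB
  ext z
  constructor
  · rintro ⟨hz, h⟩
    refine ⟨⟨hz.1, fun y hy => ?_⟩, hz.2⟩
    have := h (WithLp.toLp 2 (y, b)) ⟨hy, hb⟩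
    rw [inner_emb₁, inner_emb₁] at this
    exact this
  · rintro ⟨⟨hz1, h⟩, hz2⟩
    refine ⟨⟨hz1, hz2⟩, fun y hy => ?_⟩
    rw [inner_emb₁, inner_emb₁]
    exact h _ hy.1

theorem face_emb₂ {A : Set E₁} {B : Set E₂} (hA : A.Nonempty) (v : E₂) :
    face (eprod A B) (emb₂ v : WithLp 2 (E₁ × E₂)) = eprod A (face B v) := by
  obtain ⟨a, ha⟩ := hA
  ext z
  constructor
  · rintro ⟨hz, h⟩
    refine ⟨hz.1, ⟨hz.2, fun y hy => ?_⟩⟩
    have := h (WithLp.toLp 2 (a, y)) ⟨ha, hy⟩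
    rw [inner_emb₂, inner_emb₂] at this
    exact this
  · rintro ⟨hz1, ⟨hz2, h⟩⟩
    refine ⟨⟨hz1, hz2⟩, fun y hy => ?_⟩
    rw [inner_emb₂, inner_emb₂]
    exact h _ hy.2

section one

variable {E : Type} [NormedAddCommGroup E] [InnerProductSpace ℝ E]

theorem face_nonempty {K : Set E} (hK : IsCompact K) (hne : K.Nonempty) (u : E) :
    (face K u).Nonempty := by
  obtain ⟨x, hx, h⟩ := hK.exists_isMaxOn hne
    (f := fun x => ⟪u, x⟫) (by fun_prop)
  exact ⟨x, hx, fun y hy => h hy⟩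

theorem face_compact {K : Set E} (hK : IsCompact K) (u : E) : IsCompact (face K u) := by
  have h1 : IsClosed (face K u) := by
    have : face K u = K ∩ ⋂ y ∈ K, {x | ⟪u, y⟫ ≤ ⟪u, x⟫} := by
      ext x; simp [Pool.Agent.H14Belt.face]
    rw [this]
    apply hK.isClosed.inter
    apply isClosed_biInter
    intro y _
    exact isClosed_le (by fun_prop) (by fun_prop)
  exact hK.of_isClosed_subset h1 (fun x hx => hx.1)

theorem face_hyp {K : Set E} (hK : IsCompact K) (hne : K.Nonempty) (u : E) :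
    ∃ p : ℝ, ∀ x ∈ face K u, ⟪u, x⟫ = p := by
  obtain ⟨x₀, hx₀⟩ := face_nonempty hK hne u
  exact ⟨⟪u, x₀⟫, fun x hx => le_antisymm (hx₀.2 x hx.1) (hx.2 x₀ hx₀.1)⟩

theorem face_hyp' {K : Set E} (hK : IsCompact K) (hne : K.Nonempty) (u : E) :
    ∃ p : ℝ, ∀ x ∈ face K (-u), ⟪u, x⟫ = p := by
  obtain ⟨p, hp⟩ := face_hyp hK hne (-u)
  refine ⟨-p, fun x hx => ?_⟩
  have := hp x hx
  rw [inner_neg_left] at this
  linarith

theorem prism_finite [MeasurableSpace E] [BorelSpace E] [FiniteDimensional ℝ E] {F : Set E}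
    (hF : IsCompact F) (u : E) : volume (prism F u) ≠ ∞ := by
  have h1 : prism F u = (fun p : E × ℝ => p.1 + p.2 • u) '' (F ×ˢ Icc (0 : ℝ) 1) := by
    ext x
    constructor
    · rintro ⟨y, hy, s, h0, h1, rfl⟩
      exact ⟨(y, s), ⟨hy, h0, h1⟩, rfl⟩
    · rintro ⟨⟨y, s⟩, ⟨hy, h0, h1⟩, rfl⟩
      exact ⟨y, hy, s, h0, h1, rfl⟩
  have h2 : IsCompact (prism F u) := by
    rw [h1]
    exact (hF.prod isCompact_Icc).image (by fun_prop)
  exact h2.measure_ne_top

end one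

theorem algebra_aux {κ a a' b b' : ℝ≥0∞} (hκ0 : κ ≠ 0) (hκ : κ ≠ ∞) (ha : a ≠ ∞) (ha' : a' ≠ ∞)
    (hb : b ≠ ∞) (hb' : b' ≠ ∞)
    (h : κ * (a * b) + κ * (a' * b') = κ * (a * b') + κ * (a' * b)) : a = a' ∨ b = b' := by
  rw [← mul_add, ← mul_add] at h
  have h1 := (ENNReal.mul_right_inj hκ0 hκ).1 h
  lift a to NNReal using ha
  lift a' to NNReal using ha'
  lift b to NNReal using hb
  lift b' to NNReal using hb'
  have h2 : (a : ℝ) * b + a' * b' = a * b' + a' * b := by exact_mod_cast h1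
  have h3 : ((a : ℝ) - a') * (b - b') = 0 := by linear_combination h2
  rcases mul_eq_zero.1 h3 with h4 | h4
  · left
    have : (a : ℝ) = a' := by linarith
    exact_mod_cast this
  · right
    have : (b : ℝ) = b' := by linarith
    exact_mod_cast this

end BalG

open BalG in
theorem balG {A : Set E₁} {B : Set E₂} (hA : IsCompact A) (hAc : Convex ℝ A)
    (hAi : (interior A).Nonempty) (hB : IsCompact B) (hBc : Convex ℝ B)
    (hBi : (interior B).Nonempty) (hT : Tiles (A ×ˢ B)) : Balanced A ∨ Balanced B := by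
  by_contra hcon
  rw [not_or] at hcon
  obtain ⟨h1, h2⟩ := hcon
  unfold Balanced at h1 h2
  push Not at h1 h2
  obtain ⟨u, hu, hau⟩ := h1
  obtain ⟨v, hv, hbv⟩ := h2
  have hAne : A.Nonempty := hAi.mono interior_subset
  have hBne : B.Nonempty := hBi.mono interior_subset
  obtain ⟨ι, t, s, hT'⟩ := tiles_iff.1 hT
  -- the tiling of the Euclidean product
  let e : WithLp 2 (E₁ × E₂) ≃L[ℝ] E₁ × E₂ := eqv
  have hTi : ∀ i, Pool.Agent.H14Belt.mot (e.symm (t i)) (s i) '' (eprod A B) =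
      e ⁻¹' (tile (A ×ˢ B) (t i) (s i)) := by
    intro i
    ext z
    constructor
    · rintro ⟨w, hw, rfl⟩
      refine ⟨e w, hw, ?_⟩
      simp [Pool.Agent.H14Belt.mot, map_add, map_smul]
    · rintro ⟨y, hy, hyz⟩
      refine ⟨e.symm y, ?_, ?_⟩
      · change e (e.symm y) ∈ A ×ˢ B
        rw [ContinuousLinearEquiv.apply_symm_apply]
        exact hy
      · apply e.injective
        rw [← hyz]
        simp [Pool.Agent.H14Belt.mot, map_add, map_smul]
  have hu' : ‖(emb₁ u : WithLp 2 (E₁ × E₂))‖ = 1 := by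
    have : ‖(emb₁ u : WithLp 2 (E₁ × E₂))‖ ^ 2 = 1 := by
      rw [← real_inner_self_eq_norm_sq, inner_emb₁]
      change ⟪u, u⟫ = 1
      rw [real_inner_self_eq_norm_sq, hu]; norm_num
    have h0 : 0 ≤ ‖(emb₁ u : WithLp 2 (E₁ × E₂))‖ := norm_nonneg _
    nlinarith
  have hv' : ‖(emb₂ v : WithLp 2 (E₁ × E₂))‖ = 1 := by
    have : ‖(emb₂ v : WithLp 2 (E₁ × E₂))‖ ^ 2 = 1 := by
      rw [← real_inner_self_eq_norm_sq, inner_emb₂]
      change ⟪v, v⟫ = 1
      rw [real_inner_self_eq_norm_sq, hv]; norm_num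
    have h0 : 0 ≤ ‖(emb₂ v : WithLp 2 (E₁ × E₂))‖ := norm_nonneg _
    nlinarith
  have huv : ⟪(emb₁ u : WithLp 2 (E₁ × E₂)), emb₂ v⟫ = 0 := by
    rw [inner_emb₁]
    change ⟪u, (0 : E₁)⟫ = 0
    exact inner_zero_right u
  have key := Pool.Agent.H14Belt.balance hu' hv' huv (isCompact_eprod hA hB)
    (convex_eprod hAc hBc) (interior_eprod_nonempty hAi hBi)
    (T := fun i => e ⁻¹' (tile (A ×ˢ B) (t i) (s i)))
    (fun i => ⟨e.symm (t i), s i, hT'.sgn i, (hTi i).symm⟩) ?_ ?_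
  · obtain ⟨κ, hκ0, hκ, hH⟩ := haarP (E₁ := E₁) (E₂ := E₂) hu hv
    have ha := face_compact hA u
    have ha' := face_compact hA (-u)
    have hb := face_compact hB v
    have hb' := face_compact hB (-v)
    obtain ⟨p, hp⟩ := face_hyp hA hAne u
    obtain ⟨p', hp'⟩ := face_hyp' hA hAne u
    obtain ⟨q, hq⟩ := face_hyp hB hBne v
    obtain ⟨q', hq'⟩ := face_hyp' hB hBne v
    have hr : ∀ (a : E₁) (b : E₂), ridge (eprod A B) (emb₁ a : WithLp 2 (E₁ × E₂)) (emb₂ b) =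
        eprod (face A a) (face B b) := by
      intro a b
      unfold Pool.Agent.H14Belt.ridge
      rw [face_emb₁ hBne, face_emb₂ (face_nonempty hA hAne a)]
    rw [← emb₁_neg, ← emb₂_neg, hr, hr, hr, hr, hH p q _ _ ha hb hp hq,
      hH p' q' _ _ ha' hb' hp' hq', hH p q' _ _ ha hb' hp hq', hH p' q _ _ ha' hb hp' hq] at key
    rcases algebra_aux hκ0 hκ (prism_finite ha u) (prism_finite ha' u) (prism_finite hb v)
      (prism_finite hb' v) key with h | h
    · exact hau h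
    · exact hbv h
  · intro i j hij
    have h1 : ∀ i, interior (e ⁻¹' (tile (A ×ˢ B) (t i) (s i))) =
        e ⁻¹' (interior (tile (A ×ˢ B) (t i) (s i))) := fun i =>
      (e.toHomeomorph.preimage_interior _).symm
    rw [h1, h1]
    exact (hT'.dis i j hij).preimage _
  · apply eq_univ_of_forall
    intro z
    obtain ⟨i, hi⟩ := hT'.cov (e z)
    exact mem_iUnion.2 ⟨i, hi⟩

end Pool.PT56
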