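import Mathlib
import Pool.Agent.H14Belt.Main

set_option autoImplicit false
set_option linter.unusedSectionVars false

/-!
# PT56/Base: definitions
-/

namespace Pool.PT56

open Set Filter Topology MeasureTheory
open scoped RealInnerProductSpace

export Pool.Agent.H14Belt (face ridge perp mem_perp)

/-! ### Tilings -/

section tiles

variable {V : Type} [AddCommGroup V] [Module ℝ V] [TopologicalSpace V]

/-- `P` tiles by translates and negatives. -/
def Tiles (P : Set V) : Prop :=
  ∃ F : Set (Set V), (∀ T ∈ F, ∃ t : V, T = (fun x => t + x) '' P ∨ T = (fun x => t - x) '' P) ∧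
    ⋃₀ F = univ ∧ ∀ A ∈ F, ∀ B ∈ F, A ≠ B → Disjoint (interior A) (interior B)

/-- `P` is centrally symmetric. -/
def CSym (P : Set V) : Prop := ∃ c : V, ∀ x ∈ P, c - x ∈ P

/-- `P` is a convex polytope with interior points. -/
def Polytope (P : Set V) : Prop :=
  (∃ S : Set V, S.Finite ∧ P = convexHull ℝ S) ∧ (interior P).Nonempty

/-- the tile `t + s P` -/
def tile (P : Set V) (t : V) (s : ℝ) : Set V := (fun x => t + s • x) '' P

/-- an indexed tiling by translates and negatives of `P` -/
structure Tiling {ι : Type} (P : Set V) (t : ι → V) (s : ι → ℝ) : Prop where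
  sgn : ∀ i, s i = 1 ∨ s i = -1
  cov : ∀ x, ∃ i, x ∈ tile P (t i) (s i)
  dis : ∀ i j, i ≠ j → Disjoint (interior (tile P (t i) (s i))) (interior (tile P (t j) (s j)))

theorem mem_tile {P : Set V} {t : V} {s : ℝ} (hs : s = 1 ∨ s = -1) {x : V} :
    x ∈ tile P t s ↔ s • (x - t) ∈ P := by
  have h2 : s * s = 1 := by rcases hs with rfl | rfl <;> norm_num
  constructor
  · rintro ⟨y, hy, rfl⟩
    simpa [smul_smul, h2] using hy
  · intro h
    refine ⟨_, h, ?_⟩
    simp only [smul_smul, h2, one_smul]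
    abel

theorem tiles_iff {P : Set V} :
    Tiles P ↔ ∃ (ι : Type) (t : ι → V) (s : ι → ℝ), Tiling P t s := by
  constructor
  · rintro ⟨F, hF, hc, hd⟩
    have h : ∀ T : F, ∃ t : V, ∃ s : ℝ, (s = 1 ∨ s = -1) ∧ (T : Set V) = tile P t s := by
      intro T
      obtain ⟨t, ht | ht⟩ := hF T T.2
      · exact ⟨t, 1, Or.inl rfl, by rw [ht]; simp [tile]⟩
      · exact ⟨t, -1, Or.inr rfl, by rw [ht]; simp [tile, sub_eq_add_neg]⟩
    choose t s hs hT using h
    refine ⟨F, t, s, hs, ?_, ?_⟩
    · intro x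
      have : x ∈ ⋃₀ F := by rw [hc]; trivial
      obtain ⟨T, hTF, hx⟩ := this
      exact ⟨⟨T, hTF⟩, by rw [← hT]; exact hx⟩
    · intro i j hij
      rw [← hT, ← hT]
      exact hd i i.2 j j.2 (fun h => hij (Subtype.ext h))
  · rintro ⟨ι, t, s, h⟩
    refine ⟨Set.range (fun i => tile P (t i) (s i)), ?_, ?_, ?_⟩
    · rintro _ ⟨i, rfl⟩
      rcases h.sgn i with hs | hs
      · exact ⟨t i, Or.inl (by simp [tile, hs])⟩
      · exact ⟨t i, Or.inr (by simp [tile, hs, sub_eq_add_neg])⟩
    · apply Set.eq_univ_of_forall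
      intro x
      obtain ⟨i, hi⟩ := h.cov x
      exact ⟨_, ⟨i, rfl⟩, hi⟩
    · rintro _ ⟨i, rfl⟩ _ ⟨j, rfl⟩ hij
      exact h.dis i j (fun e => hij (by rw [e]))

theorem mem_interior_tile [IsTopologicalAddGroup V] [ContinuousSMul ℝ V] {P : Set V} {t : V}
    {s : ℝ} (hs : s = 1 ∨ s = -1) {x : V} :
    x ∈ interior (tile P t s) ↔ s • (x - t) ∈ interior P := by
  have hs0 : s ≠ 0 := by rcases hs with rfl | rfl <;> norm_num
  have h2 : s * s = 1 := by rcases hs with rfl | rfl <;> norm_num
  let e : V ≃ₜ V := (Homeomorph.smulOfNeZero s hs0).trans (Homeomorph.addLeft t)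
  have he : ∀ y, e y = t + s • y := fun y => rfl
  have h1 : tile P t s = e '' P := rfl
  rw [h1, ← e.image_interior]
  constructor
  · rintro ⟨y, hy, rfl⟩
    rw [he]
    simpa [smul_smul, h2] using hy
  · intro h
    refine ⟨_, h, ?_⟩
    rw [he]
    simp only [smul_smul, h2, one_smul]
    abel

/-- the midpoints of a point of `A` and a point of `B` -/
def mid (A B : Set V) : Set V := Set.image2 (fun x y => (1 / 2 : ℝ) • (x + y)) A B

end tiles

/-! ### Euclidean geometry -/

section euclid

variable {E : Type} [NormedAddCommGroup E] [InnerProductSpace ℝ E]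

/-- the prism of height `1` in direction `u` over `F` -/
def prism (F : Set E) (u : E) : Set E := {x | ∃ y ∈ F, ∃ s : ℝ, 0 ≤ s ∧ s ≤ 1 ∧ x = y + s • u}

/-- the support function of `K` -/
noncomputable def spt (K : Set E) (u : E) : ℝ := sSup ((fun x => ⟪u, x⟫) '' K)

/-- the faces in opposite directions `u` and `-u` have the same `(d-1)`-dimensional volume -/
def Balanced [FiniteDimensional ℝ E] [MeasurableSpace E] [BorelSpace E] (K : Set E) : Prop :=
  ∀ u : E, ‖u‖ = 1 → volume (prism (face K u) u) = volume (prism (face K (-u)) u)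

end euclid

/-! ### Sections in `ℝ × F` -/

section sections

variable {F : Type} [NormedAddCommGroup F] [MeasurableSpace F]

/-- the measure of the section of `K` at height `s` -/
noncomputable def sec (μ : Measure F) (K : Set (ℝ × F)) (s : ℝ) : ℝ :=
  (μ {y | (s, y) ∈ K}).toReal

/-- the measure of the part of `K` below height `s` -/
noncomputable def Phi (μ : Measure F) (K : Set (ℝ × F)) (s : ℝ) : ℝ :=
  (((volume : Measure ℝ).prod μ) {p | p ∈ K ∧ p.1 ≤ s}).toReal

end sections

end Pool.PT56
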