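import Pool.Agent.PT56.Vol

set_option autoImplicit false
set_option linter.unusedSectionVars false

/-!
# PT56/Count: from local inequalities to inequalities for the polygon

Every tile has exactly `n` vertices (`IsPoly.inj`), one lexicographically largest and one smallest
point.  For `r` large let `M r` be the set of tiles meeting `closedBall 0 r` and `N r` the set of tiles
contained in it.  Sum the hypothesis `hp` over the finite set of all `x ∈ closedBall 0 r` that are vertices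
of tiles in `M r` (and, in `count_bad`, also over the points `y i` chosen below): the left side is at least
`n |N r|`, the right side at most `b * 2 * |M r|`.  With `exists_bounds`,
`n (r - D) ^ 2 ≤ 2 b (r + D) ^ 2` for all `r ≥ D`, so `n ≤ 2 b`.
`count_bad`: for `i ∈ N (r - ρ)` the point `y i ∈ β` with `dist (y i) (z i) ≤ ρ`, `z i ∈ tile i`, lies in
`closedBall 0 r`; every value is taken at most `(ρ + D) ^ 2 / κ` times.  So
`n |N r| + |N (r - ρ)| κ / (ρ + D) ^ 2 ≤ 2 b |M r|`, and `n < 2 b`.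
(`ρ ≥ 0` may be assumed, otherwise `hβ` is false for the existing tile.)
-/

namespace Pool.PT56

open Set Filter Topology Metric

theorem LexMax.unique {T : Set (ℝ × ℝ)} {x y : ℝ × ℝ} (hx : LexMax T x) (hy : LexMax T y) :
    x = y := by
  rcases hx.2 y hy.1 with h1 | ⟨h1, h1'⟩ <;> rcases hy.2 x hx.1 with h2 | ⟨h2, h2'⟩
  · exact absurd (h1.trans h2) (lt_irrefl _)
  · rw [h2] at h1; exact absurd h1 (lt_irrefl _)
  · rw [h1] at h2; exact absurd h2 (lt_irrefl _)
  · exact Prod.ext h2 (le_antisymm h2' h1')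

theorem LexMin.unique {T : Set (ℝ × ℝ)} {x y : ℝ × ℝ} (hx : LexMin T x) (hy : LexMin T y) :
    x = y := by
  rcases hx.2 y hy.1 with h1 | ⟨h1, h1'⟩ <;> rcases hy.2 x hx.1 with h2 | ⟨h2, h2'⟩
  · exact absurd (h1.trans h2) (lt_irrefl _)
  · rw [h2] at h1; exact absurd h1 (lt_irrefl _)
  · rw [h1] at h2; exact absurd h2 (lt_irrefl _)
  · exact Prod.ext h2 (le_antisymm h1' h2')

open Classical in
theorem ncard_fiber {ι P : Type} {X : Finset P} {R : ι → P → Prop} {M : Set ι} (hM : M.Finite)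
    (h1 : ∀ x ∈ X, ∀ i, R i x → i ∈ M) {x : P} (hx : x ∈ X) :
    Set.ncard {i | R i x} = (hM.toFinset.filter (fun i => R i x)).card := by
  rw [← Set.ncard_coe_finset]
  congr 1
  ext i
  simp only [Set.mem_ofPred_eq, Finset.coe_filter, Set.Finite.mem_toFinset]
  exact ⟨fun h => ⟨h1 x hx i h, h⟩, fun h => h.2⟩

open Classical in
theorem sum_ncard_eq {ι P : Type} {X : Finset P} {R : ι → P → Prop} {M : Set ι} (hM : M.Finite)
    (h1 : ∀ x ∈ X, ∀ i, R i x → i ∈ M) :
    ∑ x ∈ X, Set.ncard {i | R i x} = ∑ i ∈ hM.toFinset, (X.filter (fun x => R i x)).card := by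
  rw [Finset.sum_congr rfl (fun x hx => ncard_fiber hM h1 hx)]
  exact Finset.sum_card_bipartiteAbove_eq_sum_card_bipartiteBelow (fun (x : P) (i : ι) => R i x)

theorem sum_ncard_le {ι P : Type} {X : Finset P} {R : ι → P → Prop} {M : Set ι} (hM : M.Finite)
    (h1 : ∀ x ∈ X, ∀ i, R i x → i ∈ M) (h2 : ∀ i x y, R i x → R i y → x = y) :
    ∑ x ∈ X, Set.ncard {i | R i x} ≤ Set.ncard M := by
  classical
  rw [sum_ncard_eq hM h1, Set.ncard_eq_toFinset_card M hM]
  calc ∑ i ∈ hM.toFinset, (X.filter (fun x => R i x)).card ≤ ∑ i ∈ hM.toFinset, 1 := by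
        apply Finset.sum_le_sum
        intro i _
        rw [Finset.card_le_one]
        intro a ha c hc
        exact h2 i a c (Finset.mem_filter.1 ha).2 (Finset.mem_filter.1 hc).2
    _ = _ := by simp

open Classical in
theorem le_sum_ncard {ι P : Type} {X : Finset P} {R : ι → P → Prop} {M N : Set ι} (hM : M.Finite)
    (h1 : ∀ x ∈ X, ∀ i, R i x → i ∈ M) (hN : N ⊆ M) {c : ℕ}
    (h2 : ∀ i ∈ N, c ≤ (X.filter (fun x => R i x)).card) :
    c * Set.ncard N ≤ ∑ x ∈ X, Set.ncard {i | R i x} := by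
  have hNf : N.Finite := hM.subset hN
  rw [sum_ncard_eq hM h1, Set.ncard_eq_toFinset_card N hNf]
  calc c * hNf.toFinset.card = ∑ i ∈ hNf.toFinset, c := by simp [mul_comm]
    _ ≤ ∑ i ∈ hNf.toFinset, (X.filter (fun x => R i x)).card :=
        Finset.sum_le_sum (fun i hi => h2 i (hNf.mem_toFinset.1 hi))
    _ ≤ _ := Finset.sum_le_sum_of_subset (by
        intro i hi
        exact hM.mem_toFinset.2 (hN (hNf.mem_toFinset.1 hi)))

theorem HasVtx.mem {n : ℕ} {v : ZMod n → ℝ × ℝ} {ι : Type} {t : ι → ℝ × ℝ} {s : ι → ℝ} {i : ι}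
    {x : ℝ × ℝ} (h : HasVtx v t s i x) : x ∈ tile (body v) (t i) (s i) := by
  obtain ⟨p, rfl⟩ := h
  exact ⟨v p, vtx_mem_body v p, rfl⟩

section

variable {n : ℕ} {v : ZMod n → ℝ × ℝ} {ι : Type} {t : ι → ℝ × ℝ} {s : ι → ℝ}

/-- the tiles meeting the ball -/
def Meet (v : ZMod n → ℝ × ℝ) (t : ι → ℝ × ℝ) (s : ι → ℝ) (c : ℝ × ℝ) (r : ℝ) : Set ι :=
  {i | (tile (body v) (t i) (s i) ∩ closedBall c r).Nonempty}

/-- the tiles contained in the ball -/
def Ins (v : ZMod n → ℝ × ℝ) (t : ι → ℝ × ℝ) (s : ι → ℝ) (r : ℝ) : Set ι :=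
  {i | tile (body v) (t i) (s i) ⊆ closedBall 0 r}

theorem Ins_subset_Meet (r : ℝ) : Ins v t s r ⊆ Meet v t s 0 r := by
  intro i hi
  have hx : t i + s i • v 0 ∈ tile (body v) (t i) (s i) := HasVtx.mem ⟨0, rfl⟩
  exact ⟨_, hx, hi hx⟩

/-- the sum over a set of points of the ball -/
theorem sum_lc_le {r : ℝ} (hM : (Meet v t s 0 r).Finite) {X : Finset (ℝ × ℝ)}
    (hX : ∀ x ∈ X, x ∈ closedBall (0 : ℝ × ℝ) r) :
    ∑ x ∈ X, lc v t s x ≤ 2 * (Meet v t s 0 r).ncard := by
  unfold lc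
  rw [Finset.sum_add_distrib, two_mul]
  apply add_le_add
  · exact sum_ncard_le (R := fun i x => LexMax (tile (body v) (t i) (s i)) x) hM
      (fun x hx i h => ⟨x, h.1, hX x hx⟩) (fun i x y hx hy => hx.unique hy)
  · exact sum_ncard_le (R := fun i x => LexMin (tile (body v) (t i) (s i)) x) hM
      (fun x hx i h => ⟨x, h.1, hX x hx⟩) (fun i x y hx hy => hx.unique hy)

/-- the counting inequality for one ball -/
theorem count_ball {b : ℕ} (hv : IsPoly v) (hT : Tiling (body v) t s) (β : Set (ℝ × ℝ))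
    (hp : ∀ x, wc v t s x + Set.ncard {y | y = x ∧ x ∈ β} ≤ b * lc v t s x) {r : ℝ}
    (hM : (Meet v t s 0 r).Finite) (Y : Finset (ℝ × ℝ)) (hY : ∀ y ∈ Y, y ∈ β)
    (hYr : ∀ y ∈ Y, y ∈ closedBall (0 : ℝ × ℝ) r) :
    n * (Ins v t s r).ncard + Y.card ≤ b * (2 * (Meet v t s 0 r).ncard) := by
  classical
  have : NeZero n := ⟨by have := hv.three; omega⟩
  set X0 : Finset (ℝ × ℝ) := ((hM.toFinset ×ˢ (Finset.univ : Finset (ZMod n))).image
    (fun q => t q.1 + s q.1 • v q.2)).filter (fun x => x ∈ closedBall (0 : ℝ × ℝ) r) with hX0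
  set X : Finset (ℝ × ℝ) := X0 ∪ Y with hXdef
  have hXr : ∀ x ∈ X, x ∈ closedBall (0 : ℝ × ℝ) r := by
    intro x hx
    rcases Finset.mem_union.1 hx with h | h
    · exact (Finset.mem_filter.1 h).2
    · exact hYr x h
  have h1 : n * (Ins v t s r).ncard ≤ ∑ x ∈ X, wc v t s x := by
    unfold wc
    refine le_sum_ncard (R := fun i x => HasVtx v t s i x) hM
      (fun x hx i h => ⟨x, h.mem, hXr x hx⟩) (Ins_subset_Meet r) ?_
    intro i hi
    have hs0 : s i ≠ 0 := by rcases hT.sgn i with hs | hs <;> rw [hs] <;> norm_num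
    have hinj : Function.Injective (fun p : ZMod n => t i + s i • v p) := by
      intro p q hpq
      have : s i • v p = s i • v q := add_left_cancel hpq
      exact hv.inj (smul_right_injective _ hs0 this)
    calc n = (Finset.univ.image (fun p : ZMod n => t i + s i • v p)).card := by
          rw [Finset.card_image_of_injective _ hinj, Finset.card_univ, ZMod.card]
      _ ≤ _ := by
          apply Finset.card_le_card
          intro x hx
          obtain ⟨p, -, rfl⟩ := Finset.mem_image.1 hx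
          have hv' : HasVtx v t s i (t i + s i • v p) := ⟨p, rfl⟩
          refine Finset.mem_filter.2 ⟨Finset.mem_union_left _ (Finset.mem_filter.2 ⟨?_, ?_⟩), hv'⟩
          · exact Finset.mem_image.2 ⟨(i, p), Finset.mem_product.2
              ⟨hM.mem_toFinset.2 (Ins_subset_Meet r hi), Finset.mem_univ _⟩, rfl⟩
          · exact hi hv'.mem
  have h2 : Y.card ≤ ∑ x ∈ X, Set.ncard {y | y = x ∧ x ∈ β} := by
    calc Y.card = ∑ x ∈ Y, 1 := by simp
      _ ≤ ∑ x ∈ Y, Set.ncard {y | y = x ∧ x ∈ β} := by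
          apply Finset.sum_le_sum
          intro x hx
          have : {y | y = x ∧ x ∈ β} = {x} := by
            ext y
            simp [hY x hx]
          rw [this, Set.ncard_singleton]
      _ ≤ _ := Finset.sum_le_sum_of_subset Finset.subset_union_right
  calc n * (Ins v t s r).ncard + Y.card
      ≤ ∑ x ∈ X, (wc v t s x + Set.ncard {y | y = x ∧ x ∈ β}) := by
        rw [Finset.sum_add_distrib]
        exact add_le_add h1 h2
    _ ≤ ∑ x ∈ X, b * lc v t s x := Finset.sum_le_sum (fun x _ => hp x)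
    _ = b * ∑ x ∈ X, lc v t s x := by rw [Finset.mul_sum]
    _ ≤ _ := Nat.mul_le_mul_left _ (sum_lc_le hM hXr)

end

theorem count_main {n b : ℕ} {v : ZMod n → ℝ × ℝ} (hv : IsPoly v) {ι : Type} {t : ι → ℝ × ℝ}
    {s : ι → ℝ} (hT : Tiling (body v) t s) (hp : ∀ x, wc v t s x ≤ b * lc v t s x) :
    n ≤ 2 * b := by
  obtain ⟨D, κ, hD, hκ, -, hfin, hup, hlo⟩ := exists_bounds hv hT
  by_contra hcon
  push Not at hcon
  set r : ℝ := (8 * b + 2) * D + 1 with hr
  have hb0 : (0 : ℝ) ≤ b := Nat.cast_nonneg _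
  have hbD : 0 ≤ (b : ℝ) * D := mul_nonneg hb0 hD
  have hr0 : 0 ≤ r := by rw [hr]; nlinarith
  have hrD : D ≤ r := by rw [hr]; nlinarith
  have h1 := count_ball (b := b) hv hT ∅ (by
    intro x
    simpa using hp x) (hfin 0 r) ∅ (by simp) (by simp)
  have h2 : κ * (Meet v t s 0 r).ncard ≤ (r + D) ^ 2 := hup 0 r hr0
  have h3 : (r - D) ^ 2 ≤ κ * (Ins v t s r).ncard := hlo r hrD
  simp only [Finset.card_empty, add_zero] at h1
  have h1' : (n : ℝ) * (Ins v t s r).ncard ≤ b * (2 * (Meet v t s 0 r).ncard) := by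
    exact_mod_cast h1
  have hn : (2 * b + 1 : ℝ) ≤ n := by exact_mod_cast hcon
  have h4 : (2 * b + 1 : ℝ) * (r - D) ^ 2 ≤ 2 * b * (r + D) ^ 2 := by
    calc (2 * b + 1 : ℝ) * (r - D) ^ 2 ≤ n * (κ * (Ins v t s r).ncard) := by
          apply mul_le_mul hn h3 (sq_nonneg _) (Nat.cast_nonneg _)
      _ = κ * (n * (Ins v t s r).ncard) := by ring
      _ ≤ κ * (b * (2 * (Meet v t s 0 r).ncard)) := mul_le_mul_of_nonneg_left h1' hκ.le
      _ = 2 * b * (κ * (Meet v t s 0 r).ncard) := by ring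
      _ ≤ _ := mul_le_mul_of_nonneg_left h2 (by positivity)
  have h5 : r * r ≤ r * ((8 * b + 2) * D) := by nlinarith [sq_nonneg D]
  have hrpos : 0 < r := by rw [hr]; nlinarith
  have h6 := le_of_mul_le_mul_left h5 hrpos
  rw [hr] at h6
  linarith

open Classical in
theorem count_bad {n b : ℕ} {v : ZMod n → ℝ × ℝ} (hv : IsPoly v) {ι : Type} {t : ι → ℝ × ℝ}
    {s : ι → ℝ} (hT : Tiling (body v) t s) (β : Set (ℝ × ℝ)) (ρ : ℝ)
    (hp : ∀ x, wc v t s x + (if x ∈ β then 1 else 0) ≤ b * lc v t s x)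
    (hβ : ∀ i, ∃ y ∈ β, ∃ z ∈ tile (body v) (t i) (s i), dist y z ≤ ρ) : n < 2 * b := by
  obtain ⟨D, κ, hD, hκ, -, hfin, hup, hlo⟩ := exists_bounds hv hT
  by_contra hcon
  push Not at hcon
  choose y hyβ z hz hyz using hβ
  obtain ⟨i0, -⟩ := hT.cov 0
  have hρ : 0 ≤ ρ := dist_nonneg.trans (hyz i0)
  -- every value of `y` is taken at most `(ρ + D) ^ 2 / κ` times
  have hfib : ∀ x : ℝ × ℝ, κ * Set.ncard {i | y i = x} ≤ (ρ + D) ^ 2 := by
    intro x
    have hsub : {i | y i = x} ⊆ Meet v t s x ρ := by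
      intro i hi
      refine ⟨z i, hz i, ?_⟩
      rw [mem_closedBall, dist_comm]
      have : y i = x := hi
      rw [← this]
      exact hyz i
    have h1 : Set.ncard {i | y i = x} ≤ (Meet v t s x ρ).ncard :=
      Set.ncard_le_ncard hsub (hfin x ρ)
    have h2 : κ * (Meet v t s x ρ).ncard ≤ (ρ + D) ^ 2 := hup x ρ hρ
    have h1' : (Set.ncard {i | y i = x} : ℝ) ≤ (Meet v t s x ρ).ncard := by exact_mod_cast h1
    exact (mul_le_mul_of_nonneg_left h1' hκ.le).trans h2
  set Q : ℝ := (ρ + D) ^ 2 with hQ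
  have hQpos : 0 < Q := by
    have h1 := hfib (y i0)
    have hfin1 : {i | y i = y i0}.Finite := (hfin (y i0) ρ).subset (by
      intro i hi
      refine ⟨z i, hz i, ?_⟩
      rw [mem_closedBall, dist_comm]
      have : y i = y i0 := hi
      rw [← this]
      exact hyz i)
    have h2 : 0 < Set.ncard {i | y i = y i0} := (Set.ncard_pos hfin1).2 ⟨i0, rfl⟩
    have h2' : (0 : ℝ) < Set.ncard {i | y i = y i0} := by exact_mod_cast h2
    exact lt_of_lt_of_le (mul_pos hκ h2') h1
  have main : ∀ r : ℝ, ρ + D ≤ r → κ * (r - ρ - D) ^ 2 ≤ 4 * Q * n * D * r := by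
    intro r hr
    have hr0 : 0 ≤ r := by linarith
    have hM : (Meet v t s 0 r).Finite := hfin 0 r
    have hNf : (Ins v t s (r - ρ)).Finite := by
      refine (hfin 0 (r - ρ)).subset (Ins_subset_Meet (r - ρ))
    set Y : Finset (ℝ × ℝ) := hNf.toFinset.image y with hYdef
    have hYβ : ∀ x ∈ Y, x ∈ β := by
      intro x hx
      obtain ⟨i, -, rfl⟩ := Finset.mem_image.1 hx
      exact hyβ i
    have hYr : ∀ x ∈ Y, x ∈ closedBall (0 : ℝ × ℝ) r := by
      intro x hx
      obtain ⟨i, hi, rfl⟩ := Finset.mem_image.1 hx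
      have h1 : z i ∈ closedBall (0 : ℝ × ℝ) (r - ρ) := (hNf.mem_toFinset.1 hi) (hz i)
      rw [mem_closedBall] at h1 ⊢
      calc dist (y i) 0 ≤ dist (y i) (z i) + dist (z i) 0 := dist_triangle _ _ _
        _ ≤ ρ + (r - ρ) := add_le_add (hyz i) h1
        _ = r := by ring
    have h1 := count_ball (b := b) hv hT β (by
      intro x
      refine le_trans ?_ (hp x)
      apply Nat.add_le_add_left
      by_cases hx : x ∈ β
      · rw [if_pos hx]
        have : {y | y = x ∧ x ∈ β} = {x} := by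
          ext y
          simp [hx]
        rw [this, Set.ncard_singleton]
      · rw [if_neg hx]
        have : {y | y = x ∧ x ∈ β} = ∅ := by
          ext y
          simp [hx]
        rw [this, Set.ncard_empty]) hM Y hYβ hYr
    -- the number of values
    have h2 : κ * (Ins v t s (r - ρ)).ncard ≤ Q * Y.card := by
      have e1 : (Ins v t s (r - ρ)).ncard = hNf.toFinset.card :=
        Set.ncard_eq_toFinset_card _ hNf
      have e2 : hNf.toFinset.card = ∑ x ∈ Y, (hNf.toFinset.filter (fun i => y i = x)).card :=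
        Finset.card_eq_sum_card_image y _
      have e3 : ∀ x ∈ Y, κ * ((hNf.toFinset.filter (fun i => y i = x)).card : ℝ) ≤ Q := by
        intro x _
        refine le_trans ?_ (hfib x)
        apply mul_le_mul_of_nonneg_left _ hκ.le
        have hfx : {i | y i = x}.Finite := (hfin x ρ).subset (by
          intro i hi
          refine ⟨z i, hz i, ?_⟩
          rw [mem_closedBall, dist_comm]
          have : y i = x := hi
          rw [← this]
          exact hyz i)
        have : (hNf.toFinset.filter (fun i => y i = x)).card ≤ Set.ncard {i | y i = x} := by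
          rw [← Set.ncard_coe_finset]
          apply Set.ncard_le_ncard _ hfx
          intro i hi
          exact (Finset.mem_filter.1 (Finset.mem_coe.1 hi)).2
        exact_mod_cast this
      rw [e1, e2]
      push_cast
      rw [Finset.mul_sum]
      calc ∑ x ∈ Y, κ * ((hNf.toFinset.filter (fun i => y i = x)).card : ℝ) ≤ ∑ x ∈ Y, Q :=
            Finset.sum_le_sum e3
        _ = Q * Y.card := by rw [Finset.sum_const, nsmul_eq_mul, mul_comm]
    have h3 : (r - ρ - D) ^ 2 ≤ κ * (Ins v t s (r - ρ)).ncard := hlo (r - ρ) (by linarith)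
    have h4 : (r - D) ^ 2 ≤ κ * (Ins v t s r).ncard := hlo r (by linarith)
    have h5 : κ * (Meet v t s 0 r).ncard ≤ (r + D) ^ 2 := hup 0 r hr0
    have h1' : (n : ℝ) * (Ins v t s r).ncard + Y.card ≤ b * (2 * (Meet v t s 0 r).ncard) := by
      exact_mod_cast h1
    have hn : (2 * b : ℝ) ≤ n := by exact_mod_cast hcon
    have hn0 : (0 : ℝ) ≤ n := Nat.cast_nonneg _
    have h6 : Q * n * (r - D) ^ 2 + κ * (r - ρ - D) ^ 2 ≤ Q * n * (r + D) ^ 2 := by
      have a1 : Q * n * (r - D) ^ 2 ≤ Q * n * (κ * (Ins v t s r).ncard) :=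
        mul_le_mul_of_nonneg_left h4 (by positivity)
      have a2 : κ * (r - ρ - D) ^ 2 ≤ κ * (Q * Y.card) :=
        mul_le_mul_of_nonneg_left (h3.trans h2) hκ.le
      have a3 : Q * κ * ((n : ℝ) * (Ins v t s r).ncard + Y.card) ≤
          Q * κ * (b * (2 * (Meet v t s 0 r).ncard)) :=
        mul_le_mul_of_nonneg_left h1' (by positivity)
      have a4 : Q * (2 * b) * (κ * (Meet v t s 0 r).ncard) ≤ Q * (2 * b) * (r + D) ^ 2 :=
        mul_le_mul_of_nonneg_left h5 (by positivity)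
      have a5 : Q * (2 * b) * (r + D) ^ 2 ≤ Q * n * (r + D) ^ 2 := by
        apply mul_le_mul_of_nonneg_right _ (sq_nonneg _)
        exact mul_le_mul_of_nonneg_left hn hQpos.le
      nlinarith
    nlinarith
  -- a large radius
  set a : ℝ := ρ + D with ha
  have ha0 : 0 ≤ a := by rw [ha]; linarith
  set B : ℝ := 4 * Q * n * D / κ with hB
  have hB0 : 0 ≤ B := by rw [hB]; positivity
  have hr1 : ρ + D ≤ 2 * a + B + 1 := by rw [← ha]; linarith
  have h7 := main (2 * a + B + 1) hr1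
  have h8 : 4 * Q * n * D * (2 * a + B + 1) = κ * (B * (2 * a + B + 1)) := by
    rw [hB]
    field_simp
  rw [h8] at h7
  have h9 := le_of_mul_le_mul_left h7 hκ
  have h10 : 2 * a + B + 1 - ρ - D = a + B + 1 := by rw [ha]; ring
  rw [h10] at h9
  nlinarith [mul_nonneg ha0 hB0, sq_nonneg a]

end Pool.PT56
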