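import Pool.Agent.PT56.FRdg
import Pool.Agent.PT56.FacC

set_option autoImplicit false
set_option linter.unusedSectionVars false

/-!
# PT56/FCirc: going around a belt

`wdir u v θ = cos θ u + sin θ v`, `wder u v θ = - sin θ u + cos θ v` (an orthonormal pair spanning the same plane,
`perp (wdir) (wder) = perp u v`).
`face_right`, `face_left`: `face_rot` of FacC.
`circle`: `m θ = rvol P (wdir θ) (wder θ)`.  For `θ → θ0+`: `m θ = m θ0`; for `θ → θ0-`:
`m θ = rvol P (wdir θ0) (- wder θ0) = m θ0` by the hypothesis.  So `m` is locally constant on `ℝ`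
(`IsLocallyConstant`), hence constant; `θ = 0` and `θ = π`.
-/

namespace Pool.PT56

open Set Filter Topology MeasureTheory
open scoped RealInnerProductSpace ENNReal

variable {E : Type} [NormedAddCommGroup E] [InnerProductSpace ℝ E] [FiniteDimensional ℝ E]
  [MeasurableSpace E] [BorelSpace E]

/-- the direction at angle `θ` -/
noncomputable def wdir (u v : E) (θ : ℝ) : E := Real.cos θ • u + Real.sin θ • v

/-- the derivative of the direction at angle `θ` -/
noncomputable def wder (u v : E) (θ : ℝ) : E := -(Real.sin θ) • u + Real.cos θ • v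

theorem wdir_norm {u v : E} (hu : ‖u‖ = 1) (hv : ‖v‖ = 1) (huv : ⟪u, v⟫ = 0) (θ : ℝ) :
    ‖wdir u v θ‖ = 1 ∧ ‖wder u v θ‖ = 1 ∧ ⟪wdir u v θ, wder u v θ⟫ = 0 :=
  ⟨norm_ww hu hv huv θ, norm_ww' hu hv huv θ, inner_ww hu hv huv θ⟩

theorem perp_wdir {u v : E} (θ : ℝ) : perp (wdir u v θ) (wder u v θ) = perp u v := by
  ext l
  rw [mem_perp, mem_perp]
  unfold wdir wder
  simp only [inner_add_left, inner_smul_left, conj_trivial]
  have hsc := Real.sin_sq_add_cos_sq θ
  constructor
  · rintro ⟨h1, h2⟩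
    constructor
    · have : (Real.sin θ ^ 2 + Real.cos θ ^ 2) * ⟪u, l⟫ = 0 := by
        linear_combination Real.cos θ * h1 - Real.sin θ * h2
      rwa [hsc, one_mul] at this
    · have : (Real.sin θ ^ 2 + Real.cos θ ^ 2) * ⟪v, l⟫ = 0 := by
        linear_combination Real.sin θ * h1 + Real.cos θ * h2
      rwa [hsc, one_mul] at this
  · rintro ⟨h1, h2⟩
    rw [h1, h2]
    simp

theorem perp_neg_right (u v : E) : perp u (-v) = perp u v := by
  ext l
  rw [mem_perp, mem_perp, inner_neg_left, neg_eq_zero]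

theorem perp_neg_left (u v : E) : perp (-u) v = perp u v := by
  ext l
  rw [mem_perp, mem_perp, inner_neg_left, neg_eq_zero]

theorem fcirc_tendsto_right (θ0 : ℝ) : Tendsto (fun θ : ℝ => θ - θ0) (𝓝[>] θ0) (𝓝[>] 0) := by
  apply tendsto_nhdsWithin_of_tendsto_nhds_of_eventually_within
  · have h : Tendsto (fun θ : ℝ => θ - θ0) (𝓝 θ0) (𝓝 (θ0 - θ0)) :=
      (continuous_id.sub continuous_const).tendsto θ0
    rw [sub_self] at h
    exact h.mono_left nhdsWithin_le_nhds
  · filter_upwards [self_mem_nhdsWithin] with θ hθ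
    exact mem_Ioi.mpr (sub_pos.mpr (mem_Ioi.mp hθ))

theorem fcirc_tendsto_left (θ0 : ℝ) : Tendsto (fun θ : ℝ => θ0 - θ) (𝓝[<] θ0) (𝓝[>] 0) := by
  apply tendsto_nhdsWithin_of_tendsto_nhds_of_eventually_within
  · have h : Tendsto (fun θ : ℝ => θ0 - θ) (𝓝 θ0) (𝓝 (θ0 - θ0)) :=
      (continuous_const.sub continuous_id).tendsto θ0
    rw [sub_self] at h
    exact h.mono_left nhdsWithin_le_nhds
  · filter_upwards [self_mem_nhdsWithin] with θ hθ
    exact mem_Ioi.mpr (sub_pos.mpr (mem_Iio.mp hθ))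

theorem face_right {P : Set E} (hP : Polytope P) (u v : E) (θ0 : ℝ) :
    ∀ᶠ θ in 𝓝[>] θ0, face P (wdir u v θ) = ridge P (wdir u v θ0) (wder u v θ0) := by
  have h := (fcirc_tendsto_right θ0).eventually (face_rot hP (wdir u v θ0) (wder u v θ0))
  filter_upwards [h] with θ hθ
  have e : wdir u v θ = Real.cos (θ - θ0) • wdir u v θ0 + Real.sin (θ - θ0) • wder u v θ0 := by
    have h1 := ww_add u v θ0 (θ - θ0)
    rw [show θ0 + (θ - θ0) = θ by ring] at h1
    exact h1
  rw [e]
  exact hθ

theorem face_left {P : Set E} (hP : Polytope P) (u v : E) (θ0 : ℝ) :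
    ∀ᶠ θ in 𝓝[<] θ0, face P (wdir u v θ) = ridge P (wdir u v θ0) (-wder u v θ0) := by
  have h := (fcirc_tendsto_left θ0).eventually (face_rot hP (wdir u v θ0) (-wder u v θ0))
  filter_upwards [h] with θ hθ
  have e : wdir u v θ = Real.cos (θ0 - θ) • wdir u v θ0 + Real.sin (θ0 - θ) • (-wder u v θ0) := by
    have h1 := ww_sub u v θ0 (θ0 - θ)
    rw [show θ0 - (θ0 - θ) = θ by ring] at h1
    exact h1
  rw [e]
  exact hθ

/-- a direction in the plane of `u` and `v` is constant on a ridge -/
theorem face_ridge_plane {P : Set E} (hc : IsCompact P) (w w' : E) (a b : ℝ) :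
    face (face (face P w) w') (a • w + b • w') = face (face P w) w' := by
  have hFc := face_compact hc w
  apply face_of_const
  intro x hx y hy
  have h1 : ⟪w, x⟫ = ⟪w, y⟫ := by
    rw [((mem_face_iff hc).mp hx.1).2, ((mem_face_iff hc).mp hy.1).2]
  have h2 : ⟪w', x⟫ = ⟪w', y⟫ := by
    rw [((mem_face_iff hFc).mp hx).2, ((mem_face_iff hFc).mp hy).2]
  rw [inner_add_left, inner_add_left, inner_smul_left, inner_smul_left, inner_smul_left,
    inner_smul_left, h1, h2]

theorem circle {P : Set E} (hP : Polytope P) {u v : E} (hu : ‖u‖ = 1) (hv : ‖v‖ = 1)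
    (huv : ⟪u, v⟫ = 0)
    (h : ∀ θ, rvol P (wdir u v θ) (wder u v θ) = rvol P (wdir u v θ) (-wder u v θ)) :
    rvol P (-u) (-v) = rvol P u v := by
  have hc := hP.compact
  have hm : ∀ θ, rvol P (wdir u v θ) (wder u v θ) =
      (Measure.hausdorffMeasure (Module.finrank ℝ (perp u v) : ℝ) : Measure E)
        (face (face P (wdir u v θ)) (wder u v θ)) := by
    intro θ
    unfold rvol
    rw [perp_wdir]
    rfl
  have hm' : ∀ θ, rvol P (wdir u v θ) (-wder u v θ) =
      (Measure.hausdorffMeasure (Module.finrank ℝ (perp u v) : ℝ) : Measure E)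
        (face (face P (wdir u v θ)) (-wder u v θ)) := by
    intro θ
    unfold rvol
    rw [perp_neg_right, perp_wdir]
    rfl
  have hloc : IsLocallyConstant (fun θ : ℝ => rvol P (wdir u v θ) (wder u v θ)) := by
    rw [IsLocallyConstant.iff_eventually_eq]
    intro θ0
    have hr : ∀ᶠ θ in 𝓝[>] θ0, rvol P (wdir u v θ) (wder u v θ) =
        rvol P (wdir u v θ0) (wder u v θ0) := by
      filter_upwards [face_right hP u v θ0] with θ hθ
      rw [hm, hm, hθ]
      have e : wder u v θ = (-Real.sin (θ - θ0)) • wdir u v θ0 +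
          Real.cos (θ - θ0) • wder u v θ0 := by
        have h1 := ww'_add u v θ0 (θ - θ0)
        rw [show θ0 + (θ - θ0) = θ by ring] at h1
        exact h1
      rw [e]
      show (Measure.hausdorffMeasure _ : Measure E) (face (face (face P (wdir u v θ0))
        (wder u v θ0)) _) = _
      rw [face_ridge_plane hc]
    have hl : ∀ᶠ θ in 𝓝[<] θ0, rvol P (wdir u v θ) (wder u v θ) =
        rvol P (wdir u v θ0) (wder u v θ0) := by
      filter_upwards [face_left hP u v θ0] with θ hθ
      rw [h θ0, hm, hm', hθ]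
      have e : wder u v θ = (Real.sin (θ0 - θ)) • wdir u v θ0 +
          (-Real.cos (θ0 - θ)) • (-wder u v θ0) := by
        have h1 := ww'_sub u v θ0 (θ0 - θ)
        rw [show θ0 - (θ0 - θ) = θ by ring] at h1
        show ww' u v θ = _
        rw [h1]
        show _ = (Real.sin (θ0 - θ)) • ww u v θ0 + (-Real.cos (θ0 - θ)) • (-ww' u v θ0)
        module
      rw [e]
      show (Measure.hausdorffMeasure _ : Measure E) (face (face (face P (wdir u v θ0))
        (-wder u v θ0)) _) = _
      rw [face_ridge_plane hc]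
    rw [← nhdsNE_sup_pure, eventually_sup, ← nhdsLT_sup_nhdsGT, eventually_sup, eventually_pure]
    exact ⟨⟨hl, hr⟩, rfl⟩
  have hfin := hloc.apply_eq_of_preconnectedSpace Real.pi 0
  have e1 : wdir u v Real.pi = -u := by unfold wdir; simp
  have e2 : wder u v Real.pi = -v := by unfold wder; simp
  have e3 : wdir u v 0 = u := by unfold wdir; simp
  have e4 : wder u v 0 = v := by unfold wder; simp
  simp only [e1, e2, e3, e4] at hfin
  exact hfin

end Pool.PT56
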