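import Pool.Agent.PT56.FHyp
import Pool.Agent.PT56.FacC

set_option autoImplicit false
set_option linter.unusedSectionVars false

/-!
# PT56/FFac: the facets of a polytope

`fn_sub`: let `K = {x | ∀ i, ⟪a i, x⟫ ≤ c i}`, `u ∈ FN K`.  At each point of `face K u` some inequality `i` with
`a i ≠ 0` is an equality (if all are strict one can move in the direction `u`).  So the section of the face is a
finite union of level sets; one of them is not null, so `a i` is orthogonal to `(ℝ ∙ u)ᗮ`: `a i = r • u`.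
An interior point of `K` shows `r > 0`.
The other statements are consequences of HRepF and FacC.
-/

namespace Pool.PT56

open Set Filter Topology MeasureTheory
open scoped RealInnerProductSpace ENNReal

variable {E : Type} [NormedAddCommGroup E] [InnerProductSpace ℝ E] [FiniteDimensional ℝ E]
  [MeasurableSpace E] [BorelSpace E]

theorem mem_FN_facet {K : Set E} {u : E} : u ∈ FN K ↔ Facet K u := Iff.rfl

theorem ffac_eq_secQ {K : Set E} (hK : IsCompact K) {u : E} (hu : ‖u‖ = 1) :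
    hface K u = secQ K u := by
  have huu : ⟪u, u⟫ = 1 := by rw [real_inner_self_eq_norm_sq, hu]; norm_num
  ext y
  constructor
  · intro hy
    refine (mem_face_iff hK).mpr ⟨hy, ?_⟩
    rw [inner_add_right, inner_smul_right, huu, PT57.mem_perp_iff.mp y.2]
    ring
  · intro hy
    exact hy.1

theorem fn_sub {ι : Type} [Finite ι] (a : ι → E) (c : ι → ℝ) {K : Set E} (hKc : IsCompact K)
    (hKi : (interior K).Nonempty) (hK : K = {x | ∀ i, ⟪a i, x⟫ ≤ c i}) {u : E} (hu : u ∈ FN K) :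
    ∃ i, ∃ r : ℝ, 0 < r ∧ a i = r • u := by
  have hu1 : ‖u‖ = 1 := hu.1
  have huu : ⟪u, u⟫ = 1 := by rw [real_inner_self_eq_norm_sq, hu1]; norm_num
  have hu0 : u ≠ 0 := by
    intro h; rw [h] at hu1; simp at hu1
  have hvol := hu.2
  rw [vol_prism_face hKc hu1] at hvol
  have hKmem : ∀ x, x ∈ K ↔ ∀ i, ⟪a i, x⟫ ≤ c i := fun x =>
    ⟨fun h => by rw [hK] at h; exact h, fun h => by rw [hK]; exact h⟩
  have hcov : (fun y : (ℝ ∙ u)ᗮ => spt K u • u + (y : E)) ⁻¹' (face K u) ⊆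
      ⋃ i ∈ {i | a i ≠ 0}, {y : (ℝ ∙ u)ᗮ | spt K u • u + (y : E) ∈ face K u ∧
        ⟪a i, spt K u • u + (y : E)⟫ = c i} := by
    intro y hy
    simp only [mem_iUnion]
    by_contra hcon
    push Not at hcon
    have hyK : spt K u • u + (y : E) ∈ K := hy.1
    have hyK' := (hKmem _).mp hyK
    have h1 : ∀ i, a i ≠ 0 → ⟪a i, spt K u • u + (y : E)⟫ < c i := fun i hi =>
      lt_of_le_of_ne (hyK' i) (fun h => hcon i hi ⟨hy, h⟩)
    have h2 : ∀ᶠ r : ℝ in 𝓝[>] 0, ∀ i, ⟪a i, spt K u • u + (y : E) + r • u⟫ ≤ c i := by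
      rw [Filter.eventually_all]
      intro i
      by_cases hi : a i = 0
      · apply Filter.Eventually.of_forall
        intro r
        have := hyK' i
        rw [hi] at this ⊢
        simpa using this
      have hc : Tendsto (fun r : ℝ => ⟪a i, spt K u • u + (y : E) + r • u⟫) (𝓝 0)
          (𝓝 ⟪a i, spt K u • u + (y : E) + (0:ℝ) • u⟫) := by
        have : Continuous (fun r : ℝ => ⟪a i, spt K u • u + (y : E) + r • u⟫) := by fun_prop
        exact this.tendsto 0
      rw [zero_smul, add_zero] at hc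
      have h3 : ∀ᶠ r : ℝ in 𝓝[>] 0, ⟪a i, spt K u • u + (y : E) + r • u⟫ < c i :=
        (hc.eventually_lt_const (h1 i hi)).filter_mono nhdsWithin_le_nhds
      filter_upwards [h3] with r hr using hr.le
    obtain ⟨r, hr, hr0⟩ := (h2.and self_mem_nhdsWithin).exists
    have hr0' : (0:ℝ) < r := hr0
    have h4 : spt K u • u + (y : E) + r • u ∈ K := (hKmem _).mpr hr
    have h5 := hy.2 _ h4
    rw [inner_add_right (u), inner_smul_right, huu] at h5
    linarith
  have hex : ∃ i, a i ≠ 0 ∧ volume {y : (ℝ ∙ u)ᗮ | spt K u • u + (y : E) ∈ face K u ∧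
        ⟪a i, spt K u • u + (y : E)⟫ = c i} ≠ 0 := by
    by_contra hcon
    push Not at hcon
    apply hvol
    refine measure_mono_null hcov ?_
    exact (measure_biUnion_null_iff (Set.toFinite _).countable).mpr hcon
  obtain ⟨i, hi0, hi⟩ := hex
  refine ⟨i, ⟪u, a i⟫, ?_⟩
  have hai : a i = ⟪u, a i⟫ • u := by
    by_contra hcon
    apply hi
    let f : (ℝ ∙ u)ᗮ →ₗ[ℝ] ℝ :=
      { toFun := fun z => ⟪a i, (z : E)⟫
        map_add' := fun a b => by rw [Submodule.coe_add, inner_add_right]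
        map_smul' := fun c a => by rw [Submodule.coe_smul, inner_smul_right]; rfl }
    have hf : f ≠ 0 := by
      intro h1
      have hz : a i - ⟪u, a i⟫ • u ∈ (ℝ ∙ u)ᗮ := by
        rw [PT57.mem_perp_iff, inner_sub_right, inner_smul_right, huu]; ring
      have h2 : f ⟨a i - ⟪u, a i⟫ • u, hz⟩ = 0 := by rw [h1]; rfl
      have h3 : ⟪a i, a i - ⟪u, a i⟫ • u⟫ = 0 := h2
      have h4 : ⟪u, a i - ⟪u, a i⟫ • u⟫ = 0 := PT57.mem_perp_iff.mp hz
      have h5 : ⟪a i - ⟪u, a i⟫ • u, a i - ⟪u, a i⟫ • u⟫ = 0 := by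
        rw [inner_sub_left, inner_smul_left, h3, h4]
        simp
      exact hcon (sub_eq_zero.mp (inner_self_eq_zero.mp h5))
    refine measure_mono_null ?_ (level_null hf (c i - spt K u * ⟪a i, u⟫))
    rintro y ⟨-, hy⟩
    rw [inner_add_right, inner_smul_right] at hy
    show ⟪a i, (y : E)⟫ = c i - spt K u * ⟪a i, u⟫
    linarith
  refine ⟨?_, hai⟩
  obtain ⟨y, hy1, hy2⟩ : {y : (ℝ ∙ u)ᗮ | spt K u • u + (y : E) ∈ face K u ∧
        ⟪a i, spt K u • u + (y : E)⟫ = c i}.Nonempty := by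
    rw [nonempty_iff_ne_empty]
    intro h
    rw [h] at hi
    simp at hi
  obtain ⟨x0, hx0⟩ := hKi
  have h1 := lt_spt hKc hx0 hu0
  have h3 : ⟪a i, x0⟫ ≤ c i := (hKmem _).mp (interior_subset hx0) i
  set r := ⟪u, a i⟫ with hr
  have h4 : ⟪a i, x0⟫ = r * ⟪u, x0⟫ := by
    rw [hai, inner_smul_left]; simp
  have h5 : ⟪a i, spt K u • u + (y : E)⟫ = r * spt K u := by
    rw [hai, inner_smul_left, ((mem_face_iff hKc).mp hy1).2]; simp
  rw [h5] at hy2
  rw [h4, ← hy2] at h3
  have hr0 : r ≠ 0 := by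
    intro h
    apply hi0
    rw [hai, h, zero_smul]
  rcases lt_or_gt_of_ne hr0 with h6 | h6
  · nlinarith
  · exact h6

theorem fn_rep {P : Set E} (hP : Polytope P) (x : E)
    (h : ∀ u ∈ FN P, ⟪u, x⟫ ≤ spt P u) : x ∈ P := by
  obtain ⟨U, hU1, hU2⟩ := hrepF hP
  exact (hU2 x).mpr fun u hu => h u ((hU1 u).mp hu)

theorem fn_finite {P : Set E} (hP : Polytope P) : (FN P).Finite := by
  obtain ⟨U, hU1, -⟩ := hrepF hP
  exact U.finite_toSet.subset (fun u hu => (hU1 u).mpr hu)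

/-- no direction is on the left of all facet normals -/
theorem fn_pos {P : Set E} (hP : Polytope P) {w : E} (hw : w ≠ 0) : ∃ u ∈ FN P, 0 < ⟪u, w⟫ := by
  by_contra hcon
  push Not at hcon
  exact hw (recession hP hcon)

theorem fn_span {P : Set E} (hP : Polytope P) : Submodule.span ℝ (FN P) = ⊤ := by
  rw [← Submodule.orthogonal_eq_bot_iff, Submodule.eq_bot_iff]
  intro x hx
  apply recession hP
  intro u hu
  rw [Submodule.mem_orthogonal] at hx
  exact (hx u (Submodule.subset_span hu)).le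

theorem gv_ne_of_mem_FN {P : Set E} (hP : IsCompact P) {u : E} (hu : ‖u‖ = 1) {v : (ℝ ∙ u)ᗮ}
    (hv : v ∈ FN (hface P u)) : gv P u (v : E) ≠ 0 := by
  rw [ffac_eq_secQ hP hu] at hv
  have hQ := secQ_compact hP hu
  rw [gv_eq hP hu v, ← vol_prism_muHE hv.1 (face_compact hQ v)
    (fun x hx => ((mem_face_iff hQ).mp hx).2)]
  exact hv.2

/-- every facet of a facet comes from another facet -/
theorem ridge_map {P : Set E} (hP : Polytope P) {u : E} (hu : u ∈ FN P) {v : (ℝ ∙ u)ᗮ}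
    (hv : v ∈ FN (hface P u)) : ∃ w ∈ FN P, ∃ α β : ℝ, 0 < β ∧ w = α • u + β • (v : E) := by
  obtain ⟨w, hw, hab, -⟩ := exists_other hP hu (v := (v : E)) hv.1 (PT57.mem_perp_iff.mp v.2)
    (gv_ne_of_mem_FN hP.compact hu.1 hv)
  exact ⟨w, hw, hab⟩

end Pool.PT56
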