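import Pool.Agent.PT56.FSing
import Pool.Agent.PT56.FFac

set_option autoImplicit false
set_option linter.unusedSectionVars false

/-!
# PT56/FCnt: at least `2 d - 1` facets

`csym_fn`: `c - K = K`, `face K (-u) = c - face K u`, the prisms are congruent.
`count_symm`: a basis of `E` in `S` (`exists_linearIndependent`…): `d` independent vectors of `S` and their
negatives are `2 d` different elements of `S`.
`facet_count_le`: `v ↦ w` of `ridge_map` is an injection from `FN (hface P u)` to `FN P \ {u}`
(`w` determines `v`: `β • v` is the component of `w` orthogonal to `u`, `‖v‖ = 1`, `β > 0`).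
`fn_count`: if every `u ∈ FN P` has `-u ∈ FN P`: `count_symm`, `fn_span`.  Otherwise take `u ∈ FN P`, `-u ∉ FN P`:
`hface P u` is a centrally symmetric polytope in a space of dimension `d - 1`, so
`2 (d - 1) ≤ ncard (FN (hface P u)) ≤ ncard (FN P) - 1`.
-/

namespace Pool.PT56

open Set Filter Topology MeasureTheory
open scoped RealInnerProductSpace ENNReal

variable {E : Type} [NormedAddCommGroup E] [InnerProductSpace ℝ E] [FiniteDimensional ℝ E]
  [MeasurableSpace E] [BorelSpace E]

theorem csym_fn {K : Set E} (hK : CSym K) {u : E} (hu : u ∈ FN K) : -u ∈ FN K := by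
  obtain ⟨c, hc⟩ := hK
  obtain ⟨h1, h2⟩ := hu
  refine ⟨by rw [norm_neg, h1], ?_⟩
  have hf : face K (-u) = (fun x => c - x) '' face K u := by
    ext x
    constructor
    · rintro ⟨hx1, hx2⟩
      refine ⟨c - x, ⟨hc x hx1, fun y hy => ?_⟩, by simp⟩
      have := hx2 (c - y) (hc y hy)
      simp only [inner_neg_left, inner_sub_right] at this ⊢
      linarith
    · rintro ⟨y, ⟨hy1, hy2⟩, rfl⟩
      refine ⟨hc y hy1, fun z hz => ?_⟩
      have := hy2 (c - z) (hc z hz)
      simp only [inner_neg_left, inner_sub_right] at this ⊢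
      linarith
  have hp : prism (face K (-u)) (-u) = (fun x => c - x) '' prism (face K u) u := by
    rw [hf]
    ext x
    constructor
    · rintro ⟨y, ⟨z, hz, rfl⟩, s, hs0, hs1, rfl⟩
      refine ⟨z + s • u, ⟨z, hz, s, hs0, hs1, rfl⟩, ?_⟩
      simp only [smul_neg]
      abel
    · rintro ⟨y, ⟨z, hz, s, hs0, hs1, rfl⟩, rfl⟩
      refine ⟨c - z, ⟨z, hz, rfl⟩, s, hs0, hs1, ?_⟩
      simp only [smul_neg]
      abel
  have hv : volume (prism (face K (-u)) (-u)) = volume (prism (face K u) u) := by
    rw [hp]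
    have e : (fun x => c - x) '' prism (face K u) u =
        (fun x => c + x) '' (-(prism (face K u) u)) := by
      ext x
      constructor
      · rintro ⟨y, hy, rfl⟩
        exact ⟨-y, by simpa using hy, by simp [sub_eq_add_neg]⟩
      · rintro ⟨y, hy, rfl⟩
        exact ⟨-y, hy, by simp⟩
    rw [e, Set.image_add_left, measure_preimage_add, vol_neg]
  rw [hv]
  exact h2

theorem count_symm {S : Set E} (hS : S.Finite) (h0 : (0 : E) ∉ S) (hneg : ∀ u ∈ S, -u ∈ S)
    (hspan : Submodule.span ℝ S = ⊤) : 2 * Module.finrank ℝ E ≤ S.ncard := by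
  obtain ⟨b, hbS, hbsp, hli⟩ := exists_linearIndependent ℝ S
  have hbf : b.Finite := hS.subset hbS
  have hcard : Module.finrank ℝ E = b.ncard := by
    have := hbf.fintype
    have h1 := finrank_span_set_eq_card hli
    rw [hbsp, hspan, finrank_top] at h1
    rw [h1, Set.ncard_eq_toFinset_card' b]
  have hdis : Disjoint b (-b) := by
    rw [Set.disjoint_left]
    intro x hx hx'
    have hx2 : -x ∈ b := hx'
    have hx0 : x ≠ 0 := fun h => h0 (h ▸ hbS hx)
    by_cases e : x = -x
    · have h3 : (2 : ℝ) • x = 0 := by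
        rw [two_smul]
        nth_rewrite 2 [e]
        exact add_neg_cancel x
      rcases smul_eq_zero.1 h3 with h4 | h4
      · norm_num at h4
      · exact hx0 h4
    · have h3 : LinearIndependent ℝ ![x, -x] := by
        have hinj : Function.Injective (![⟨x, hx⟩, ⟨-x, hx2⟩] : Fin 2 → b) := by
          intro i j hij
          fin_cases i <;> fin_cases j <;> simp_all
        have h4 := hli.comp _ hinj
        have h5 : ((fun y : b => (y : E)) ∘ (![⟨x, hx⟩, ⟨-x, hx2⟩] : Fin 2 → b)) = ![x, -x] := by
          funext i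
          fin_cases i <;> rfl
        rw [← h5]
        exact h4
      rw [LinearIndependent.pair_iff] at h3
      have := (h3 1 1 (by simp)).1
      norm_num at this
  have hneg' : -b ⊆ S := fun x hx => by
    have := hneg (-x) (hbS hx)
    rwa [neg_neg] at this
  have hfn : (-b).Finite := hS.subset hneg'
  have hn : (-b).ncard = b.ncard := by
    rw [← Set.image_neg_eq_neg, Set.ncard_image_of_injective _ neg_injective]
  have h5 : (b ∪ -b).ncard = b.ncard + (-b).ncard := Set.ncard_union_eq hdis hbf hfn
  have h6 : (b ∪ -b).ncard ≤ S.ncard := Set.ncard_le_ncard (Set.union_subset hbS hneg') hS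
  omega

theorem finrank_hyp {u : E} (hu : ‖u‖ = 1) :
    Module.finrank ℝ (ℝ ∙ u)ᗮ + 1 = Module.finrank ℝ E := by
  have h := Submodule.finrank_add_finrank_orthogonal (ℝ ∙ u)
  have hu0 : u ≠ 0 := by
    rintro rfl
    simp at hu
  rw [finrank_span_singleton hu0] at h
  omega

theorem facet_count_le {P : Set E} (hP : Polytope P) {u : E} (hu : u ∈ FN P) :
    (FN (hface P u)).ncard + 1 ≤ (FN P).ncard := by
  classical
  have huu : ⟪u, u⟫ = 1 := by rw [real_inner_self_eq_norm_sq, hu.1]; norm_num
  have hperp : ∀ v : (ℝ ∙ u)ᗮ, ⟪u, (v : E)⟫ = 0 := fun v =>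
    Submodule.mem_orthogonal_singleton_iff_inner_right.1 v.2
  have hex : ∀ v : (ℝ ∙ u)ᗮ, ∃ w : E, v ∈ FN (hface P u) →
      w ∈ FN P ∧ ∃ α β : ℝ, 0 < β ∧ w = α • u + β • (v : E) := by
    intro v
    by_cases hv : v ∈ FN (hface P u)
    · obtain ⟨w, hw, α, β, hβ, e⟩ := ridge_map hP hu hv
      exact ⟨w, fun _ => ⟨hw, α, β, hβ, e⟩⟩
    · exact ⟨0, fun h => absurd h hv⟩
  choose f hf using hex
  have hmaps : ∀ v ∈ FN (hface P u), f v ∈ FN P \ {u} := by
    intro v hv
    obtain ⟨h1, α, β, hβ, e⟩ := hf v hv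
    refine ⟨h1, fun h => ?_⟩
    have h2 : f v = u := h
    rw [h2] at e
    have h3 := congrArg (fun x => ⟪(v : E), x⟫) e
    have h4 : ‖(v : E)‖ = 1 := hv.1
    have h5 : ⟪(v : E), u⟫ = 0 := by rw [real_inner_comm]; exact hperp v
    simp only [inner_add_right, inner_smul_right, real_inner_self_eq_norm_sq, h4, h5, mul_zero,
      zero_add, one_pow, mul_one] at h3
    exact hβ.ne h3
  have hinj : Set.InjOn f (FN (hface P u)) := by
    intro v hv v' hv' e
    obtain ⟨-, α, β, hβ, e1⟩ := hf v hv
    obtain ⟨-, α', β', hβ', e2⟩ := hf v' hv'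
    rw [e1, e2] at e
    have hn1 : ‖(v : E)‖ = 1 := hv.1
    have hn2 : ‖(v' : E)‖ = 1 := hv'.1
    have h1 : α = α' := by
      have := congrArg (fun x => ⟪u, x⟫) e
      simp only [inner_add_right, inner_smul_right, huu, hperp, mul_one, mul_zero,
        add_zero] at this
      exact this
    rw [h1, add_right_inj] at e
    have h2 : β = β' := by
      have := congrArg norm e
      rw [norm_smul, norm_smul, hn1, hn2, Real.norm_of_nonneg hβ.le,
        Real.norm_of_nonneg hβ'.le] at this
      linarith
    rw [h2] at e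
    have h3 := smul_right_injective E hβ'.ne' e
    exact Subtype.ext h3
  have hfin := fn_finite hP
  have h1 : (FN (hface P u)).ncard ≤ (FN P \ {u}).ncard :=
    Set.ncard_le_ncard_of_injOn f hmaps hinj (hfin.subset Set.sdiff_subset)
  have h2 := Set.ncard_sdiff_singleton_add_one hu hfin
  omega

theorem fn_count {P : Set E} (hP : Polytope P) (hT : Tiles P) :
    2 * Module.finrank ℝ E ≤ (FN P).ncard + 1 := by
  have hfin := fn_finite hP
  have h0 : ∀ u ∈ FN P, u ≠ 0 := by
    rintro u hu rfl
    have := hu.1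
    simp at this
  by_cases hall : ∀ u ∈ FN P, -u ∈ FN P
  · have := count_symm hfin (fun h => h0 0 h rfl) hall (fn_span hP)
    omega
  · push Not at hall
    obtain ⟨u, hu, hn⟩ := hall
    have hQ := hface_polytope hP hu
    have hs := single_csym hP hT hu hn
    have h1 := count_symm (fn_finite hQ) (fun h => by
      have := h.1
      simp at this) (fun v hv => csym_fn hs hv) (fn_span hQ)
    have h2 := facet_count_le hP hu
    have h3 := finrank_hyp (E := E) hu.1
    omega

end Pool.PT56
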