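import Pool.Agent.PT56.FEqC
import Pool.Agent.PT56.NF

set_option autoImplicit false
set_option linter.unusedSectionVars false

/-!
# PT56/FConv: the direct sum of a triangle and segments tiles

`tiles_prod`: as `tiles_pi` for two factors (`tile_flip` for the factor `B`).
`tiles_cube`: `[0,1]` tiles `ℝ` by the integer translates (all signs `1`), `tiles_pi` for `[0,1]^n` (`CSym`: `x ↦ 1 - x`).
`tiles_triangle`: `tiles_NF` with `w = 0, b = 0, a = 1, α = 0`, `NF 0 1 0 0 β = {x ≥ 0, y ≥ 0, x + y ≤ 1}`.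
`tiles_add`: translation invariance (replace `t` by `t - s p`).
`tiles_triBox`: `P` is the image of `triangle ×ˢ cube` under `x ↦ p + L x`, `L` the linear equivalence
`(ℝ × ℝ) × (Fin n → ℝ) ≃ E` given by the basis `e` (`tiles_image`).
-/

namespace Pool.PT56

open Set Filter Topology MeasureTheory

theorem tiles_prod {V W : Type} [NormedAddCommGroup V] [NormedSpace ℝ V] [NormedAddCommGroup W]
    [NormedSpace ℝ W] {A : Set V} {B : Set W} (hA : Tiles A) (hB : Tiles B) (hc : CSym B) :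
    Tiles (A ×ˢ B) := by
  rw [tiles_iff] at hA hB ⊢
  obtain ⟨ι, t, s, hA⟩ := hA
  obtain ⟨κ, t', s', hB⟩ := hB
  have h : ∀ k : ι × κ, ∃ t'' : W, tile B t'' (s k.1) = tile B (t' k.2) (s' k.2) := by
    intro k
    by_cases h : s k.1 = s' k.2
    · exact ⟨_, by rw [h]⟩
    · have hneg : s k.1 = -(s' k.2) := by
        rcases hA.sgn k.1 with h3 | h3 <;> rcases hB.sgn k.2 with h4 | h4
        · exact absurd (h3.trans h4.symm) h
        · rw [h3, h4]; norm_num
        · rw [h3, h4]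
        · exact absurd (h3.trans h4.symm) h
      rw [hneg]
      exact tile_flip hc _ (hB.sgn _)
  choose t'' ht'' using h
  have htile : ∀ k : ι × κ, tile (A ×ˢ B) (t k.1, t'' k) (s k.1) =
      tile A (t k.1) (s k.1) ×ˢ tile B (t' k.2) (s' k.2) := by
    intro k
    ext x
    rw [mem_tile (hA.sgn k.1), ← ht'' k, Set.mem_prod, Set.mem_prod, mem_tile (hA.sgn k.1),
      mem_tile (hA.sgn k.1)]
    rfl
  refine ⟨ι × κ, fun k => (t k.1, t'' k), fun k => s k.1, fun k => hA.sgn k.1, ?_, ?_⟩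
  · intro x
    obtain ⟨i, hi⟩ := hA.cov x.1
    obtain ⟨j, hj⟩ := hB.cov x.2
    refine ⟨(i, j), ?_⟩
    rw [htile]
    exact ⟨hi, hj⟩
  · intro k k' hkk
    rw [htile, htile, interior_prod_eq, interior_prod_eq]
    rw [Set.disjoint_left]
    intro x hx hx'
    by_cases h1 : k.1 = k'.1
    · have h2 : k.2 ≠ k'.2 := fun h2 => hkk (Prod.ext h1 h2)
      exact Set.disjoint_left.mp (hB.dis _ _ h2) hx.2 hx'.2
    · exact Set.disjoint_left.mp (hA.dis _ _ h1) hx.1 hx'.1

private theorem tiles_Icc : Tiles (Set.Icc (0 : ℝ) 1) := by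
  rw [tiles_iff]
  refine ⟨ℤ, fun k => (k : ℝ), fun _ => 1, fun _ => Or.inl rfl, ?_, ?_⟩
  · intro x
    refine ⟨⌊x⌋, ?_⟩
    rw [mem_tile (Or.inl rfl), one_smul]
    exact ⟨by linarith [Int.floor_le x], by linarith [Int.lt_floor_add_one x]⟩
  · intro i j hij
    rw [Set.disjoint_left]
    intro x hx hx'
    rw [mem_interior_tile (Or.inl rfl), one_smul, interior_Icc] at hx hx'
    apply hij
    have h1 : (i : ℝ) < j + 1 := by linarith [hx.1, hx'.2]
    have h2 : (j : ℝ) < i + 1 := by linarith [hx'.1, hx.2]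
    have h3 : i < j + 1 := by exact_mod_cast h1
    have h4 : j < i + 1 := by exact_mod_cast h2
    omega

private theorem csym_Icc : CSym (Set.Icc (0 : ℝ) 1) :=
  ⟨1, fun x hx => ⟨by linarith [hx.2], by linarith [hx.1]⟩⟩

theorem tiles_cube (n : ℕ) : Tiles {x : Fin n → ℝ | ∀ i, 0 ≤ x i ∧ x i ≤ 1} := by
  have h := tiles_pi (r := n) (E := fun _ => ℝ) (P := fun _ => Set.Icc (0 : ℝ) 1)
    (fun _ => tiles_Icc) (fun i j hi _ => absurd csym_Icc hi)
  have he : (univ.pi fun _ : Fin n => Set.Icc (0 : ℝ) 1) =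
      {x : Fin n → ℝ | ∀ i, 0 ≤ x i ∧ x i ≤ 1} := by
    ext x
    rw [Set.mem_univ_pi]
    rfl
  rwa [he] at h

private theorem csym_cube (n : ℕ) : CSym {x : Fin n → ℝ | ∀ i, 0 ≤ x i ∧ x i ≤ 1} :=
  ⟨fun _ => 1, fun x hx i => ⟨by simp only [Pi.sub_apply]; linarith [(hx i).2],
    by simp only [Pi.sub_apply]; linarith [(hx i).1]⟩⟩

theorem tiles_triangle : Tiles {x : ℝ × ℝ | 0 ≤ x.1 ∧ 0 ≤ x.2 ∧ x.1 + x.2 ≤ 1} := by
  have h := tiles_NF (w := 0) (a := 1) (b := 0) 0 0 le_rfl zero_le_one le_rfl (by norm_num)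
  have he : NF 0 1 0 0 0 = {x : ℝ × ℝ | 0 ≤ x.1 ∧ 0 ≤ x.2 ∧ x.1 + x.2 ≤ 1} := by
    ext x
    simp only [NF, Set.mem_setOf_eq]
    constructor
    · rintro (h | h | h)
      · exact absurd h.1 (lt_irrefl _)
      · refine ⟨h.1, h.2.2.1, ?_⟩
        linarith [h.2.1, h.2.2.2]
      · refine ⟨h.2.1, ?_, ?_⟩
        · linarith [h.2.2.2.1]
        · linarith [h.2.2.2.2]
    · rintro ⟨h1, h2, h3⟩
      right; right
      refine ⟨one_pos, h1, ?_, ?_, ?_⟩ <;> linarith
  rwa [he] at h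

theorem tiles_add {V : Type} [NormedAddCommGroup V] [NormedSpace ℝ V] (p : V) {K : Set V}
    (hK : Tiles K) : Tiles ((fun x => p + x) '' K) := by
  rw [tiles_iff] at hK ⊢
  obtain ⟨ι, t, s, hK⟩ := hK
  have he : ∀ i, tile ((fun x => p + x) '' K) (t i - s i • p) (s i) = tile K (t i) (s i) := by
    intro i
    unfold tile
    rw [Set.image_image]
    congr 1
    funext x
    simp only [smul_add]
    abel
  refine ⟨ι, fun i => t i - s i • p, s, hK.sgn, ?_, ?_⟩
  · intro x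
    obtain ⟨i, hi⟩ := hK.cov x
    exact ⟨i, by rw [he]; exact hi⟩
  · intro i j hij
    rw [he, he]
    exact hK.dis i j hij

/-- the splitting of the first two coordinates -/
private def spl (n : ℕ) : ((ℝ × ℝ) × (Fin n → ℝ)) ≃ₗ[ℝ] (Fin (n + 2) → ℝ) where
  toFun x := Fin.cons x.1.1 (Fin.cons x.1.2 x.2 : Fin (n + 1) → ℝ)
  map_add' x y := by
    funext i
    refine Fin.cases ?_ (fun j => ?_) i
    · simp
    · refine Fin.cases ?_ (fun k => ?_) j <;> simp
  map_smul' c x := by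
    funext i
    refine Fin.cases ?_ (fun j => ?_) i
    · simp
    · refine Fin.cases ?_ (fun k => ?_) j <;> simp
  invFun c := ((c 0, c 1), fun i => c i.succ.succ)
  left_inv x := by
    refine Prod.ext (Prod.ext ?_ ?_) ?_
    · simp
    · show (Fin.cons x.1.1 (Fin.cons x.1.2 x.2 : Fin (n + 1) → ℝ) : Fin (n + 2) → ℝ) 1 = x.1.2
      rw [← Fin.succ_zero_eq_one]
      simp
    · funext i
      simp
  right_inv c := by
    funext i
    refine Fin.cases ?_ (fun j => ?_) i
    · simp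
    · refine Fin.cases ?_ (fun k => ?_) j
      · simp
      · simp

theorem tiles_triBox {E : Type} [NormedAddCommGroup E] [InnerProductSpace ℝ E]
    [FiniteDimensional ℝ E] {n : ℕ} (hn : Module.finrank ℝ E = n + 2) {P : Set E}
    (hP : TriBox n P) : Tiles P := by
  obtain ⟨p, e, he, rfl⟩ := hP
  have hcard : Fintype.card (Fin (n + 2)) = Module.finrank ℝ E := by rw [hn]; simp
  let b := basisOfLinearIndependentOfCardEqFinrank he hcard
  have hb : ∀ i, b i = e i := fun i => by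
    simp [b]
  let L : ((ℝ × ℝ) × (Fin n → ℝ)) ≃L[ℝ] E :=
    ((spl n).trans b.equivFun.symm).toContinuousLinearEquiv
  have hL : ∀ x, L x = ∑ i, (spl n x) i • e i := by
    intro x
    show b.equivFun.symm (spl n x) = _
    rw [Module.Basis.equivFun_symm_apply]
    exact Finset.sum_congr rfl fun i _ => by rw [hb]
  have h1 : Tiles ({x : ℝ × ℝ | 0 ≤ x.1 ∧ 0 ≤ x.2 ∧ x.1 + x.2 ≤ 1} ×ˢ
      {x : Fin n → ℝ | ∀ i, 0 ≤ x i ∧ x i ≤ 1}) :=
    tiles_prod tiles_triangle (tiles_cube n) (csym_cube n)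
  have h2 := tiles_add p ((tiles_image L _).mpr h1)
  convert h2 using 1
  ext x
  simp only [Set.mem_setOf_eq, Set.mem_image]
  constructor
  · rintro ⟨c, hc0, hc1, hc2, rfl⟩
    refine ⟨∑ i, c i • e i, ⟨(spl n).symm c, ?_, ?_⟩, rfl⟩
    · refine ⟨⟨hc0 0, hc0 1, hc1⟩, fun i => ⟨hc0 _, hc2 _ ?_⟩⟩
      simp
    · rw [hL]
      simp
  · rintro ⟨y, ⟨z, hz, rfl⟩, rfl⟩
    refine ⟨spl n z, ?_, ?_, ?_, by rw [hL]⟩
    · intro i
      refine Fin.cases ?_ (fun j => ?_) i
      · exact hz.1.1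
      · refine Fin.cases ?_ (fun k => ?_) j
        · exact hz.1.2.1
        · exact (hz.2 k).1
    · have := hz.1.2.2
      exact this
    · intro i
      refine Fin.cases ?_ (fun j => ?_) i
      · intro h; simp at h
      · refine Fin.cases ?_ (fun k => ?_) j
        · intro h; simp at h
        · intro _
          exact (hz.2 k).2

end Pool.PT56
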