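import Pool.Agent.PT56.FPair

set_option autoImplicit false
set_option linter.unusedSectionVars false

/-!
# PT56/FEqA: polytopes with at most `2 d - 1` facets, first part

`exists_single`: if all facets come in parallel pairs then `2 d ≤ ncard (FN P)` (`count_symm`, `fn_span`).
`frame`: `S = FN (hface P u)` is symmetric (`csym_fn`, `single_csym`), finite, spans `(ℝ ∙ u)ᗮ` (`fn_span`,
`hface_polytope`), so `2 (d-1) = 2 (n+1) ≤ ncard S ≤ ncard (FN P) - 1 ≤ 2 (n+1)`.  So `S = {± v i}` for a basis
`v : Fin (n+1) → (ℝ ∙ u)ᗮ` taken from `S`, and the injection `S → FN P \ {u}` of `ridge_map` (see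
`facet_count_le`) is onto.
-/

namespace Pool.PT56

open Set Filter Topology MeasureTheory
open scoped RealInnerProductSpace ENNReal

variable {E : Type} [NormedAddCommGroup E] [InnerProductSpace ℝ E] [FiniteDimensional ℝ E]
  [MeasurableSpace E] [BorelSpace E]

theorem FEqA_zero_notMem_FN {F : Type} [NormedAddCommGroup F] [InnerProductSpace ℝ F]
    [FiniteDimensional ℝ F] [MeasurableSpace F] [BorelSpace F] (K : Set F) : (0 : F) ∉ FN K := by
  intro h
  have := h.1
  simp at this

theorem exists_single {P : Set E} (hP : Polytope P)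
    (hc : (FN P).ncard + 1 ≤ 2 * Module.finrank ℝ E) : ∃ u ∈ FN P, -u ∉ FN P := by
  by_contra h
  have h' : ∀ u ∈ FN P, -u ∈ FN P := by
    intro u hu
    by_contra hn
    exact h ⟨u, hu, hn⟩
  have := count_symm (fn_finite hP) (FEqA_zero_notMem_FN P) h' (fn_span hP)
  omega

/-- linearly independent vectors and their negatives are different -/
theorem FEqA_ne_neg {F : Type} [AddCommGroup F] [Module ℝ F] {m : ℕ} {v : Fin m → F}
    (hv : LinearIndependent ℝ v) (i j : Fin m) : v i ≠ -v j := by
  intro h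
  have h1 : ∑ k, ((Pi.single i (1 : ℝ) : Fin m → ℝ) k + (Pi.single j (1 : ℝ) : Fin m → ℝ) k) • v k
      = 0 := by
    simp only [add_smul, Finset.sum_add_distrib, Pi.single_apply, ite_smul, one_smul, zero_smul,
      Finset.sum_ite_eq', Finset.mem_univ, if_true]
    rw [h]
    exact neg_add_cancel _
  have h2 := Fintype.linearIndependent_iff.mp hv _ h1 i
  rw [Pi.single_eq_same, Pi.single_apply] at h2
  split_ifs at h2 <;> norm_num at h2

theorem frame {n : ℕ} (hn : Module.finrank ℝ E = n + 2) {P : Set E} (hP : Polytope P)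
    (hT : Tiles P) (hc : (FN P).ncard ≤ 2 * n + 3) {u : E} (hu : u ∈ FN P) (hu' : -u ∉ FN P) :
    ∃ v : Fin (n + 1) → (ℝ ∙ u)ᗮ, LinearIndependent ℝ v ∧ (∀ i, v i ∈ FN (hface P u)) ∧
      (∀ i, -v i ∈ FN (hface P u)) ∧
      ∃ (wp wm : Fin (n + 1) → E) (α α' β β' : Fin (n + 1) → ℝ), (∀ i, 0 < β i) ∧
        (∀ i, 0 < β' i) ∧ (∀ i, wp i = α i • u + β i • (v i : E)) ∧
        (∀ i, wm i = α' i • u - β' i • (v i : E)) ∧
        FN P = {u} ∪ Set.range wp ∪ Set.range wm := by
  classical
  have hun : ‖u‖ = 1 := hu.1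
  have hu0 : u ≠ 0 := by
    intro h
    rw [h, norm_zero] at hun
    exact zero_ne_one hun
  have hH := hface_polytope hP hu
  have hfin : (FN (hface P u)).Finite := fn_finite hH
  have h0 : (0 : (ℝ ∙ u)ᗮ) ∉ FN (hface P u) := FEqA_zero_notMem_FN _
  have hneg : ∀ v ∈ FN (hface P u), -v ∈ FN (hface P u) :=
    fun v hv => csym_fn (single_csym hP hT hu hu') hv
  have hspan : Submodule.span ℝ (FN (hface P u)) = ⊤ := fn_span hH
  have hdim : Module.finrank ℝ (ℝ ∙ u)ᗮ = n + 1 := by
    have := finrank_hyp hun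
    omega
  have h1 := count_symm hfin h0 hneg hspan
  have h2 := facet_count_le hP hu
  have hSc : (FN (hface P u)).ncard = 2 * (n + 1) := by omega
  have hPc : (FN P).ncard = 2 * n + 3 := by omega
  -- a basis consisting of normals
  obtain ⟨v, hvli, hvS⟩ : ∃ v : Fin (n + 1) → (ℝ ∙ u)ᗮ, LinearIndependent ℝ v ∧
      ∀ i, v i ∈ FN (hface P u) := by
    obtain ⟨b, hbS, hbspan, hbli⟩ := exists_linearIndependent ℝ (FN (hface P u))
    letI : Fintype b := (hfin.subset hbS).fintype
    let B := Module.Basis.mk hbli (by rw [Subtype.range_coe, hbspan, hspan])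
    have hcard : Fintype.card b = n + 1 := by
      rw [← Module.finrank_eq_card_basis B, hdim]
    let e := Fintype.equivFinOfCardEq hcard
    exact ⟨fun i => (e.symm i : (ℝ ∙ u)ᗮ), hbli.comp e.symm e.symm.injective,
      fun i => hbS (e.symm i).2⟩
  have hvS' : ∀ i, -v i ∈ FN (hface P u) := fun i => hneg _ (hvS i)
  -- all normals of the facet
  have hS : FN (hface P u) = Set.range (Sum.elim v fun i => -v i) := by
    symm
    apply Set.eq_of_subset_of_ncard_le _ _ hfin
    · rintro _ ⟨i | i, rfl⟩
      · exact hvS i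
      · exact hvS' i
    · have hinj : Function.Injective (Sum.elim v fun i => -v i) := by
        rintro (i | i) (j | j) h
        · exact congrArg _ (hvli.injective h)
        · exact absurd h (FEqA_ne_neg hvli i j)
        · exact absurd h.symm (FEqA_ne_neg hvli j i)
        · exact congrArg _ (hvli.injective (neg_injective h))
      rw [← Set.image_univ, Set.ncard_image_of_injective _ hinj, Set.ncard_univ, hSc]
      simp only [Nat.card_eq_fintype_card, Fintype.card_sum, Fintype.card_fin]
      omega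
  -- the other facets at the facet
  choose w hw α β hβ hwe using fun s : FN (hface P u) => ridge_map hP hu s.2
  have horth : ∀ y : (ℝ ∙ u)ᗮ, ⟪u, (y : E)⟫ = 0 := by
    intro y
    exact (Submodule.mem_orthogonal_singleton_iff_inner_right).mp y.2
  have hcomp : ∀ (a a' : ℝ) (y y' : (ℝ ∙ u)ᗮ), a • u + (y : E) = a' • u + (y' : E) → y = y' := by
    intro a a' y y' h
    have h3 := congrArg (fun z => ⟪u, z⟫) h
    simp only [inner_add_right, inner_smul_right, horth, add_zero,
      real_inner_self_eq_norm_sq, hun] at h3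
    have h4 : a = a' := by simpa using h3
    subst h4
    exact Subtype.ext (add_left_cancel h)
  have hwinj : Function.Injective w := by
    intro s s' h
    rw [hwe s, hwe s'] at h
    have h3 := hcomp (α s) (α s') (β s • s.1) (β s' • s'.1) (by simpa using h)
    have h4 := congrArg norm h3
    rw [norm_smul, norm_smul, s.2.1, s'.2.1, mul_one, mul_one, Real.norm_eq_abs,
      Real.norm_eq_abs, abs_of_pos (hβ s), abs_of_pos (hβ s')] at h4
    rw [h4] at h3
    exact Subtype.ext (smul_right_injective _ (hβ s').ne' h3)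
  have hwu : ∀ s, w s ≠ u := by
    intro s h
    rw [hwe s] at h
    have h3 := hcomp (α s) 1 (β s • s.1) 0 (by simpa using h)
    have h4 := congrArg norm h3
    rw [norm_smul, s.2.1, mul_one, Real.norm_eq_abs, abs_of_pos (hβ s), norm_zero] at h4
    exact (hβ s).ne' h4
  have hFN : FN P = {u} ∪ Set.range w := by
    symm
    apply Set.eq_of_subset_of_ncard_le _ _ (fn_finite hP)
    · rintro x (hx | ⟨s, rfl⟩)
      · rw [Set.mem_singleton_iff.mp hx]
        exact hu
      · exact hw s
    · have hfr : (Set.range w).ncard = 2 * (n + 1) := by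
        rw [← Set.image_univ, Set.ncard_image_of_injective _ hwinj, Set.ncard_univ, ← hSc]
        exact Nat.card_coe_set_eq _
      have hnot : u ∉ Set.range w := by
        rintro ⟨s, hs⟩
        exact hwu s hs
      have : Finite (FN (hface P u)) := hfin
      rw [Set.singleton_union, Set.ncard_insert_of_notMem hnot (Set.finite_range w), hfr, hPc]
      omega
  refine ⟨v, hvli, hvS, hvS', fun i => w ⟨v i, hvS i⟩, fun i => w ⟨-v i, hvS' i⟩,
    fun i => α ⟨v i, hvS i⟩, fun i => α ⟨-v i, hvS' i⟩, fun i => β ⟨v i, hvS i⟩,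
    fun i => β ⟨-v i, hvS' i⟩, fun i => hβ _, fun i => hβ _, fun i => hwe _, ?_, ?_⟩
  · intro i
    refine (hwe ⟨-v i, hvS' i⟩).trans ?_
    simp [sub_eq_add_neg]
  · rw [hFN, Set.union_assoc]
    congr 1
    ext x
    constructor
    · rintro ⟨⟨s, hs⟩, rfl⟩
      have hs' := hs
      rw [hS] at hs'
      obtain ⟨i | i, hi⟩ := hs'
      · left
        refine ⟨i, ?_⟩
        have : (⟨v i, hvS i⟩ : FN (hface P u)) = ⟨s, hs⟩ := Subtype.ext hi
        simp only [this]
      · right
        refine ⟨i, ?_⟩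
        have : (⟨-v i, hvS' i⟩ : FN (hface P u)) = ⟨s, hs⟩ := Subtype.ext hi
        simp only [this]
    · rintro (⟨i, rfl⟩ | ⟨i, rfl⟩)
      · exact ⟨_, rfl⟩
      · exact ⟨_, rfl⟩

end Pool.PT56
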