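import Pool.Agent.PT56.FEqA

set_option autoImplicit false
set_option linter.unusedSectionVars false

/-!
# PT56/FEqB: polytopes with at most `2 d - 1` facets, second part

Notation of `frame`.  The vectors `u, v 0, …, v n` are a basis of `E`.  An element of `FN P` in `span {u, v i}` is
`u`, `wp i` or `wm i`.  If `w ∈ PN P` lies in `span {u, v i}` then `w ≠ u`, `-w ≠ u` (`-u ∉ FN P`), so
`{w, -w} = {wp i, wm i}` (`wp i ≠ wm i`: their components along `v i` have different signs) and
`wm i = - wp i`.  By `at_most_one` (`v i ≠ ± v j` for `i ≠ j`) there is at most one `i` with `wm i ≠ - wp i`.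
There is exactly one: otherwise take `x` with `⟪wp i, x⟫ = 0` for all `i` and `⟪u, x⟫ = -1` (the `u, wp i` are
linearly independent), against `fn_pos`.  Call it `i0`; renumber the others by `Fin n` (`Fin.succAbove`).
`κ = β' i0 * α i0 + β i0 * α' i0`, so `β' • wp + β • wm = κ • u` (at `i0`).  If `κ ≥ 0` there is a real `b` with
`b ≤ α/β` and `-α'/β' ≤ b`; take `x` with `⟪wp i, x⟫ = 0` for `i ≠ i0`, `⟪u, x⟫ = -1`, `⟪v i0, x⟫ = b`: then
`⟪wp i0, x⟫ = -α + β b ≤ 0`, `⟪wm i0, x⟫ = -α' - β' b ≤ 0`, against `fn_pos`.  So `κ < 0` and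
`u = - l • wp i0 - m • wm i0` with `l = -β'/κ > 0`, `m = -β/κ > 0`.
-/

namespace Pool.PT56

open Set Filter Topology MeasureTheory
open scoped RealInnerProductSpace ENNReal

variable {E : Type} [NormedAddCommGroup E] [InnerProductSpace ℝ E] [FiniteDimensional ℝ E]
  [MeasurableSpace E] [BorelSpace E]

/-- prescribed inner products with a basis -/
theorem exists_inner_B {m : ℕ} (hm : Module.finrank ℝ E = m) (e : Fin m → E)
    (he : LinearIndependent ℝ e) (c : Fin m → ℝ) : ∃ x : E, ∀ i, ⟪e i, x⟫ = c i := by
  have hspan : Submodule.span ℝ (Set.range e) = ⊤ :=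
    he.span_eq_top_of_card_eq_finrank' (by rw [hm]; simp)
  let T : E →ₗ[ℝ] (Fin m → ℝ) :=
    { toFun := fun x i => ⟪e i, x⟫
      map_add' := by intro x y; ext i; simp [inner_add_right]
      map_smul' := by intro r x; ext i; simp [inner_smul_right] }
  have hinj : Function.Injective T := by
    rw [injective_iff_map_eq_zero]
    intro x hx
    have h1 : ∀ i, ⟪e i, x⟫ = 0 := fun i => congrFun hx i
    have h2 : ∀ y ∈ Submodule.span ℝ (Set.range e), ⟪y, x⟫ = 0 := by
      intro y hy
      induction hy using Submodule.span_induction with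
      | mem y hy => obtain ⟨i, rfl⟩ := hy; exact h1 i
      | zero => simp
      | add y z _ _ h3 h4 => rw [inner_add_left, h3, h4, add_zero]
      | smul r y _ h3 => rw [inner_smul_left, h3, mul_zero]
    have h3 := h2 x (by rw [hspan]; trivial)
    exact inner_self_eq_zero.1 h3
  have hsurj : Function.Surjective T := by
    rw [← LinearMap.injective_iff_surjective_of_finrank_eq_finrank (by rw [hm]; simp)]
    exact hinj
  obtain ⟨x, hx⟩ := hsurj c
  exact ⟨x, fun i => congrFun hx i⟩

omit [FiniteDimensional ℝ E] [MeasurableSpace E] [BorelSpace E] in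
theorem eq_zero_of_eq_neg_B {w : E} (h : w = -w) : w = 0 := by
  have h1 : w + w = 0 := by nth_rewrite 2 [h]; simp
  rw [← two_smul ℝ w] at h1
  rcases smul_eq_zero.1 h1 with h2 | h2
  · norm_num at h2
  · exact h2

theorem normals {n : ℕ} (hn : Module.finrank ℝ E = n + 2) {P : Set E} (hP : Polytope P)
    (hT : Tiles P) (hc : (FN P).ncard ≤ 2 * n + 3) :
    ∃ (u a b : E) (w : Fin n → E) (l m : ℝ), 0 < l ∧ 0 < m ∧ u = -(l • a) - m • b ∧
      LinearIndependent ℝ (Fin.cons a (Fin.cons b w : Fin (n + 1) → E) : Fin (n + 2) → E) ∧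
      FN P = {u, a, b} ∪ Set.range w ∪ Set.range (-w) := by
  obtain ⟨u, hu, hu'⟩ := exists_single hP (by rw [hn]; omega)
  obtain ⟨v, hv, hv1, hv2, wp, wm, α, α', β, β', hβ, hβ', hwp, hwm, hFN⟩ :=
    frame hn hP hT hc hu hu'
  -- the basis
  have hvE : LinearIndependent ℝ (fun i => (v i : E)) :=
    hv.map' (Submodule.subtype _) (Submodule.ker_subtype _)
  have huv : ∀ i, ⟪u, (v i : E)⟫ = 0 := fun i =>
    Submodule.mem_orthogonal_singleton_iff_inner_right.1 (v i).2
  have hu1 : ‖u‖ = 1 := hu.1
  have huu : ⟪u, u⟫ = 1 := by rw [real_inner_self_eq_norm_sq, hu1]; norm_num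
  set e : Fin (n + 2) → E := Fin.cons u (fun i => (v i : E)) with he
  have he0 : e 0 = u := rfl
  have hes : ∀ i : Fin (n + 1), e i.succ = (v i : E) := fun i => rfl
  have hspanv : ∀ y ∈ Submodule.span ℝ (Set.range (fun i => (v i : E))), ⟪u, y⟫ = 0 := by
    intro y hy
    induction hy using Submodule.span_induction with
    | mem y hy => obtain ⟨i, rfl⟩ := hy; exact huv i
    | zero => simp
    | add y z _ _ h3 h4 => rw [inner_add_right, h3, h4, add_zero]
    | smul r y _ h3 => rw [inner_smul_right, h3, mul_zero]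
  have heI : LinearIndependent ℝ e := by
    rw [he, linearIndependent_finCons]
    refine ⟨hvE, ?_⟩
    intro hmem
    have := hspanv u hmem
    rw [huu] at this
    norm_num at this
  have heT : Submodule.span ℝ (Set.range e) = ⊤ :=
    heI.span_eq_top_of_card_eq_finrank' (by rw [hn]; simp)
  -- prescribed inner products
  have hex : ∀ c : Fin (n + 1) → ℝ, ∃ x : E, ⟪u, x⟫ = -1 ∧ ∀ i, ⟪(v i : E), x⟫ = c i := by
    intro c
    obtain ⟨x, hx⟩ := exists_inner_B hn e heI (Fin.cons (-1) c)
    exact ⟨x, hx 0, fun i => hx i.succ⟩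
  -- coordinates: a vector `r • u + s • v j` with `s ≠ 0` in `span {u, v i}` has `j = i`
  have hcoord : ∀ (i j : Fin (n + 1)) (r s : ℝ), s ≠ 0 →
      r • u + s • (v j : E) ∈ Submodule.span ℝ {u, (v i : E)} → j = i := by
    intro i j r s hs hmem
    by_contra hij
    obtain ⟨x, hx⟩ := exists_inner_B hn e heI (Fin.cons 0 (Pi.single j 1))
    have hxu : ⟪u, x⟫ = 0 := hx 0
    have hxj : ⟪(v j : E), x⟫ = 1 := by
      have := hx j.succ
      rw [hes] at this
      rw [this]
      simp
    have hxi : ⟪(v i : E), x⟫ = 0 := by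
      have := hx i.succ
      rw [hes] at this
      rw [this]
      simp [Ne.symm hij]
    rw [Submodule.mem_span_pair] at hmem
    obtain ⟨c, d, hcd⟩ := hmem
    have h1 : ⟪c • u + d • (v i : E), x⟫ = ⟪r • u + s • (v j : E), x⟫ := by rw [hcd]
    rw [inner_add_left, inner_add_left, real_inner_smul_left, real_inner_smul_left,
      real_inner_smul_left, real_inner_smul_left, hxu, hxi, hxj] at h1
    apply hs
    linarith
  -- claim A
  have hA : ∀ (i : Fin (n + 1)) (w : E), w ∈ PN P → w ∈ Submodule.span ℝ {u, (v i : E)} →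
      wm i = -wp i := by
    have hcase : ∀ (i : Fin (n + 1)) (w : E), w ∈ FN P → w ≠ u →
        w ∈ Submodule.span ℝ {u, (v i : E)} → w = wp i ∨ w = wm i := by
      intro i w hw hwu hmem
      rw [hFN] at hw
      rcases hw with (hw | ⟨j, rfl⟩) | ⟨j, rfl⟩
      · exact absurd hw hwu
      · left
        rw [hwp j] at hmem
        rw [hcoord i j _ _ (hβ j).ne' hmem]
      · right
        rw [hwm j, sub_eq_add_neg, ← neg_smul] at hmem
        rw [hcoord i j _ _ (neg_ne_zero.2 (hβ' j).ne') hmem]
    intro i w hw hmem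
    have h1 : w ≠ u := by
      rintro rfl
      exact hu' hw.2
    have h2 : -w ≠ u := by
      intro h
      apply hu'
      rw [← h, neg_neg]
      exact hw.1
    have hw0 : w ≠ 0 := by
      rintro rfl
      have := hw.1.1
      simp at this
    have h3 := hcase i w hw.1 h1 hmem
    have h4 := hcase i (-w) hw.2 h2 (Submodule.neg_mem _ hmem)
    rcases h3 with h3 | h3 <;> rcases h4 with h4 | h4
    · exfalso
      apply hw0
      have : w = -w := by rw [h4]; exact h3
      exact eq_zero_of_eq_neg_B this
    · rw [← h4, ← h3]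
    · rw [← h4, ← h3, neg_neg]
    · exfalso
      apply hw0
      have : w = -w := by rw [h4]; exact h3
      exact eq_zero_of_eq_neg_B this
  -- at most one exception
  have hone : ∀ i j : Fin (n + 1), i ≠ j → wm i = -wp i ∨ wm j = -wp j := by
    intro i j hij
    have h1 : v i ≠ v j := fun h => hij (hv.injective h)
    have h2 : v i ≠ -v j := by
      intro h
      have h3 : ⟪((v i : (ℝ ∙ u)ᗮ) : E), (v i : E)⟫ = 1 := by
        rw [real_inner_self_eq_norm_sq]
        have : ‖(v i : E)‖ = 1 := (hv1 i).1
        rw [this]; norm_num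
      obtain ⟨x, hx⟩ := exists_inner_B hn e heI (Fin.cons 0 (Pi.single j 1))
      have hxj : ⟪(v j : E), x⟫ = 1 := by
        have := hx j.succ
        rw [hes] at this
        rw [this]
        simp
      have hxi : ⟪(v i : E), x⟫ = 0 := by
        have := hx i.succ
        rw [hes] at this
        rw [this]
        simp [hij]
      rw [h] at hxi
      simp only [Submodule.coe_neg, inner_neg_left] at hxi
      linarith
    rcases at_most_one hP hT hu hu' (hv1 i) (hv1 j) h1 h2 with ⟨w, hw, hmem⟩ | ⟨w, hw, hmem⟩
    · exact Or.inl (hA i w hw hmem)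
    · exact Or.inr (hA j w hw hmem)
  -- inner products of the normals
  have hip : ∀ (c : Fin (n + 1) → ℝ), (∀ i, -α i + β i * c i ≤ 0) →
      (∀ i, -α' i - β' i * c i ≤ 0) → False := by
    intro c h1 h2
    obtain ⟨x, hxu, hxv⟩ := hex c
    have hx0 : x ≠ 0 := by
      rintro rfl
      simp at hxu
    obtain ⟨w, hw, hpos⟩ := fn_pos hP hx0
    rw [hFN] at hw
    rcases hw with (hw | ⟨j, rfl⟩) | ⟨j, rfl⟩
    · rw [hw, hxu] at hpos
      linarith
    · rw [hwp j, inner_add_left, real_inner_smul_left, real_inner_smul_left, hxu, hxv] at hpos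
      have := h1 j
      linarith
    · rw [hwm j, inner_sub_left, real_inner_smul_left, real_inner_smul_left, hxu, hxv] at hpos
      have := h2 j
      linarith
  -- if `wm i = - wp i` then `α' i * β i = - α i * β' i`
  have hrel : ∀ i, wm i = -wp i → α' i * β i = -(α i * β' i) := by
    intro i h
    rw [hwp, hwm] at h
    have h1 : ⟪u, α' i • u - β' i • (v i : E)⟫ = ⟪u, -(α i • u + β i • (v i : E))⟫ := by rw [h]
    rw [inner_sub_right, inner_neg_right, inner_add_right, real_inner_smul_right,
      real_inner_smul_right, real_inner_smul_right, real_inner_smul_right, huu, huv] at h1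
    obtain ⟨x, hx⟩ := exists_inner_B hn e heI (Fin.cons 0 (Pi.single i 1))
    have hxu : ⟪u, x⟫ = 0 := hx 0
    have hxi : ⟪(v i : E), x⟫ = 1 := by
      have := hx i.succ
      rw [hes] at this
      rw [this]
      simp
    have h2 : ⟪α' i • u - β' i • (v i : E), x⟫ = ⟪-(α i • u + β i • (v i : E)), x⟫ := by rw [h]
    rw [inner_sub_left, inner_neg_left, inner_add_left, real_inner_smul_left,
      real_inner_smul_left, real_inner_smul_left, real_inner_smul_left, hxu, hxi] at h2
    have h3 : α' i = -α i := by linarith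
    have h4 : β' i = β i := by linarith
    rw [h3, h4]; ring
  -- the exception
  obtain ⟨i0, hi0⟩ : ∃ i0, wm i0 ≠ -wp i0 := by
    by_contra hcon
    push Not at hcon
    apply hip (fun i => α i / β i)
    · intro i
      have := (hβ i).ne'
      apply le_of_eq
      field_simp
      ring
    · intro i
      have h1 := hrel i (hcon i)
      have h2 := (hβ i).ne'
      apply le_of_eq
      field_simp
      linarith
  have hother : ∀ i, i ≠ i0 → wm i = -wp i := by
    intro i hi
    rcases hone i i0 hi with h | h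
    · exact h
    · exact absurd h hi0
  have hκ : β' i0 * α i0 + β i0 * α' i0 < 0 := by
    by_contra hcon
    push Not at hcon
    apply hip (fun i => α i / β i)
    · intro i
      have := (hβ i).ne'
      apply le_of_eq
      field_simp
      ring
    · intro i
      have h2 := hβ i
      have h3 : -α' i - β' i * (α i / β i) = -(β' i * α i + β i * α' i) / β i := by
        field_simp
        ring
      rw [h3]
      by_cases hi : i = i0
      · rw [hi] at h2 ⊢
        apply div_nonpos_of_nonpos_of_nonneg
        · linarith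
        · exact h2.le
      · have h1 := hrel i (hother i hi)
        apply le_of_eq
        have : -(β' i * α i + β i * α' i) = 0 := by linarith
        rw [this, zero_div]
  set κ := β' i0 * α i0 + β i0 * α' i0 with hκdef
  have hueq : u = -((-β' i0 / κ) • wp i0) - (-β i0 / κ) • wm i0 := by
    have h1 : β' i0 • wp i0 + β i0 • wm i0 = κ • u := by
      rw [hwp, hwm, hκdef]
      simp only [smul_add, smul_sub, smul_smul, add_smul]
      rw [mul_comm (β i0) (β' i0)]
      abel
    have h2 : -((-β' i0 / κ) • wp i0) - (-β i0 / κ) • wm i0 =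
        (1 / κ) • (β' i0 • wp i0 + β i0 • wm i0) := by
      simp only [smul_add, smul_smul]
      rw [← neg_smul, sub_eq_add_neg, ← neg_smul]
      congr 2 <;> ring
    rw [h2, h1, smul_smul, one_div, inv_mul_cancel₀ hκ.ne, one_smul]
  refine ⟨u, wp i0, wm i0, fun j => wp (i0.succAbove j), -β' i0 / κ, -β i0 / κ,
    div_pos_of_neg_of_neg (by linarith [hβ' i0]) hκ,
    div_pos_of_neg_of_neg (by linarith [hβ i0]) hκ, hueq, ?_, ?_⟩
  · -- linear independence
    apply linearIndependent_of_top_le_span_of_card_eq_finrank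
    · set f : Fin (n + 2) → E :=
        Fin.cons (wp i0) (Fin.cons (wm i0) (fun j => wp (i0.succAbove j)) : Fin (n + 1) → E) with hf
      have ha : wp i0 ∈ Submodule.span ℝ (Set.range f) := Submodule.subset_span ⟨0, rfl⟩
      have hb : wm i0 ∈ Submodule.span ℝ (Set.range f) := Submodule.subset_span ⟨1, rfl⟩
      have hw : ∀ j, wp (i0.succAbove j) ∈ Submodule.span ℝ (Set.range f) :=
        fun j => Submodule.subset_span ⟨j.succ.succ, rfl⟩
      have hall : ∀ i, wp i ∈ Submodule.span ℝ (Set.range f) := by
        intro i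
        by_cases hi : i = i0
        · rw [hi]; exact ha
        · obtain ⟨j, hj⟩ := Fin.exists_succAbove_eq hi
          rw [← hj]; exact hw j
      have hum : u ∈ Submodule.span ℝ (Set.range f) := by
        rw [hueq]
        exact Submodule.sub_mem _ (Submodule.neg_mem _ (Submodule.smul_mem _ _ ha))
          (Submodule.smul_mem _ _ hb)
      have hvm : ∀ i, (v i : E) ∈ Submodule.span ℝ (Set.range f) := by
        intro i
        have h1 : (v i : E) = (1 / β i) • (wp i - α i • u) := by
          rw [hwp i, add_sub_cancel_left, smul_smul, one_div, inv_mul_cancel₀ (hβ i).ne', one_smul]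
        rw [h1]
        exact Submodule.smul_mem _ _ (Submodule.sub_mem _ (hall i) (Submodule.smul_mem _ _ hum))
      rw [← heT, Submodule.span_le]
      rintro _ ⟨i, rfl⟩
      refine Fin.cases ?_ (fun j => ?_) i
      · exact hum
      · exact hvm j
    · rw [hn]; simp
  · rw [hFN]
    ext y
    constructor
    · rintro ((hy | ⟨j, rfl⟩) | ⟨j, rfl⟩)
      · rw [mem_singleton_iff] at hy
        rw [hy]
        exact Or.inl (Or.inl (by simp))
      · by_cases hj : j = i0
        · rw [hj]
          exact Or.inl (Or.inl (by simp))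
        · obtain ⟨k, hk⟩ := Fin.exists_succAbove_eq hj
          exact Or.inl (Or.inr ⟨k, by rw [← hk]⟩)
      · by_cases hj : j = i0
        · rw [hj]
          exact Or.inl (Or.inl (by simp))
        · obtain ⟨k, hk⟩ := Fin.exists_succAbove_eq hj
          refine Or.inr ⟨k, ?_⟩
          rw [hother j hj, ← hk]
          rfl
    · rintro ((hy | ⟨j, rfl⟩) | ⟨j, rfl⟩)
      · simp only [mem_insert_iff, mem_singleton_iff] at hy
        rcases hy with rfl | rfl | rfl
        · exact Or.inl (Or.inl rfl)
        · exact Or.inl (Or.inr ⟨i0, rfl⟩)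
        · exact Or.inr ⟨i0, rfl⟩
      · exact Or.inl (Or.inr ⟨_, rfl⟩)
      · refine Or.inr ⟨i0.succAbove j, ?_⟩
        rw [hother _ (Fin.succAbove_ne i0 j)]
        rfl

end Pool.PT56
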