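import Pool.Agent.PT56.FFac

set_option autoImplicit false
set_option linter.unusedSectionVars false

/-!
# PT56/FEqC: from the normals to the shape

By `fn_rep` (and `spt_le`) `P = {x | ⟪u,x⟫ ≤ h, ⟪a,x⟫ ≤ p, ⟪b,x⟫ ≤ q, - k' i ≤ ⟪w i,x⟫ ≤ k i}` with the support numbers
(`k' i = spt P (- w i)`).  `f = (a, b, w)` is a basis of `E`; let `g` be the dual basis (`⟪f i, g j⟫ = δ`).  Put
`s = p - ⟪a,x⟫ ≥ 0`, `t = q - ⟪b,x⟫ ≥ 0`; `⟪u,x⟫ ≤ h` becomes `l s + m t ≤ h + l p + m q =: c`, `c > 0` because `P` has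
interior points; similarly `k i + k' i > 0`.  With `e 0 = -(c/l) g 0`, `e 1 = -(c/m) g 1`,
`e (i+2) = (k i + k' i) g (i+2)`, `p0 = p g 0 + q g 1 - ∑ k' i g (i+2)`:
`P = {p0 + ∑ c_i e_i | c_i ≥ 0, c_0 + c_1 ≤ 1, c_i ≤ 1 for i ≥ 2}`.
-/

namespace Pool.PT56

open Set Filter Topology MeasureTheory
open scoped RealInnerProductSpace ENNReal

/-- `P` is a direct sum of a triangle and `n` segments -/
def TriBox {E : Type} [AddCommGroup E] [Module ℝ E] (n : ℕ) (P : Set E) : Prop :=
  ∃ (p : E) (e : Fin (n + 2) → E), LinearIndependent ℝ e ∧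
    P = {x | ∃ c : Fin (n + 2) → ℝ, (∀ i, 0 ≤ c i) ∧ c 0 + c 1 ≤ 1 ∧
      (∀ i : Fin (n + 2), 2 ≤ (i : ℕ) → c i ≤ 1) ∧ x = p + ∑ i, c i • e i}

section feqc_general

variable {E : Type} [NormedAddCommGroup E] [InnerProductSpace ℝ E] [FiniteDimensional ℝ E]

/-- the dual basis of a linearly independent family of full size -/
theorem feqc_basis {N : ℕ} (hn : Module.finrank ℝ E = N) {f : Fin N → E}
    (hf : LinearIndependent ℝ f) : ∃ B : Module.Basis (Fin N) ℝ E,
      ∀ x j, B.equivFun x j = ⟪f j, x⟫ := by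
  let Φ : E →ₗ[ℝ] (Fin N → ℝ) := LinearMap.pi (fun j => (innerSL ℝ (f j)).toLinearMap)
  have hΦ : ∀ x j, Φ x j = ⟪f j, x⟫ := fun x j => by simp [Φ]
  have hspan : Submodule.span ℝ (Set.range f) = ⊤ := by
    apply hf.span_eq_top_of_card_eq_finrank'
    rw [Fintype.card_fin, hn]
  have hinj : Function.Injective Φ := by
    rw [← LinearMap.ker_eq_bot, LinearMap.ker_eq_bot']
    intro x hx
    have h1 : ∀ j, ⟪f j, x⟫ = (0 : ℝ) := fun j => by rw [← hΦ, hx]; rfl
    have h2 : ∀ y ∈ Submodule.span ℝ (Set.range f), ⟪y, x⟫ = (0 : ℝ) := by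
      intro y hy
      induction hy using Submodule.span_induction with
      | mem y hy => obtain ⟨j, rfl⟩ := hy; exact h1 j
      | zero => exact inner_zero_left _
      | add y z _ _ hy hz => rw [inner_add_left, hy, hz, add_zero]
      | smul r y _ hy => rw [real_inner_smul_left, hy, mul_zero]
    have h3 := h2 x (by rw [hspan]; trivial)
    exact inner_self_eq_zero.1 h3
  have hbij : Function.Bijective Φ := by
    refine ⟨hinj, ?_⟩
    rw [← LinearMap.injective_iff_surjective_of_finrank_eq_finrank]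
    · exact hinj
    · rw [hn, Module.finrank_fin_fun]
  refine ⟨Module.Basis.ofEquivFun (LinearEquiv.ofBijective Φ hbij), ?_⟩
  intro x j
  rw [Module.Basis.equivFun_ofEquivFun]
  exact hΦ x j

theorem feqc_lt_spt {P : Set E} (hP : IsCompact P) {x0 : E} (hx : x0 ∈ interior P) {u : E}
    (hu : u ≠ 0) : ⟪u, x0⟫ < spt P u := by
  obtain ⟨δ, hδ, hball⟩ := Metric.isOpen_iff.mp isOpen_interior x0 hx
  have hun : 0 < ‖u‖ := norm_pos_iff.mpr hu
  have h1 : x0 + (δ / (2 * ‖u‖)) • u ∈ P := by
    apply interior_subset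
    apply hball
    rw [Metric.mem_ball, dist_eq_norm, add_sub_cancel_left, norm_smul, Real.norm_eq_abs,
      abs_of_pos (by positivity)]
    have : δ / (2 * ‖u‖) * ‖u‖ = δ / 2 := by field_simp
    rw [this]
    linarith
  have h2 : ⟪u, x0 + (δ / (2 * ‖u‖)) • u⟫ ≤ spt P u :=
    le_csSup (hP.image (f := fun x => ⟪u, x⟫) (by fun_prop)).bddAbove ⟨_, h1, rfl⟩
  rw [inner_add_right, real_inner_smul_right, real_inner_self_eq_norm_sq] at h2
  have h3 : 0 < δ / (2 * ‖u‖) * ‖u‖ ^ 2 := by positivity
  linarith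

/-- the set with affine coordinates in a triangle times a box -/
theorem feqc_tribox {n : ℕ} (hn : Module.finrank ℝ E = n + 2) {P : Set E}
    {a b : E} {w : Fin n → E} {l m p q h : ℝ} {k k' : Fin n → ℝ} (hl : 0 < l) (hm : 0 < m)
    (hi : LinearIndependent ℝ (Fin.cons a (Fin.cons b w : Fin (n + 1) → E) : Fin (n + 2) → E))
    (hC : 0 < h + l * p + m * q) (hk : ∀ i, 0 < k i + k' i)
    (hPe : ∀ x, x ∈ P ↔ -(l * ⟪a, x⟫) - m * ⟪b, x⟫ ≤ h ∧ ⟪a, x⟫ ≤ p ∧ ⟪b, x⟫ ≤ q ∧
      ∀ i, ⟪w i, x⟫ ≤ k i ∧ -⟪w i, x⟫ ≤ k' i) : TriBox n P := by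
  obtain ⟨B, hB⟩ := feqc_basis hn hi
  set C := h + l * p + m * q with hCdef
  let s : Fin (n + 2) → ℝ := Fin.cons (-(C / l)) (Fin.cons (-(C / m)) (fun i => k i + k' i))
  let o : Fin (n + 2) → ℝ := Fin.cons p (Fin.cons q (fun i => -k' i))
  have hs : ∀ i, s i ≠ 0 := by
    intro i
    refine Fin.cases ?_ (fun i => Fin.cases ?_ (fun i => ?_) i) i
    · simp only [s, Fin.cons_zero]
      exact neg_ne_zero.2 (div_pos hC hl).ne'
    · simp only [s, Fin.cons_succ, Fin.cons_zero]
      exact neg_ne_zero.2 (div_pos hC hm).ne'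
    · simp only [s, Fin.cons_succ]
      exact (hk i).ne'
  have hBj : ∀ i j, B.equivFun (B i) j = if i = j then 1 else 0 := by
    intro i j
    rw [Module.Basis.equivFun_self]
  have key : ∀ (c : Fin (n + 2) → ℝ) (x : E),
      x = B.equivFun.symm o + ∑ i, c i • (s i • B i) ↔ ∀ j, B.equivFun x j = o j + c j * s j := by
    intro c x
    constructor
    · rintro rfl j
      rw [map_add, LinearEquiv.apply_symm_apply, Pi.add_apply, map_sum, Finset.sum_apply]
      congr 1
      simp only [map_smul, Pi.smul_apply, smul_eq_mul, hBj]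
      rw [Finset.sum_eq_single j]
      · simp
      · intro i _ hij
        simp [hij]
      · simp
    · intro hx
      apply B.equivFun.injective
      ext j
      rw [hx, map_add, LinearEquiv.apply_symm_apply, Pi.add_apply, map_sum, Finset.sum_apply]
      congr 1
      simp only [map_smul, Pi.smul_apply, smul_eq_mul, hBj]
      rw [Finset.sum_eq_single j]
      · simp
      · intro i _ hij
        simp [hij]
      · simp
  refine ⟨B.equivFun.symm o, fun i => s i • B i, ?_, ?_⟩
  · have h1 := (B.isUnitSMul (fun i => (hs i).isUnit)).linearIndependent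
    have h2 : (⇑(B.isUnitSMul (fun i => (hs i).isUnit)) : Fin (n + 2) → E) =
        fun i => s i • B i := by
      funext i
      exact Module.Basis.isUnitSMul_apply _ i
    rwa [h2] at h1
  · ext x
    rw [hPe]
    have h0 : B.equivFun x 0 = ⟪a, x⟫ := by rw [hB]; rfl
    have h1 : B.equivFun x 1 = ⟪b, x⟫ := by rw [hB]; rfl
    have h2 : ∀ i : Fin n, B.equivFun x i.succ.succ = ⟪w i, x⟫ := fun i => by rw [hB]; rfl
    have o0 : o 0 = p := rfl
    have o1 : o 1 = q := rfl
    have o2 : ∀ i : Fin n, o i.succ.succ = -k' i := fun i => rfl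
    have s0 : s 0 = -(C / l) := rfl
    have s1 : s 1 = -(C / m) := rfl
    have s2 : ∀ i : Fin n, s i.succ.succ = k i + k' i := fun i => rfl
    constructor
    · rintro ⟨hu, ha, hb, hw⟩
      let c : Fin (n + 2) → ℝ := fun j => (B.equivFun x j - o j) / s j
      have c0 : c 0 = l * (p - ⟪a, x⟫) / C := by
        simp only [c, h0, o0, s0]
        field_simp
        ring
      have c1 : c 1 = m * (q - ⟪b, x⟫) / C := by
        simp only [c, h1, o1, s1]
        field_simp
        ring
      have c2 : ∀ i : Fin n, c i.succ.succ = (⟪w i, x⟫ + k' i) / (k i + k' i) := by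
        intro i
        simp only [c, h2, o2, s2]
        ring_nf
      refine ⟨c, ?_, ?_, ?_, ?_⟩
      · intro i
        refine Fin.cases ?_ (fun i => Fin.cases ?_ (fun i => ?_) i) i
        · rw [c0]
          exact div_nonneg (mul_nonneg hl.le (by linarith)) hC.le
        · rw [show (Fin.succ 0 : Fin (n + 2)) = 1 from rfl, c1]
          exact div_nonneg (mul_nonneg hm.le (by linarith)) hC.le
        · rw [c2]
          exact div_nonneg (by linarith [(hw i).2]) (hk i).le
      · rw [c0, c1, ← add_div, div_le_one hC]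
        rw [hCdef]
        linarith
      · intro i
        refine Fin.cases ?_ (fun i => Fin.cases ?_ (fun i => ?_) i) i
        · intro h; simp at h
        · intro h; simp at h
        · intro _
          rw [c2, div_le_one (hk i)]
          linarith [(hw i).1]
      · rw [key]
        intro j
        simp only [c]
        rw [div_mul_cancel₀ _ (hs j)]
        ring
    · rintro ⟨c, hc0, hc1, hc2, hx⟩
      rw [key] at hx
      have ha := hx 0
      have hb := hx 1
      have hw := fun i : Fin n => hx i.succ.succ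
      rw [h0, o0, s0] at ha
      rw [h1, o1, s1] at hb
      simp only [h2, o2, s2] at hw
      have e1 : C / l * l = C := div_mul_cancel₀ _ hl.ne'
      have e2 : C / m * m = C := div_mul_cancel₀ _ hm.ne'
      have p1 : 0 < C / l := div_pos hC hl
      have p2 : 0 < C / m := div_pos hC hm
      refine ⟨?_, ?_, ?_, ?_⟩
      · rw [ha, hb]
        have e3 : -(l * (p + c 0 * -(C / l))) - m * (q + c 1 * -(C / m)) =
            - l * p - m * q + (c 0 + c 1) * C := by
          linear_combination c 0 * e1 + c 1 * e2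
        rw [e3]
        have := mul_le_mul_of_nonneg_right hc1 hC.le
        rw [hCdef] at this ⊢
        linarith
      · rw [ha]
        have := mul_nonneg (hc0 0) p1.le
        linarith
      · rw [hb]
        have := mul_nonneg (hc0 1) p2.le
        linarith
      · intro i
        rw [hw i]
        have i1 := mul_nonneg (hc0 i.succ.succ) (hk i).le
        have i2 := mul_le_mul_of_nonneg_right
          (hc2 i.succ.succ (by simp [Fin.val_succ])) (hk i).le
        constructor <;> linarith

end feqc_general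

variable {E : Type} [NormedAddCommGroup E] [InnerProductSpace ℝ E] [FiniteDimensional ℝ E]
  [MeasurableSpace E] [BorelSpace E]

theorem shape {n : ℕ} (hn : Module.finrank ℝ E = n + 2) {P : Set E} (hP : Polytope P)
    {u a b : E} {w : Fin n → E} {l m : ℝ} (hl : 0 < l) (hm : 0 < m)
    (hu : u = -(l • a) - m • b)
    (hi : LinearIndependent ℝ (Fin.cons a (Fin.cons b w : Fin (n + 1) → E) : Fin (n + 2) → E))
    (hF : FN P = {u, a, b} ∪ Set.range w ∪ Set.range (-w)) : TriBox n P := by
  have hPc : IsCompact P := hP.isCompact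
  obtain ⟨x0, hx0⟩ := hP.2
  have hne : ∀ v ∈ FN P, v ≠ 0 := by
    rintro v hv rfl
    have := hv.1
    rw [norm_zero] at this
    exact zero_ne_one this
  have mu : u ∈ FN P := by rw [hF]; simp
  have ma : a ∈ FN P := by rw [hF]; simp
  have mb : b ∈ FN P := by rw [hF]; simp
  have mw : ∀ i, w i ∈ FN P := fun i => by rw [hF]; exact Or.inl (Or.inr ⟨i, rfl⟩)
  have mw' : ∀ i, -w i ∈ FN P := fun i => by rw [hF]; exact Or.inr ⟨i, rfl⟩
  have hmem : ∀ x, x ∈ P ↔ ∀ v ∈ FN P, ⟪v, x⟫ ≤ spt P v :=
    fun x => ⟨fun hx v _ => spt_le hPc hx v, fun h => fn_rep hP x h⟩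
  have iu : ∀ x : E, ⟪u, x⟫ = -(l * ⟪a, x⟫) - m * ⟪b, x⟫ := fun x => by
    rw [hu, inner_sub_left, inner_neg_left, real_inner_smul_left, real_inner_smul_left]
  refine feqc_tribox (p := spt P a) (q := spt P b) (h := spt P u) (k := fun i => spt P (w i))
    (k' := fun i => spt P (-w i)) hn hl hm hi ?_ ?_ ?_
  · have h1 := feqc_lt_spt hPc hx0 (hne u mu)
    have h2 := feqc_lt_spt hPc hx0 (hne a ma)
    have h3 := feqc_lt_spt hPc hx0 (hne b mb)
    rw [iu] at h1
    have h4 := mul_lt_mul_of_pos_left h2 hl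
    have h5 := mul_lt_mul_of_pos_left h3 hm
    linarith
  · intro i
    have h1 := feqc_lt_spt hPc hx0 (hne _ (mw i))
    have h2 := feqc_lt_spt hPc hx0 (hne _ (mw' i))
    rw [inner_neg_left] at h2
    linarith
  · intro x
    rw [hmem, hF]
    constructor
    · intro h
      refine ⟨?_, ?_, ?_, ?_⟩
      · rw [← iu]
        exact h u (by simp)
      · exact h a (by simp)
      · exact h b (by simp)
      · intro i
        refine ⟨h (w i) (Or.inl (Or.inr ⟨i, rfl⟩)), ?_⟩
        have := h (-w i) (Or.inr ⟨i, rfl⟩)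
        rwa [inner_neg_left] at this
    · rintro ⟨h1, h2, h3, h4⟩ v hv
      rcases hv with (hv | ⟨i, rfl⟩) | ⟨i, rfl⟩
      · simp only [Set.mem_insert_iff, Set.mem_singleton_iff] at hv
        rcases hv with rfl | rfl | rfl
        · rw [iu]; exact h1
        · exact h2
        · exact h3
      · exact (h4 i).1
      · have := (h4 i).2
        rw [Pi.neg_apply, inner_neg_left]
        exact this

end Pool.PT56
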