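import Pool.Agent.PT56.SymE
import Pool.Agent.PT56.Var
import Pool.Agent.PT56.Pyr
import Pool.Agent.PT56.HRep
import Pool.Agent.PT56.BM

set_option autoImplicit false
set_option linter.unusedSectionVars false

/-!
# PT56/Mink: balanced polytopes are centrally symmetric

Translate so that `0 ∈ interior P` (`Polytope`, `Balanced`, `CSym` are translation invariant).  `L = -P`,
`V = vol P > 0`, `d = dim E`.
`sum_le`: `∑ spt L u * vol (prism (face P u) u) ≤ d V`: by `Balanced`,
`vol (prism (face P u) u) = vol (prism (face P (-u)) u)`, and `face L u = - face P (-u)`,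
`prism (face L u) u = - prism (face P (-u)) (-u)` has the same volume (`vol_prism_neg`); `pyr` for `L`,
`vol L = V`.
If `P` is not centrally symmetric then `vol (mid P L) > V` (`csym_of_mid`), say `= V exp (2c)`, `c > 0`.
`D k = {(1 - τ) x + τ y | x ∈ P, y ∈ L}` with `τ = 2^(-k)`: `D 0 = L`, `D 1 = mid P L`, `D (k+1) = mid P (D k)` by
convexity of `P` (or define `D` by this recursion and prove the formula).  By `bm`,
`vol (D (k+1))^2 ≥ V vol (D k)`, so `vol (D k) ≥ V exp (4 c 2^(-k)) ≥ V (1 + 4 c τ)` for `k ≥ 1`.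
`D k = (1 - τ) (P + t L)`, `t = τ/(1-τ)`, so `vol (D k) = (1-τ)^d vol (P + t L) ≤
(1-τ)^d (V + t (d V + ε))` (`var_upper`, `k` large).  As `(1 - τ)^d (1 + t)^d = 1` and `1 + d t ≤ (1 + t)^d` this is
`≤ V + t ε`.  So `4 c V τ ≤ t ε ≤ 2 τ ε`; take `ε = c V`: contradiction.
-/

namespace Pool.PT56

open Set Filter Topology MeasureTheory
open scoped RealInnerProductSpace ENNReal Pointwise

variable {E : Type} [NormedAddCommGroup E] [InnerProductSpace ℝ E] [FiniteDimensional ℝ E]
  [MeasurableSpace E] [BorelSpace E]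

theorem face_neg' (P : Set E) (u : E) : face (-P) u = -(face P (-u)) := by
  ext x
  simp only [Pool.Agent.H14Belt.face, Set.mem_neg, Set.mem_ofPred_eq]
  constructor
  · rintro ⟨h1, h2⟩
    refine ⟨h1, fun y hy => ?_⟩
    have := h2 (-y) (by simpa using hy)
    simpa [inner_neg_left, inner_neg_right] using this
  · rintro ⟨h1, h2⟩
    refine ⟨h1, fun y hy => ?_⟩
    have := h2 (-y) hy
    simpa [inner_neg_left, inner_neg_right] using this

theorem prism_neg' (F : Set E) (u : E) : prism (-F) u = -(prism F (-u)) := by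
  ext x
  simp only [prism, Set.mem_neg, Set.mem_ofPred_eq]
  constructor
  · rintro ⟨y, hy, s, h0, h1, rfl⟩
    exact ⟨-y, hy, s, h0, h1, by simp [smul_neg, add_comm]⟩
  · rintro ⟨y, hy, s, h0, h1, h⟩
    refine ⟨-y, by simpa using hy, s, h0, h1, ?_⟩
    rw [← neg_neg x, h]
    simp [smul_neg, add_comm]

theorem vol_neg (S : Set E) : volume (-S) = volume S := by
  have h : -S = (-1 : ℝ) • S := by
    ext x
    rw [Set.mem_smul_set_iff_inv_smul_mem₀ (by norm_num)]
    simp [Set.mem_neg]
  rw [h, Measure.addHaar_smul]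
  simp

theorem sum_le {P : Set E} (hc : IsCompact P) (hconv : Convex ℝ P) (h0 : (0 : E) ∈ interior P)
    (hb : Balanced P) (U : Finset E) (hU1 : ∀ u ∈ U, ‖u‖ = 1) :
    ∑ u ∈ U, spt (-P) u * (volume (prism (face P u) u)).toReal ≤
      Module.finrank ℝ E * (volume P).toReal := by
  have h0' : (0 : E) ∈ interior (-P) := by
    have h := (Homeomorph.neg E).preimage_interior P
    have h2 : (0 : E) ∈ (Homeomorph.neg E) ⁻¹' interior P := by simpa using h0
    rw [h] at h2
    exact h2
  have key := pyr (L := -P) hc.neg hconv.neg h0' U hU1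
  rw [vol_neg] at key
  refine le_trans (le_of_eq ?_) key
  apply Finset.sum_congr rfl
  intro u hu
  congr 2
  rw [face_neg', prism_neg', vol_neg, vol_prism_neg]
  exact hb u (hU1 u hu)

/-- the iterated midpoint sets -/
def DD (P L : Set E) : ℕ → Set E
  | 0 => L
  | (k + 1) => mid P (DD P L k)

theorem isCompact_mid {A B : Set E} (hA : IsCompact A) (hB : IsCompact B) :
    IsCompact (mid A B) := by
  have : mid A B = (fun p : E × E => (1 / 2 : ℝ) • (p.1 + p.2)) '' (A ×ˢ B) := by
    exact (Set.image_prod (fun x y : E => (1 / 2 : ℝ) • (x + y))).symm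
  rw [this]
  exact (hA.prod hB).image (by fun_prop)

theorem isCompact_DD {P L : Set E} (hP : IsCompact P) (hL : IsCompact L) (k : ℕ) :
    IsCompact (DD P L k) := by
  induction k with
  | zero => exact hL
  | succ k ih => exact isCompact_mid hP ih

theorem DD_subset {P L : Set E} (hP : Convex ℝ P) (hP0 : P.Nonempty) (k : ℕ) :
    ∀ x ∈ DD P L k, ∃ y ∈ P, ∃ z ∈ L,
      x = (1 - (1 / 2 : ℝ) ^ k) • y + ((1 / 2 : ℝ) ^ k) • z := by
  induction k with
  | zero =>
    intro x hx
    obtain ⟨p, hp⟩ := hP0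
    exact ⟨p, hp, x, hx, by simp⟩
  | succ k ih =>
    rintro _ ⟨x, hx, w, hw, rfl⟩
    obtain ⟨y, hy, z, hz, rfl⟩ := ih w hw
    set τ : ℝ := (1 / 2 : ℝ) ^ k with hτ
    have hτ0 : 0 < τ := by positivity
    have hτ1 : τ ≤ 1 := pow_le_one₀ (by norm_num) (by norm_num)
    have h1 : (1 / 2 : ℝ) ^ (k + 1) = τ / 2 := by rw [pow_succ, ← hτ]; ring
    have hne : (1 - τ / 2) ≠ 0 := by intro h; linarith
    refine ⟨((1 / 2) / (1 - τ / 2)) • x + (((1 - τ) / 2) / (1 - τ / 2)) • y,
      hP hx hy (by apply div_nonneg <;> linarith) (by apply div_nonneg <;> linarith)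
        (by rw [← add_div, div_eq_one_iff_eq hne]; ring), z, hz, ?_⟩
    rw [h1]
    simp only [smul_add, smul_smul]
    rw [mul_div_cancel₀ _ hne, mul_div_cancel₀ _ hne]
    rw [show (1 / 2 : ℝ) * (1 - τ) = (1 - τ) / 2 by ring, show (1 / 2 : ℝ) * τ = τ / 2 by ring]
    abel

theorem DD_lower {P : Set E} (hP : IsCompact P) (hPi : (interior P).Nonempty) {c : ℝ}
    (hm : (volume P).toReal * Real.exp c ≤ (volume (mid P (-P))).toReal) (k : ℕ) :
    (volume P).toReal * Real.exp (c * (1 / 2) ^ k) ≤ (volume (DD P (-P) (k + 1))).toReal := by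
  induction k with
  | zero => simpa [DD] using hm
  | succ k ih =>
    have hV : 0 < (volume P).toReal := by
      apply ENNReal.toReal_pos
      · intro h0
        have h1 : 0 < volume (interior P) := isOpen_interior.measure_pos _ hPi
        have := measure_mono (μ := (volume : Measure E)) (interior_subset (s := P))
        rw [h0] at this
        exact absurd h1 (not_lt.2 this)
      · exact hP.measure_ne_top
    have hb := bm (volume : Measure E) hP (isCompact_DD hP hP.neg (k + 1))
    have hfin : volume (DD P (-P) (k + 1 + 1)) ≠ ∞ :=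
      (isCompact_DD hP hP.neg (k + 1 + 1)).measure_ne_top
    have hb' : (volume P).toReal * (volume (DD P (-P) (k + 1))).toReal ≤
        (volume (DD P (-P) (k + 1 + 1))).toReal ^ 2 := by
      have := ENNReal.toReal_mono (ENNReal.pow_ne_top hfin) hb
      rwa [ENNReal.toReal_mul, ENNReal.toReal_pow] at this
    have hexp : Real.exp (c * (1 / 2) ^ k) = Real.exp (c * (1 / 2) ^ (k + 1)) ^ 2 := by
      rw [← Real.exp_nat_mul]
      congr 1
      push_cast
      ring
    have h1 : ((volume P).toReal * Real.exp (c * (1 / 2) ^ (k + 1))) ^ 2 ≤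
        (volume (DD P (-P) (k + 1 + 1))).toReal ^ 2 := by
      calc ((volume P).toReal * Real.exp (c * (1 / 2) ^ (k + 1))) ^ 2
          = (volume P).toReal * ((volume P).toReal * Real.exp (c * (1 / 2) ^ k)) := by
            rw [hexp]; ring
        _ ≤ (volume P).toReal * (volume (DD P (-P) (k + 1))).toReal :=
            mul_le_mul_of_nonneg_left ih hV.le
        _ ≤ _ := hb'
    exact (pow_le_pow_iff_left₀ (by positivity) ENNReal.toReal_nonneg (by norm_num)).1 h1

theorem DD_upper {P : Set E} (hP : IsCompact P) (hconv : Convex ℝ P) (hP0 : P.Nonempty) (k : ℕ)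
    (hk : 1 ≤ k) : (volume (DD P (-P) k)).toReal ≤
      (1 - (1 / 2 : ℝ) ^ k) ^ Module.finrank ℝ E *
        (volume (P + ((1 / 2 : ℝ) ^ k / (1 - (1 / 2 : ℝ) ^ k)) • (-P))).toReal := by
  set τ : ℝ := (1 / 2 : ℝ) ^ k with hτ
  have hτ0 : 0 < τ := by positivity
  have hτ1 : τ ≤ 1 / 2 := by
    calc τ ≤ (1 / 2 : ℝ) ^ 1 := pow_le_pow_of_le_one (by norm_num) (by norm_num) hk
      _ = 1 / 2 := by norm_num
  have hne : (1 - τ) ≠ 0 := by intro h; linarith
  have hsub : DD P (-P) k ⊆ (1 - τ) • (P + (τ / (1 - τ)) • (-P)) := by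
    intro x hx
    obtain ⟨y, hy, z, hz, rfl⟩ := DD_subset hconv hP0 k x hx
    rw [← hτ]
    refine Set.mem_smul_set.2 ⟨y + (τ / (1 - τ)) • z,
      Set.add_mem_add hy (Set.smul_mem_smul_set hz), ?_⟩
    rw [smul_add, smul_smul, mul_div_cancel₀ _ hne]
  have hcomp : IsCompact ((1 - τ) • (P + (τ / (1 - τ)) • (-P))) :=
    (hP.add (hP.neg.smul _)).smul _
  calc (volume (DD P (-P) k)).toReal ≤ (volume ((1 - τ) • (P + (τ / (1 - τ)) • (-P)))).toReal :=
        ENNReal.toReal_mono hcomp.measure_ne_top (measure_mono hsub)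
    _ = _ := by
        rw [Measure.addHaar_smul, ENNReal.toReal_mul, ENNReal.toReal_ofReal (abs_nonneg _),
          abs_of_nonneg (pow_nonneg (by linarith) _)]

theorem mink0 {P : Set E} (hP : Polytope P) (h0 : (0 : E) ∈ interior P) (hb : Balanced P) :
    CSym P := by
  by_contra hns
  obtain ⟨U, hU1, hU⟩ := hrep hP
  obtain ⟨⟨S, hS, rfl⟩, hPi⟩ := hP
  set P : Set E := convexHull ℝ S with hPdef
  have hPc : IsCompact P := hS.isCompact_convexHull (𝕜 := ℝ)
  have hconv : Convex ℝ P := convex_convexHull ℝ S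
  have hP0 : P.Nonempty := ⟨0, interior_subset h0⟩
  have hVne : volume P ≠ ∞ := hPc.measure_ne_top
  have hV : 0 < (volume P).toReal := by
    apply ENNReal.toReal_pos
    · intro h0
      have h1 : 0 < volume (interior P) := isOpen_interior.measure_pos _ hPi
      have := measure_mono (μ := (volume : Measure E)) (interior_subset (s := P))
      rw [h0] at this
      exact absurd h1 (not_lt.2 this)
    · exact hVne
  have hmid : (volume P).toReal < (volume (mid P (-P))).toReal := by
    have h1 : ¬ volume (mid P (-P)) ≤ volume P := fun h => hns (csym_of_mid hPc hconv hPi h)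
    rw [not_le] at h1
    exact (ENNReal.toReal_lt_toReal hVne (isCompact_mid hPc hPc.neg).measure_ne_top).2 h1
  set V := (volume P).toReal with hVdef
  set M := (volume (mid P (-P))).toReal with hMdef
  set c := Real.log (M / V) with hc
  have hc0 : 0 < c := Real.log_pos ((one_lt_div hV).2 hmid)
  have hexp : V * Real.exp c ≤ M := by
    rw [hc, Real.exp_log (div_pos (hV.trans hmid) hV)]
    rw [mul_div_cancel₀ _ hV.ne']
  -- the first variation
  have h0L : (0 : E) ∈ -P := by simpa using interior_subset h0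
  have hvar := var_upper hPc hP0 hPc.neg h0L U hU1 hU (ε := V * c / 2) (by positivity)
  have hsum := sum_le hPc hconv h0 hb U hU1
  have htend : Tendsto (fun k : ℕ => (1 / 2 : ℝ) ^ (k + 1) / (1 - (1 / 2 : ℝ) ^ (k + 1))) atTop
      (𝓝[>] 0) := by
    rw [tendsto_nhdsWithin_iff]
    constructor
    · have h1 : Tendsto (fun k : ℕ => (1 / 2 : ℝ) ^ (k + 1)) atTop (𝓝 0) :=
        (tendsto_pow_atTop_nhds_zero_of_lt_one (by norm_num) (by norm_num)).comp
          (tendsto_add_atTop_nat 1)
      have h2 : Tendsto (fun k : ℕ => 1 - (1 / 2 : ℝ) ^ (k + 1)) atTop (𝓝 (1 - 0)) :=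
        tendsto_const_nhds.sub h1
      have h3 : Tendsto (fun k : ℕ => (1 / 2 : ℝ) ^ (k + 1) / (1 - (1 / 2 : ℝ) ^ (k + 1))) atTop
          (𝓝 (0 / (1 - 0))) := h1.div h2 (by norm_num)
      rw [show (0 : ℝ) / (1 - 0) = 0 by norm_num] at h3
      exact h3
    · filter_upwards with k
      have h1 : (1 / 2 : ℝ) ^ (k + 1) ≤ 1 / 2 := by
        calc (1 / 2 : ℝ) ^ (k + 1) ≤ (1 / 2 : ℝ) ^ 1 :=
              pow_le_pow_of_le_one (by norm_num) (by norm_num) (by omega)
          _ = 1 / 2 := by norm_num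
      have h2 : (0 : ℝ) < (1 / 2 : ℝ) ^ (k + 1) := by positivity
      exact div_pos h2 (by linarith)
  obtain ⟨k, hk⟩ := (htend.eventually hvar).exists
  have hlow := DD_lower hPc hPi hexp k
  have hupp := DD_upper hPc hconv hP0 (k + 1) (by omega)
  set τ : ℝ := (1 / 2 : ℝ) ^ (k + 1) with hτ
  have hτ0 : 0 < τ := by positivity
  have hτ1 : τ ≤ 1 / 2 := by
    calc τ ≤ (1 / 2 : ℝ) ^ 1 := pow_le_pow_of_le_one (by norm_num) (by norm_num) (by omega)
      _ = 1 / 2 := by norm_num
  set t : ℝ := τ / (1 - τ) with ht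
  have ht0 : 0 < t := div_pos hτ0 (by linarith)
  have ht2 : t ≤ 2 * τ := by
    rw [ht, div_le_iff₀ (by linarith)]
    nlinarith
  have hτk : (1 / 2 : ℝ) ^ k = 2 * τ := by rw [hτ, pow_succ]; ring
  rw [← hVdef, hτk] at hlow
  have hlow' : V * (1 + c * (2 * τ)) ≤ (volume (DD P (-P) (k + 1))).toReal := by
    refine le_trans ?_ hlow
    apply mul_le_mul_of_nonneg_left _ hV.le
    have := Real.add_one_le_exp (c * (2 * τ))
    linarith
  set d := Module.finrank ℝ E with hd
  have h1t : (1 - τ) * (1 + t) = 1 := by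
    have hne : (1 - τ) ≠ 0 := by intro h; linarith
    rw [ht, mul_add, mul_one, mul_div_cancel₀ _ hne]
    ring
  have hpow : (1 - τ) ^ d * (1 + t) ^ d = 1 := by rw [← mul_pow, h1t, one_pow]
  have hbern : 1 + (d : ℝ) * t ≤ (1 + t) ^ d := one_add_mul_le_pow (by linarith) d
  have hp0 : 0 ≤ (1 - τ) ^ d := pow_nonneg (by linarith) _
  have hp1 : (1 - τ) ^ d ≤ 1 := pow_le_one₀ (by linarith) (by linarith)
  have hε : 0 ≤ V * c / 2 := by positivity
  have hup2 : (volume (DD P (-P) (k + 1))).toReal ≤ V + t * (V * c / 2) := by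
    calc (volume (DD P (-P) (k + 1))).toReal
        ≤ (1 - τ) ^ d * (volume (P + t • (-P))).toReal := hupp
      _ ≤ (1 - τ) ^ d * (V + t * (∑ u ∈ U, spt (-P) u * (volume (prism (face P u) u)).toReal +
            V * c / 2)) := mul_le_mul_of_nonneg_left hk hp0
      _ ≤ (1 - τ) ^ d * (V + t * (d * V + V * c / 2)) := by
          apply mul_le_mul_of_nonneg_left _ hp0
          have : t * (∑ u ∈ U, spt (-P) u * (volume (prism (face P u) u)).toReal + V * c / 2) ≤
              t * (d * V + V * c / 2) := by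
            apply mul_le_mul_of_nonneg_left _ ht0.le
            linarith
          linarith
      _ = (1 - τ) ^ d * (1 + d * t) * V + (1 - τ) ^ d * (t * (V * c / 2)) := by ring
      _ ≤ (1 - τ) ^ d * (1 + t) ^ d * V + 1 * (t * (V * c / 2)) := by
          apply add_le_add
          · exact mul_le_mul_of_nonneg_right (mul_le_mul_of_nonneg_left hbern hp0) hV.le
          · exact mul_le_mul_of_nonneg_right hp1 (by positivity)
      _ = V + t * (V * c / 2) := by rw [hpow]; ring
  have hfin : V * (c * (2 * τ)) ≤ t * (V * c / 2) := by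
    have := hlow'.trans hup2
    linarith
  have hfin2 : t * (V * c / 2) ≤ (2 * τ) * (V * c / 2) :=
    mul_le_mul_of_nonneg_right ht2 (by positivity)
  have hpos : 0 < τ * (V * c) := by positivity
  nlinarith

theorem mink {P : Set E} (hP : Polytope P) (hb : Balanced P) : CSym P := by
  obtain ⟨x0, hx0⟩ := hP.2
  set Q : Set E := (fun x => x + x0) ⁻¹' P with hQ
  have hmem : ∀ x, x ∈ Q ↔ x + x0 ∈ P := fun x => Iff.rfl
  have hint : ∀ x, x ∈ interior Q ↔ x + x0 ∈ interior P := by
    intro x
    have h := (Homeomorph.addRight x0).preimage_interior P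
    have h1 : (Homeomorph.addRight x0) ⁻¹' P = Q := rfl
    rw [h1] at h
    rw [← h]
    rfl
  have hQ0 : (0 : E) ∈ interior Q := by rw [hint, zero_add]; exact hx0
  have hpoly : Polytope Q := by
    obtain ⟨⟨S, hS, hPS⟩, hPi⟩ := hP
    refine ⟨⟨(-x0) +ᵥ S, hS.vadd_set, ?_⟩, ⟨0, hQ0⟩⟩
    rw [convexHull_vadd, ← hPS]
    ext x
    rw [hmem, Set.mem_vadd_set_iff_neg_vadd_mem, neg_neg, vadd_eq_add, add_comm]
  have hface : ∀ u x, x ∈ face Q u ↔ x + x0 ∈ face P u := by
    intro u x
    simp only [Pool.Agent.H14Belt.face, Set.mem_ofPred_eq, hmem]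
    constructor
    · rintro ⟨h1, h2⟩
      refine ⟨h1, fun y hy => ?_⟩
      have := h2 (y - x0) (by simpa using hy)
      rw [inner_sub_right] at this
      rw [inner_add_right]
      linarith
    · rintro ⟨h1, h2⟩
      refine ⟨h1, fun y hy => ?_⟩
      have := h2 (y + x0) hy
      rw [inner_add_right, inner_add_right] at this
      linarith
  have hprism : ∀ u w : E, volume (prism (face Q u) w) = volume (prism (face P u) w) := by
    intro u w
    have : prism (face Q u) w = (fun x => x + x0) ⁻¹' (prism (face P u) w) := by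
      ext x
      simp only [prism, Set.mem_ofPred_eq, Set.mem_preimage]
      constructor
      · rintro ⟨y, hy, s, h0, h1, rfl⟩
        exact ⟨y + x0, (hface u y).1 hy, s, h0, h1, by abel⟩
      · rintro ⟨y, hy, s, h0, h1, h⟩
        refine ⟨y - x0, (hface u _).2 (by simpa using hy), s, h0, h1, ?_⟩
        have : x = y + s • w - x0 := by rw [← h]; abel
        rw [this]; abel
    rw [this, measure_preimage_add_right]
  have hbal : Balanced Q := by
    intro u hu
    rw [hprism, hprism]
    exact hb u hu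
  obtain ⟨c, hc⟩ := mink0 hpoly hQ0 hbal
  refine ⟨c + x0 + x0, fun y hy => ?_⟩
  have h1 : y - x0 ∈ Q := by rw [hmem]; simpa using hy
  have h2 := hc _ h1
  rw [hmem] at h2
  have : c + x0 + x0 - y = c - (y - x0) + x0 := by abel
  rw [this]
  exact h2

end Pool.PT56
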