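import Pool.Agent.PT56.HRepF
import Pool.Agent.PT56.Mink

set_option autoImplicit false
set_option linter.unusedSectionVars false

/-!
# PT56/FacA: single facets are centrally symmetric

`gv P u v` is the `(d-2)`-dimensional volume of the face in direction `v` of the face of `P` in
direction `u`.  `gv_law`: the belt balance law.  `gv_symm_of_not_facet`: if the face in direction `u`
has no `(d-1)`-dimensional volume then `gv P u v = gv P u (-v)`.  `csym_of_single`: a facet without
a parallel facet is balanced in its hyperplane, hence centrally symmetric (`mink` in dimension `d-1`).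
-/

namespace Pool.PT56

open Set Filter Topology MeasureTheory
open scoped RealInnerProductSpace ENNReal Pointwise

variable {E : Type} [NormedAddCommGroup E] [InnerProductSpace ℝ E] [FiniteDimensional ℝ E]
  [MeasurableSpace E] [BorelSpace E]

/-- the `(d-2)`-dimensional volume of the face in direction `v` of the face in direction `u` -/
noncomputable def gv (P : Set E) (u v : E) : ℝ≥0∞ :=
  μHE[Module.finrank ℝ E - 2] (face (face P u) v)

/-- the belt balance law -/
theorem gv_law {P : Set E} (hc : IsCompact P) (hconv : Convex ℝ P) (hint : (interior P).Nonempty)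
    (hT : Tiles P) {u v : E} (hu : ‖u‖ = 1) (hv : ‖v‖ = 1) (huv : ⟪u, v⟫ = 0) :
    gv P u v + gv P (-u) (-v) = gv P u (-v) + gv P (-u) v := by
  obtain ⟨ι, t, s, h⟩ := tiles_iff.1 hT
  have hb := Pool.Agent.H14Belt.balance hu hv huv hc hconv hint
    (T := fun i => tile P (t i) (s i)) (fun i => ⟨t i, s i, h.sgn i, rfl⟩)
    (fun i j hij => h.dis i j hij) (by
      apply eq_univ_of_forall
      intro x
      obtain ⟨i, hi⟩ := h.cov x
      exact mem_iUnion.mpr ⟨i, hi⟩)
  have hr : Module.finrank ℝ (perp u v) = Module.finrank ℝ E - 2 := by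
    have := Pool.Agent.H14Belt.finrank_perp hu hv huv
    omega
  rw [hr] at hb
  unfold gv
  simp only [Measure.euclideanHausdorffMeasure_def, Measure.smul_apply]
  rw [← smul_add, ← smul_add]
  congr 1

/-- the prism volume as a Hausdorff measure -/
theorem vol_prism_muHE {u : E} (hu : ‖u‖ = 1) {G : Set E} (hG : IsCompact G) {p : ℝ}
    (hGp : ∀ x ∈ G, ⟪u, x⟫ = p) : volume (prism G u) = μHE[Module.finrank ℝ E - 1] G := by
  rw [vol_prism_sec hu hG hGp, PT57.sec_eq_muHE hu]
  congr 1
  ext x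
  exact ⟨fun h => h.1, fun h => ⟨h, hGp x h⟩⟩

theorem face_neg_level {P : Set E} (hP : IsCompact P) {u x : E} (hx : x ∈ face P (-u)) :
    ⟪u, x⟫ = -spt P (-u) := by
  have := ((mem_face_iff hP).mp hx).2
  rw [inner_neg_left] at this
  linarith

/-- a convex body with a big face off a point has volume -/
theorem vol_ne_zero_of_face {K : Set E} (hK : IsCompact K) (hconv : Convex ℝ K) {v : E}
    (hv : ‖v‖ = 1) (hf : μHE[Module.finrank ℝ E - 1] (face K v) ≠ 0) {y : E} (hy : y ∈ K)
    (hyv : ⟪v, y⟫ < spt K v) : volume K ≠ 0 := by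
  have hvv : ⟪v, v⟫ = 1 := by rw [real_inner_self_eq_norm_sq, hv]; norm_num
  rw [← vol_prism_muHE hv (face_compact hK v) (fun x hx => ((mem_face_iff hK).mp hx).2),
    vol_prism_face hK hv] at hf
  intro h0
  rw [← PT57.lintegral_sec hv hK.measurableSet,
    lintegral_eq_zero_iff (PT57.measurable_sec v hK.measurableSet)] at h0
  have h1 : volume (Ioo ⟪v, y⟫ (spt K v)) = 0 := by
    refine measure_mono_null ?_ h0
    intro s hs
    show PT57.sec v K s ≠ 0
    set l := (spt K v - s) / (spt K v - ⟪v, y⟫) with hl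
    have hden : 0 < spt K v - ⟪v, y⟫ := by linarith
    have hl0 : 0 ≤ l := div_nonneg (by linarith [hs.2]) hden.le
    have hl1 : l < 1 := by
      rw [hl, div_lt_one hden]
      linarith [hs.1]
    have hle : l * (spt K v - ⟪v, y⟫) = spt K v - s := by
      rw [hl]; field_simp
    let w : (ℝ ∙ v)ᗮ := ⟨y - ⟪v, y⟫ • v, by
      rw [PT57.mem_perp_iff, inner_sub_right, inner_smul_right, hvv]; ring⟩
    have hsub : (fun z => z + l • w) '' ((1 - l) •
        ((fun z : (ℝ ∙ v)ᗮ => spt K v • v + (z : E)) ⁻¹' (face K v))) ⊆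
        (fun z : (ℝ ∙ v)ᗮ => s • v + (z : E)) ⁻¹' K := by
      rintro _ ⟨_, ⟨z, hz, rfl⟩, rfl⟩
      show s • v + (((1 - l) • z + l • w : (ℝ ∙ v)ᗮ) : E) ∈ K
      have hz' : spt K v • v + (z : E) ∈ K := hz.1
      have e : s • v + (((1 - l) • z + l • w : (ℝ ∙ v)ᗮ) : E) =
          (1 - l) • (spt K v • v + (z : E)) + l • y := by
        rw [Submodule.coe_add, Submodule.coe_smul, Submodule.coe_smul]
        show s • v + ((1 - l) • (z : E) + l • (y - ⟪v, y⟫ • v)) = _
        have : s = (1 - l) * spt K v + l * ⟪v, y⟫ := by linarith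
        rw [this]
        module
      rw [e]
      exact hconv hz' hy (by linarith) hl0 (by ring)
    have hpos : volume ((fun z => z + l • w) '' ((1 - l) •
        ((fun z : (ℝ ∙ v)ᗮ => spt K v • v + (z : E)) ⁻¹' (face K v)))) ≠ 0 := by
      rw [image_add_right, measure_preimage_add_right, Measure.addHaar_smul]
      apply mul_ne_zero
      · have : 0 < 1 - l := by linarith
        simp only [ne_eq, ENNReal.ofReal_eq_zero, not_le]
        positivity
      · exact hf
    exact (pos_iff_ne_zero.mpr hpos |>.trans_le (measure_mono hsub)).ne'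
  rw [Real.volume_Ioo, ENNReal.ofReal_eq_zero] at h1
  linarith

/-- opposite faces of a null convex body have the same measure -/
theorem face_symm_of_null {K : Set E} (hK : IsCompact K) (hconv : Convex ℝ K) {v : E}
    (hv : ‖v‖ = 1) (h0 : volume K = 0) : μHE[Module.finrank ℝ E - 1] (face K v) =
      μHE[Module.finrank ℝ E - 1] (face K (-v)) := by
  have key : ∀ v : E, ‖v‖ = 1 → μHE[Module.finrank ℝ E - 1] (face K v) ≠ 0 →
      face K (-v) = face K v := by
    intro v hv hf
    have h1 : ∀ y ∈ K, ⟪v, y⟫ = spt K v := by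
      intro y hy
      refine le_antisymm (spt_le hK hy v) ?_
      by_contra hcon
      push Not at hcon
      exact vol_ne_zero_of_face hK hconv hv hf hy hcon h0
    have h2 : face K v = K := by
      ext x
      exact ⟨fun h => h.1, fun h => ⟨h, fun y hy => by rw [h1 x h, h1 y hy]⟩⟩
    have h3 : face K (-v) = K := by
      ext x
      refine ⟨fun h => h.1, fun h => ⟨h, fun y hy => ?_⟩⟩
      rw [inner_neg_left, inner_neg_left, h1 x h, h1 y hy]
    rw [h2, h3]
  by_cases ha : μHE[Module.finrank ℝ E - 1] (face K v) = 0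
  · by_cases hb : μHE[Module.finrank ℝ E - 1] (face K (-v)) = 0
    · rw [ha, hb]
    · have := key (-v) (by rw [norm_neg, hv]) hb
      rw [neg_neg] at this
      rw [this]
  · rw [key v hv ha]

/-! ### The section of a facet as a body in the hyperplane -/

/-- the face in direction `u`, moved to the linear hyperplane orthogonal to `u` -/
def secQ (P : Set E) (u : E) : Set (ℝ ∙ u)ᗮ :=
  (fun y : (ℝ ∙ u)ᗮ => spt P u • u + (y : E)) ⁻¹' (face P u)

theorem vol_secQ {P : Set E} (hP : IsCompact P) {u : E} (hu : ‖u‖ = 1) :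
    volume (secQ P u) = volume (prism (face P u) u) := (vol_prism_face hP hu).symm

theorem secQ_compact {P : Set E} (hP : IsCompact P) {u : E} (hu : ‖u‖ = 1) :
    IsCompact (secQ P u) := PT57.sec_compact hu (face_compact hP u) _

theorem face_convex {P : Set E} (hP : Convex ℝ P) (u : E) : Convex ℝ (face P u) := by
  intro x hx y hy a b ha hb hab
  refine ⟨hP hx.1 hy.1 ha hb hab, fun z hz => ?_⟩
  rw [inner_add_right, inner_smul_right, inner_smul_right]
  have h1 := hx.2 z hz
  have h2 := hy.2 z hz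
  calc ⟪u, z⟫ = a * ⟪u, z⟫ + b * ⟪u, z⟫ := by rw [← add_mul, hab, one_mul]
    _ ≤ a * ⟪u, x⟫ + b * ⟪u, y⟫ := by gcongr

theorem secQ_convex {P : Set E} (hP : Convex ℝ P) (u : E) : Convex ℝ (secQ P u) := by
  intro x hx y hy a b ha hb hab
  show spt P u • u + ((a • x + b • y : (ℝ ∙ u)ᗮ) : E) ∈ face P u
  have e : spt P u • u + ((a • x + b • y : (ℝ ∙ u)ᗮ) : E) =
      a • (spt P u • u + (x : E)) + b • (spt P u • u + (y : E)) := by
    rw [Submodule.coe_add, Submodule.coe_smul, Submodule.coe_smul]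
    have : b = 1 - a := by linarith
    rw [this]
    module
  rw [e]
  exact face_convex hP u hx hy ha hb hab

theorem image_secQ {P : Set E} (hP : IsCompact P) {u : E} (hu : ‖u‖ = 1) :
    (fun y : (ℝ ∙ u)ᗮ => spt P u • u + (y : E)) '' secQ P u = face P u := by
  unfold secQ
  rw [PT57.image_sec hu]
  ext x
  exact ⟨fun h => h.1, fun h => ⟨h, ((mem_face_iff hP).mp h).2⟩⟩

theorem isometry_lift (u : E) (p : ℝ) : Isometry (fun y : (ℝ ∙ u)ᗮ => p • u + (y : E)) :=
  (IsometryEquiv.addLeft (p • u)).isometry.comp isometry_subtype_coe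

theorem image_face_secQ {P : Set E} (hP : IsCompact P) {u : E} (hu : ‖u‖ = 1) (v : (ℝ ∙ u)ᗮ) :
    (fun y : (ℝ ∙ u)ᗮ => spt P u • u + (y : E)) '' (face (secQ P u) v) =
      face (face P u) (v : E) := by
  have hin : ∀ y : (ℝ ∙ u)ᗮ, ⟪(v : E), spt P u • u + (y : E)⟫ = ⟪v, y⟫ := by
    intro y
    rw [inner_add_right, inner_smul_right, real_inner_comm, PT57.mem_perp_iff.mp v.2]
    simp
  ext x
  constructor
  · rintro ⟨y, hy, rfl⟩
    refine ⟨hy.1, fun z hz => ?_⟩
    rw [← image_secQ hP hu] at hz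
    obtain ⟨z', hz', rfl⟩ := hz
    show ⟪(v : E), spt P u • u + (z' : E)⟫ ≤ ⟪(v : E), spt P u • u + (y : E)⟫
    rw [hin, hin]
    exact hy.2 z' hz'
  · rintro ⟨hx, hx2⟩
    have hx' := hx
    rw [← image_secQ hP hu] at hx'
    obtain ⟨y, hy, rfl⟩ := hx'
    refine ⟨y, ⟨hy, fun z hz => ?_⟩, rfl⟩
    have := hx2 (spt P u • u + (z : E)) hz
    rw [hin] at this
    exact this.trans_eq (hin y)

theorem finrank_perp1 {u : E} (hu : ‖u‖ = 1) :
    Module.finrank ℝ (ℝ ∙ u)ᗮ = Module.finrank ℝ E - 1 := by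
  have h1 := (ℝ ∙ u).finrank_add_finrank_orthogonal
  have h2 : Module.finrank ℝ (ℝ ∙ u) = 1 := finrank_span_singleton (by
    intro h
    rw [h] at hu
    simp at hu)
  omega

theorem gv_eq {P : Set E} (hP : IsCompact P) {u : E} (hu : ‖u‖ = 1) (v : (ℝ ∙ u)ᗮ) :
    gv P u (v : E) = μHE[Module.finrank ℝ (ℝ ∙ u)ᗮ - 1] (face (secQ P u) v) := by
  unfold gv
  rw [← image_face_secQ hP hu v, (isometry_lift u _).euclideanHausdorffMeasure_image,
    finrank_perp1 hu]
  rfl

/-- (0): a face without volume -/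
theorem gv_symm_of_not_facet {P : Set E} (hP : IsCompact P) (hconv : Convex ℝ P) {u v : E}
    (hu : ‖u‖ = 1) (hv : ‖v‖ = 1) (huv : ⟪u, v⟫ = 0) (h : ¬ Facet P u) :
    gv P u v = gv P u (-v) := by
  have h0 : volume (secQ P u) = 0 := by
    rw [vol_secQ hP hu]
    by_contra hcon
    exact h ⟨hu, hcon⟩
  let v' : (ℝ ∙ u)ᗮ := ⟨v, PT57.mem_perp_iff.mpr huv⟩
  have e1 : gv P u v = _ := gv_eq hP hu v'
  have e2 : gv P u (-v) = _ := gv_eq hP hu (-v')
  rw [e1, e2]
  exact face_symm_of_null (secQ_compact hP hu) (secQ_convex hconv u) (v := v') hv h0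

theorem gv_lt_top {P : Set E} (hP : IsCompact P) {u v : E}
    (hu : ‖u‖ = 1) (hv : ‖v‖ = 1) (huv : ⟪u, v⟫ = 0) : gv P u v < ∞ := by
  let v' : (ℝ ∙ u)ᗮ := ⟨v, PT57.mem_perp_iff.mpr huv⟩
  have e1 : gv P u v = _ := gv_eq hP hu v'
  rw [e1]
  have hQ := secQ_compact hP hu
  rw [← vol_prism_muHE (u := v') hv (face_compact hQ v')
    (fun x hx => ((mem_face_iff hQ).mp hx).2), vol_prism_face (u := v') hQ hv]
  exact PT57.sec_lt_top (u := v') hv (face_compact hQ v') _

/-- a facet without parallel facet has equal opposite ridges -/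
theorem gv_symm_of_single {P : Set E} (hc : IsCompact P) (hconv : Convex ℝ P)
    (hint : (interior P).Nonempty) (hT : Tiles P) {u v : E} (hu : ‖u‖ = 1) (hv : ‖v‖ = 1)
    (huv : ⟪u, v⟫ = 0) (h : ¬ Facet P (-u)) : gv P u v = gv P u (-v) := by
  have h1 := gv_law hc hconv hint hT hu hv huv
  have hu' : ‖-u‖ = 1 := by rw [norm_neg, hu]
  have huv' : ⟪-u, v⟫ = 0 := by rw [inner_neg_left, huv, neg_zero]
  rw [← gv_symm_of_not_facet hc hconv hu' hv huv' h] at h1
  exact (ENNReal.add_left_inj (gv_lt_top hc hu' hv huv').ne).mp h1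

theorem secQ_balanced {P : Set E} (hc : IsCompact P) (hconv : Convex ℝ P)
    (hint : (interior P).Nonempty) (hT : Tiles P) {u : E} (hu : ‖u‖ = 1)
    (h : ¬ Facet P (-u)) : Balanced (secQ P u) := by
  intro v hv
  have hQ := secQ_compact hc hu
  rw [vol_prism_muHE hv (face_compact hQ v) (fun x hx => ((mem_face_iff hQ).mp hx).2),
    vol_prism_muHE hv (face_compact hQ (-v)) (fun x hx => face_neg_level hQ hx),
    ← gv_eq hc hu v, ← gv_eq hc hu (-v)]
  exact gv_symm_of_single hc hconv hint hT hu hv (PT57.mem_perp_iff.mp v.2) h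

/-! ### The section is a polytope -/

theorem face_hull {S : Set E} (hS : S.Finite) (u : E) :
    face (convexHull ℝ S) u = convexHull ℝ (S ∩ face (convexHull ℝ S) u) := by
  classical
  apply Subset.antisymm
  · intro x hx
    have hx1 := hx.1
    rw [← hS.coe_toFinset, Finset.mem_convexHull'] at hx1
    obtain ⟨w, hw0, hw1, hwx⟩ := hx1
    have hle : ∀ y ∈ hS.toFinset, ⟪u, y⟫ ≤ ⟪u, x⟫ := fun y hy =>
      hx.2 y (subset_convexHull ℝ S (hS.mem_toFinset.mp hy))
    have hsum : ∑ y ∈ hS.toFinset, w y * (⟪u, x⟫ - ⟪u, y⟫) = 0 := by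
      have h1 : ⟪u, x⟫ = ∑ y ∈ hS.toFinset, w y * ⟪u, y⟫ := by
        conv_lhs => rw [← hwx]
        rw [inner_sum]
        apply Finset.sum_congr rfl
        intro y _
        rw [inner_smul_right]
      have h2 : ∑ y ∈ hS.toFinset, w y * (⟪u, x⟫ - ⟪u, y⟫) =
          (∑ y ∈ hS.toFinset, w y) * ⟪u, x⟫ - ∑ y ∈ hS.toFinset, w y * ⟪u, y⟫ := by
        rw [Finset.sum_mul, ← Finset.sum_sub_distrib]
        apply Finset.sum_congr rfl
        intro y _
        ring
      rw [h2, hw1, ← h1]
      ring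
    have hz : ∀ y ∈ hS.toFinset, w y * (⟪u, x⟫ - ⟪u, y⟫) = 0 := by
      rw [Finset.sum_eq_zero_iff_of_nonneg] at hsum
      · exact hsum
      · intro y hy
        exact mul_nonneg (hw0 y hy) (by linarith [hle y hy])
    have hmem : ∀ y ∈ hS.toFinset, w y ≠ 0 → y ∈ S ∩ face (convexHull ℝ S) u := by
      intro y hy hwy
      have h3 : ⟪u, x⟫ - ⟪u, y⟫ = 0 := (mul_eq_zero.mp (hz y hy)).resolve_left hwy
      refine ⟨hS.mem_toFinset.mp hy, subset_convexHull ℝ S (hS.mem_toFinset.mp hy), fun z hz => ?_⟩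
      have := hx.2 z hz
      linarith
    rw [← hwx]
    have hfil : ∑ y ∈ hS.toFinset, w y • y = ∑ y ∈ hS.toFinset.filter (fun y => w y ≠ 0), w y • y := by
      symm
      apply Finset.sum_filter_of_ne
      intro y _ h4 h5
      exact h4 (by rw [h5, zero_smul])
    have hfil1 : ∑ y ∈ hS.toFinset.filter (fun y => w y ≠ 0), w y = 1 := by
      rw [← hw1]
      apply Finset.sum_filter_of_ne
      intro y _ h4
      exact h4
    rw [hfil]
    apply (convex_convexHull ℝ _).sum_mem
    · intro y hy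
      exact hw0 y (Finset.mem_filter.mp hy).1
    · exact hfil1
    · intro y hy
      obtain ⟨h4, h5⟩ := Finset.mem_filter.mp hy
      exact subset_convexHull ℝ _ (hmem y h4 h5)
  · apply convexHull_min inter_subset_right
    exact face_convex (convex_convexHull ℝ S) u

/-- the affine lift -/
noncomputable def liftA (u : E) (p : ℝ) : (ℝ ∙ u)ᗮ →ᵃ[ℝ] E where
  toFun y := p • u + (y : E)
  linear := (ℝ ∙ u)ᗮ.subtype
  map_vadd' := by
    intro q w
    simp only [vadd_eq_add, Submodule.coe_add, Submodule.subtype_apply]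
    abel

theorem secQ_polytope {P : Set E} (hP : Polytope P) {u : E} (h : Facet P u) :
    Polytope (secQ P u) := by
  have hu := h.1
  have hc := hP.compact
  have hinj : Function.Injective (fun y : (ℝ ∙ u)ᗮ => spt P u • u + (y : E)) :=
    (isometry_lift u _).injective
  refine ⟨?_, ?_⟩
  · obtain ⟨⟨S, hS, hPS⟩, -⟩ := hP
    refine ⟨(fun y : (ℝ ∙ u)ᗮ => spt P u • u + (y : E)) ⁻¹' (S ∩ face P u),
      (hS.inter_of_left _).preimage hinj.injOn, ?_⟩
    have h1 : (fun y : (ℝ ∙ u)ᗮ => spt P u • u + (y : E)) ''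
        ((fun y : (ℝ ∙ u)ᗮ => spt P u • u + (y : E)) ⁻¹' (S ∩ face P u)) = S ∩ face P u := by
      apply image_preimage_eq_of_subset
      intro x hx
      have := hx.2
      rw [← image_secQ hc hu] at this
      obtain ⟨y, -, hy⟩ := this
      exact ⟨y, hy⟩
    apply hinj.image_injective
    show (fun y : (ℝ ∙ u)ᗮ => spt P u • u + (y : E)) '' secQ P u = (liftA u (spt P u)) '' _
    rw [image_secQ hc hu, AffineMap.image_convexHull]
    show _ = convexHull ℝ ((fun y : (ℝ ∙ u)ᗮ => spt P u • u + (y : E)) '' _)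
    rw [h1, hPS]
    exact face_hull hS u
  · by_contra hcon
    rw [not_nonempty_iff_eq_empty] at hcon
    have h1 := (secQ_convex hP.conv u).addHaar_frontier volume
    apply h.2
    rw [← vol_secQ hc hu]
    refine measure_mono_null ?_ h1
    intro x hx
    refine ⟨subset_closure hx, ?_⟩
    rw [hcon]
    exact notMem_empty x

/-- **(A)** a facet without a parallel facet is centrally symmetric -/
theorem csym_of_single {P : Set E} (hP : Polytope P) (hT : Tiles P) {u : E} (h1 : Facet P u)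
    (h2 : ¬ Facet P (-u)) : CSym (face P u) := by
  have hu := h1.1
  have hc := hP.compact
  have hb := secQ_balanced hc hP.conv hP.2 hT hu h2
  obtain ⟨c, hcs⟩ := mink (secQ_polytope hP h1) hb
  refine ⟨(2 * spt P u) • u + (c : E), fun x hx => ?_⟩
  rw [← image_secQ hc hu] at hx
  obtain ⟨y, hy, rfl⟩ := hx
  have := hcs y hy
  have h3 : spt P u • u + ((c - y : (ℝ ∙ u)ᗮ) : E) ∈ face P u := this
  convert h3 using 1
  rw [Submodule.coe_sub]
  module

end Pool.PT56
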