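import Pool.Agent.PT56.Final
import Pool.Agent.PT56.FacA

set_option autoImplicit false
set_option linter.unusedSectionVars false

/-!
# PT56/FHyp: facets as bodies in a hyperplane

`hface K u` is the face of `K` in direction `u`, moved into the hyperplane `(ℝ ∙ u)ᗮ` (an inner product space
of its own).
(`mem_face_iff`, `spt_le`, `exists_spt`, `face_compact` are in Var.lean.)
`mem_hface`: for `K` compact nonempty the maximum `spt K u` of `⟪u, x⟫` is attained; `⟪u, spt K u • u + y⟫ = spt K u`.
`hface_eq_secQ`: so `hface K u` is the section `secQ K u` of FacA.lean, and the other facts follow from FacA.lean.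
`mem_FN_iff`: a convex set of positive measure has interior points (`Convex.addHaar_frontier`), a set with
interior points has positive measure.
-/

namespace Pool.PT56

open Set Filter Topology MeasureTheory
open scoped RealInnerProductSpace ENNReal

variable {E : Type} [NormedAddCommGroup E] [InnerProductSpace ℝ E]

/-- the face of `K` in direction `u` as a subset of the hyperplane orthogonal to `u` -/
def hface (K : Set E) (u : E) : Set (ℝ ∙ u)ᗮ := {y | spt K u • u + (y : E) ∈ K}

variable [FiniteDimensional ℝ E] [MeasurableSpace E] [BorelSpace E]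

/-- the unit normals of the facets of `K` -/
def FN (K : Set E) : Set E := {u | ‖u‖ = 1 ∧ volume (prism (face K u) u) ≠ 0}

theorem mem_hface {K : Set E} (hK : IsCompact K) (hK0 : K.Nonempty) {u : E} (hu : ‖u‖ = 1)
    (y : (ℝ ∙ u)ᗮ) : y ∈ hface K u ↔ spt K u • u + (y : E) ∈ face K u := by
  rw [mem_face_iff hK]
  constructor
  · intro h
    refine ⟨h, ?_⟩
    rw [inner_add_right, real_inner_smul_right, fib_inner_self hu, fib_inner_perp, mul_one,
      add_zero]
  · intro h
    exact h.1

/-- `hface` is the section `secQ` of FacA.lean -/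
theorem hface_eq_secQ {K : Set E} (hK : IsCompact K) (hK0 : K.Nonempty) {u : E} (hu : ‖u‖ = 1) :
    hface K u = secQ K u := by
  ext y
  exact mem_hface hK hK0 hu y

/-- `FN` is the set of the facet normals of HRepF.lean -/
theorem mem_FN_iff_facet {K : Set E} {u : E} : u ∈ FN K ↔ Facet K u := Iff.rfl

theorem face_eq_image {K : Set E} (hK : IsCompact K) (hK0 : K.Nonempty) {u : E} (hu : ‖u‖ = 1) :
    face K u = (fun y : (ℝ ∙ u)ᗮ => spt K u • u + (y : E)) '' hface K u := by
  rw [hface_eq_secQ hK hK0 hu, image_secQ hK hu]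

theorem hface_compact {K : Set E} (hK : IsCompact K) (u : E) : IsCompact (hface K u) := by
  have hiso : Isometry (fun y : (ℝ ∙ u)ᗮ => spt K u • u + (y : E)) := isometry_lift u _
  exact hiso.isClosedEmbedding.isCompact_preimage hK

theorem hface_convex {K : Set E} (hK : Convex ℝ K) (u : E) : Convex ℝ (hface K u) := by
  intro x hx y hy a b ha hb hab
  show spt K u • u + ((a • x + b • y : (ℝ ∙ u)ᗮ) : E) ∈ K
  have e : spt K u • u + ((a • x + b • y : (ℝ ∙ u)ᗮ) : E) =
      a • (spt K u • u + (x : E)) + b • (spt K u • u + (y : E)) := by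
    rw [Submodule.coe_add, Submodule.coe_smul, Submodule.coe_smul]
    have : b = 1 - a := by linarith
    rw [this]
    module
  rw [e]
  exact hK hx hy ha hb hab

theorem hface_nonempty {K : Set E} (hK : IsCompact K) (hK0 : K.Nonempty) {u : E} (hu : ‖u‖ = 1) :
    (hface K u).Nonempty := by
  obtain ⟨x, hx, hxu⟩ := exists_spt hK hK0 u
  have hxf : x ∈ face K u := (mem_face_iff hK).mpr ⟨hx, hxu⟩
  rw [face_eq_image hK hK0 hu] at hxf
  obtain ⟨y, hy, -⟩ := hxf
  exact ⟨y, hy⟩

theorem mem_FN_iff {K : Set E} (hK : IsCompact K) (hKc : Convex ℝ K) (hK0 : K.Nonempty) {u : E}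
    (hu : ‖u‖ = 1) : u ∈ FN K ↔ (interior (hface K u)).Nonempty := by
  have hv : volume (prism (face K u) u) = volume (hface K u) := by
    rw [← vol_secQ hK hu, hface_eq_secQ hK hK0 hu]
  constructor
  · rintro ⟨-, h⟩
    by_contra hcon
    rw [not_nonempty_iff_eq_empty] at hcon
    have h1 := (hface_convex hKc u).addHaar_frontier (volume : Measure (ℝ ∙ u)ᗮ)
    apply h
    rw [hv]
    refine measure_mono_null ?_ h1
    intro x hx
    refine ⟨subset_closure hx, ?_⟩
    rw [hcon]
    exact notMem_empty x
  · intro h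
    refine ⟨hu, ?_⟩
    rw [hv]
    exact ((isOpen_interior.measure_pos volume h).trans_le (measure_mono interior_subset)).ne'

theorem hface_polytope {P : Set E} (hP : Polytope P) {u : E} (hu : u ∈ FN P) :
    Polytope (hface P u) := by
  rw [hface_eq_secQ hP.compact (hP.2.mono interior_subset) hu.1]
  exact secQ_polytope hP hu

theorem csym_face {K : Set E} (hK : IsCompact K) (hK0 : K.Nonempty) {u : E} (hu : ‖u‖ = 1)
    (h : CSym (hface K u)) : CSym (face K u) := by
  obtain ⟨c, hcs⟩ := h
  refine ⟨(2 * spt K u) • u + (c : E), fun x hx => ?_⟩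
  rw [face_eq_image hK hK0 hu] at hx
  obtain ⟨y, hy, rfl⟩ := hx
  have h3 := (mem_hface hK hK0 hu _).mp (hcs y hy)
  convert h3 using 1
  rw [Submodule.coe_sub]
  module

end Pool.PT56
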