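import Pool.Agent.PT56.FEqB
import Pool.Agent.PT56.FEqC
import Pool.Agent.PT56.FConv
import Pool.Agent.PT56.FDim

set_option autoImplicit false
set_option linter.unusedSectionVars false

/-!
# PT56/FMain: facets of polytopes that tile by translates and negatives
-/

namespace Pool.PT56

open Set Filter Topology MeasureTheory
open scoped RealInnerProductSpace ENNReal

variable {E : Type} [NormedAddCommGroup E] [InnerProductSpace ℝ E] [FiniteDimensional ℝ E]
  [MeasurableSpace E] [BorelSpace E]

theorem ncard_facets {P : Set E} (hP : Polytope P) : (Facets P).ncard = (FN P).ncard := by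
  rw [facets_eq hP]
  exact (face_inj hP).ncard_image

theorem eq_zero_of_neg_eq {u : E} (h : -u = u) : u = 0 := by
  have h5 : (2 : ℝ) • u = 0 := by
    rw [two_smul]
    nth_rewrite 1 [← h]
    simp
  simpa using h5

theorem facets_main {n : ℕ} (hn : Module.finrank ℝ E = n + 2) {P : Set E} (hP : Polytope P)
    (hT : Tiles P) :
    (∀ F ∈ Facets P, (∀ G ∈ Facets P, vectorSpan ℝ G = vectorSpan ℝ F → G = F) → CSym F) ∧
    2 * (n + 2) ≤ (Facets P).ncard + 1 ∧
    2 * n ≤ {F ∈ Facets P | ∃ G ∈ Facets P, G ≠ F ∧ vectorSpan ℝ G = vectorSpan ℝ F}.ncard := by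
  have hPc : IsCompact P := hP.isCompact
  have hP0 : P.Nonempty := hP.2.mono interior_subset
  refine ⟨?_, ?_, ?_⟩
  · intro F hF hpar
    rw [facets_eq hP] at hF
    obtain ⟨u, hu, rfl⟩ := hF
    have hnot : -u ∉ FN P := by
      intro hn'
      have h1 : face P (-u) ∈ Facets P := by
        rw [facets_eq hP]
        exact ⟨-u, hn', rfl⟩
      have h2 := hpar _ h1 ((parallel_iff hP hn' hu).2 (Or.inr (by rw [neg_neg])))
      have h3 := face_inj hP hn' hu h2
      have h4 := eq_zero_of_neg_eq h3
      have h6 := hu.1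
      rw [h4, norm_zero] at h6
      norm_num at h6
    exact csym_face hPc hP0 hu.1 (single_csym hP hT hu hnot)
  · rw [ncard_facets hP]
    have := fn_count hP hT
    rw [hn] at this
    exact this
  · have h1 := pairs_ge hP hT
    rw [hn] at h1
    have h2 : face P '' PN P ⊆
        {F ∈ Facets P | ∃ G ∈ Facets P, G ≠ F ∧ vectorSpan ℝ G = vectorSpan ℝ F} := by
      rintro _ ⟨w, ⟨hw, hw'⟩, rfl⟩
      refine ⟨?_, face P (-w), ?_, ?_, ?_⟩
      · rw [facets_eq hP]; exact ⟨w, hw, rfl⟩
      · rw [facets_eq hP]; exact ⟨-w, hw', rfl⟩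
      · intro h3
        have h3 := face_inj hP hw' hw h3
        have h4 := eq_zero_of_neg_eq h3
        have h6 := hw.1
        rw [h4, norm_zero] at h6
        norm_num at h6
      · exact (parallel_iff hP hw' hw).2 (Or.inr (by rw [neg_neg]))
    have hfin : {F ∈ Facets P | ∃ G ∈ Facets P, G ≠ F ∧
        vectorSpan ℝ G = vectorSpan ℝ F}.Finite := by
      apply Set.Finite.subset _ (Set.sep_subset _ _)
      rw [facets_eq hP]
      exact (fn_finite hP).image _
    have h3 := Set.ncard_le_ncard h2 hfin
    have h4 : (face P '' PN P).ncard = (PN P).ncard :=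
      ((face_inj hP).mono (fun w hw => hw.1)).ncard_image
    rw [h4] at h3
    omega

theorem few_facets {n : ℕ} (hn : Module.finrank ℝ E = n + 2) {P : Set E} (hP : Polytope P)
    (hc : (Facets P).ncard ≤ 2 * n + 3) : Tiles P ↔ TriBox n P := by
  constructor
  · intro hT
    rw [ncard_facets hP] at hc
    obtain ⟨u, a, b, w, l, m, hl, hm, hu, hi, hF⟩ := normals hn hP hT hc
    exact shape hn hP hl hm hu hi hF
  · exact tiles_triBox hn

end Pool.PT56
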