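import Pool.Agent.PT56.FCirc
import Pool.Agent.PT56.FCnt
import Pool.Agent.PT56.FacA

set_option autoImplicit false
set_option linter.unusedSectionVars false

/-!
# PT56/FPair: pairs of parallel facets

`opposite_ridge`: if no `w ∈ span {u, v}` has `w ∈ FN P` and `-w ∈ FN P` then for all `θ`, with `w = wdir θ`,
`w' = wder θ`: if `-w ∉ FN P` then `rvol_even`; if `w ∉ FN P` then `ridge_null`.  So `circle` applies.  `rvol P u v ≠ 0` because
`v ∈ FN (hface P u)` (`ridge_eq`).
`two_ridges`: if `v1 ≠ ± v2` are unit vectors orthogonal to `u` and `rvol P (-u) (-v1) ≠ 0`, `rvol P (-u) (-v2) ≠ 0`, then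
the face `face P (-u)` contains a `(d-2)`-dimensional piece parallel to `perp u v1` and one parallel to
`perp u v2`; these subspaces of `(ℝ ∙ u)ᗮ` are different and of dimension `d - 2`, so `hface P (-u)` is not contained
in a hyperplane of `(ℝ ∙ u)ᗮ`, and `-u ∈ FN P` (a convex set that is not contained in a proper affine subspace
has interior points).
`pairs_ge`: if all facets come in parallel pairs: `count_symm`, `fn_span`.  Otherwise let `u ∈ FN P`, `-u ∉ FN P`.
`hface P u` is centrally symmetric: `S = FN (hface P u)` is symmetric and spans `(ℝ ∙ u)ᗮ`; choose `d - 1` linearly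
independent `v_i ∈ S`.  By `opposite_ridge` and `two_ridges` all but at most one of the planes `span {u, v_i}` contain
some `w_i` with `w_i ∈ FN P`, `-w_i ∈ FN P`; `w_i ≠ ± u`, and the planes meet only in the line of `u`, so the
`± w_i` are `≥ 2 (d - 2)` different elements.
-/

namespace Pool.PT56

open Set Filter Topology MeasureTheory
open scoped RealInnerProductSpace ENNReal

variable {E : Type} [NormedAddCommGroup E] [InnerProductSpace ℝ E] [FiniteDimensional ℝ E]
  [MeasurableSpace E] [BorelSpace E]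

/-- the normals of the facets that have a parallel facet -/
def PN (K : Set E) : Set E := {w | w ∈ FN K ∧ -w ∈ FN K}

theorem opposite_ridge {P : Set E} (hP : Polytope P) (hT : Tiles P) {u : E} (hu : u ∈ FN P)
    {v : (ℝ ∙ u)ᗮ} (hv : v ∈ FN (hface P u))
    (h : ∀ w ∈ PN P, w ∉ Submodule.span ℝ {u, (v : E)}) : rvol P (-u) (-(v : E)) ≠ 0 := by
  have hu1 : ‖u‖ = 1 := hu.1
  have hv1 : ‖(v : E)‖ = 1 := hv.1
  have huv : ⟪u, (v : E)⟫ = 0 := PT57.mem_perp_iff.mp v.2
  have hcirc : ∀ θ, rvol P (wdir u v θ) (wder u v θ) = rvol P (wdir u v θ) (-wder u v θ) := by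
    intro θ
    obtain ⟨h1, h2, h3⟩ := wdir_norm hu1 hv1 huv θ
    have hmem : wdir u v θ ∈ Submodule.span ℝ {u, (v : E)} := by
      unfold wdir
      exact Submodule.add_mem _
        (Submodule.smul_mem _ _ (Submodule.subset_span (mem_insert _ _)))
        (Submodule.smul_mem _ _ (Submodule.subset_span (mem_insert_of_mem _ rfl)))
    by_cases hn : -wdir u v θ ∈ FN P
    · have hw : wdir u v θ ∉ FN P := fun hw => h _ ⟨hw, hn⟩ hmem
      have h0 : volume (prism (face P (wdir u v θ)) (wdir u v θ)) = 0 := by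
        by_contra hc
        exact hw ⟨h1, hc⟩
      exact ridge_null hP.isCompact hP.convex (hP.2.mono interior_subset) h1 h2 h3 h0
    · exact rvol_even hP hT h1 hn h2 h3
  rw [circle hP hu1 hv1 huv hcirc]
  obtain ⟨κ, hκ0, -, hκ⟩ := ridge_eq hu1 v hv.1
  rw [(hκ P hP.isCompact (hP.2.mono interior_subset)).1]
  exact mul_ne_zero hκ0 hv.2

/-- a convex body with two big nonparallel faces has volume -/
theorem FPair.vol_of_two {H : Type} [NormedAddCommGroup H] [InnerProductSpace ℝ H]
    [FiniteDimensional ℝ H] [MeasurableSpace H] [BorelSpace H] {Q : Set H} (hQ : IsCompact Q)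
    (hQc : Convex ℝ Q) {w1 w2 : H} (h1 : ‖w1‖ = 1) (h2 : ‖w2‖ = 1) (hne : w1 ≠ w2)
    (hne' : w1 ≠ -w2) (hf1 : volume (prism (face Q w1) w1) ≠ 0)
    (hf2 : volume (prism (face Q w2) w2) ≠ 0) : volume Q ≠ 0 := by
  have h22 : ⟪w2, w2⟫ = 1 := by rw [real_inner_self_eq_norm_sq, h2]; norm_num
  set n : H := w1 - ⟪w1, w2⟫ • w2 with hn
  have hn0 : n ≠ 0 := by
    intro h
    have e : w1 = ⟪w1, w2⟫ • w2 := by rw [hn, sub_eq_zero] at h; exact h
    have e2 : |⟪w1, w2⟫| = 1 := by
      have := congrArg norm e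
      rw [norm_smul, h1, h2, mul_one, Real.norm_eq_abs] at this
      exact this.symm
    rcases (abs_eq (by norm_num : (0:ℝ) ≤ 1)).mp e2 with h | h
    · rw [h, one_smul] at e; exact hne e
    · rw [h, neg_smul, one_smul] at e; exact hne' e
  have hnw : ⟪n, w2⟫ = 0 := by
    rw [hn, inner_sub_left, real_inner_smul_left, h22]; ring
  by_cases hall : ∀ y ∈ Q, ⟪w1, y⟫ = spt Q w1
  · exfalso
    apply hf2
    have hL : (innerSL ℝ n : H →L[ℝ] ℝ).toLinearMap ≠ 0 := by
      intro h
      have := LinearMap.congr_fun h n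
      simp only [ContinuousLinearMap.coe_coe, innerSL_apply_apply, LinearMap.zero_apply] at this
      exact hn0 (inner_self_eq_zero.mp this)
    refine measure_mono_null ?_ (level_null hL (spt Q w1 - ⟪w1, w2⟫ * spt Q w2))
    rintro x ⟨y, hy, s, -, -, rfl⟩
    have h3 := hall y hy.1
    have h4 := ((mem_face_iff hQ).mp hy).2
    show ⟪n, y + s • w2⟫ = _
    rw [inner_add_right, real_inner_smul_right, hnw, mul_zero, add_zero, hn, inner_sub_left,
      real_inner_smul_left, h3, h4]
  · push Not at hall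
    obtain ⟨y, hy, hyne⟩ := hall
    have hlt : ⟪w1, y⟫ < spt Q w1 := lt_of_le_of_ne (spt_le hQ hy w1) hyne
    refine vol_ne_zero_of_face hQ hQc h1 ?_ hy hlt
    rw [← vol_prism_muHE h1 (face_compact hQ w1) (fun x hx => ((mem_face_iff hQ).mp hx).2)]
    exact hf1

theorem FPair.face_vol_of_rvol {P : Set E} (hP : Polytope P) {u v : E} (hu : ‖u‖ = 1)
    (v' : (ℝ ∙ u)ᗮ) (hvv : (v' : E) = v) (hv : ‖v‖ = 1) (h : rvol P u v ≠ 0) :
    volume (prism (face (hface P u) v') v') ≠ 0 := by
  subst hvv
  obtain ⟨κ, -, -, hκ⟩ := ridge_eq hu v' hv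
  rw [(hκ P hP.isCompact (hP.2.mono interior_subset)).1] at h
  exact (mul_ne_zero_iff.mp h).2

theorem two_ridges {P : Set E} (hP : Polytope P) {u v1 v2 : E} (hu : ‖u‖ = 1) (hv1 : ‖v1‖ = 1)
    (huv1 : ⟪u, v1⟫ = 0) (hv2 : ‖v2‖ = 1) (huv2 : ⟪u, v2⟫ = 0) (hne : v1 ≠ v2) (hne' : v1 ≠ -v2)
    (h1 : rvol P (-u) (-v1) ≠ 0) (h2 : rvol P (-u) (-v2) ≠ 0) : -u ∈ FN P := by
  have hu' : ‖-u‖ = 1 := by rw [norm_neg, hu]
  have hc := hP.isCompact
  have hcv := hP.convex
  have hK0 : P.Nonempty := hP.2.mono interior_subset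
  let w1 : (ℝ ∙ (-u))ᗮ := ⟨-v1, by
    rw [PT57.mem_perp_iff, inner_neg_neg, huv1]⟩
  let w2 : (ℝ ∙ (-u))ᗮ := ⟨-v2, by
    rw [PT57.mem_perp_iff, inner_neg_neg, huv2]⟩
  have hn1 : ‖w1‖ = 1 := by show ‖-v1‖ = 1; rw [norm_neg, hv1]
  have hn2 : ‖w2‖ = 1 := by show ‖-v2‖ = 1; rw [norm_neg, hv2]
  have hd : w1 ≠ w2 := by
    intro h
    exact hne (neg_injective (congrArg Subtype.val h))
  have hd' : w1 ≠ -w2 := by
    intro h
    exact hne' (neg_injective (congrArg Subtype.val h))
  have f1 := FPair.face_vol_of_rvol hP hu' w1 rfl (by rw [norm_neg, hv1]) h1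
  have f2 := FPair.face_vol_of_rvol hP hu' w2 rfl (by rw [norm_neg, hv2]) h2
  have hQ := hface_compact hc (-u)
  have hQc := hface_convex hcv (-u)
  have hvol := FPair.vol_of_two hQ hQc hn1 hn2 hd hd' f1 f2
  rw [mem_FN_iff hc hcv hK0 hu']
  by_contra hcon
  rw [not_nonempty_iff_eq_empty] at hcon
  apply hvol
  refine measure_mono_null ?_ (hQc.addHaar_frontier volume)
  intro x hx
  exact ⟨subset_closure hx, by rw [hcon]; exact notMem_empty x⟩

theorem at_most_one {P : Set E} (hP : Polytope P) (hT : Tiles P) {u : E} (hu : u ∈ FN P)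
    (hn : -u ∉ FN P) {v1 v2 : (ℝ ∙ u)ᗮ} (h1 : v1 ∈ FN (hface P u)) (h2 : v2 ∈ FN (hface P u))
    (hne : v1 ≠ v2) (hne' : v1 ≠ -v2) :
    (∃ w ∈ PN P, w ∈ Submodule.span ℝ {u, (v1 : E)}) ∨
      ∃ w ∈ PN P, w ∈ Submodule.span ℝ {u, (v2 : E)} := by
  by_contra hcon
  push Not at hcon
  obtain ⟨c1, c2⟩ := hcon
  apply hn
  refine two_ridges hP hu.1 (v1 := (v1 : E)) (v2 := (v2 : E)) h1.1
    (PT57.mem_perp_iff.mp v1.2) h2.1 (PT57.mem_perp_iff.mp v2.2) ?_ ?_
    (opposite_ridge hP hT hu h1 c1) (opposite_ridge hP hT hu h2 c2)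
  · intro h
    exact hne (Subtype.ext h)
  · intro h
    exact hne' (Subtype.ext h)

/-- two planes through `u` meet in the line of `u` only -/
theorem FPair.plane_inter {P : Set E} {u : E} (hu1 : ‖u‖ = 1) (hn : -u ∉ FN P)
    {v1 v2 : (ℝ ∙ u)ᗮ} (hli : LinearIndependent ℝ ![v1, v2]) {w : E} (hw : w ∈ PN P)
    (h1 : w ∈ Submodule.span ℝ {u, (v1 : E)}) (h2 : w ∈ Submodule.span ℝ {u, (v2 : E)}) :
    False := by
  have huu : ⟪u, u⟫ = 1 := by rw [real_inner_self_eq_norm_sq, hu1]; norm_num
  have hv1 : ⟪u, (v1 : E)⟫ = 0 := PT57.mem_perp_iff.mp v1.2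
  have hv2 : ⟪u, (v2 : E)⟫ = 0 := PT57.mem_perp_iff.mp v2.2
  obtain ⟨a, b, e1⟩ := Submodule.mem_span_pair.mp h1
  obtain ⟨c, d, e2⟩ := Submodule.mem_span_pair.mp h2
  have i1 : ⟪u, w⟫ = a := by
    rw [← e1, inner_add_right, real_inner_smul_right, real_inner_smul_right, huu, hv1]; ring
  have i2 : ⟪u, w⟫ = c := by
    rw [← e2, inner_add_right, real_inner_smul_right, real_inner_smul_right, huu, hv2]; ring
  have hac : a = c := by rw [← i1, ← i2]
  have h3 : b • v1 + (-d) • v2 = 0 := by
    apply Subtype.ext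
    show b • (v1 : E) + (-d) • (v2 : E) = 0
    have : a • u + b • (v1 : E) = c • u + d • (v2 : E) := by rw [e1, e2]
    rw [hac] at this
    have h4 := add_left_cancel this
    rw [h4, neg_smul, add_neg_cancel]
  have hb : b = 0 := ((LinearIndependent.pair_iff.mp hli) b (-d) h3).1
  rw [hb, zero_smul, add_zero] at e1
  have hw1 : ‖w‖ = 1 := hw.1.1
  have ha : |a| = 1 := by
    rw [← e1, norm_smul, hu1, mul_one, Real.norm_eq_abs] at hw1
    exact hw1
  rcases (abs_eq (by norm_num : (0:ℝ) ≤ 1)).mp ha with h | h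
  · rw [h, one_smul] at e1
    rw [← e1] at hw
    exact hn hw.2
  · rw [h, neg_smul, one_smul] at e1
    rw [← e1] at hw
    exact hn hw.1

theorem FPair.neg_mem {P : Set E} {w : E} (hw : w ∈ PN P) : -w ∈ PN P :=
  ⟨hw.2, by rw [neg_neg]; exact hw.1⟩

theorem pairs_ge {P : Set E} (hP : Polytope P) (hT : Tiles P) :
    2 * Module.finrank ℝ E ≤ (PN P).ncard + 4 := by
  classical
  have hfin : (PN P).Finite := (fn_finite hP).subset (fun w hw => hw.1)
  by_cases hall : ∀ u ∈ FN P, -u ∈ FN P
  · have hEq : PN P = FN P := by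
      ext w; exact ⟨fun h => h.1, fun h => ⟨h, hall w h⟩⟩
    have h0 : (0 : E) ∉ FN P := by
      intro h
      have := h.1
      simp at this
    have := count_symm (fn_finite hP) h0 hall (fn_span hP)
    rw [hEq]
    omega
  · push Not at hall
    obtain ⟨u, hu, hn⟩ := hall
    have hQP : Polytope (hface P u) := hface_polytope hP hu
    have hspan : Submodule.span ℝ (FN (hface P u)) = ⊤ := fn_span hQP
    obtain ⟨f, hf, -, hli⟩ := Submodule.exists_fun_fin_finrank_span_eq ℝ (FN (hface P u))
    have hd := finrank_hyp hu.1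
    have hk : Module.finrank ℝ (Submodule.span ℝ (FN (hface P u))) =
        Module.finrank ℝ (ℝ ∙ u)ᗮ := by rw [hspan, finrank_top]
    have hpair : ∀ i j, i ≠ j → LinearIndependent ℝ ![f i, f j] := by
      intro i j hij
      have hfun : ![f i, f j] = f ∘ ![i, j] := by
        funext a
        fin_cases a <;> rfl
      rw [hfun]
      refine hli.comp ![i, j] ?_
      intro a b hab
      fin_cases a <;> fin_cases b
      · rfl
      · exact absurd hab hij
      · exact absurd hab (Ne.symm hij)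
      · rfl
    set I := Finset.univ.filter
      (fun i => ∃ w ∈ PN P, w ∈ Submodule.span ℝ {u, (f i : E)}) with hI
    have hI1 : (Finset.univ.filter
        (fun i => ¬ ∃ w ∈ PN P, w ∈ Submodule.span ℝ {u, (f i : E)})).card ≤ 1 := by
      rw [Finset.card_le_one]
      intro i hi j hj
      by_contra hij
      have hi' := (Finset.mem_filter.mp hi).2
      have hj' := (Finset.mem_filter.mp hj).2
      rcases at_most_one hP hT hu hn (hf i) (hf j) (fun h => hij (hli.injective h)) (by
        intro h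
        have := (LinearIndependent.pair_iff.mp (hpair i j hij)) 1 1 (by
          rw [one_smul, one_smul, h, neg_add_cancel])
        exact one_ne_zero this.1) with h | h
      · exact hi' h
      · exact hj' h
    have hI2 : I.card + (Finset.univ.filter
        (fun i => ¬ ∃ w ∈ PN P, w ∈ Submodule.span ℝ {u, (f i : E)})).card =
        Module.finrank ℝ (Submodule.span ℝ (FN (hface P u))) := by
      rw [hI, Finset.card_filter_add_card_filter_not, Finset.card_univ, Fintype.card_fin]
    have hex : ∀ i : I, ∃ w ∈ PN P, w ∈ Submodule.span ℝ {u, (f i : E)} := by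
      intro i
      exact (Finset.mem_filter.mp i.2).2
    choose w hw hws using hex
    let g : I × Bool → E := fun p => if p.2 then w p.1 else -w p.1
    have hgP : ∀ p, g p ∈ PN P := by
      rintro ⟨i, b⟩
      cases b
      · exact FPair.neg_mem (hw i)
      · exact hw i
    have hgs : ∀ p : I × Bool, g p ∈ Submodule.span ℝ {u, (f p.1 : E)} := by
      rintro ⟨i, b⟩
      cases b
      · exact Submodule.neg_mem _ (hws i)
      · exact hws i
    have hginj : Function.Injective g := by
      rintro ⟨i, b⟩ ⟨j, c⟩ h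
      have hij : i = j := by
        by_contra hij
        have hij' : i.1 ≠ j.1 := fun h => hij (Subtype.ext h)
        refine FPair.plane_inter hu.1 hn (hpair i j hij') (hgP ⟨i, b⟩) (hgs ⟨i, b⟩) ?_
        rw [h]
        exact hgs ⟨j, c⟩
      subst hij
      have hw0 : w i ≠ -w i := by
        intro h0
        have h2 : (2 : ℝ) • w i = 0 := by
          rw [two_smul]
          nth_rewrite 1 [h0]
          exact neg_add_cancel _
        have h3 := (smul_eq_zero.mp h2).resolve_left two_ne_zero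
        have := (hw i).1.1
        rw [h3, norm_zero] at this
        exact zero_ne_one this
      cases b <;> cases c
      · rfl
      · exact absurd (show w i = -w i from (show -w i = w i from h).symm) hw0
      · exact absurd (show w i = -w i from h) hw0
      · rfl
    have hcard : (Finset.univ.image g).card = 2 * I.card := by
      rw [Finset.card_image_of_injective _ hginj, Finset.card_univ, Fintype.card_prod,
        Fintype.card_bool, Fintype.card_coe, mul_comm]
    have hle : (Finset.univ.image g).card ≤ (PN P).ncard := by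
      rw [← Set.ncard_coe_finset]
      apply Set.ncard_le_ncard _ hfin
      intro x hx
      rw [Finset.coe_image, Finset.coe_univ, image_univ] at hx
      obtain ⟨p, rfl⟩ := hx
      exact hgP p
    omega

end Pool.PT56
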