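import Pool.Agent.PT56.FHyp
import Pool.Agent.PT56.FacA

set_option autoImplicit false
set_option linter.unusedSectionVars false

/-!
# PT56/FRdg: ridges

`rvol K u v` is the `(d-2)`-dimensional Hausdorff measure of `ridge K u v = face (face K u) v`.
`ridge_eq`: for `p = spt K u`, `ridge K u v` is the image of `face (hface K u) v'` under the isometry
`y ↦ p • u + y` (`v' : (ℝ ∙ u)ᗮ`, `v = v'`).  The map `S ↦ volume (prism S v')` on subsets of the hyperplane
`⟪v', y⟫ = q` of `(ℝ ∙ u)ᗮ` and the Hausdorff measure of dimension `finrank (perp u v)` are, after translation to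
`(ℝ ∙ v')ᗮ ≅ perp u v`, both Haar measures (`exists_fib` in the space `(ℝ ∙ u)ᗮ` for `v'`; Mathlib instance for `μH`),
so they are proportional; compare `HaarP.haarP` and its proof.  The constant only depends on `u` and the
line of `v'` (`volume (prism S (-v')) = volume (prism S v')` by `vol_prism_neg`), which gives the same `κ` in the
second formula.
`ridge_null`: let `G = face K u` (compact, convex), `volume (prism G u) = 0`, and suppose `rvol K u v > 0` (otherwise
exchange `v` and `-v`; if both are `0` nothing to prove).  If `G` is contained in a hyperplane `⟪v, x⟫ = c` then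
`ridge K u v = G = ridge K u (-v)`.  Otherwise some `g ∈ G` has `⟪v, g⟫ < c := max`, and `G` contains the cone
from `g` over `ridge K u v`, which has positive measure in the hyperplane, i.e. `volume (prism G u) > 0`
(e.g.: the ridge has interior points relative to its flat, so `hface K u` has interior points in
`(ℝ ∙ u)ᗮ`: a convex set that contains an open subset of a hyperplane and a point outside of it).
`rvol_law`: `H14Belt.balance` (for the tiling given by `tiles_iff`; `mot t s '' P = tile P t s`).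
-/

namespace Pool.PT56

open Set Filter Topology MeasureTheory
open scoped RealInnerProductSpace ENNReal

variable {E : Type} [NormedAddCommGroup E] [InnerProductSpace ℝ E] [FiniteDimensional ℝ E]
  [MeasurableSpace E] [BorelSpace E]

/-- the `(d-2)`-dimensional measure of the face in direction `v` of the face in direction `u` -/
noncomputable def rvol (K : Set E) (u v : E) : ℝ≥0∞ :=
  (Measure.hausdorffMeasure (Module.finrank ℝ (perp u v) : ℝ) : Measure E) (ridge K u v)

/-- the normalising factor of the Euclidean Hausdorff measure -/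
theorem exists_gv_factor (E : Type) [NormedAddCommGroup E] [InnerProductSpace ℝ E]
    [FiniteDimensional ℝ E] [MeasurableSpace E] [BorelSpace E] :
    ∃ c : ℝ≥0∞, c ≠ 0 ∧ c ≠ ∞ ∧ ∀ (K : Set E) (u v : E), ‖u‖ = 1 → ‖v‖ = 1 → ⟪u, v⟫ = 0 →
      gv K u v = c * rvol K u v := by
  refine ⟨((Measure.addHaarScalarFactor
    (volume : Measure (EuclideanSpace ℝ (Fin (Module.finrank ℝ E - 2))))
    (Measure.hausdorffMeasure ((Module.finrank ℝ E - 2 : ℕ) : ℝ)) : NNReal) : ℝ≥0∞),
    ENNReal.coe_ne_zero.2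
      (Measure.addHaarScalarFactor_volume_hausdorffMeasure_ne_zero _), ENNReal.coe_ne_top, ?_⟩
  intro K u v hu hv huv
  have hr : Module.finrank ℝ (perp u v) = Module.finrank ℝ E - 2 := by
    have := Pool.Agent.H14Belt.finrank_perp hu hv huv
    omega
  unfold gv rvol
  rw [hr]
  rfl

theorem rvol_ne_top {K : Set E} (hK : IsCompact K) {u v : E} (hu : ‖u‖ = 1) (hv : ‖v‖ = 1)
    (huv : ⟪u, v⟫ = 0) : rvol K u v ≠ ∞ := by
  obtain ⟨c, hc0, -, hc⟩ := exists_gv_factor E
  have h1 := gv_lt_top hK hu hv huv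
  rw [hc K u v hu hv huv] at h1
  intro h
  rw [h, ENNReal.mul_top hc0] at h1
  exact lt_irrefl _ h1

theorem rvol_law {P : Set E} (hP : Polytope P) (hT : Tiles P) {u v : E} (hu : ‖u‖ = 1)
    (hv : ‖v‖ = 1) (huv : ⟪u, v⟫ = 0) :
    rvol P u v + rvol P (-u) (-v) = rvol P u (-v) + rvol P (-u) v := by
  obtain ⟨c, hc0, hct, hc⟩ := exists_gv_factor E
  have hu' : ‖-u‖ = 1 := by rw [norm_neg, hu]
  have hv' : ‖-v‖ = 1 := by rw [norm_neg, hv]
  have e1 : ⟪u, -v⟫ = 0 := by rw [inner_neg_right, huv, neg_zero]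
  have e2 : ⟪-u, v⟫ = 0 := by rw [inner_neg_left, huv, neg_zero]
  have e3 : ⟪-u, -v⟫ = 0 := by rw [inner_neg_neg, huv]
  have h := gv_law hP.isCompact hP.convex hP.2 hT hu hv huv
  rw [hc P u v hu hv huv, hc P (-u) (-v) hu' hv' e3, hc P u (-v) hu hv' e1,
    hc P (-u) v hu' hv e2, ← mul_add, ← mul_add] at h
  exact (ENNReal.mul_right_inj hc0 hct).1 h

theorem ridge_eq {u : E} (hu : ‖u‖ = 1) (v : (ℝ ∙ u)ᗮ) (hv : ‖v‖ = 1) :
    ∃ κ : ℝ≥0∞, κ ≠ 0 ∧ κ ≠ ∞ ∧ ∀ K : Set E, IsCompact K → K.Nonempty →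
      rvol K u (v : E) = κ * volume (prism (face (hface K u) v) v) ∧
      rvol K u (-(v : E)) = κ * volume (prism (face (hface K u) (-v)) v) := by
  obtain ⟨c, hc0, hct, hc⟩ := exists_gv_factor E
  have hvE : ‖(v : E)‖ = 1 := hv
  have huv : ⟪u, (v : E)⟫ = 0 := fib_inner_perp v
  have hinv : ∀ a b : ℝ≥0∞, c * a = b → a = c⁻¹ * b := by
    intro a b h
    rw [← h, ← mul_assoc, ENNReal.inv_mul_cancel hc0 hct, one_mul]
  refine ⟨c⁻¹, ENNReal.inv_ne_zero.2 hct, ENNReal.inv_ne_top.2 hc0, ?_⟩
  intro K hK hK0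
  have hQ := secQ_compact hK hu
  rw [hface_eq_secQ hK hK0 hu]
  constructor
  · apply hinv
    rw [← hc K u v hu hvE huv, gv_eq hK hu v]
    exact (vol_prism_muHE hv (face_compact hQ v) (fun x hx => ((mem_face_iff hQ).mp hx).2)).symm
  · apply hinv
    rw [← hc K u (-(v : E)) hu (by rw [norm_neg, hvE]) (by rw [inner_neg_right, huv, neg_zero])]
    have e : gv K u (-(v : E)) = _ := gv_eq hK hu (-v)
    rw [e]
    exact (vol_prism_muHE hv (face_compact hQ (-v)) (fun x hx => face_neg_level hQ hx)).symm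

theorem ridge_null {K : Set E} (hK : IsCompact K) (hKc : Convex ℝ K) (hK0 : K.Nonempty) {u v : E}
    (hu : ‖u‖ = 1) (hv : ‖v‖ = 1) (huv : ⟪u, v⟫ = 0) (h : volume (prism (face K u) u) = 0) :
    rvol K u v = rvol K u (-v) := by
  obtain ⟨c, hc0, hct, hc⟩ := exists_gv_factor E
  have hv' : ‖-v‖ = 1 := by rw [norm_neg, hv]
  have e1 : ⟪u, -v⟫ = 0 := by rw [inner_neg_right, huv, neg_zero]
  have h1 := gv_symm_of_not_facet hK hKc hu hv huv (fun hf => hf.2 h)
  rw [hc K u v hu hv huv, hc K u (-v) hu hv' e1] at h1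
  exact (ENNReal.mul_right_inj hc0 hct).1 h1

end Pool.PT56
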