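import Pool.Agent.PT56.FRdg

set_option autoImplicit false
set_option linter.unusedSectionVars false

/-!
# PT56/FSing: a facet without parallel facet is centrally symmetric

`rvol_even`: if `-u ∉ FN P` (`‖u‖ = 1`) then `rvol P (-u) (-v) = rvol P (-u) v` (`ridge_null`), finite, so the law
gives `rvol P u v = rvol P u (-v)`.
`single_csym`: for every unit vector `v : (ℝ ∙ u)ᗮ`, `ridge_eq` turns this into
`volume (prism (face (hface P u) v) v) = volume (prism (face (hface P u) (-v)) v)`: `hface P u` is `Balanced`, and a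
polytope (`hface_polytope`), so `mink`.
-/

namespace Pool.PT56

open Set Filter Topology MeasureTheory
open scoped RealInnerProductSpace ENNReal

variable {E : Type} [NormedAddCommGroup E] [InnerProductSpace ℝ E] [FiniteDimensional ℝ E]
  [MeasurableSpace E] [BorelSpace E]

theorem rvol_even {P : Set E} (hP : Polytope P) (hT : Tiles P) {u v : E} (hu : ‖u‖ = 1)
    (hn : -u ∉ FN P) (hv : ‖v‖ = 1) (huv : ⟪u, v⟫ = 0) : rvol P u v = rvol P u (-v) := by
  have hc : IsCompact P := hP.isCompact
  have h0 : P.Nonempty := hP.2.mono interior_subset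
  have hu' : ‖-u‖ = 1 := by rw [norm_neg, hu]
  have huv' : ⟪-u, v⟫ = 0 := by rw [inner_neg_left, huv, neg_zero]
  have hz : volume (prism (face P (-u)) (-u)) = 0 := by
    by_contra h
    exact hn ⟨hu', h⟩
  have h1 := ridge_null hc hP.convex h0 hu' hv huv' hz
  have h2 := rvol_law hP hT hu hv huv
  have h3 := rvol_ne_top hc hu' hv huv'
  rw [← h1] at h2
  exact (ENNReal.add_left_inj h3).1 h2

theorem single_csym {P : Set E} (hP : Polytope P) (hT : Tiles P) {u : E} (hu : u ∈ FN P)
    (hn : -u ∉ FN P) : CSym (hface P u) := by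
  have hc : IsCompact P := hP.isCompact
  have h0 : P.Nonempty := hP.2.mono interior_subset
  refine mink (hface_polytope hP hu) ?_
  intro v hv
  obtain ⟨κ, hκ0, hκ, h⟩ := ridge_eq hu.1 v hv
  obtain ⟨h1, h2⟩ := h P hc h0
  have huv : ⟪u, (v : E)⟫ = 0 := Submodule.mem_orthogonal_singleton_iff_inner_right.1 v.2
  have hv' : ‖(v : E)‖ = 1 := hv
  have h3 := rvol_even hP hT hu.1 hn hv' huv
  rw [h1, h2] at h3
  exact (ENNReal.mul_right_inj hκ0 hκ).1 h3

end Pool.PT56
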