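import Pool.Agent.PT56.Base

set_option autoImplicit false
set_option linter.unusedSectionVars false

/-!
# PT56/Fib: slicing orthogonally to a unit vector

`splitE u : ℝ × (ℝ ∙ u)ᗮ ≃L[ℝ] E`, `(s, y) ↦ s • u + y`.  If `ν` is a Haar measure on `(ℝ ∙ u)ᗮ` then the image of
`volume.prod ν` is a Haar measure on `E`, so `volume` is a constant multiple `c` of it
(`isAddHaarMeasure_eq_smul`, `c ≠ 0, ∞`); take `μ = c • ν`.
`vol_prism`: the preimage of `prism F u` is `[p, p+1] × {y | p • u + y ∈ F}`.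
-/

namespace Pool.PT56

open Set Filter Topology MeasureTheory
open scoped RealInnerProductSpace ENNReal

variable {E : Type} [NormedAddCommGroup E] [InnerProductSpace ℝ E] [FiniteDimensional ℝ E]
  [MeasurableSpace E] [BorelSpace E]

theorem fib_inner_perp {u : E} (y : (ℝ ∙ u)ᗮ) : ⟪u, (y : E)⟫ = 0 :=
  (Submodule.mem_orthogonal _ _).1 y.2 u (Submodule.mem_span_singleton_self u)

theorem fib_inner_self {u : E} (hu : ‖u‖ = 1) : ⟪u, u⟫ = (1 : ℝ) := by
  rw [real_inner_self_eq_norm_sq, hu]; norm_num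

theorem exists_split {u : E} (hu : ‖u‖ = 1) : ∃ e : (ℝ × (ℝ ∙ u)ᗮ) ≃L[ℝ] E,
    ∀ p, e p = p.1 • u + (p.2 : E) := by
  have huu := fib_inner_self hu
  let f : (ℝ × (ℝ ∙ u)ᗮ) →ₗ[ℝ] E :=
    LinearMap.coprod (LinearMap.toSpanSingleton ℝ E u) (Submodule.subtype (ℝ ∙ u)ᗮ)
  have hf : ∀ p, f p = p.1 • u + (p.2 : E) := fun p => by simp [f]
  have hinj : Function.Injective f := by
    rw [← LinearMap.ker_eq_bot, LinearMap.ker_eq_bot']
    rintro ⟨s, y⟩ h
    rw [hf] at h
    simp only at h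
    have h1 : ⟪u, s • u + (y : E)⟫ = (0 : ℝ) := by rw [h, inner_zero_right]
    rw [inner_add_right, real_inner_smul_right, huu, fib_inner_perp, mul_one, add_zero] at h1
    subst h1
    rw [zero_smul, zero_add] at h
    have h2 : y = 0 := Subtype.ext h
    rw [h2]
    rfl
  have hsur : Function.Surjective f := by
    intro x
    refine ⟨(⟪u, x⟫, ⟨x - ⟪u, x⟫ • u, ?_⟩), ?_⟩
    · rw [Submodule.mem_orthogonal_singleton_iff_inner_right, inner_sub_right,
        real_inner_smul_right, huu, mul_one, sub_self]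
    · rw [hf]
      simp
  refine ⟨(LinearEquiv.ofBijective f ⟨hinj, hsur⟩).toContinuousLinearEquiv, ?_⟩
  intro p
  exact hf p

theorem exists_fib {u : E} (hu : ‖u‖ = 1) : ∃ μ : Measure (ℝ ∙ u)ᗮ, μ.IsAddHaarMeasure ∧
    (∀ S : Set E, volume S =
      ((volume : Measure ℝ).prod μ) {p : ℝ × (ℝ ∙ u)ᗮ | p.1 • u + (p.2 : E) ∈ S}) ∧
    ∀ (p : ℝ) (F : Set E), (∀ x ∈ F, ⟪u, x⟫ = p) →
      volume (prism F u) = μ {y : (ℝ ∙ u)ᗮ | p • u + (y : E) ∈ F} := by
  have huu := fib_inner_self hu
  obtain ⟨e, he⟩ := exists_split hu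
  let ν : Measure (ℝ ∙ u)ᗮ := Measure.addHaar
  have hpr : ((volume : Measure ℝ).prod ν).IsAddHaarMeasure := inferInstance
  have hmap : (Measure.map e ((volume : Measure ℝ).prod ν)).IsAddHaarMeasure :=
    e.isAddHaarMeasure_map _
  obtain ⟨c, hc0, hct, hc⟩ : ∃ c : ℝ≥0∞, c ≠ 0 ∧ c ≠ ∞ ∧
      (volume : Measure E) = c • Measure.map e ((volume : Measure ℝ).prod ν) := by
    refine ⟨(Measure.addHaarScalarFactor (volume : Measure E)
      (Measure.map e ((volume : Measure ℝ).prod ν)) : NNReal), ?_, ENNReal.coe_ne_top, ?_⟩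
    · have h := Measure.addHaarScalarFactor_pos_of_isAddHaarMeasure (volume : Measure E)
        (Measure.map e ((volume : Measure ℝ).prod ν))
      exact_mod_cast h.ne'
    · exact Measure.isAddLeftInvariant_eq_smul (volume : Measure E)
        (Measure.map e ((volume : Measure ℝ).prod ν))
  have hμ : (c • ν).IsAddHaarMeasure := Measure.IsAddHaarMeasure.smul ν hc0 hct
  have hS : ∀ S : Set E, volume S =
      ((volume : Measure ℝ).prod (c • ν)) {p : ℝ × (ℝ ∙ u)ᗮ | p.1 • u + (p.2 : E) ∈ S} := by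
    intro S
    have h1 : (Measure.map e ((volume : Measure ℝ).prod ν)) S =
        ((volume : Measure ℝ).prod ν) (e ⁻¹' S) :=
      e.toHomeomorph.toMeasurableEquiv.map_apply S
    have h2 : (e ⁻¹' S) = {p : ℝ × (ℝ ∙ u)ᗮ | p.1 • u + (p.2 : E) ∈ S} := by
      ext p
      rw [Set.mem_preimage, he, Set.mem_ofPred_eq]
    rw [hc, Measure.smul_apply, h1, h2, Measure.prod_smul_right, Measure.smul_apply]
  refine ⟨c • ν, hμ, hS, ?_⟩
  intro p F hF
  rw [hS]
  have hset : {q : ℝ × (ℝ ∙ u)ᗮ | q.1 • u + (q.2 : E) ∈ prism F u} =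
      Icc p (p + 1) ×ˢ {y : (ℝ ∙ u)ᗮ | p • u + (y : E) ∈ F} := by
    ext ⟨t, y⟩
    rw [Set.mem_prod]
    simp only [Set.mem_setOf_eq, prism, Set.mem_Icc]
    constructor
    · rintro ⟨z, hz, s, hs0, hs1, h⟩
      have h1 := congrArg (fun x => ⟪u, x⟫) h
      simp only [inner_add_right, real_inner_smul_right, huu, fib_inner_perp, mul_one, add_zero,
        hF z hz] at h1
      refine ⟨⟨by linarith, by linarith⟩, ?_⟩
      have h2 : z = p • u + (y : E) := by
        have : z = (t • u + (y : E)) - s • u := by rw [h]; abel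
        rw [this, h1, add_smul]
        abel
      rw [← h2]
      exact hz
    · rintro ⟨⟨h1, h2⟩, h3⟩
      refine ⟨_, h3, t - p, by linarith, by linarith, ?_⟩
      rw [sub_smul]
      abel
  rw [hset, Measure.prod_prod, Real.volume_Icc]
  simp

/-- the prism in direction `-u` is a translate of the prism in direction `u` -/
theorem vol_prism_neg (F : Set E) (u : E) : volume (prism F (-u)) = volume (prism F u) := by
  have h : prism F (-u) = (fun x => x + u) ⁻¹' (prism F u) := by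
    ext x
    simp only [prism, Set.mem_setOf_eq, Set.mem_preimage]
    constructor
    · rintro ⟨y, hy, s, hs0, hs1, rfl⟩
      refine ⟨y, hy, 1 - s, by linarith, by linarith, ?_⟩
      rw [sub_smul, one_smul, smul_neg]
      abel
    · rintro ⟨y, hy, s, hs0, hs1, h⟩
      refine ⟨y, hy, 1 - s, by linarith, by linarith, ?_⟩
      have : x = y + s • u - u := by rw [← h]; abel
      rw [this, smul_neg, sub_smul, one_smul]
      abel
  rw [h, measure_preimage_add_right]

end Pool.PT56
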