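import Pool.Agent.PT56.Base

set_option autoImplicit false
set_option linter.unusedSectionVars false

/-!
# PT56/Sect: sections of a tiling of a product

`sect`: take a tiling `t i + s i P`, `P = {x | π x ∈ K, x ∈ L}` (`tiles_iff`).  `P` has interior points: for
`l ∈ interior L`, `u ∈ interior K` the point `l + j (u - π l)` is in `interior L` (`interior L` is invariant under
`j U`, translation is a homeomorphism) and `π` maps it to `u`.  The tiles have disjoint nonempty interiors, so the
index set is countable (separable space).  The frontiers of the sets `t i + s i L` are closed with empty interior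
(closed sets), so by Baire some `y0` is in none of them.  `I = {i | s i • (y0 - t i) ∈ L}`.  For `w : U` the
point `x w = y0 + j (w - π y0)` satisfies `π (x w) = w` and
`s i • (x w - t i) ∈ L ↔ s i • (y0 - t i) ∈ L` (`hLj`), so `x w ∈ tile i ↔ i ∈ I ∧ s i • (w - π (t i)) ∈ K`.
The family `π (t i) + s i K`, `i ∈ I`, is a tiling: covering clear; if `w` is in the interior of two of them,
`x w` is in the interior of both tiles (`mem_interior_tile`; `s i • (y0 - t i) ∈ interior L` because it is in `L`
and not in the frontier).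
`sect_one`: `U = E i`, `π` = projection, `j` = `single i`, `L = {x | ∀ k ≠ i, x k ∈ P k}`.
`sect_two`: `U = E i × E k`, `K = P i ×ˢ P k`, `L = {x | ∀ l, l ≠ i → l ≠ k → x l ∈ P l}`.
-/

namespace Pool.PT56

open Set Filter Topology MeasureTheory

theorem sect {V U : Type} [NormedAddCommGroup V] [NormedSpace ℝ V] [FiniteDimensional ℝ V]
    [NormedAddCommGroup U] [NormedSpace ℝ U] [FiniteDimensional ℝ U] (π : V →L[ℝ] U)
    (j : U →L[ℝ] V) (hπ : ∀ u, π (j u) = u) {K : Set U} {L : Set V} (hK : IsClosed K)
    (hKc : Convex ℝ K) (hKi : (interior K).Nonempty) (hL : IsClosed L) (hLc : Convex ℝ L)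
    (hLi : (interior L).Nonempty) (hLj : ∀ x ∈ L, ∀ u, x + j u ∈ L)
    (hT : Tiles {x | π x ∈ K ∧ x ∈ L}) : Tiles K := by
  obtain ⟨ι, t, s, h⟩ := tiles_iff.1 hT
  set P : Set V := {x | π x ∈ K ∧ x ∈ L} with hPdef
  -- the interior of `L` is invariant
  have hintL : ∀ x ∈ interior L, ∀ u, x + j u ∈ interior L := by
    intro x hx u
    have h1 : IsOpen ((fun y => y + j u) '' interior L) :=
      (Homeomorph.addRight (j u)).isOpenMap _ isOpen_interior
    have h2 : (fun y => y + j u) '' interior L ⊆ L := by
      rintro _ ⟨y, hy, rfl⟩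
      exact hLj y (interior_subset hy) u
    exact interior_maximal h2 h1 ⟨x, hx, rfl⟩
  have hintP : ∀ x, π x ∈ interior K → x ∈ interior L → x ∈ interior P := by
    intro x h1 h2
    have ho : IsOpen (π ⁻¹' interior K ∩ interior L) :=
      (isOpen_interior.preimage π.continuous).inter isOpen_interior
    have hs : π ⁻¹' interior K ∩ interior L ⊆ P := fun y hy =>
      ⟨interior_subset (show π y ∈ interior K from hy.1), interior_subset hy.2⟩
    exact interior_maximal hs ho ⟨h1, h2⟩
  obtain ⟨l, hl⟩ := hLi
  obtain ⟨u, hu⟩ := hKi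
  have hp : l + j (u - π l) ∈ interior P := by
    refine hintP _ ?_ (hintL l hl _)
    rw [map_add, hπ]
    simpa using hu
  -- countability
  have hcount : Countable ι := by
    have h1 : (univ : Set ι).PairwiseDisjoint (fun i => interior (tile P (t i) (s i))) := by
      intro i _ k _ hik
      exact h.dis i k hik
    have h2 := h1.countable_of_isOpen (fun i _ => isOpen_interior) (fun i _ => by
      refine ⟨t i + s i • (l + j (u - π l)), ?_⟩
      rw [mem_interior_tile (h.sgn i)]
      have hss : s i * s i = 1 := by rcases h.sgn i with hs | hs <;> rw [hs] <;> norm_num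
      rw [add_sub_cancel_left, smul_smul, hss, one_smul]
      exact hp)
    exact Set.countable_univ_iff.1 h2
  -- Baire
  obtain ⟨y0, hy0⟩ : ∃ y0 : V, ∀ i, s i • (y0 - t i) ∉ frontier L := by
    by_contra hcon
    push Not at hcon
    have hs0 : ∀ i, s i ≠ 0 := by
      intro i
      rcases h.sgn i with hs | hs <;> rw [hs] <;> norm_num
    let e : ι → V ≃ₜ V := fun i =>
      (Homeomorph.subRight (t i)).trans (Homeomorph.smulOfNeZero (s i) (hs0 i))
    have he : ∀ i y, e i y = s i • (y - t i) := fun i y => rfl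
    have hU : ⋃ i, (e i) ⁻¹' frontier L = univ := by
      apply Set.eq_univ_of_forall
      intro y
      obtain ⟨i, hi⟩ := hcon y
      exact Set.mem_iUnion.2 ⟨i, by rw [Set.mem_preimage, he]; exact hi⟩
    obtain ⟨i, hi⟩ := nonempty_interior_of_iUnion_of_closed
      (fun i => isClosed_frontier.preimage (e i).continuous) hU
    rw [← (e i).preimage_interior, interior_frontier hL] at hi
    simp at hi
  -- the tiling of the section
  refine tiles_iff.2 ⟨{i : ι // s i • (y0 - t i) ∈ L}, fun i => π (t i.1), fun i => s i.1, ?_⟩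
  have hx1 : ∀ (w : U) (i : ι), π (s i • (y0 + j (w - π y0) - t i)) = s i • (w - π (t i)) := by
    intro w i
    rw [map_smul, map_sub, map_add, hπ]
    congr 1
    abel
  have hx2 : ∀ (w : U) (i : ι), s i • (y0 + j (w - π y0) - t i) =
      s i • (y0 - t i) + j (s i • (w - π y0)) := by
    intro w i
    rw [map_smul, ← smul_add]
    congr 1
    abel
  constructor
  · exact fun i => h.sgn i.1
  · intro w
    obtain ⟨i, hi⟩ := h.cov (y0 + j (w - π y0))
    rw [mem_tile (h.sgn i)] at hi
    have h1 : s i • (w - π (t i)) ∈ K := by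
      rw [← hx1]
      exact hi.1
    have h2 : s i • (y0 - t i) ∈ L := by
      have h3 := hLj _ hi.2 (-(s i • (w - π y0)))
      rw [hx2, map_neg, add_neg_cancel_right] at h3
      exact h3
    exact ⟨⟨i, h2⟩, (mem_tile (h.sgn i)).2 h1⟩
  · rintro ⟨i, hi⟩ ⟨k, hk⟩ hik
    have hik' : i ≠ k := fun e => hik (Subtype.ext e)
    rw [Set.disjoint_left]
    intro w hwi hwk
    rw [mem_interior_tile (h.sgn i)] at hwi
    rw [mem_interior_tile (h.sgn k)] at hwk
    have key : ∀ m : ι, s m • (y0 - t m) ∈ L → s m • (w - π (t m)) ∈ interior K →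
        y0 + j (w - π y0) ∈ interior (tile P (t m) (s m)) := by
      intro m hm hw
      rw [mem_interior_tile (h.sgn m)]
      refine hintP _ ?_ ?_
      · rw [hx1]; exact hw
      · rw [hx2]
        refine hintL _ ?_ _
        have : s m • (y0 - t m) ∈ L \ frontier L := ⟨hm, hy0 m⟩
        rwa [self_sdiff_frontier] at this
    exact Set.disjoint_left.1 (h.dis i k hik') (key i hi hwi) (key k hk hwk)

section

variable {r : ℕ} {E : Fin r → Type} [∀ i, NormedAddCommGroup (E i)] [∀ i, NormedSpace ℝ (E i)]
  [∀ i, FiniteDimensional ℝ (E i)] {P : ∀ i, Set (E i)}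

/-- the cylinder over the factors outside `A` -/
def cyl (P : ∀ i, Set (E i)) (A : Set (Fin r)) : Set (∀ i, E i) := {x | ∀ l, l ∉ A → x l ∈ P l}

theorem cyl_closed (hP : ∀ i, IsClosed (P i)) (A : Set (Fin r)) : IsClosed (cyl P A) := by
  have : cyl P A = ⋂ (l : Fin r) (_ : l ∉ A), (fun x : ∀ i, E i => x l) ⁻¹' P l := by
    ext x
    simp [cyl]
  rw [this]
  exact isClosed_iInter fun l => isClosed_iInter fun _ => (hP l).preimage (continuous_apply l)

theorem cyl_convex (hPc : ∀ i, Convex ℝ (P i)) (A : Set (Fin r)) : Convex ℝ (cyl P A) := by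
  intro x hx y hy a b ha hb hab l hl
  exact hPc l (hx l hl) (hy l hl) ha hb hab

theorem cyl_interior (hPi : ∀ i, (interior (P i)).Nonempty) (A : Set (Fin r)) :
    (interior (cyl P A)).Nonempty := by
  choose p hp using hPi
  have h1 : IsOpen (univ.pi fun l => interior (P l)) :=
    isOpen_set_pi Set.finite_univ (fun l _ => isOpen_interior)
  have h2 : (univ.pi fun l => interior (P l)) ⊆ cyl P A := fun x hx l _ =>
    interior_subset (hx l (mem_univ l))
  exact ⟨p, interior_maximal h2 h1 (fun l _ => hp l)⟩

theorem sect_one (hP : ∀ i, IsClosed (P i)) (hPc : ∀ i, Convex ℝ (P i))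
    (hPi : ∀ i, (interior (P i)).Nonempty) (hT : Tiles (univ.pi P)) (i : Fin r) :
    Tiles (P i) := by
  classical
  refine sect (V := ∀ i, E i) (U := E i) (ContinuousLinearMap.proj i)
    (LinearMap.toContinuousLinearMap (LinearMap.single ℝ E i)) ?_ (hP i) (hPc i) (hPi i)
    (cyl_closed hP {i}) (cyl_convex hPc {i}) (cyl_interior hPi {i}) ?_ ?_
  · intro u
    simp
  · intro x hx u l hl
    have hl' : l ≠ i := by simpa using hl
    have : (x + (LinearMap.toContinuousLinearMap (LinearMap.single ℝ E i)) u) l = x l := by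
      simp [Pi.single_eq_of_ne hl']
    rw [this]
    exact hx l hl
  · have he : {x : ∀ i, E i | (ContinuousLinearMap.proj (R := ℝ) (φ := E) i) x ∈ P i ∧
        x ∈ cyl P {i}} = univ.pi P := by
      ext x
      constructor
      · rintro ⟨h1, h2⟩ l _
        by_cases hl : l = i
        · subst hl; exact h1
        · exact h2 l (by simpa using hl)
      · intro h
        exact ⟨h i (mem_univ i), fun l _ => h l (mem_univ l)⟩
    rw [he]
    exact hT

theorem sect_two (hP : ∀ i, IsClosed (P i)) (hPc : ∀ i, Convex ℝ (P i))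
    (hPi : ∀ i, (interior (P i)).Nonempty) (hT : Tiles (univ.pi P)) {i k : Fin r} (hik : i ≠ k) :
    Tiles (P i ×ˢ P k) := by
  classical
  have hj : ∀ (a : E i) (b : E k) (l : Fin r),
      ((LinearMap.toContinuousLinearMap ((LinearMap.single ℝ E i).coprod
        (LinearMap.single ℝ E k))) (a, b)) l = (Pi.single i a : ∀ i, E i) l +
          (Pi.single k b : ∀ i, E i) l := by
    intro a b l
    simp
  refine sect (V := ∀ i, E i) (U := E i × E k)
    ((ContinuousLinearMap.proj i).prod (ContinuousLinearMap.proj k))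
    (LinearMap.toContinuousLinearMap ((LinearMap.single ℝ E i).coprod (LinearMap.single ℝ E k)))
    ?_ ((hP i).prod (hP k)) ((hPc i).prod (hPc k)) ?_
    (cyl_closed hP {i, k}) (cyl_convex hPc {i, k}) (cyl_interior hPi {i, k}) ?_ ?_
  · rintro ⟨a, b⟩
    refine Prod.ext ?_ ?_
    · change ((LinearMap.toContinuousLinearMap ((LinearMap.single ℝ E i).coprod
        (LinearMap.single ℝ E k))) (a, b)) i = a
      rw [hj, Pi.single_eq_same, Pi.single_eq_of_ne hik, add_zero]
    · change ((LinearMap.toContinuousLinearMap ((LinearMap.single ℝ E i).coprod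
        (LinearMap.single ℝ E k))) (a, b)) k = b
      rw [hj, Pi.single_eq_same, Pi.single_eq_of_ne hik.symm, zero_add]
  · rw [interior_prod_eq]
    exact (hPi i).prod (hPi k)
  · rintro x hx ⟨a, b⟩ l hl
    have hl' : l ≠ i ∧ l ≠ k := by simpa [not_or] using hl
    have : (x + (LinearMap.toContinuousLinearMap ((LinearMap.single ℝ E i).coprod
        (LinearMap.single ℝ E k))) (a, b)) l = x l := by
      rw [Pi.add_apply, hj, Pi.single_eq_of_ne hl'.1, Pi.single_eq_of_ne hl'.2, add_zero, add_zero]
    rw [this]
    exact hx l hl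
  · have he : {x : ∀ i, E i | ((ContinuousLinearMap.proj (R := ℝ) (φ := E) i).prod
        (ContinuousLinearMap.proj k)) x ∈ P i ×ˢ P k ∧ x ∈ cyl P {i, k}} = univ.pi P := by
      ext x
      constructor
      · rintro ⟨⟨h1, h1'⟩, h2⟩ l _
        by_cases hl : l = i
        · subst hl; exact h1
        · by_cases hl2 : l = k
          · subst hl2; exact h1'
          · exact h2 l (by simp [hl, hl2])
      · intro h
        exact ⟨⟨h i (mem_univ i), h k (mem_univ k)⟩, fun l _ => h l (mem_univ l)⟩
    rw [he]
    exact hT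

end

end Pool.PT56
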