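import Pool.Agent.PT56.Mink
import Pool.Agent.PT56.BalG
import Pool.Agent.PT56.Sect
import Pool.Agent.PT56.ProdS

set_option autoImplicit false
set_option linter.unusedSectionVars false

/-!
# PT56/Final: the theorem
-/

namespace Pool.PT56

open Set Filter Topology MeasureTheory

theorem Polytope.isCompact {V : Type} [NormedAddCommGroup V] [NormedSpace ℝ V]
    [FiniteDimensional ℝ V] {P : Set V} (hP : Polytope P) : IsCompact P := by
  obtain ⟨⟨S, hS, rfl⟩, -⟩ := hP
  exact hS.isCompact_convexHull (𝕜 := ℝ)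

theorem Polytope.convex {V : Type} [NormedAddCommGroup V] [NormedSpace ℝ V]
    {P : Set V} (hP : Polytope P) : Convex ℝ P := by
  obtain ⟨⟨S, hS, rfl⟩, -⟩ := hP
  exact convex_convexHull ℝ S

theorem main {r : ℕ} (d : Fin r → ℕ) (P : ∀ i, Set (EuclideanSpace ℝ (Fin (d i))))
    (hP : ∀ i, Polytope (P i)) : Tiles (univ.pi P) ↔
      (∀ i, Tiles (P i)) ∧ ∀ i j, ¬ CSym (P i) → ¬ CSym (P j) → i = j := by
  constructor
  · intro h
    have hcl : ∀ i, IsClosed (P i) := fun i => (hP i).isCompact.isClosed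
    have hcv : ∀ i, Convex ℝ (P i) := fun i => (hP i).convex
    have hin : ∀ i, (interior (P i)).Nonempty := fun i => (hP i).2
    refine ⟨fun i => sect_one hcl hcv hin h i, fun i j hi hj => ?_⟩
    by_contra hij
    rcases balG (hP i).isCompact (hcv i) (hin i) (hP j).isCompact (hcv j) (hin j)
      (sect_two hcl hcv hin h hij) with hb | hb
    · exact hi (mink (hP i) hb)
    · exact hj (mink (hP j) hb)
  · rintro ⟨h1, h2⟩
    exact tiles_pi h1 h2

end Pool.PT56
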