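import Pool.Agent.PT56.Fib

set_option autoImplicit false
set_option linter.unusedSectionVars false

/-!
# PT56/HaarP: Hausdorff measure of a product of two faces

`W = WithLp 2 (E₁ × E₂)`, `emb₁ u = toLp 2 (u, 0)`, `emb₂ v = toLp 2 (0, v)`, `M = perp (emb₁ u) (emb₂ v)`
(Base: `perp u v = (span {u, v})ᗮ`, `mem_perp`).  `M` is linearly isomorphic to
`(ℝ ∙ u)ᗮ × (ℝ ∙ v)ᗮ`, `(x, y) ↦ toLp 2 (x, y)`.  The Hausdorff measure of dimension `finrank M` on `M` is a Haar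
measure (Mathlib: instance for `μH[finrank ℝ E]`), so it is `κ` times the image of `μ₁.prod μ₂`, with `μ₁`, `μ₂`
from `exists_fib`.  The inclusion `M → W` and translations are isometries: for `F`, `G` in the hyperplanes
`⟪u, x⟫ = p`, `⟪v, y⟫ = q`, the set `{z | z.1 ∈ F, z.2 ∈ G}` is the image of
`{m : M | toLp (p • u, q • v) + m ∈ …}` under the isometry `m ↦ toLp (p • u, q • v) + m`
(`Isometry.hausdorffMeasure_image`).  It has measure `κ μ₁ F' μ₂ G'`, `F' = {y | p • u + y ∈ F}`, `G'` similarly;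
use the last part of `exists_fib`.
-/

namespace Pool.PT56

open Set Filter Topology MeasureTheory
open scoped RealInnerProductSpace ENNReal

variable {E₁ E₂ : Type} [NormedAddCommGroup E₁] [InnerProductSpace ℝ E₁] [FiniteDimensional ℝ E₁]
  [MeasurableSpace E₁] [BorelSpace E₁] [NormedAddCommGroup E₂] [InnerProductSpace ℝ E₂]
  [FiniteDimensional ℝ E₂] [MeasurableSpace E₂] [BorelSpace E₂]

/-- `u` as a vector of the product -/
def emb₁ (u : E₁) : WithLp 2 (E₁ × E₂) := WithLp.toLp 2 (u, 0)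

/-- `v` as a vector of the product -/
def emb₂ (v : E₂) : WithLp 2 (E₁ × E₂) := WithLp.toLp 2 (0, v)

/-- the product of two sets in the Euclidean product -/
def eprod (A : Set E₁) (B : Set E₂) : Set (WithLp 2 (E₁ × E₂)) :=
  {z | (WithLp.ofLp z).1 ∈ A ∧ (WithLp.ofLp z).2 ∈ B}

omit [FiniteDimensional ℝ E₁] [MeasurableSpace E₁] [BorelSpace E₁] [FiniteDimensional ℝ E₂]
  [MeasurableSpace E₂] [BorelSpace E₂] in
theorem mem_perp_emb {u : E₁} {v : E₂} {z : WithLp 2 (E₁ × E₂)} :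
    z ∈ perp (emb₁ u : WithLp 2 (E₁ × E₂)) (emb₂ v : WithLp 2 (E₁ × E₂)) ↔
      ⟪u, (WithLp.ofLp z).1⟫ = 0 ∧ ⟪v, (WithLp.ofLp z).2⟫ = 0 := by
  rw [mem_perp]
  simp [emb₁, emb₂, WithLp.prod_inner_apply]

/-- the product of the two hyperplanes is the orthogonal complement -/
noncomputable def perpEquiv (u : E₁) (v : E₂) :
    ((ℝ ∙ u)ᗮ × (ℝ ∙ v)ᗮ) ≃ₗ[ℝ]
      (perp (emb₁ u : WithLp 2 (E₁ × E₂)) (emb₂ v : WithLp 2 (E₁ × E₂))) where
  toFun x := ⟨WithLp.toLp 2 ((x.1 : E₁), (x.2 : E₂)), by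
    rw [mem_perp_emb]
    exact ⟨Submodule.mem_orthogonal_singleton_iff_inner_right.1 x.1.2,
      Submodule.mem_orthogonal_singleton_iff_inner_right.1 x.2.2⟩⟩
  invFun z := (⟨(WithLp.ofLp (z : WithLp 2 (E₁ × E₂))).1,
      Submodule.mem_orthogonal_singleton_iff_inner_right.2 (mem_perp_emb.1 z.2).1⟩,
    ⟨(WithLp.ofLp (z : WithLp 2 (E₁ × E₂))).2,
      Submodule.mem_orthogonal_singleton_iff_inner_right.2 (mem_perp_emb.1 z.2).2⟩)
  map_add' x y := by
    apply Subtype.ext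
    rfl
  map_smul' c x := by
    apply Subtype.ext
    rfl
  left_inv x := by
    rfl
  right_inv z := by
    rfl

theorem haarP {u : E₁} {v : E₂} (hu : ‖u‖ = 1) (hv : ‖v‖ = 1) :
    ∃ κ : ℝ≥0∞, κ ≠ 0 ∧ κ ≠ ∞ ∧ ∀ (p q : ℝ) (F : Set E₁) (G : Set E₂), IsCompact F → IsCompact G →
      (∀ x ∈ F, ⟪u, x⟫ = p) → (∀ y ∈ G, ⟪v, y⟫ = q) →
      (Measure.hausdorffMeasure (Module.finrank ℝ
        (perp (emb₁ u : WithLp 2 (E₁ × E₂)) (emb₂ v : WithLp 2 (E₁ × E₂))) : ℝ) :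
        Measure (WithLp 2 (E₁ × E₂))) (eprod F G) =
        κ * (volume (prism F u) * volume (prism G v)) := by
  obtain ⟨μ₁, hμ₁, -, h₁⟩ := exists_fib hu
  obtain ⟨μ₂, hμ₂, -, h₂⟩ := exists_fib hv
  set M := perp (emb₁ u : WithLp 2 (E₁ × E₂)) (emb₂ v : WithLp 2 (E₁ × E₂)) with hM
  set d : ℝ := (Module.finrank ℝ M : ℝ) with hd
  let e : ((ℝ ∙ u)ᗮ × (ℝ ∙ v)ᗮ) ≃L[ℝ] M := (perpEquiv u v).toContinuousLinearEquiv
  have he : ∀ x, ((e x : M) : WithLp 2 (E₁ × E₂)) = WithLp.toLp 2 ((x.1 : E₁), (x.2 : E₂)) :=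
    fun x => rfl
  have hprod : (μ₁.prod μ₂).IsAddHaarMeasure := inferInstance
  have hmap : ((μ₁.prod μ₂).map e).IsAddHaarMeasure := e.isAddHaarMeasure_map (μ₁.prod μ₂)
  have hH : (Measure.hausdorffMeasure d : Measure M).IsAddHaarMeasure := by
    rw [hd]; infer_instance
  have hκ := Measure.isAddLeftInvariant_eq_smul
    (Measure.hausdorffMeasure d : Measure M) ((μ₁.prod μ₂).map e)
  have hκ0 := Measure.addHaarScalarFactor_pos_of_isAddHaarMeasure
    (Measure.hausdorffMeasure d : Measure M) ((μ₁.prod μ₂).map e)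
  set κ := Measure.addHaarScalarFactor
    (Measure.hausdorffMeasure d : Measure M) ((μ₁.prod μ₂).map e) with hκd
  refine ⟨κ, ?_, ENNReal.coe_ne_top, ?_⟩
  · exact ENNReal.coe_ne_zero.2 hκ0.ne'
  intro p q F G hF hG hFp hGq
  have huu : ⟪u, u⟫ = 1 := by rw [real_inner_self_eq_norm_sq, hu]; norm_num
  have hvv : ⟪v, v⟫ = 1 := by rw [real_inner_self_eq_norm_sq, hv]; norm_num
  let a : WithLp 2 (E₁ × E₂) := WithLp.toLp 2 (p • u, q • v)
  have hiso : Isometry (fun m : M => a + (m : WithLp 2 (E₁ × E₂))) :=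
    (isometry_add_left a).comp isometry_subtype_coe
  have himg : eprod F G = (fun m : M => a + (m : WithLp 2 (E₁ × E₂))) ''
      {m : M | a + (m : WithLp 2 (E₁ × E₂)) ∈ eprod F G} := by
    ext z
    constructor
    · intro hz
      have hm : z - a ∈ M := by
        rw [hM, mem_perp_emb]
        have e1 := hFp _ hz.1
        have e2 := hGq _ hz.2
        constructor
        · change ⟪u, (WithLp.ofLp z).1 - p • u⟫ = 0
          rw [inner_sub_right, inner_smul_right, huu, e1]; ring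
        · change ⟪v, (WithLp.ofLp z).2 - q • v⟫ = 0
          rw [inner_sub_right, inner_smul_right, hvv, e2]; ring
      refine ⟨⟨z - a, hm⟩, ?_, ?_⟩
      · simpa using hz
      · simp
    · rintro ⟨m, hm, rfl⟩
      exact hm
  have hd0 : 0 ≤ d := by rw [hd]; positivity
  rw [himg, hiso.hausdorffMeasure_image (Or.inl hd0), hκ]
  rw [Measure.smul_apply, ENNReal.smul_def, smul_eq_mul]
  congr 1
  have e1 : (μ₁.prod μ₂).map e {m : M | a + (m : WithLp 2 (E₁ × E₂)) ∈ eprod F G} =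
      (μ₁.prod μ₂) (e ⁻¹' {m : M | a + (m : WithLp 2 (E₁ × E₂)) ∈ eprod F G}) :=
    e.toHomeomorph.toMeasurableEquiv.map_apply _
  rw [e1]
  have e2 : e ⁻¹' {m : M | a + (m : WithLp 2 (E₁ × E₂)) ∈ eprod F G} =
      {y : (ℝ ∙ u)ᗮ | p • u + (y : E₁) ∈ F} ×ˢ {y : (ℝ ∙ v)ᗮ | q • v + (y : E₂) ∈ G} := by
    ext x
    rfl
  rw [e2, Measure.prod_prod, h₁ p F hFp, h₂ q G hGq]

end Pool.PT56
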