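import Pool.Agent.PT56.Base

set_option autoImplicit false
set_option linter.unusedSectionVars false

/-!
# PT56/MargA: the section function of a convex body in `ℝ × F`

`[α, β]` is the projection of the convex body `K` to `ℝ` and `α < β` as `K` has interior points.
`sec_shrink`: if `(b, z) ∈ K` and `s = (1 - l) s0 + l b`, `0 ≤ l ≤ 1`, then `K_s ⊇ (1 - l) K_(s0) + l z`, so
`sec s ≥ (1 - l) ^ dim F * sec s0` (`Measure.addHaar_smul`).
`sec_pos`: `K` contains an open box around some `(s0, y0)`, so `sec s0 > 0`; then `sec_shrink` with a point over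
`α` or `β`.
`sec_cont`: for `s` near `s0 ∈ (α, β)`, `s > s0` say, `sec s ≥ (1 - l)^dim sec s0`, `l = (s - s0)/(β - s0)`, and
`sec s0 ≥ (1 - l')^dim sec s`, `l' = (s - s0)/(s - α)`; symmetrically for `s < s0`; let `s → s0`.
`phi_*`: `Phi s = ∫ t in α..s, sec t` for `α ≤ s ≤ β` (Fubini) and `sec` is continuous on `(α, β)`, bounded.
-/

namespace Pool.PT56

open Set Filter Topology MeasureTheory
open scoped ENNReal

variable {F : Type} [NormedAddCommGroup F] [NormedSpace ℝ F] [FiniteDimensional ℝ F]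
  [MeasurableSpace F] [BorelSpace F] (μ : Measure F) [μ.IsAddHaarMeasure]
  {K : Set (ℝ × F)} {α β : ℝ}

theorem lt_of_body (hint : (interior K).Nonempty) (hα : IsLeast (Prod.fst '' K) α)
    (hβ : IsGreatest (Prod.fst '' K) β) : α < β := by
  sorry

theorem sec_shrink (hc : IsCompact K) (hconv : Convex ℝ K) {s0 b l : ℝ} (hb : b ∈ Prod.fst '' K)
    (h0 : 0 ≤ l) (h1 : l ≤ 1) :
    (1 - l) ^ Module.finrank ℝ F * sec μ K s0 ≤ sec μ K ((1 - l) * s0 + l * b) := by
  sorry

theorem sec_pos (hc : IsCompact K) (hconv : Convex ℝ K) (hint : (interior K).Nonempty)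
    (hα : IsLeast (Prod.fst '' K) α) (hβ : IsGreatest (Prod.fst '' K) β) {s : ℝ}
    (hs : s ∈ Ioo α β) : 0 < sec μ K s := by
  sorry

theorem sec_cont (hc : IsCompact K) (hconv : Convex ℝ K) (hint : (interior K).Nonempty)
    (hα : IsLeast (Prod.fst '' K) α) (hβ : IsGreatest (Prod.fst '' K) β) {s : ℝ}
    (hs : s ∈ Ioo α β) : ContinuousAt (sec μ K) s := by
  sorry

theorem phi_deriv (hc : IsCompact K) (hconv : Convex ℝ K) (hint : (interior K).Nonempty)
    (hα : IsLeast (Prod.fst '' K) α) (hβ : IsGreatest (Prod.fst '' K) β) {s : ℝ}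
    (hs : s ∈ Ioo α β) : HasDerivAt (Phi μ K) (sec μ K s) s := by
  sorry

theorem phi_cont (hc : IsCompact K) : Continuous (Phi μ K) := by
  sorry

theorem phi_left (hc : IsCompact K) (hα : IsLeast (Prod.fst '' K) α) : Phi μ K α = 0 := by
  sorry

theorem phi_right (hβ : IsGreatest (Prod.fst '' K) β) :
    Phi μ K β = (((volume : Measure ℝ).prod μ) K).toReal := by
  sorry

/-- the part above height `s` -/
theorem phi_above (hc : IsCompact K) (s : ℝ) :
    (((volume : Measure ℝ).prod μ) {p | p ∈ K ∧ s ≤ p.1}).toReal =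
      (((volume : Measure ℝ).prod μ) K).toReal - Phi μ K s := by
  sorry

/-- the part between two heights -/
theorem phi_between (hc : IsCompact K) {s s' : ℝ} (h : s ≤ s') :
    (((volume : Measure ℝ).prod μ) {p | p ∈ K ∧ s ≤ p.1 ∧ p.1 ≤ s'}).toReal =
      Phi μ K s' - Phi μ K s := by
  sorry

end Pool.PT56
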