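import Pool.Agent.PT56.BM
import Pool.Agent.PT56.MargA
import Pool.Agent.PT57.BM

set_option autoImplicit false
set_option linter.unusedSectionVars false

/-!
# PT56/MargB: sections at equal volume fractions

`cut`: let `a1 ≤ a2`, `A0, A1, A2` the parts of `K` with `x.1 ≤ a1`, `a1 ≤ x.1 ≤ a2`, `a2 ≤ x.1`, and
`b2 ≤ b1`, `B0, B1, B2` the negatives of the parts with `b1 ≤ x.1`, `b2 ≤ x.1 ≤ b1`, `x.1 ≤ b2` (compact sets).
`mid A0 B0`, `mid A1 B1`, `mid A2 B2` lie in `mid K (-K)` and in `x.1 ≤ (a1 - b1)/2`,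
`(a1 - b1)/2 ≤ x.1 ≤ (a2 - b2)/2`, `(a2 - b2)/2 ≤ x.1`; hyperplanes `x.1 = const` are null sets, so the
measures add up.  With `bm` (for `ℝ × F`, `volume.prod μ` is a Haar measure) for the first and third pair.
`fraction_eq`: suppose `Phi s1 + Phi s2 = vol K`, `sec s1 < sec s2` (otherwise exchange the roles).
Take `q` strictly between, `a2 > s1` with `sec < q` on `[s1, a2]`, `ν = Phi a2 - Phi s1 > 0`, `b2 < s2` with
`Phi b2 = Phi s2 - ν`.  `A1, B1` have measure `ν`; their maximal sections satisfy `MA ≤ q < MB`, so the slab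
inequality `PT57.slab_sq` gives `m1^2 ≥ ν^2 (MA + MB)^2 / (4 MA MB) > ν^2`, against `cut`.
-/

namespace Pool.PT56

open Set Filter Topology MeasureTheory
open scoped ENNReal

variable {F : Type} [NormedAddCommGroup F] [NormedSpace ℝ F] [FiniteDimensional ℝ F]
  [MeasurableSpace F] [BorelSpace F] (μ : Measure F) [μ.IsAddHaarMeasure]
  {K : Set (ℝ × F)} {α β : ℝ}

namespace MargBAux

open scoped Pointwise in
theorem mid_eq (A B : Set (ℝ × F)) : mid A B = (1 / 2 : ℝ) • (A + B) := by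
  ext x
  constructor
  · rintro ⟨a, ha, b, hb, rfl⟩
    exact ⟨a + b, ⟨a, ha, b, hb, rfl⟩, rfl⟩
  · rintro ⟨_, ⟨a, ha, b, hb, rfl⟩, rfl⟩
    exact ⟨a, ha, b, hb, rfl⟩

theorem mid_compact {A B : Set (ℝ × F)} (hA : IsCompact A) (hB : IsCompact B) :
    IsCompact (mid A B) := by
  have : mid A B = (fun p : (ℝ × F) × (ℝ × F) => (1 / 2 : ℝ) • (p.1 + p.2)) '' (A ×ˢ B) := by
    ext x
    constructor
    · rintro ⟨a, ha, b, hb, rfl⟩
      exact ⟨(a, b), ⟨ha, hb⟩, rfl⟩
    · rintro ⟨⟨a, b⟩, ⟨ha, hb⟩, rfl⟩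
      exact ⟨a, ha, b, hb, rfl⟩
  rw [this]
  exact (hA.prod hB).image (by fun_prop)

theorem mid_mono {A B A' B' : Set (ℝ × F)} (h : A ⊆ A') (h' : B ⊆ B') : mid A B ⊆ mid A' B' := by
  rintro x ⟨a, ha, b, hb, rfl⟩
  exact ⟨a, h ha, b, h' hb, rfl⟩

theorem part_le (hc : IsCompact K) (s : ℝ) : IsCompact {p : ℝ × F | p ∈ K ∧ p.1 ≤ s} :=
  hc.inter_right (isClosed_le continuous_fst continuous_const)

theorem part_ge (hc : IsCompact K) (s : ℝ) : IsCompact {p : ℝ × F | p ∈ K ∧ s ≤ p.1} :=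
  hc.inter_right (isClosed_le continuous_const continuous_fst)

theorem part_mid (hc : IsCompact K) (s t : ℝ) :
    IsCompact {p : ℝ × F | p ∈ K ∧ s ≤ p.1 ∧ p.1 ≤ t} :=
  hc.inter_right ((isClosed_le continuous_const continuous_fst).inter
    (isClosed_le continuous_fst continuous_const))

theorem neg_compact {A : Set (ℝ × F)} (hA : IsCompact A) : IsCompact (-A) := hA.neg

theorem neg_meas (A : Set (ℝ × F)) :
    ((volume : Measure ℝ).prod μ) (-A) = ((volume : Measure ℝ).prod μ) A :=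
  Measure.measure_neg _ _

theorem neg_meas1 (A : Set F) : μ (-A) = μ A :=
  Measure.measure_neg _ _

/-- equal measures -/
theorem bm_real {A B : Set (ℝ × F)} (hA : IsCompact A) (hB : IsCompact B)
    (h : (((volume : Measure ℝ).prod μ) A).toReal = (((volume : Measure ℝ).prod μ) B).toReal) :
    (((volume : Measure ℝ).prod μ) A).toReal ≤
      (((volume : Measure ℝ).prod μ) (mid A B)).toReal := by
  have h1 := bm ((volume : Measure ℝ).prod μ) hA hB
  have h2 : (((volume : Measure ℝ).prod μ) A).toReal * (((volume : Measure ℝ).prod μ) B).toReal ≤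
      (((volume : Measure ℝ).prod μ) (mid A B)).toReal ^ 2 := by
    rw [← ENNReal.toReal_mul, ← ENNReal.toReal_pow]
    exact ENNReal.toReal_mono
      (ENNReal.pow_ne_top (mid_compact hA hB).measure_lt_top.ne) h1
  rw [← h] at h2
  have h3 : 0 ≤ (((volume : Measure ℝ).prod μ) A).toReal := ENNReal.toReal_nonneg
  have h4 : 0 ≤ (((volume : Measure ℝ).prod μ) (mid A B)).toReal := ENNReal.toReal_nonneg
  nlinarith

theorem plane_null (c : ℝ) : ((volume : Measure ℝ).prod μ) {p : ℝ × F | p.1 = c} = 0 := by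
  have : {p : ℝ × F | p.1 = c} = ({c} : Set ℝ) ×ˢ (univ : Set F) := by
    ext p
    simp
  rw [this, Measure.prod_prod]
  simp

theorem three {A B C D : Set (ℝ × F)} (hA : IsCompact A) (hB : IsCompact B) (hC : IsCompact C)
    (hD : IsCompact D) {c c' : ℝ} (hcc : c ≤ c') (h1 : ∀ p ∈ A, p.1 ≤ c)
    (h2 : ∀ p ∈ B, c ≤ p.1 ∧ p.1 ≤ c') (h3 : ∀ p ∈ C, c' ≤ p.1) (hs : A ∪ B ∪ C ⊆ D) :
    (((volume : Measure ℝ).prod μ) A).toReal + (((volume : Measure ℝ).prod μ) B).toReal +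
      (((volume : Measure ℝ).prod μ) C).toReal ≤ (((volume : Measure ℝ).prod μ) D).toReal := by
  have hd1 : AEDisjoint ((volume : Measure ℝ).prod μ) A B := by
    refine measure_mono_null ?_ (plane_null μ c)
    rintro p ⟨hp, hp'⟩
    exact le_antisymm (h1 p hp) (h2 p hp').1
  have hd2 : AEDisjoint ((volume : Measure ℝ).prod μ) (A ∪ B) C := by
    refine measure_mono_null ?_ (plane_null μ c')
    rintro p ⟨hp, hp'⟩
    rcases hp with hp | hp
    · exact le_antisymm ((h1 p hp).trans hcc) (h3 p hp')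
    · exact le_antisymm (h2 p hp).2 (h3 p hp')
  have e1 := measure_union₀ hB.measurableSet.nullMeasurableSet hd1
  have e2 := measure_union₀ hC.measurableSet.nullMeasurableSet hd2
  have e3 : ((volume : Measure ℝ).prod μ) A + ((volume : Measure ℝ).prod μ) B +
      ((volume : Measure ℝ).prod μ) C ≤ ((volume : Measure ℝ).prod μ) D := by
    rw [← e1, ← e2]
    exact measure_mono hs
  have e4 := ENNReal.toReal_mono hD.measure_lt_top.ne e3
  rwa [ENNReal.toReal_add (ENNReal.add_ne_top.mpr ⟨hA.measure_lt_top.ne, hB.measure_lt_top.ne⟩)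
    hC.measure_lt_top.ne, ENNReal.toReal_add hA.measure_lt_top.ne hB.measure_lt_top.ne] at e4

end MargBAux

open MargBAux

theorem cut (hc : IsCompact K) {a1 a2 b1 b2 : ℝ} (ha : a1 ≤ a2) (hb : b2 ≤ b1)
    (h1 : Phi μ K a1 + Phi μ K b1 = (((volume : Measure ℝ).prod μ) K).toReal)
    (h2 : Phi μ K a2 + Phi μ K b2 = (((volume : Measure ℝ).prod μ) K).toReal) :
    Phi μ K a1 + (((volume : Measure ℝ).prod μ) (mid {p | p ∈ K ∧ a1 ≤ p.1 ∧ p.1 ≤ a2}
        (-{p | p ∈ K ∧ b2 ≤ p.1 ∧ p.1 ≤ b1}))).toReal +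
      ((((volume : Measure ℝ).prod μ) K).toReal - Phi μ K a2) ≤
      (((volume : Measure ℝ).prod μ) (mid K (-K))).toReal := by
  have hA0 := part_le hc a1
  have hB0 := (part_ge hc b1).neg
  have hA1 := part_mid hc a1 a2
  have hB1 := (part_mid hc b2 b1).neg
  have hA2 := part_ge hc a2
  have hB2 := (part_le hc b2).neg
  have key := three μ (mid_compact hA0 hB0) (mid_compact hA1 hB1) (mid_compact hA2 hB2)
    (mid_compact hc hc.neg) (c := (a1 - b1) / 2) (c' := (a2 - b2) / 2) (by linarith)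
    (by
      rintro _ ⟨x, ⟨_, hx⟩, y, ⟨_, hy⟩, rfl⟩
      simp only [Prod.fst_neg] at hy
      simp only [Prod.smul_fst, Prod.fst_add, smul_eq_mul]
      linarith)
    (by
      rintro _ ⟨x, ⟨_, hx, hx'⟩, y, ⟨_, hy, hy'⟩, rfl⟩
      simp only [Prod.fst_neg] at hy hy'
      simp only [Prod.smul_fst, Prod.fst_add, smul_eq_mul]
      constructor <;> linarith)
    (by
      rintro _ ⟨x, ⟨_, hx⟩, y, ⟨_, hy⟩, rfl⟩
      simp only [Prod.fst_neg] at hy
      simp only [Prod.smul_fst, Prod.fst_add, smul_eq_mul]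
      linarith)
    (by
      apply union_subset
      · apply union_subset
        · exact mid_mono (fun p hp => hp.1) (fun p hp => hp.1)
        · exact mid_mono (fun p hp => hp.1) (fun p hp => hp.1)
      · exact mid_mono (fun p hp => hp.1) (fun p hp => hp.1))
  have e0 : Phi μ K a1 ≤ (((volume : Measure ℝ).prod μ) (mid {p | p ∈ K ∧ p.1 ≤ a1}
      (-{p | p ∈ K ∧ b1 ≤ p.1}))).toReal := by
    refine bm_real μ hA0 hB0 ?_
    rw [neg_meas, phi_above μ hc b1]
    change Phi μ K a1 = _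
    linarith
  have e2 : (((volume : Measure ℝ).prod μ) K).toReal - Phi μ K a2 ≤
      (((volume : Measure ℝ).prod μ) (mid {p | p ∈ K ∧ a2 ≤ p.1}
      (-{p | p ∈ K ∧ p.1 ≤ b2}))).toReal := by
    have := bm_real μ hA2 hB2 (by
      rw [neg_meas, phi_above μ hc a2]
      change _ = Phi μ K b2
      linarith)
    rwa [phi_above μ hc a2] at this
  linarith

namespace MargBAux

theorem aux (hc : IsCompact K) (hconv : Convex ℝ K) (hint : (interior K).Nonempty)
    (hα : IsLeast (Prod.fst '' K) α) (hβ : IsGreatest (Prod.fst '' K) β)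
    (hm : ((volume : Measure ℝ).prod μ) (mid K (-K)) ≤ ((volume : Measure ℝ).prod μ) K)
    {s1 s2 : ℝ} (h1 : s1 ∈ Ioo α β) (h2 : s2 ∈ Ioo α β)
    (h : Phi μ K s1 + Phi μ K s2 = (((volume : Measure ℝ).prod μ) K).toReal)
    (hlt : sec μ K s1 < sec μ K s2) : False := by
  obtain ⟨q, hq1, hq2⟩ := exists_between hlt
  -- `a2`
  have hcont := sec_cont μ hc hconv hint hα hβ h1
  have hev : ∀ᶠ t in 𝓝 s1, sec μ K t < q ∧ t < β :=
    (hcont.eventually_lt_const hq1).and (Iio_mem_nhds h1.2)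
  obtain ⟨δ, hδ, hball⟩ := Metric.eventually_nhds_iff.mp hev
  obtain ⟨a2, ha2⟩ : ∃ a2, a2 = s1 + δ / 2 := ⟨_, rfl⟩
  have ha2' : s1 < a2 := by linarith
  have hsec : ∀ t, s1 ≤ t → t ≤ a2 → sec μ K t < q ∧ t < β := by
    intro t ht ht'
    apply hball
    rw [Real.dist_eq, abs_of_nonneg (by linarith)]
    linarith
  -- `ν`
  have hmono : Phi μ K s1 < Phi μ K a2 := by
    have hsm : StrictMonoOn (Phi μ K) (Icc s1 a2) := by
      apply strictMonoOn_of_deriv_pos (convex_Icc _ _) (phi_cont μ hc).continuousOn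
      intro t ht
      rw [interior_Icc] at ht
      have htt : t ∈ Ioo α β := ⟨h1.1.trans ht.1, (hsec t ht.1.le ht.2.le).2⟩
      rw [(phi_deriv μ hc hconv hint hα hβ htt).deriv]
      exact sec_pos μ hc hconv hint hα hβ htt
    exact hsm ⟨le_refl _, ha2'.le⟩ ⟨ha2'.le, le_refl _⟩ ha2'
  obtain ⟨ν, hν⟩ : ∃ ν, ν = Phi μ K a2 - Phi μ K s1 := ⟨_, rfl⟩
  have hν0 : 0 < ν := by linarith
  have hle : Phi μ K a2 ≤ (((volume : Measure ℝ).prod μ) K).toReal :=
    ENNReal.toReal_mono hc.measure_lt_top.ne (measure_mono fun p hp => hp.1)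
  -- `b2`
  obtain ⟨b2, hb2, hb2'⟩ : ∃ b2 ∈ Icc α s2, Phi μ K b2 = Phi μ K s2 - ν := by
    have himg := intermediate_value_Icc (f := Phi μ K) h2.1.le (phi_cont μ hc).continuousOn
    rw [phi_left μ hc hα] at himg
    have : Phi μ K s2 - ν ∈ Icc 0 (Phi μ K s2) := ⟨by linarith, by linarith⟩
    obtain ⟨b, hb, hb'⟩ := himg this
    exact ⟨b, hb, hb'⟩
  have hcut := cut μ hc ha2'.le hb2.2 h (by linarith)
  have hV : (((volume : Measure ℝ).prod μ) (mid K (-K))).toReal ≤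
      (((volume : Measure ℝ).prod μ) K).toReal :=
    ENNReal.toReal_mono hc.measure_lt_top.ne hm
  -- the middle slabs
  obtain ⟨A, hA⟩ : ∃ A : Set (ℝ × F), A = {p | p ∈ K ∧ s1 ≤ p.1 ∧ p.1 ≤ a2} := ⟨_, rfl⟩
  obtain ⟨B, hB⟩ : ∃ B : Set (ℝ × F), B = -{p | p ∈ K ∧ b2 ≤ p.1 ∧ p.1 ≤ s2} := ⟨_, rfl⟩
  rw [← hA, ← hB] at hcut
  have cA : IsCompact A := hA ▸ part_mid hc s1 a2
  have cB : IsCompact B := hB ▸ (part_mid hc b2 s2).neg
  have vA : (((volume : Measure ℝ).prod μ) A).toReal = ν := by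
    rw [hA, phi_between μ hc ha2'.le, hν]
  have vB : (((volume : Measure ℝ).prod μ) B).toReal = ν := by
    rw [hB, neg_meas, phi_between μ hc hb2.2, hb2']
    ring
  have nA : ((volume : Measure ℝ).prod μ) A ≠ 0 := by
    intro h0
    rw [h0] at vA
    simp at vA
    linarith
  have nB : ((volume : Measure ℝ).prod μ) B ≠ 0 := by
    intro h0
    rw [h0] at vB
    simp at vB
    linarith
  have hslab := PT57.slab_sq μ (PT57.bm μ) cA cB nA nB
  have pA := PT57.slice_pos μ cA nA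
  have pB := PT57.slice_pos μ cB nB
  have hMA : (⨆ s : ℝ, (μ (Prod.mk s ⁻¹' A)).toReal) ≤ q := by
    apply ciSup_le
    intro s
    by_cases hs : s1 ≤ s ∧ s ≤ a2
    · have : Prod.mk s ⁻¹' A = {y | (s, y) ∈ K} := by
        ext y
        rw [hA]
        simp [hs.1, hs.2]
      rw [this]
      exact (hsec s hs.1 hs.2).1.le
    · have : Prod.mk s ⁻¹' A = ∅ := by
        ext y
        rw [hA]
        simp only [mem_preimage, mem_ofPred_eq, mem_empty_iff_false, iff_false]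
        exact fun h => hs h.2
      rw [this]
      simp only [measure_empty, ENNReal.toReal_zero]
      exact le_trans ENNReal.toReal_nonneg hq1.le
  have hMB : sec μ K s2 ≤ (⨆ s : ℝ, (μ (Prod.mk s ⁻¹' B)).toReal) := by
    have e : (μ (Prod.mk (-s2) ⁻¹' B)).toReal = sec μ K s2 := by
      have : Prod.mk (-s2) ⁻¹' B = -{y | (s2, y) ∈ K} := by
        ext y
        rw [hB]
        simp [hb2.2]
      rw [this, neg_meas1]
      rfl
    rw [← e]
    exact le_ciSup (PT57.slice_bdd μ cB) (-s2)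
  rw [← mid_eq, vA, vB] at hslab
  obtain ⟨MA, eMA⟩ : ∃ MA, MA = (⨆ s : ℝ, (μ (Prod.mk s ⁻¹' A)).toReal) := ⟨_, rfl⟩
  obtain ⟨MB, eMB⟩ : ∃ MB, MB = (⨆ s : ℝ, (μ (Prod.mk s ⁻¹' B)).toReal) := ⟨_, rfl⟩
  obtain ⟨m, em⟩ : ∃ m, m = (((volume : Measure ℝ).prod μ) (mid A B)).toReal := ⟨_, rfl⟩
  rw [← eMA] at hslab pA hMA
  rw [← eMB] at hslab pB hMB
  rw [← em] at hslab hcut
  have hmν : m ≤ ν := by linarith
  have hm0 : 0 ≤ m := by rw [em]; exact ENNReal.toReal_nonneg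
  have hne : MA < MB := by linarith
  have h3 : m ^ 2 ≤ ν ^ 2 := by nlinarith
  have h4 : (MA + MB) ^ 2 * ν ^ 2 ≤ 4 * (MA * MB) * ν ^ 2 := by
    have h5 : 4 * m ^ 2 * (MA * MB) ≤ 4 * ν ^ 2 * (MA * MB) := by
      have : 0 < MA * MB := mul_pos pA pB
      nlinarith
    nlinarith
  have h5 : (MA + MB) ^ 2 ≤ 4 * (MA * MB) := le_of_mul_le_mul_right h4 (by positivity)
  nlinarith [sq_pos_of_pos (sub_pos.mpr hne)]

end MargBAux

theorem fraction_eq (hc : IsCompact K) (hconv : Convex ℝ K) (hint : (interior K).Nonempty)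
    (hα : IsLeast (Prod.fst '' K) α) (hβ : IsGreatest (Prod.fst '' K) β)
    (hm : ((volume : Measure ℝ).prod μ) (mid K (-K)) ≤ ((volume : Measure ℝ).prod μ) K)
    {s1 s2 : ℝ} (h1 : s1 ∈ Ioo α β) (h2 : s2 ∈ Ioo α β)
    (h : Phi μ K s1 + Phi μ K s2 = (((volume : Measure ℝ).prod μ) K).toReal) :
    sec μ K s1 = sec μ K s2 := by
  rcases lt_trichotomy (sec μ K s1) (sec μ K s2) with hlt | heq | hgt
  · exact (aux μ hc hconv hint hα hβ hm h1 h2 h hlt).elim
  · exact heq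
  · exact (aux μ hc hconv hint hα hβ hm h2 h1 (by rw [add_comm]; exact h) hgt).elim

end Pool.PT56
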