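import Pool.Agent.PT56.MargB

set_option autoImplicit false
set_option linter.unusedSectionVars false

/-!
# PT56/MargC: the section function is symmetric

For `s ∈ (α, β)` there is a unique `σ s ∈ (α, β)` with `Phi (σ s) = vol K - Phi s` (`Phi` is continuous and
strictly increasing on `[α, β]` from `0` to `vol K`: its derivative `sec` is positive inside).  `σ` is continuous and
`Phi (σ s) = vol K - Phi s` with `Phi' = sec > 0`: `σ` has the derivative `- sec s / sec (σ s) = - 1`
(`fraction_eq`; `HasDerivAt.of_local_left_inverse` for the inverse of `Phi`).  So `σ s + s` is constant on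
`(α, β)`; as `s → α`, `Phi (σ s) → vol K`, `σ s → β`: the constant is `α + β`.  Hence
`sec (α + β - s) = sec (σ s) = sec s`.
`first_moment`: `∫ x in K, x.1 = ∫ s in α..β, s * sec s` (Fubini) and the substitution `s ↦ α + β - s`.
-/

namespace Pool.PT56

open Set Filter Topology MeasureTheory
open scoped ENNReal

variable {F : Type} [NormedAddCommGroup F] [NormedSpace ℝ F] [FiniteDimensional ℝ F]
  [MeasurableSpace F] [BorelSpace F] (μ : Measure F) [μ.IsAddHaarMeasure]
  {K : Set (ℝ × F)} {α β : ℝ}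

/-- An inverse function argument: `f` is a primitive of the positive function `g` on `(α, β)`, and
`g s1 = g s2` whenever `f s1 + f s2 = V`; then `g` is symmetric. -/
theorem symm_of_fraction {f g : ℝ → ℝ} {α β V : ℝ} (hαβ : α < β) (hcont : Continuous f)
    (hpos : ∀ s ∈ Ioo α β, 0 < g s) (hder : ∀ s ∈ Ioo α β, HasDerivAt f (g s) s)
    (hfα : f α = 0) (hfβ : f β = V)
    (hfr : ∀ s1 ∈ Ioo α β, ∀ s2 ∈ Ioo α β, f s1 + f s2 = V → g s1 = g s2)
    {s : ℝ} (hs : s ∈ Ioo α β) : g (α + β - s) = g s := by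
  have hmono : StrictMonoOn f (Icc α β) := by
    apply strictMonoOn_of_deriv_pos (convex_Icc α β) hcont.continuousOn
    intro x hx
    rw [interior_Icc] at hx
    rw [(hder x hx).deriv]
    exact hpos x hx
  have hαm : α ∈ Icc α β := left_mem_Icc.2 hαβ.le
  have hβm : β ∈ Icc α β := right_mem_Icc.2 hαβ.le
  have hsurj : Icc 0 V ⊆ f '' Icc α β := by
    have := intermediate_value_Icc hαβ.le hcont.continuousOn
    rwa [hfα, hfβ] at this
  set P : ℝ → ℝ := Function.invFunOn f (Icc α β) with hP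
  have hPm : ∀ v ∈ Icc 0 V, P v ∈ Icc α β := fun v hv => Function.invFunOn_mem (hsurj hv)
  have hPf : ∀ v ∈ Icc 0 V, f (P v) = v := fun v hv => Function.invFunOn_eq (hsurj hv)
  have hfm : ∀ t ∈ Ioo α β, f t ∈ Ioo 0 V := by
    intro t ht
    refine ⟨?_, ?_⟩
    · rw [← hfα]; exact hmono hαm (Ioo_subset_Icc_self ht) ht.1
    · rw [← hfβ]; exact hmono (Ioo_subset_Icc_self ht) hβm ht.2
  have hfm' : ∀ t ∈ Icc α β, f t ∈ Icc 0 V := by
    intro t ht
    refine ⟨?_, ?_⟩
    · rw [← hfα]; exact hmono.monotoneOn hαm ht ht.1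
    · rw [← hfβ]; exact hmono.monotoneOn ht hβm ht.2
  have hPleft : ∀ t ∈ Icc α β, P (f t) = t := by
    intro t ht
    exact hmono.injOn (hPm _ (hfm' t ht)) ht (hPf _ (hfm' t ht))
  have hPo : ∀ v ∈ Ioo 0 V, P v ∈ Ioo α β := by
    intro v hv
    have h1 := hPm v (Ioo_subset_Icc_self hv)
    have h2 := hPf v (Ioo_subset_Icc_self hv)
    refine ⟨lt_of_le_of_ne h1.1 ?_, lt_of_le_of_ne h1.2 ?_⟩
    · intro h
      rw [← h, hfα] at h2
      exact absurd h2 hv.1.ne
    · intro h
      rw [h, hfβ] at h2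
      exact absurd h2 hv.2.ne'
  have hPmono : StrictMonoOn P (Icc 0 V) := by
    intro v hv w hw hvw
    by_contra hcon
    have := hmono.monotoneOn (hPm w hw) (hPm v hv) (not_lt.1 hcon)
    rw [hPf v hv, hPf w hw] at this
    linarith
  have hPcont : ∀ v ∈ Ioo 0 V, ContinuousAt P v := by
    intro v hv
    apply hPmono.continuousAt_of_image_mem_nhds (Icc_mem_nhds hv.1 hv.2)
    have h1 := hPo v hv
    apply mem_of_superset (Icc_mem_nhds h1.1 h1.2)
    intro t ht
    exact ⟨f t, hfm' t ht, hPleft t ht⟩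
  have hPder : ∀ v ∈ Ioo 0 V, HasDerivAt P (g (P v))⁻¹ v := by
    intro v hv
    apply HasDerivAt.of_local_left_inverse (hPcont v hv) (hder _ (hPo v hv))
      (hpos _ (hPo v hv)).ne'
    filter_upwards [Icc_mem_nhds hv.1 hv.2] with w hw using hPf w hw
  have hsym : ∀ v ∈ Ioo 0 V, V - v ∈ Ioo 0 V := by
    intro v hv
    exact ⟨by linarith [hv.2], by linarith [hv.1]⟩
  have hH : ∀ v ∈ Ioo 0 V, HasDerivAt (fun v => P v + P (V - v)) 0 v := by
    intro v hv
    have h1 := hPder v hv
    have h2 := hPder (V - v) (hsym v hv)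
    have h3 : HasDerivAt (fun v => V - v) (-1) v := by
      simpa using (hasDerivAt_id v).const_sub V
    have h4 := h1.add (h2.comp v h3)
    have h5 : g (P v) = g (P (V - v)) := by
      apply hfr _ (hPo v hv) _ (hPo _ (hsym v hv))
      rw [hPf v (Ioo_subset_Icc_self hv), hPf _ (Ioo_subset_Icc_self (hsym v hv))]
      ring
    have h6 : (g (P v))⁻¹ + (g (P (V - v)))⁻¹ * (-1) = 0 := by rw [h5]; ring
    rw [h6] at h4
    exact h4
  have hV : 0 < V := by
    have := hfm s hs
    exact this.1.trans this.2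
  -- the constant
  obtain ⟨c, hcst⟩ : ∃ c, ∀ v ∈ Ioo 0 V, P v + P (V - v) = c := by
    refine ⟨P (V / 2) + P (V - V / 2), ?_⟩
    intro v hv
    have hd : DifferentiableOn ℝ (fun v => P v + P (V - v)) (Ioo 0 V) :=
      fun w hw => (hH w hw).differentiableAt.differentiableWithinAt
    have h0 : ∀ w ∈ Ioo 0 V, deriv (fun v => P v + P (V - v)) w = 0 := fun w hw => (hH w hw).deriv
    exact isOpen_Ioo.is_const_of_deriv_eq_zero isPreconnected_Ioo hd h0 hv
      ⟨by linarith, by linarith⟩
  have hkey : ∀ t ∈ Ioo α β, t + P (V - f t) = c := by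
    intro t ht
    have := hcst (f t) (hfm t ht)
    rwa [hPleft t (Ioo_subset_Icc_self ht)] at this
  have hc1 : c ≤ α + β := by
    apply le_of_forall_pos_lt_add
    intro ε hε
    have ht : α + min (ε / 2) ((β - α) / 2) ∈ Ioo α β := by
      have h1 : 0 < min (ε / 2) ((β - α) / 2) := lt_min (by linarith) (by linarith)
      have h2 : min (ε / 2) ((β - α) / 2) ≤ (β - α) / 2 := min_le_right _ _
      exact ⟨by linarith, by linarith⟩
    have h1 := hkey _ ht
    have h2 := (hPo _ (hsym _ (hfm _ ht))).2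
    have h3 : min (ε / 2) ((β - α) / 2) ≤ ε / 2 := min_le_left _ _
    linarith
  have hc2 : α + β ≤ c := by
    apply le_of_forall_pos_lt_add
    intro ε hε
    have ht : β - min (ε / 2) ((β - α) / 2) ∈ Ioo α β := by
      have h1 : 0 < min (ε / 2) ((β - α) / 2) := lt_min (by linarith) (by linarith)
      have h2 : min (ε / 2) ((β - α) / 2) ≤ (β - α) / 2 := min_le_right _ _
      exact ⟨by linarith, by linarith⟩
    have h1 := hkey _ ht
    have h2 := (hPo _ (hsym _ (hfm _ ht))).1
    have h3 : min (ε / 2) ((β - α) / 2) ≤ ε / 2 := min_le_left _ _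
    linarith
  have hc : c = α + β := le_antisymm hc1 hc2
  have h1 := hkey s hs
  have h2 : α + β - s = P (V - f s) := by linarith
  have hv := hsym _ (hfm s hs)
  rw [h2]
  apply hfr _ (hPo _ hv) _ hs
  rw [hPf _ (Ioo_subset_Icc_self hv)]
  ring

theorem sec_symm (hc : IsCompact K) (hconv : Convex ℝ K) (hint : (interior K).Nonempty)
    (hα : IsLeast (Prod.fst '' K) α) (hβ : IsGreatest (Prod.fst '' K) β)
    (hm : ((volume : Measure ℝ).prod μ) (mid K (-K)) ≤ ((volume : Measure ℝ).prod μ) K)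
    {s : ℝ} (hs : s ∈ Ioo α β) : sec μ K (α + β - s) = sec μ K s :=
  symm_of_fraction (lt_of_body hint hα hβ) (phi_cont μ hc)
    (fun _ h => sec_pos μ hc hconv hint hα hβ h) (fun _ h => phi_deriv μ hc hconv hint hα hβ h)
    (phi_left μ hc hα) (phi_right μ hβ)
    (fun _ h1 _ h2 h => fraction_eq μ hc hconv hint hα hβ hm h1 h2 h) hs

theorem sec_eq_zero (hα : IsLeast (Prod.fst '' K) α) (hβ : IsGreatest (Prod.fst '' K) β)
    {s : ℝ} (hs : s ∉ Icc α β) : sec μ K s = 0 := by
  have : {y : F | (s, y) ∈ K} = ∅ := by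
    apply eq_empty_of_forall_notMem
    intro y hy
    exact hs ⟨hα.2 ⟨_, hy, rfl⟩, hβ.2 ⟨_, hy, rfl⟩⟩
  rw [sec, this]
  simp

theorem first_moment (hc : IsCompact K) (hconv : Convex ℝ K) (hint : (interior K).Nonempty)
    (hα : IsLeast (Prod.fst '' K) α) (hβ : IsGreatest (Prod.fst '' K) β)
    (hm : ((volume : Measure ℝ).prod μ) (mid K (-K)) ≤ ((volume : Measure ℝ).prod μ) K) :
    ∫ p in K, p.1 ∂((volume : Measure ℝ).prod μ) =
      (α + β) / 2 * (((volume : Measure ℝ).prod μ) K).toReal := by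
  have hK : MeasurableSet K := hc.isClosed.measurableSet
  have hKfin : ((volume : Measure ℝ).prod μ) K ≠ ∞ := hc.measure_lt_top.ne
  have hint1 : IntegrableOn (fun p : ℝ × F => p.1) K ((volume : Measure ℝ).prod μ) :=
    continuous_fst.continuousOn.integrableOn_compact hc
  have hint1' : Integrable (K.indicator fun p : ℝ × F => p.1) ((volume : Measure ℝ).prod μ) :=
    (integrable_indicator_iff hK).2 hint1
  have hin : ∀ s : ℝ, ∫ y, K.indicator (fun p : ℝ × F => p.1) (s, y) ∂μ = s * sec μ K s := by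
    intro s
    have h1 : (fun y => K.indicator (fun p : ℝ × F => p.1) (s, y)) =
        {y : F | (s, y) ∈ K}.indicator fun _ => s := by
      ext y
      by_cases h : (s, y) ∈ K
      · rw [indicator_of_mem h, indicator_of_mem (show y ∈ {y : F | (s, y) ∈ K} from h)]
      · rw [indicator_of_notMem h, indicator_of_notMem (show y ∉ {y : F | (s, y) ∈ K} from h)]
    have h2 : MeasurableSet {y : F | (s, y) ∈ K} := measurable_prodMk_left hK
    rw [h1, integral_indicator_const s h2, smul_eq_mul, mul_comm]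
    rfl
  have hA : ∫ p in K, p.1 ∂((volume : Measure ℝ).prod μ) = ∫ s, s * sec μ K s := by
    rw [← integral_indicator hK, integral_prod _ hint1']
    simp_rw [hin]
  have hi1 : Integrable (fun s => s * sec μ K s) := by
    have := hint1'.integral_prod_left
    simp_rw [hin] at this
    exact this
  have hi0 : Integrable (fun s => sec μ K s) :=
    Measure.integrable_measure_prodMk_left hK hKfin
  have hB : ∫ s, sec μ K s = (((volume : Measure ℝ).prod μ) K).toReal := by
    rw [← phi_right μ hβ, Phi]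
    have h1 : {p : ℝ × F | p ∈ K ∧ p.1 ≤ β} = K := by
      ext p
      exact ⟨fun h => h.1, fun h => ⟨h, hβ.2 ⟨p, h, rfl⟩⟩⟩
    rw [h1, Measure.prod_apply hK, ← integral_toReal]
    · rfl
    · exact (measurable_measure_prodMk_left hK).aemeasurable
    · exact Measure.ae_measure_lt_top hK hKfin
  have hae : (fun s => (α + β - s) * sec μ K (α + β - s)) =ᵐ[volume]
      fun s => (α + β - s) * sec μ K s := by
    have h1 : ∀ᵐ s : ℝ, s ≠ α := by simp [ae_iff, measure_singleton]
    have h2 : ∀ᵐ s : ℝ, s ≠ β := by simp [ae_iff, measure_singleton]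
    filter_upwards [h1, h2] with s hs1 hs2
    by_cases hs : s ∈ Icc α β
    · rw [sec_symm μ hc hconv hint hα hβ hm
        ⟨lt_of_le_of_ne hs.1 (Ne.symm hs1), lt_of_le_of_ne hs.2 hs2⟩]
    · have hs' : α + β - s ∉ Icc α β := by
        intro h
        exact hs ⟨by linarith [h.2], by linarith [h.1]⟩
      rw [sec_eq_zero μ hα hβ hs, sec_eq_zero μ hα hβ hs']
  have hC : ∫ s, s * sec μ K s = (α + β) * (∫ s, sec μ K s) - ∫ s, s * sec μ K s := by
    calc ∫ s, s * sec μ K s = ∫ s, (α + β - s) * sec μ K (α + β - s) :=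
          (integral_sub_left_eq_self (fun s => s * sec μ K s) volume (α + β)).symm
      _ = ∫ s, (α + β - s) * sec μ K s := integral_congr_ae hae
      _ = ∫ s, ((α + β) * sec μ K s - s * sec μ K s) := by
          congr 1
          ext s
          ring
      _ = (α + β) * (∫ s, sec μ K s) - ∫ s, s * sec μ K s := by
          rw [integral_sub (hi0.const_mul _) hi1, integral_const_mul]
  rw [hA, ← hB]
  linarith

end Pool.PT56
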