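import Pool.Agent.PT56.Vol
import Pool.Agent.H14Belt.Pointed

set_option autoImplicit false
set_option linter.unusedSectionVars false

/-!
# PT56/Ptw: the local inequalities

Fix `x`, let `I` be the finite set of the tiles that contain `x` (`exists_bounds`, `r = 0`) and
`K i = {p | x + p ∈ tile i}`.  `H14Belt.LocalTiling I K` holds (locally finite, closed).  `LexMax (tile i) x` is
`H14Belt.Lex 1 1 (K i)`, `LexMin (tile i) x` is `H14Belt.Lex (-1) (-1) (K i)`; if the tile `i` has the vertex `x`
then `H14Belt.Pointed (K i)` (use `in_cone`).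
-/

namespace Pool.PT56

open Set Filter Topology Metric
open Pool.Agent.H14Belt (LocalTiling Lex Has Pointed hit_cases unique_side local_total)

section

variable {n : ℕ} {v : ZMod n → ℝ × ℝ} {ι : Type} {t : ι → ℝ × ℝ} {s : ι → ℝ}

theorem finite_at (hv : IsPoly v) (hT : Tiling (body v) t s) (x : ℝ × ℝ) :
    {i | x ∈ tile (body v) (t i) (s i)}.Finite := by
  obtain ⟨D, κ, -, -, -, h, -⟩ := exists_bounds hv hT
  refine (h x 0).subset ?_
  intro i hi
  exact ⟨x, hi, by simp⟩

/-- the tiles through `x`, seen from `x` -/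
def loc (v : ZMod n → ℝ × ℝ) (t : ι → ℝ × ℝ) (s : ι → ℝ) (x : ℝ × ℝ) (i : ι) : Set (ℝ × ℝ) :=
  {p | x + p ∈ tile (body v) (t i) (s i)}

theorem tile_convex (v : ZMod n → ℝ × ℝ) (t : ℝ × ℝ) (s : ℝ) : Convex ℝ (tile (body v) t s) := by
  have h1 : tile (body v) t s = (fun y => t + y) '' ((fun y => s • y) '' body v) := by
    rw [Set.image_image]; rfl
  rw [h1]
  exact ((convex_body v).smul s).translate t

theorem tile_closed (hv : IsPoly v) (t : ℝ × ℝ) (s : ℝ) : IsClosed (tile (body v) t s) :=
  (hv.isCompact.image (by fun_prop : Continuous fun y : ℝ × ℝ => t + s • y)).isClosed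

theorem interior_loc (v : ZMod n → ℝ × ℝ) (t : ι → ℝ × ℝ) (s : ι → ℝ) (x : ℝ × ℝ) (i : ι) :
    interior (loc v t s x i) = (fun p => x + p) ⁻¹' interior (tile (body v) (t i) (s i)) :=
  ((Homeomorph.addLeft x).preimage_interior (tile (body v) (t i) (s i))).symm

theorem localTiling (hv : IsPoly v) (hT : Tiling (body v) t s) (x : ℝ × ℝ) :
    LocalTiling (finite_at hv hT x).toFinset (loc v t s x) where
  conv i _ := by
    have : loc v t s x i = (fun p => x + p) ⁻¹' tile (body v) (t i) (s i) := rfl
    rw [this]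
    exact (tile_convex v (t i) (s i)).translate_preimage_right x
  closed i _ := (tile_closed hv (t i) (s i)).preimage (by fun_prop : Continuous fun p => x + p)
  zero i hi := by
    have : x ∈ tile (body v) (t i) (s i) := by simpa using hi
    show x + 0 ∈ tile (body v) (t i) (s i)
    rwa [add_zero]
  int_ne i _ := by
    obtain ⟨z, hz⟩ := hv.interior_nonempty
    rw [interior_loc]
    refine ⟨(t i + s i • z) - x, ?_⟩
    rw [mem_preimage, add_sub_cancel, mem_interior_tile (hT.sgn i)]
    have h2 : s i * s i = 1 := by rcases hT.sgn i with h | h <;> rw [h] <;> norm_num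
    rw [add_sub_cancel_left, smul_smul, h2, one_smul]
    exact hz
  disj i _ j _ hij := by
    rw [interior_loc, interior_loc]
    exact (hT.dis i j hij).preimage _
  cover := by
    obtain ⟨D, κ, -, -, -, h, -⟩ := exists_bounds hv hT
    have hfin := h x 1
    -- the tiles near `x` not containing `x`
    have h1 : ∀ᶠ p : ℝ × ℝ in 𝓝 0, ∀ i ∈ {i | (tile (body v) (t i) (s i) ∩ closedBall x 1).Nonempty},
        x ∉ tile (body v) (t i) (s i) → x + p ∉ tile (body v) (t i) (s i) := by
      rw [eventually_all_finite hfin]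
      intro i _
      by_cases hx : x ∈ tile (body v) (t i) (s i)
      · exact Eventually.of_forall fun p h => absurd hx h
      · have hc : Tendsto (fun p : ℝ × ℝ => x + p) (𝓝 0) (𝓝 x) := by
          have : Continuous fun p : ℝ × ℝ => x + p := by fun_prop
          simpa using this.tendsto 0
        filter_upwards [hc ((tile_closed hv (t i) (s i)).isOpen_compl.mem_nhds hx)] with p hp _
        exact hp
    have h2 : ∀ᶠ p : ℝ × ℝ in 𝓝 0, x + p ∈ closedBall x 1 := by
      have hc : Tendsto (fun p : ℝ × ℝ => x + p) (𝓝 0) (𝓝 x) := by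
        have : Continuous fun p : ℝ × ℝ => x + p := by fun_prop
        simpa using this.tendsto 0
      exact hc (closedBall_mem_nhds x one_pos)
    filter_upwards [h1, h2] with p hp1 hp2
    obtain ⟨i, hi⟩ := hT.cov (x + p)
    have hxi : x ∈ tile (body v) (t i) (s i) := by
      by_contra hcon
      exact hp1 i ⟨_, hi, hp2⟩ hcon hi
    simp only [mem_iUnion, Finite.mem_toFinset, mem_ofPred_eq, exists_prop]
    exact ⟨i, hxi, hi⟩

theorem lexMax_iff (x : ℝ × ℝ) (i : ι) : LexMax (tile (body v) (t i) (s i)) x ↔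
    x ∈ tile (body v) (t i) (s i) ∧ Lex 1 1 (loc v t s x i) := by
  constructor
  · rintro ⟨h1, h2⟩
    refine ⟨h1, fun p hp => ?_⟩
    rcases h2 _ hp with h | ⟨h, h'⟩
    · left; simp only [Prod.fst_add] at h; linarith
    · right
      simp only [Prod.fst_add, Prod.snd_add] at h h'
      constructor <;> linarith
  · rintro ⟨h1, h2⟩
    refine ⟨h1, fun y hy => ?_⟩
    have hp : y - x ∈ loc v t s x i := by
      show x + (y - x) ∈ tile (body v) (t i) (s i)
      rwa [add_sub_cancel]
    rcases h2 _ hp with h | ⟨h, h'⟩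
    · left; simp only [Prod.fst_sub] at h; linarith
    · right
      simp only [Prod.fst_sub, Prod.snd_sub] at h h'
      constructor <;> linarith

theorem lexMin_iff (x : ℝ × ℝ) (i : ι) : LexMin (tile (body v) (t i) (s i)) x ↔
    x ∈ tile (body v) (t i) (s i) ∧ Lex (-1) (-1) (loc v t s x i) := by
  constructor
  · rintro ⟨h1, h2⟩
    refine ⟨h1, fun p hp => ?_⟩
    rcases h2 _ hp with h | ⟨h, h'⟩
    · left; simp only [Prod.fst_add] at h; linarith
    · right
      simp only [Prod.fst_add, Prod.snd_add] at h h'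
      constructor <;> linarith
  · rintro ⟨h1, h2⟩
    refine ⟨h1, fun y hy => ?_⟩
    have hp : y - x ∈ loc v t s x i := by
      show x + (y - x) ∈ tile (body v) (t i) (s i)
      rwa [add_sub_cancel]
    rcases h2 _ hp with h | ⟨h, h'⟩
    · left; simp only [Prod.fst_sub] at h; linarith
    · right
      simp only [Prod.fst_sub, Prod.snd_sub] at h h'
      constructor <;> linarith

theorem HasVtx.mem_t {x : ℝ × ℝ} {i : ι} (h : HasVtx v t s i x) :
    x ∈ tile (body v) (t i) (s i) := by
  obtain ⟨p, rfl⟩ := h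
  exact ⟨v p, vtx_mem_body v p, rfl⟩

theorem HasVtx.pointed (hv : IsPoly v) (hT : Tiling (body v) t s) {x : ℝ × ℝ} {i : ι}
    (h : HasVtx v t s i x) : Pointed (loc v t s x i) := by
  obtain ⟨p, hp⟩ := h
  set e := side v (p - 1) with he
  set f := side v p with hf
  have hD : 0 < det e f := by
    have := hv.turn (p - 1)
    rwa [sub_add_cancel] at this
  refine ⟨(s i * (e + f).2, - (s i * (e + f).1)), ?_⟩
  intro q hq hq0
  have h2 : s i * s i = 1 := by rcases hT.sgn i with h | h <;> rw [h] <;> norm_num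
  have h3 : s i • (x + q - t i) ∈ body v := (mem_tile (hT.sgn i)).1 hq
  have h4 : s i • (x + q - t i) = v p + s i • q := by
    rw [← hp]
    have : t i + s i • v p + q - t i = s i • v p + q := by abel
    rw [this, smul_add, smul_smul, h2, one_smul]
  rw [h4] at h3
  obtain ⟨a, b, ha, hb, hab⟩ := hv.in_cone (p - 1) h3
  rw [sub_add_cancel] at hab
  have h5 : s i • q = a • f - b • e := by
    have := hab
    rw [add_sub_assoc] at this
    exact add_left_cancel this
  have h51 : s i * q.1 = a * f.1 - b * e.1 := by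
    have := congrArg Prod.fst h5
    simpa using this
  have h52 : s i * q.2 = a * f.2 - b * e.2 := by
    have := congrArg Prod.snd h5
    simpa using this
  have h6 : s i * (e + f).2 * q.1 + -(s i * (e + f).1) * q.2 = -((a + b) * det e f) := by
    simp only [Prod.fst_add, Prod.snd_add, det]
    linear_combination (e.2 + f.2) * h51 - (e.1 + f.1) * h52
  simp only at h6 ⊢
  rw [h6]
  have hab0 : 0 < a + b := by
    rcases ha.eq_or_lt with h | h
    · rcases hb.eq_or_lt with h' | h'
      · exfalso
        rw [← h, ← h'] at h5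
        simp only [zero_smul, sub_zero] at h5
        rcases smul_eq_zero.1 h5 with h'' | h''
        · rw [h''] at h2; norm_num at h2
        · exact hq0 h''
      · linarith
    · linarith
  have := mul_pos hab0 hD
  linarith

open Classical in
theorem lc_eq (hv : IsPoly v) (hT : Tiling (body v) t s) (x : ℝ × ℝ) :
    lc v t s x =
    ((finite_at hv hT x).toFinset.filter fun i => Lex 1 1 (loc v t s x i)).card +
    ((finite_at hv hT x).toFinset.filter fun i => Lex (-1) (-1) (loc v t s x i)).card := by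
  unfold lc
  rw [← Set.ncard_coe_finset, ← Set.ncard_coe_finset]
  congr 2
  · ext i
    simp only [Finset.coe_filter, Finite.mem_toFinset, mem_ofPred_eq]
    exact lexMax_iff x i
  · ext i
    simp only [Finset.coe_filter, Finite.mem_toFinset, mem_ofPred_eq]
    exact lexMin_iff x i

theorem card_le_lc (hv : IsPoly v) (hT : Tiling (body v) t s) (x : ℝ × ℝ) :
    Set.ncard {i | x ∈ tile (body v) (t i) (s i)} ≤ lc v t s x + 2 := by
  classical
  have h := localTiling hv hT x
  rw [lc_eq hv hT x]
  set S := (finite_at hv hT x).toFinset with hS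
  set K := loc v t s x with hK
  have hcard : Set.ncard {i | x ∈ tile (body v) (t i) (s i)} = S.card := by
    rw [← Set.ncard_coe_finset, hS, Finite.coe_toFinset]
  rw [hcard]
  set R : ι → Prop := fun i => Has 1 (K i) ∧ ∃ y ∈ K i, (1 : ℝ) * y.1 < 0 with hR
  set L : ι → Prop := fun i => Has (-1) (K i) ∧ ∃ y ∈ K i, (-1 : ℝ) * y.1 < 0 with hL
  have hRu : ∀ i ∈ S, ∀ j ∈ S, R i → R j → i = j := fun i hi j hj h1 h2 =>
    unique_side h (Or.inl rfl) hi hj h1.1 h2.1 h1.2 h2.2
  have hLu : ∀ i ∈ S, ∀ j ∈ S, L i → L j → i = j := fun i hi j hj h1 h2 =>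
    unique_side h (Or.inr rfl) hi hj h1.1 h2.1 h1.2 h2.2
  have hcR : (S.filter R).card ≤ 1 := by
    rw [Finset.card_le_one]
    intro i hi j hj
    simp only [Finset.mem_filter] at hi hj
    exact hRu i hi.1 j hj.1 hi.2 hj.2
  have hcL : (S.filter L).card ≤ 1 := by
    rw [Finset.card_le_one]
    intro i hi j hj
    simp only [Finset.mem_filter] at hi hj
    exact hLu i hi.1 j hj.1 hi.2 hj.2
  have hsub : S ⊆
      (S.filter R ∪ S.filter L) ∪ ((S.filter fun i => Lex 1 1 (K i)) ∪ (S.filter fun i => Lex (-1) (-1) (K i))) := by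
    intro i hi
    simp only [Finset.mem_union, Finset.mem_filter]
    by_cases h1 : Lex 1 1 (K i)
    · exact Or.inr (Or.inl ⟨hi, h1⟩)
    by_cases h2 : Lex (-1) (-1) (K i)
    · exact Or.inr (Or.inr ⟨hi, h2⟩)
    rcases hit_cases (h.conv i hi) (h.int_ne i hi) h1 h2 with h3 | h3
    · exact Or.inl (Or.inl ⟨hi, h3⟩)
    · exact Or.inl (Or.inr ⟨hi, h3⟩)
  have hcard := (Finset.card_le_card hsub).trans (Finset.card_union_le _ _)
  have hcard2 := Finset.card_union_le (S.filter R) (S.filter L)
  have hcard3 := Finset.card_union_le (S.filter fun i => Lex 1 1 (K i)) (S.filter fun i => Lex (-1) (-1) (K i))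
  omega

theorem ptw3 (hv : IsPoly v) (hT : Tiling (body v) t s) (x : ℝ × ℝ) :
    wc v t s x ≤ 3 * lc v t s x := by
  classical
  have h := local_total (localTiling hv hT x)
  rw [lc_eq hv hT x]
  refine le_trans ?_ h
  unfold wc
  rw [← Set.ncard_coe_finset]
  apply Set.ncard_le_ncard _ (Finset.finite_toSet _)
  intro i hi
  have hi' : HasVtx v t s i x := hi
  simp only [Finset.coe_filter, Finite.mem_toFinset, mem_ofPred_eq]
  exact ⟨hi'.mem_t, hi'.pointed hv hT⟩

theorem wc_le (hv : IsPoly v) (hT : Tiling (body v) t s) (x : ℝ × ℝ) :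
    wc v t s x ≤ Set.ncard {i | x ∈ tile (body v) (t i) (s i)} :=
  Set.ncard_le_ncard (fun _ hi => HasVtx.mem_t hi) (finite_at hv hT x)

theorem wc_le_two (hv : IsPoly v) (hT : Tiling (body v) t s) {x : ℝ × ℝ} (h : ¬ Triple v t s x)
    (h3 : Set.ncard {i | x ∈ tile (body v) (t i) (s i)} ≤ 3) : wc v t s x ≤ 2 := by
  by_contra hcon
  have h1 := wc_le hv hT x
  have hW : wc v t s x = 3 := by omega
  have hI : Set.ncard {i | x ∈ tile (body v) (t i) (s i)} = 3 := by omega
  apply h
  have heq : {i | HasVtx v t s i x} = {i | x ∈ tile (body v) (t i) (s i)} :=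
    Set.eq_of_subset_of_ncard_le (fun _ hi => HasVtx.mem_t hi) (by rw [hI]; exact hW.ge)
      (finite_at hv hT x)
  have hc : (finite_at hv hT x).toFinset.card = 3 := by
    rw [← Set.ncard_coe_finset, Finite.coe_toFinset, hI]
  let e := (finite_at hv hT x).toFinset.equivFinOfCardEq hc
  refine ⟨fun k => (e.symm k : ι), ?_, ?_, ?_⟩
  · intro k l hkl
    exact e.symm.injective (Subtype.ext hkl)
  · intro i
    constructor
    · intro hi
      have hi' : i ∈ (finite_at hv hT x).toFinset := by simpa using hi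
      exact ⟨e ⟨i, hi'⟩, by simp⟩
    · rintro ⟨k, rfl⟩
      have := (Finite.mem_toFinset (finite_at hv hT x)).1 (e.symm k).2
      exact this
  · intro k
    have : (e.symm k : ι) ∈ {i | HasVtx v t s i x} := by
      rw [heq]
      exact (Finite.mem_toFinset _).1 (e.symm k).2
    exact this

theorem ptw2 (hv : IsPoly v) (hT : Tiling (body v) t s) {x : ℝ × ℝ} (h : ¬ Triple v t s x) :
    wc v t s x ≤ 2 * lc v t s x := by
  have h1 := wc_le hv hT x
  have h2 := card_le_lc hv hT x
  have h3 := ptw3 hv hT x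
  by_cases h4 : Set.ncard {i | x ∈ tile (body v) (t i) (s i)} ≤ 3
  · have := wc_le_two hv hT h h4
    omega
  · omega

theorem ptw_bad (hv : IsPoly v) (hT : Tiling (body v) t s) {x : ℝ × ℝ}
    (hx : ∃ i, HasVtx v t s i x) (h : ¬ Triple v t s x) :
    wc v t s x + 1 ≤ 3 * lc v t s x := by
  have h1 := wc_le hv hT x
  have h2 := card_le_lc hv hT x
  have h3 := ptw3 hv hT x
  have h0 : 1 ≤ wc v t s x := by
    obtain ⟨i, hi⟩ := hx
    have hfin : {i | HasVtx v t s i x}.Finite :=
      (finite_at hv hT x).subset fun _ hi => HasVtx.mem_t hi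
    exact (Set.ncard_pos hfin).2 ⟨i, hi⟩
  by_cases h4 : Set.ncard {i | x ∈ tile (body v) (t i) (s i)} ≤ 3
  · have := wc_le_two hv hT h h4
    omega
  · omega

end

end Pool.PT56
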