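import Pool.Agent.PT56.Ptw

set_option autoImplicit false
set_option linter.unusedSectionVars false

/-!
# PT56/Tri: three wedges around a point

`W k = {w | 0 ≤ det (a k) w ∧ 0 ≤ det (b k) w}` is the cone spanned by its boundary rays `b k` (start) and
`- a k` (end, counterclockwise).  `- a k` is in the closure of the complement of `W k`, so it lies in some
other (closed) `W j`; it is not in the interior of `W j` (then an open piece of `W k` would lie in the
interior of `W j`), so it is on the ray `b j` or on the ray `- a j`; the second is impossible: both `W k` and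
`W j` would lie on the same side of that ray, with common interior points.  So for every `k` there is
`j ≠ k` with `Dir (- a k) (b j)`; `j` is different for different `k` (`Dir (-a k) (b j)`, `Dir (-a k') (b j)`
would give common interior points again), so `k ↦ j` is a permutation of `Fin 3` without fixed points.
`triple_dir`: at a triple point `x` put `a = s • side v p`, `b = s • side v (p + 1)` for the tile with vertex
`v (p + 1)` at `x` (`near_vertex`): cover and disjointness near `x` and scaling give the hypotheses.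
-/

namespace Pool.PT56

open Set Filter Topology

private theorem det_neg_right (a w : ℝ × ℝ) : det a (-w) = -det a w := by
  simp only [det, Prod.fst_neg, Prod.snd_neg]; ring

private theorem det_add_right (a w z : ℝ × ℝ) : det a (w + z) = det a w + det a z := by
  simp only [det, Prod.fst_add, Prod.snd_add]; ring

private theorem det_smul_right (a w : ℝ × ℝ) (c : ℝ) : det a (c • w) = c * det a w := by
  simp only [det, Prod.smul_fst, Prod.smul_snd, smul_eq_mul]; ring

private theorem det_smul_left (a w : ℝ × ℝ) (c : ℝ) : det (c • a) w = c * det a w := by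
  simp only [det, Prod.smul_fst, Prod.smul_snd, smul_eq_mul]; ring

private theorem det_self0 (a : ℝ × ℝ) : det a a = 0 := by
  simp only [det]; ring

private theorem det_anti (a b : ℝ × ℝ) : det b a = -det a b := by
  simp only [det]; ring

/-- small positive perturbations keep a positive number positive -/
private theorem ev_pos {p : ℝ} (hp : 0 < p) (q : ℝ) : ∀ᶠ δ : ℝ in 𝓝[>] 0, 0 < p + δ * q := by
  have h : Tendsto (fun δ : ℝ => p + δ * q) (𝓝[>] 0) (𝓝 (p + 0 * q)) := by
    have hc : Continuous fun δ : ℝ => p + δ * q := by fun_prop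
    exact (hc.tendsto 0).mono_left nhdsWithin_le_nhds
  rw [zero_mul, add_zero] at h
  exact h.eventually (lt_mem_nhds hp)

/-- one boundary ray of a wedge is the start ray of another wedge -/
private theorem next_wedge (a b : Fin 3 → ℝ × ℝ) (h : ∀ k, 0 < det (a k) (b k))
    (hcov : ∀ w : ℝ × ℝ, ∃ k, 0 ≤ det (a k) w ∧ 0 ≤ det (b k) w)
    (hdis : ∀ k j, k ≠ j → ∀ w : ℝ × ℝ,
      ¬ (0 < det (a k) w ∧ 0 < det (b k) w ∧ 0 < det (a j) w ∧ 0 < det (b j) w)) (k : Fin 3) :
    ∃ j, j ≠ k ∧ Dir (-(a k)) (b j) := by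
  -- `-a k` lies in another wedge
  have h1 : ∃ j, j ≠ k ∧ 0 ≤ det (a j) (-(a k)) ∧ 0 ≤ det (b j) (-(a k)) := by
    by_contra hcon
    push Not at hcon
    have hev : ∀ j, ∀ᶠ δ : ℝ in 𝓝[>] 0,
        ¬ (0 ≤ det (a j) (-(a k) + δ • (-(b k))) ∧ 0 ≤ det (b j) (-(a k) + δ • (-(b k)))) := by
      intro j
      by_cases hj : j = k
      · subst hj
        filter_upwards [self_mem_nhdsWithin] with δ hδ
        have hδ : 0 < δ := hδ
        intro hh
        have h2 := hh.1
        rw [det_add_right, det_smul_right, det_neg_right, det_neg_right, det_self0] at h2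
        have := mul_pos hδ (h j)
        linarith
      · rcases lt_or_ge (det (a j) (-(a k))) 0 with hn | hn
        · have := ev_pos (p := -det (a j) (-(a k))) (by linarith) (-det (a j) (-(b k)))
          filter_upwards [this] with δ hδ
          intro hh
          have h2 := hh.1
          rw [det_add_right, det_smul_right] at h2
          linarith
        · have hn2 := hcon j hj hn
          have := ev_pos (p := -det (b j) (-(a k))) (by linarith) (-det (b j) (-(b k)))
          filter_upwards [this] with δ hδ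
          intro hh
          have h2 := hh.2
          rw [det_add_right, det_smul_right] at h2
          linarith
    obtain ⟨δ, hδ⟩ := (eventually_all.2 hev).exists
    obtain ⟨j, hj⟩ := hcov (-(a k) + δ • (-(b k)))
    exact hδ j hj
  obtain ⟨j, hjk, hj1, hj2⟩ := h1
  refine ⟨j, hjk, ?_⟩
  -- `det (b j) (-a k) = 0`
  have hz : det (b j) (-(a k)) = 0 := by
    by_contra hne
    have hpos : 0 < det (b j) (-(a k)) := lt_of_le_of_ne hj2 (Ne.symm hne)
    have key : ∀ᶠ δ : ℝ in 𝓝[>] 0, 0 < det (a j) (-(a k)) + δ * det (a j) (b k) := by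
      rcases hj1.eq_or_lt with h0 | h0
      · -- `a k` is a positive multiple of `a j`
        have h0' : det (a j) (a k) = 0 := by
          rw [det_neg_right] at h0; linarith
        have hb : det (b j) (a k) < 0 := by
          rw [det_neg_right] at hpos; linarith
        have hD := h j
        -- `det (a j) (b j) • a k = - det (b j) (a k) • a j`
        have h3 : det (a j) (b j) * det (a k) (b k) = -det (b j) (a k) * det (a j) (b k) := by
          have h4 : det (a j) (b j) * (a k).1 = -det (b j) (a k) * (a j).1 := by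
            simp only [det] at h0' ⊢
            linear_combination (b j).1 * h0'
          have h5 : det (a j) (b j) * (a k).2 = -det (b j) (a k) * (a j).2 := by
            simp only [det] at h0' ⊢
            linear_combination (b j).2 * h0'
          have e1 : det (a k) (b k) = (a k).1 * (b k).2 - (a k).2 * (b k).1 := rfl
          have e2 : det (a j) (b k) = (a j).1 * (b k).2 - (a j).2 * (b k).1 := rfl
          rw [e1, e2]
          linear_combination (b k).2 * h4 - (b k).1 * h5
        have h6 : 0 < det (a j) (b k) := by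
          have h7 : 0 < det (a j) (b j) * det (a k) (b k) := mul_pos hD (h k)
          rw [h3] at h7
          exact (mul_pos_iff_of_pos_left (by linarith)).1 h7
        filter_upwards [self_mem_nhdsWithin] with δ hδ
        have hδ : 0 < δ := hδ
        rw [← h0]
        have := mul_pos hδ h6
        linarith
      · exact ev_pos h0 _
    have key2 := ev_pos hpos (det (b j) (b k))
    have key3 : ∀ᶠ δ : ℝ in 𝓝[>] 0, 0 < δ := self_mem_nhdsWithin
    obtain ⟨δ, hk1, hk2, hk3⟩ := (key.and (key2.and key3)).exists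
    refine hdis k j (Ne.symm hjk) (-(a k) + δ • b k) ⟨?_, ?_, ?_, ?_⟩
    · rw [det_add_right, det_smul_right, det_neg_right, det_self0]
      have := mul_pos hk3 (h k)
      linarith
    · rw [det_add_right, det_smul_right, det_neg_right, det_self0, det_anti]
      have := h k
      linarith
    · rw [det_add_right, det_smul_right]
      exact hk1
    · rw [det_add_right, det_smul_right]
      exact hk2
  -- so `-a k` is a nonnegative multiple of `b j`
  have hD := h j
  have hak : a k ≠ 0 := by
    intro h0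
    have := h k
    rw [h0] at this
    simp [det] at this
  refine ⟨det (a j) (-(a k)) / det (a j) (b j), ?_, ?_⟩
  · rcases hj1.eq_or_lt with h0 | h0
    · exfalso
      apply hak
      have e1 : det (a j) (b j) * (a k).1 = 0 := by
        rw [det_neg_right] at hz h0
        simp only [det] at hz h0 ⊢
        linear_combination (b j).1 * h0 + (a j).1 * hz
      have e2 : det (a j) (b j) * (a k).2 = 0 := by
        rw [det_neg_right] at hz h0
        simp only [det] at hz h0 ⊢
        linear_combination (b j).2 * h0 + (a j).2 * hz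
      ext
      · simpa using (mul_eq_zero.1 e1).resolve_left hD.ne'
      · simpa using (mul_eq_zero.1 e2).resolve_left hD.ne'
    · exact div_pos h0 hD
  · have e1 : det (a j) (b j) * (-(a k)).1 = det (a j) (-(a k)) * (b j).1 := by
      simp only [det] at hz ⊢
      linear_combination (-(a j).1) * hz
    have e2 : det (a j) (b j) * (-(a k)).2 = det (a j) (-(a k)) * (b j).2 := by
      simp only [det] at hz ⊢
      linear_combination (-(a j).2) * hz
    ext
    · simp only [Prod.smul_fst, smul_eq_mul]
      field_simp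
      linarith
    · simp only [Prod.smul_snd, smul_eq_mul]
      field_simp
      linarith

theorem three_wedges (a b : Fin 3 → ℝ × ℝ) (h : ∀ k, 0 < det (a k) (b k))
    (hcov : ∀ w : ℝ × ℝ, ∃ k, 0 ≤ det (a k) w ∧ 0 ≤ det (b k) w)
    (hdis : ∀ k j, k ≠ j → ∀ w : ℝ × ℝ,
      ¬ (0 < det (a k) w ∧ 0 < det (b k) w ∧ 0 < det (a j) w ∧ 0 < det (b j) w)) :
    (Dir (-(a 0)) (b 1) ∧ Dir (-(a 1)) (b 2) ∧ Dir (-(a 2)) (b 0)) ∨
      (Dir (-(a 0)) (b 2) ∧ Dir (-(a 2)) (b 1) ∧ Dir (-(a 1)) (b 0)) := by
  choose f hf1 hf2 using next_wedge a b h hcov hdis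
  have hinj : Function.Injective f := by
    intro k k' hkk
    by_contra hne
    obtain ⟨c, hc, hc'⟩ := hf2 k
    obtain ⟨d, hd, hd'⟩ := hf2 k'
    rw [← hkk] at hd'
    -- `a k' = (d / c) a k`
    have hak : a k' = (d / c) • a k := by
      have h1 : -(a k') = (d / c) • -(a k) := by
        rw [hc', hd', smul_smul]
        congr 1
        field_simp
      rw [smul_neg, neg_inj] at h1
      exact h1
    have hdc : 0 < d / c := div_pos hd hc
    have key := ev_pos (p := det (b k') (-(a k))) (by
      have h2 := h k'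
      rw [hak, det_smul_left] at h2
      rw [det_neg_right, ← det_anti]
      exact (mul_pos_iff_of_pos_left hdc).1 h2) (det (b k') (b k))
    have key3 : ∀ᶠ δ : ℝ in 𝓝[>] 0, 0 < δ := self_mem_nhdsWithin
    obtain ⟨δ, hk1, hk3⟩ := (key.and key3).exists
    have hpos : 0 < det (a k) (-(a k) + δ • b k) := by
      rw [det_add_right, det_smul_right, det_neg_right, det_self0]
      have := mul_pos hk3 (h k)
      linarith
    refine hdis k k' hne (-(a k) + δ • b k) ⟨hpos, ?_, ?_, ?_⟩
    · rw [det_add_right, det_smul_right, det_neg_right, det_self0, det_anti]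
      have := h k
      linarith
    · rw [hak, det_smul_left]
      exact mul_pos hdc hpos
    · rw [det_add_right, det_smul_right]
      exact hk1
  have hperm : ∀ f : Fin 3 → Fin 3, (∀ k, f k ≠ k) → Function.Injective f →
      (f 0 = 1 ∧ f 1 = 2 ∧ f 2 = 0) ∨ (f 0 = 2 ∧ f 2 = 1 ∧ f 1 = 0) := by decide
  rcases hperm f hf1 hinj with ⟨h0, h1, h2⟩ | ⟨h0, h2, h1⟩
  · left
    exact ⟨h0 ▸ hf2 0, h1 ▸ hf2 1, h2 ▸ hf2 2⟩
  · right
    exact ⟨h0 ▸ hf2 0, h2 ▸ hf2 2, h1 ▸ hf2 1⟩

/-- the tile `i` with the vertex `v (p + 1)` at `x`, near `x` -/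
private theorem loc_vertex {n : ℕ} {v : ZMod n → ℝ × ℝ} (hv : IsPoly v) {ι : Type} {t : ι → ℝ × ℝ}
    {s : ι → ℝ} (hT : Tiling (body v) t s) {x : ℝ × ℝ} {i : ι} {p : ZMod n}
    (hp : t i + s i • v (p + 1) = x) :
    ∀ᶠ w : ℝ × ℝ in 𝓝 0, (w ∈ loc v t s x i ↔
      0 ≤ det (s i • side v p) w ∧ 0 ≤ det (s i • side v (p + 1)) w) := by
  have h2 : s i * s i = 1 := by rcases hT.sgn i with h | h <;> rw [h] <;> norm_num
  have hc : Tendsto (fun w : ℝ × ℝ => s i • w) (𝓝 0) (𝓝 0) := by
    have : Continuous fun w : ℝ × ℝ => s i • w := by fun_prop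
    simpa using this.tendsto 0
  filter_upwards [hc.eventually (hv.near_vertex p)] with w hw
  have h4 : s i • (x + w - t i) = v (p + 1) + s i • w := by
    rw [← hp]
    have : t i + s i • v (p + 1) + w - t i = s i • v (p + 1) + w := by abel
    rw [this, smul_add, smul_smul, h2, one_smul]
  have h5 : w ∈ loc v t s x i ↔ v (p + 1) + s i • w ∈ body v := by
    rw [← h4]
    exact mem_tile (hT.sgn i)
  rw [h5, hw, det_smul_right, det_smul_right, det_smul_left, det_smul_left]

/-- the interior of the tile `i` near its vertex -/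
private theorem int_loc_vertex {n : ℕ} {v : ZMod n → ℝ × ℝ} (hv : IsPoly v) {ι : Type} {t : ι → ℝ × ℝ}
    {s : ι → ℝ} (hT : Tiling (body v) t s) {x : ℝ × ℝ} {i : ι} {p : ZMod n}
    (hp : t i + s i • v (p + 1) = x) (w : ℝ × ℝ) (h1 : 0 < det (s i • side v p) w)
    (h2 : 0 < det (s i • side v (p + 1)) w) :
    ∀ᶠ δ : ℝ in 𝓝[>] 0, δ • w ∈ interior (loc v t s x i) := by
  obtain ⟨U, hU, hUo, hU0⟩ := eventually_nhds_iff.1 (loc_vertex hv hT hp)
  have hc : Tendsto (fun δ : ℝ => δ • w) (𝓝[>] 0) (𝓝 0) := by
    have : Continuous fun δ : ℝ => δ • w := by fun_prop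
    have h := this.tendsto 0
    rw [zero_smul] at h
    exact h.mono_left nhdsWithin_le_nhds
  filter_upwards [hc.eventually (hUo.mem_nhds hU0), self_mem_nhdsWithin] with δ hδU hδ
  have hδ : 0 < δ := hδ
  rw [mem_interior]
  have hc1 : ∀ a : ℝ × ℝ, Continuous fun z : ℝ × ℝ => det a z := by
    intro a
    unfold det
    fun_prop
  refine ⟨U ∩ ({z | 0 < det (s i • side v p) z} ∩ {z | 0 < det (s i • side v (p + 1)) z}),
    ?_, hUo.inter ((isOpen_lt continuous_const (hc1 _)).inter
      (isOpen_lt continuous_const (hc1 _))), hδU, ?_, ?_⟩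
  · rintro z ⟨hz, hz1, hz2⟩
    exact (hU z hz).2 ⟨le_of_lt hz1, le_of_lt hz2⟩
  · show 0 < det (s i • side v p) (δ • w)
    rw [det_smul_right]
    exact mul_pos hδ h1
  · show 0 < det (s i • side v (p + 1)) (δ • w)
    rw [det_smul_right]
    exact mul_pos hδ h2

/-- the three tiles at a triple point in counterclockwise order: tile `i k` has its vertex
`v (p k + 1)` at `x`; the end ray of one is the start ray of the next -/
theorem triple_dir {n : ℕ} {v : ZMod n → ℝ × ℝ} (hv : IsPoly v) {ι : Type} {t : ι → ℝ × ℝ}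
    {s : ι → ℝ} (hT : Tiling (body v) t s) {x : ℝ × ℝ} (hx : Triple v t s x) :
    ∃ (i : Fin 3 → ι) (p : Fin 3 → ZMod n), Function.Injective i ∧
      (∀ j, x ∈ tile (body v) (t j) (s j) ↔ ∃ k, i k = j) ∧
      (∀ k, t (i k) + s (i k) • v (p k + 1) = x) ∧
      Dir (-(s (i 0) • side v (p 0))) (s (i 1) • side v (p 1 + 1)) ∧
      Dir (-(s (i 1) • side v (p 1))) (s (i 2) • side v (p 2 + 1)) ∧
      Dir (-(s (i 2) • side v (p 2))) (s (i 0) • side v (p 0 + 1)) := by
  obtain ⟨f, hf, hmem, hvtx⟩ := hx
  choose q hq using hvtx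
  have hp : ∀ k, t (f k) + s (f k) • v (q k - 1 + 1) = x := by
    intro k
    rw [sub_add_cancel]
    exact hq k
  have hturn : ∀ k, 0 < det (s (f k) • side v (q k - 1)) (s (f k) • side v (q k - 1 + 1)) := by
    intro k
    have h2 : s (f k) * s (f k) = 1 := by rcases hT.sgn (f k) with h | h <;> rw [h] <;> norm_num
    rw [det_smul_left, det_smul_right, ← mul_assoc, h2, one_mul]
    exact hv.turn _
  have hcov : ∀ w : ℝ × ℝ, ∃ k, 0 ≤ det (s (f k) • side v (q k - 1)) w ∧
      0 ≤ det (s (f k) • side v (q k - 1 + 1)) w := by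
    intro w
    have hc : Tendsto (fun δ : ℝ => δ • w) (𝓝[>] 0) (𝓝 0) := by
      have : Continuous fun δ : ℝ => δ • w := by fun_prop
      have h := this.tendsto 0
      rw [zero_smul] at h
      exact h.mono_left nhdsWithin_le_nhds
    have h1 : ∀ᶠ δ : ℝ in 𝓝[>] 0,
        δ • w ∈ ⋃ i ∈ (finite_at hv hT x).toFinset, loc v t s x i :=
      hc (localTiling hv hT x).cover
    have h2 : ∀ᶠ δ : ℝ in 𝓝[>] 0, ∀ k : Fin 3, (δ • w ∈ loc v t s x (f k) ↔
        0 ≤ det (s (f k) • side v (q k - 1)) (δ • w) ∧
        0 ≤ det (s (f k) • side v (q k - 1 + 1)) (δ • w)) :=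
      eventually_all.2 fun k => hc.eventually (loc_vertex hv hT (hp k))
    have h3 : ∀ᶠ δ : ℝ in 𝓝[>] 0, 0 < δ := self_mem_nhdsWithin
    obtain ⟨δ, hδ1, hδ2, hδ3⟩ := (h1.and (h2.and h3)).exists
    simp only [mem_iUnion, Finite.mem_toFinset, mem_ofPred_eq, exists_prop] at hδ1
    obtain ⟨i, hi, hwi⟩ := hδ1
    obtain ⟨k, hk⟩ := (hmem i).1 hi
    subst hk
    have h5 := (hδ2 k).1 hwi
    rw [det_smul_right, det_smul_right] at h5
    refine ⟨k, ?_, ?_⟩
    · exact (mul_nonneg_iff_of_pos_left hδ3).1 h5.1
    · exact (mul_nonneg_iff_of_pos_left hδ3).1 h5.2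
  have hdis : ∀ k j, k ≠ j → ∀ w : ℝ × ℝ,
      ¬ (0 < det (s (f k) • side v (q k - 1)) w ∧ 0 < det (s (f k) • side v (q k - 1 + 1)) w ∧
        0 < det (s (f j) • side v (q j - 1)) w ∧
        0 < det (s (f j) • side v (q j - 1 + 1)) w) := by
    rintro k j hkj w ⟨h1, h2, h3, h4⟩
    obtain ⟨δ, hδ1, hδ2⟩ := ((int_loc_vertex hv hT (hp k) w h1 h2).and
      (int_loc_vertex hv hT (hp j) w h3 h4)).exists
    rw [interior_loc] at hδ1 hδ2
    exact Set.disjoint_left.1 (hT.dis (f k) (f j) (fun e => hkj (hf e))) hδ1 hδ2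
  rcases three_wedges (fun k => s (f k) • side v (q k - 1))
    (fun k => s (f k) • side v (q k - 1 + 1)) hturn hcov hdis with ⟨h0, h1, h2⟩ | ⟨h0, h1, h2⟩
  · exact ⟨f, fun k => q k - 1, hf, hmem, hp, h0, h1, h2⟩
  · -- the order `0, 2, 1`
    refine ⟨fun k => f (![0, 2, 1] k), fun k => q (![0, 2, 1] k) - 1, ?_, ?_, ?_, ?_, ?_, ?_⟩
    · exact hf.comp (by decide)
    · intro j
      rw [hmem j]
      constructor
      · rintro ⟨k, rfl⟩
        refine ⟨![0, 2, 1] k, ?_⟩
        have : ∀ k : Fin 3, (![0, 2, 1] : Fin 3 → Fin 3) ((![0, 2, 1] : Fin 3 → Fin 3) k) = k := by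
          decide
        show f _ = f k
        rw [this]
      · rintro ⟨k, rfl⟩
        exact ⟨_, rfl⟩
    · intro k
      exact hp _
    · exact h0
    · exact h1
    · exact h2

end Pool.PT56
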