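import Pool.Agent.PT56.PolyF
import Pool.Agent.PT56.Count
import Pool.Agent.PT56.Ptw
import Pool.Agent.PT56.Tri

set_option autoImplicit false
set_option linter.unusedSectionVars false

/-!
# PT56/Nec: polygons that tile

`triple_anti`: at a triple point the product of the three signs `s (i k) s (i (k+1))` is `1`, so some
consecutive pair of tiles has equal signs; rotate so that it is `(0, 1)`: `Dir (-(side v (p 0))) (side v (p 1 + 1))`.
`hex_index` (n = 6, `q = p 0`, `r = p 1 + 1`, `s 0 = s 1`, third tile `2`, `p = p 2`): if `s 2 ≠ s 0`: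
`Dir (side v (r-1)) (side v (p+1))`, `Dir (side v p) (side v (q+1))`, so `r - 1 = p + 1`, `p = q + 1`, `r = q + 3`.
If `s 2 = s 0`: the pairs `{q, r}`, `{r-1, p+1}`, `{p, q+1}` are antiparallel; adjacent sides are not
parallel and an antiparallel partner is unique; check all `r, p` in `ZMod 6` (`decide`/`fin_cases`): `r = q + 3`.
`hex_equal`: if moreover all the vertex points of tiles within distance `D` of `x` are triple, then the two
shared sides have the same length: `- side v q = c • side v r`; if `c > 1` the point `y = x + s • side v r`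
is a vertex of tile `1` and an interior point of a side of tile `0`, so it is not a triple point (the
vertices of tile `0` are not in its open sides); `c < 1`: the same with `x - s • side v q`.
`good_of_tiles`: `n ≤ 6` by `count_main` (`b = 3`, `ptw3`).  `n = 5`: some point is triple (otherwise `ptw2` and
`count_main` with `b = 2`), and `triple_anti` gives antiparallel sides `i, j`; `j = i + 2` or `i = j + 2`.
`n = 6`: let `β` be the set of the points that are vertices of some tile and not triple; by `ptw3`,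
`ptw_bad` the hypothesis `hp` of `count_bad` holds with `b = 3`; so there is a tile `i` such that no `y ∈ β`
is within distance `ρ = D + 1` of a point of it; take a vertex `x` of this tile: it is triple, and so are
all vertex points within distance `D` of it.
-/

namespace Pool.PT56

open Set Filter Topology Metric

/-! ### Directions -/

theorem Dir.of_smul {a b : ℝ × ℝ} {σ : ℝ} (hσ : σ = 1 ∨ σ = -1)
    (h : Dir (-(σ • a)) (σ • b)) : Dir (-a) b := by
  obtain ⟨c, hc, h⟩ := h
  refine ⟨c, hc, ?_⟩
  rcases hσ with rfl | rfl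
  · simpa using h
  · simp only [neg_smul, one_smul, neg_neg, smul_neg] at h
    rw [h]; simp

theorem Dir.symm_anti {a b : ℝ × ℝ} (h : Dir (-a) b) : Dir (-b) a := by
  obtain ⟨c, hc, h⟩ := h
  refine ⟨c⁻¹, inv_pos.2 hc, ?_⟩
  have h1 : a = -(c • b) := by rw [← h, neg_neg]
  rw [h1, smul_neg, smul_smul, inv_mul_cancel₀ hc.ne', one_smul]

theorem Dir.of_anti_anti {a b c : ℝ × ℝ} (h1 : Dir (-a) b) (h2 : Dir (-a) c) : Dir b c := by
  obtain ⟨r, hr, h1⟩ := h1
  obtain ⟨q, hq, h2⟩ := h2
  refine ⟨r⁻¹ * q, by positivity, ?_⟩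
  rw [mul_smul, ← h2, h1, smul_smul, inv_mul_cancel₀ hr.ne', one_smul]

theorem det_eq_zero_of_anti {a b : ℝ × ℝ} (h : Dir (-a) b) : det a b = 0 := by
  obtain ⟨c, -, h⟩ := h
  have h1 : a.1 = -(c * b.1) := by
    have := congrArg Prod.fst h
    simp at this
    linarith
  have h2 : a.2 = -(c * b.2) := by
    have := congrArg Prod.snd h
    simp at this
    linarith
  unfold det
  rw [h1, h2]; ring

section

variable {n : ℕ} {v : ZMod n → ℝ × ℝ} {ι : Type} {t : ι → ℝ × ℝ} {s : ι → ℝ}

/-- at a triple point two consecutive tiles have equal signs -/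
theorem triple_anti (hv : IsPoly v) (hT : Tiling (body v) t s) {x : ℝ × ℝ}
    (hx : Triple v t s x) : ∃ (i j l : ι) (p q r : ZMod n), s i = s j ∧ i ≠ j ∧ j ≠ l ∧ l ≠ i ∧
      t i + s i • v (p + 1) = x ∧ t j + s j • v (q + 1) = x ∧ t l + s l • v (r + 1) = x ∧
      Dir (-(side v p)) (side v (q + 1)) ∧
      Dir (-(s j • side v q)) (s l • side v (r + 1)) ∧
      Dir (-(s l • side v r)) (s i • side v (p + 1)) := by
  obtain ⟨i, p, hi, -, hp, h0, h1, h2⟩ := triple_dir hv hT hx
  have h01 : i 0 ≠ i 1 := fun h => by have := hi h; exact absurd this (by decide)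
  have h12 : i 1 ≠ i 2 := fun h => by have := hi h; exact absurd this (by decide)
  have h20 : i 2 ≠ i 0 := fun h => by have := hi h; exact absurd this (by decide)
  by_cases e01 : s (i 0) = s (i 1)
  · refine ⟨i 0, i 1, i 2, p 0, p 1, p 2, e01, h01, h12, h20, hp 0, hp 1, hp 2, ?_, h1, h2⟩
    rw [← e01] at h0
    exact h0.of_smul (hT.sgn _)
  by_cases e12 : s (i 1) = s (i 2)
  · refine ⟨i 1, i 2, i 0, p 1, p 2, p 0, e12, h12, h20, h01, hp 1, hp 2, hp 0, ?_, h2, h0⟩
    rw [← e12] at h1
    exact h1.of_smul (hT.sgn _)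
  have e20 : s (i 2) = s (i 0) := by
    rcases hT.sgn (i 0) with a | a <;> rcases hT.sgn (i 1) with b | b <;>
      rcases hT.sgn (i 2) with c | c <;> rw [a, b] at e01 <;> rw [b, c] at e12 <;> rw [a, c] <;>
      first | rfl | exact absurd rfl e01 | exact absurd rfl e12
  refine ⟨i 2, i 0, i 1, p 2, p 0, p 1, e20, h20, h01, h12, hp 2, hp 0, hp 1, ?_, h0, h1⟩
  rw [← e20] at h2
  exact h2.of_smul (hT.sgn _)

/-- the finite check -/
theorem hex_finite : ∀ p q r : ZMod 6,
    (p ≠ q + 1 ∧ q + 1 ≠ p + 1 ∧ p ≠ q + 1 + 1) →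
    (q ≠ r + 1 ∧ r + 1 ≠ q + 1 ∧ q ≠ r + 1 + 1) →
    (r ≠ p + 1 ∧ p + 1 ≠ r + 1 ∧ r ≠ p + 1 + 1) →
    (p = r + 1 → q + 1 = q) → (q + 1 = q → p = r + 1) →
    (q = p + 1 → r + 1 = r) → (r + 1 = r → q = p + 1) →
    (r = q + 1 → p + 1 = p) → (p + 1 = p → r = q + 1) → q + 1 = p + 3 := by
  decide

/-- the combinatorics in `ZMod 6` -/
theorem hex_index {v : ZMod 6 → ℝ × ℝ} (hv : IsPoly v) {σ τ : ℝ} (hσ : σ = 1 ∨ σ = -1)
    (hτ : τ = 1 ∨ τ = -1) {p q r : ZMod 6} (h1 : Dir (-(side v p)) (side v (q + 1)))
    (h2 : Dir (-(σ • side v q)) (τ • side v (r + 1)))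
    (h3 : Dir (-(τ • side v r)) (σ • side v (p + 1))) : q + 1 = p + 3 := by
  by_cases hst : σ = τ
  · subst hst
    have h2' := h2.of_smul hσ
    have h3' := h3.of_smul hσ
    have uniq : ∀ {a b c : ZMod 6}, Dir (-(side v a)) (side v b) → Dir (-(side v a)) (side v c) →
        b = c := fun ha hb => hv.side_inj (ha.of_anti_anti hb)
    have a1 := hv.side_anti_ne h1
    have a2 := hv.side_anti_ne h2'
    have a3 := hv.side_anti_ne h3'
    refine hex_finite p q r a1 a2 a3 ?_ ?_ ?_ ?_ ?_ ?_
    · intro e
      rw [e] at h1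
      exact uniq h1 h2'.symm_anti
    · intro e
      have := h1.symm_anti
      rw [e] at this
      exact uniq this h2'
    · intro e
      rw [e] at h2'
      exact uniq h2' h3'.symm_anti
    · intro e
      have := h2'.symm_anti
      rw [e] at this
      exact (uniq this h3')
    · intro e
      rw [e] at h3'
      exact uniq h3' h1.symm_anti
    · intro e
      have := h3'.symm_anti
      rw [e] at this
      exact uniq this h1
  · have hτ' : τ = -σ := by
      rcases hσ with rfl | rfl <;> rcases hτ with rfl | rfl <;> first | exact absurd rfl hst | norm_num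
    subst hτ'
    have e2 : q = r + 1 := by
      apply hv.side_inj
      obtain ⟨c, hc, h⟩ := h2
      refine ⟨c, hc, ?_⟩
      rcases hσ with rfl | rfl <;> simpa using h
    have e3 : r = p + 1 := by
      apply hv.side_inj
      obtain ⟨c, hc, h⟩ := h3
      refine ⟨c, hc, ?_⟩
      rcases hσ with rfl | rfl <;> simpa using h
    rw [e2, e3]; ring

/-- a point of an open side is not a vertex -/
theorem IsPoly.not_vtx (hv : IsPoly v) {p m : ZMod n} {r : ℝ} (h0 : 0 < r) (h1 : r < 1)
    (h : v m = v p + r • side v p) : False := by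
  have hd : det (side v p) (v m - v p) = 0 := by
    rw [h, add_sub_cancel_left]
    unfold det
    simp only [Prod.smul_fst, Prod.smul_snd, smul_eq_mul]
    ring
  by_cases hm : m = p
  · rw [hm] at h
    have h2 : r • side v p = 0 := by
      have := h.symm
      rwa [add_eq_left] at this
    rcases smul_eq_zero.1 h2 with h3 | h3
    · exact h0.ne' h3
    · exact hv.side_ne p h3
  by_cases hm1 : m = p + 1
  · rw [hm1] at h
    have h2 : (1 - r) • side v p = 0 := by
      have e : side v p = v (p + 1) - v p := rfl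
      have : side v p = r • side v p := by
        calc side v p = v (p + 1) - v p := rfl
          _ = (v p + r • side v p) - v p := by rw [← h]
          _ = r • side v p := by rw [add_sub_cancel_left]
      rw [sub_smul, one_smul, ← this, sub_self]
    rcases smul_eq_zero.1 h2 with h3 | h3
    · linarith
    · exact hv.side_ne p h3
  have := hv.pos p m hm hm1
  rw [show v (p + 1) - v p = side v p from rfl, hd] at this
  exact lt_irrefl _ this

/-- a point of an open side of a tile is not a triple point -/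
theorem not_triple_of_side (hv : IsPoly v) (hT : Tiling (body v) t s) {i : ι} {p : ZMod n} {r : ℝ}
    (h0 : 0 < r) (h1 : r < 1) {y : ℝ × ℝ} (hy : y = t i + s i • (v p + r • side v p)) :
    ¬ Triple v t s y := by
  rintro ⟨f, -, hf, hvt⟩
  have hmem : v p + r • side v p ∈ body v := by
    have := (convex_body v) (vtx_mem_body v p) (vtx_mem_body v (p + 1))
      (sub_nonneg.2 h1.le) h0.le (by ring : (1 - r) + r = 1)
    have e : (1 - r) • v p + r • v (p + 1) = v p + r • side v p := by
      unfold side
      rw [sub_smul, one_smul, smul_sub]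
      abel
    rwa [e] at this
  have hyT : y ∈ tile (body v) (t i) (s i) := ⟨_, hmem, hy.symm⟩
  obtain ⟨k, hk⟩ := (hf i).1 hyT
  obtain ⟨m, hm⟩ := hvt k
  rw [hk, hy] at hm
  have hs0 : s i ≠ 0 := by rcases hT.sgn i with hs | hs <;> rw [hs] <;> norm_num
  have h2 : v m = v p + r • side v p :=
    smul_right_injective _ hs0 (add_left_cancel hm)
  exact hv.not_vtx h0 h1 h2

/-- if all vertex points near a triple point are triple, the shared sides are equal -/
theorem triple_equal (hv : IsPoly v) (hT : Tiling (body v) t s) {x : ℝ × ℝ} {D : ℝ}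
    (hD : ∀ i, ∀ x ∈ tile (body v) (t i) (s i), ∀ y ∈ tile (body v) (t i) (s i), dist x y ≤ D)
    (hg : ∀ y, dist y x ≤ D → (∃ i, HasVtx v t s i y) → Triple v t s y)
    {i j : ι} {p q : ZMod n} (hs : s i = s j) (hij : i ≠ j)
    (hi : t i + s i • v (p + 1) = x) (hj : t j + s j • v (q + 1) = x)
    (h : Dir (-(side v p)) (side v (q + 1))) : side v (q + 1) = -(side v p) := by
  obtain ⟨c, hc, h⟩ := h
  have hmem : ∀ (i : ι) (m : ZMod n), t i + s i • v m ∈ tile (body v) (t i) (s i) :=
    fun i m => ⟨v m, vtx_mem_body v m, rfl⟩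
  rcases lt_trichotomy c 1 with hc1 | hc1 | hc1
  · -- the start point of side `p` of tile `i` is in the open side `q + 1` of tile `j`
    exfalso
    set y := t i + s i • v p with hy
    have hyx : dist y x ≤ D := by
      rw [← hi]
      exact hD i _ (hmem i p) _ (hmem i (p + 1))
    have hT1 := hg y hyx ⟨i, p, rfl⟩
    refine not_triple_of_side hv hT (i := j) (p := q + 1) (r := c) hc hc1 ?_ hT1
    have e1 : side v p = v (p + 1) - v p := rfl
    have e2 : v p = v (p + 1) + c • side v (q + 1) := by
      rw [← h, e1]; abel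
    rw [hy, e2, smul_add, ← add_assoc, hi, ← hj, hs, smul_add]
    abel
  · rw [hc1, one_smul] at h
    exact h.symm
  · -- the end point of side `q + 1` of tile `j` is in the open side `p` of tile `i`
    exfalso
    set y := t j + s j • v (q + 1 + 1) with hy
    have hyx : dist y x ≤ D := by
      rw [← hj]
      exact hD j _ (hmem j _) _ (hmem j (q + 1))
    have hT1 := hg y hyx ⟨j, q + 1 + 1, rfl⟩
    have hcpos : 0 < c⁻¹ := inv_pos.2 hc
    have hc2 : c⁻¹ < 1 := inv_lt_one_of_one_lt₀ hc1
    refine not_triple_of_side hv hT (i := i) (p := p) (r := 1 - c⁻¹) (by linarith) (by linarith)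
      ?_ hT1
    have e1 : side v p = v (p + 1) - v p := rfl
    have e2 : side v (q + 1) = v (q + 1 + 1) - v (q + 1) := rfl
    have e3 : side v (q + 1) = -(c⁻¹ • side v p) := by
      rw [← smul_neg, h, smul_smul, inv_mul_cancel₀ hc.ne', one_smul]
    have e4 : v (q + 1 + 1) = v (q + 1) + -(c⁻¹ • side v p) := by
      rw [← e3, e2]; abel
    have e5 : v p + (1 - c⁻¹) • side v p = v (p + 1) + -(c⁻¹ • side v p) := by
      have e6 : v (p + 1) = v p + side v p := by rw [e1]; abel
      rw [sub_smul, one_smul, e6]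
      abel
    rw [hy, e4, e5, smul_add, ← add_assoc, hj, ← hi, hs, smul_add]
    abel

theorem good_of_tiling (hv : IsPoly v) (hT : Tiling (body v) t s) : Good v := by
  have h6 : n ≤ 6 := count_main (b := 3) hv hT (fun x => ptw3 hv hT x)
  have h3 := hv.three
  by_cases h4 : n ≤ 4
  · exact Or.inl h4
  have h56 : n = 5 ∨ n = 6 := by omega
  rcases h56 with rfl | rfl
  · refine Or.inr (Or.inl ⟨rfl, ?_⟩)
    have hex : ∃ x, Triple v t s x := by
      by_contra hcon
      push Not at hcon
      have := count_main (b := 2) hv hT (fun x => ptw2 hv hT (hcon x))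
      omega
    obtain ⟨x, hx⟩ := hex
    obtain ⟨i, j, l, p, q, r, -, -, -, -, -, -, -, h, -, -⟩ := triple_anti hv hT hx
    obtain ⟨a1, a2, a3⟩ := hv.side_anti_ne h
    have hcase : ∀ p j : ZMod 5, p ≠ j → j ≠ p + 1 → p ≠ j + 1 → j = p + 2 ∨ p = j + 2 := by
      decide
    rcases hcase p (q + 1) a1 a2 a3 with hc | hc
    · refine ⟨p, ?_⟩
      have := det_eq_zero_of_anti h
      rw [hc] at this
      unfold side at this
      rwa [show p + 2 + 1 = p + 3 by ring] at this
    · refine ⟨q + 1, ?_⟩
      have := det_eq_zero_of_anti h.symm_anti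
      rw [hc] at this
      unfold side at this
      rwa [show q + 1 + 2 + 1 = q + 1 + 3 by ring] at this
  · refine Or.inr (Or.inr ⟨rfl, ?_⟩)
    obtain ⟨D, κ, hD0, -, hD, -, -, -⟩ := exists_bounds hv hT
    set β : Set (ℝ × ℝ) := {y | (∃ i, HasVtx v t s i y) ∧ ¬ Triple v t s y} with hβ
    have hnb : ¬ ∀ i, ∃ y ∈ β, ∃ z ∈ tile (body v) (t i) (s i), dist y z ≤ D := by
      intro hcon
      have := count_bad (b := 3) hv hT β D ?_ hcon
      · omega
      · intro x
        by_cases hx : x ∈ β
        · rw [if_pos hx]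
          exact ptw_bad hv hT hx.1 hx.2
        · rw [if_neg hx]
          simpa using ptw3 hv hT x
    push Not at hnb
    obtain ⟨i0, hi0⟩ := hnb
    set x := t i0 + s i0 • v 0 with hx
    have hxm : x ∈ tile (body v) (t i0) (s i0) := ⟨v 0, vtx_mem_body v 0, rfl⟩
    have hg : ∀ y, dist y x ≤ D → (∃ i, HasVtx v t s i y) → Triple v t s y := by
      intro y hy hvy
      by_contra hcon
      exact absurd hy (not_le.2 (hi0 y ⟨hvy, hcon⟩ x hxm))
    have hTx : Triple v t s x := hg x (by rw [dist_self]; exact hD0) ⟨i0, 0, rfl⟩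
    obtain ⟨i, j, l, p, q, r, hs, hij, -, -, hi, hj, -, h1, h2, h3'⟩ := triple_anti hv hT hTx
    have hq : q + 1 = p + 3 := by
      rw [hs] at h3'
      exact hex_index hv (hT.sgn j) (hT.sgn l) h1 h2 h3'
    have he := triple_equal hv hT hD hg hs hij hi hj h1
    rw [hq] at he
    refine ⟨p, ?_⟩
    unfold side at he
    rw [show p + 3 + 1 = p + 4 by ring] at he
    have : v (p + 3) - v (p + 4) = -(v (p + 4) - v (p + 3)) := by abel
    rw [this, he, neg_neg]

theorem good_of_tiles (hv : IsPoly v) (h : Tiles (body v)) : Good v := by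
  obtain ⟨ι, t, s, hT⟩ := tiles_iff.1 h
  exact good_of_tiling hv hT

end

end Pool.PT56
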