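import Pool.Agent.PT56.Base

set_option autoImplicit false
set_option linter.unusedSectionVars false

/-!
# PT56/PolyBase: definitions for convex polygons
-/

namespace Pool.PT56

open Set Filter Topology

/-- the determinant of two vectors of the plane -/
def det (a b : ℝ × ℝ) : ℝ := a.1 * b.2 - a.2 * b.1

/-- `a` and `b` have the same direction -/
def Dir (a b : ℝ × ℝ) : Prop := ∃ c : ℝ, 0 < c ∧ a = c • b

/-- `v 0, v 1, …, v (n - 1)` are the vertices of a convex polygon with `n ≥ 3` vertices,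
counterclockwise: all the other vertices are strictly to the left of the line from `v i` to
`v (i + 1)`. -/
structure IsPoly {n : ℕ} (v : ZMod n → ℝ × ℝ) : Prop where
  three : 3 ≤ n
  pos : ∀ i j, j ≠ i → j ≠ i + 1 → 0 < det (v (i + 1) - v i) (v j - v i)

/-- the polygon -/
def body {n : ℕ} (v : ZMod n → ℝ × ℝ) : Set (ℝ × ℝ) := convexHull ℝ (Set.range v)

/-- the side from `v i` to `v (i + 1)` as a vector -/
def side {n : ℕ} (v : ZMod n → ℝ × ℝ) (i : ZMod n) : ℝ × ℝ := v (i + 1) - v i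

/-- triangles, quadrilaterals, pentagons with two parallel sides, hexagons with a pair of opposite
sides that are parallel and of equal length -/
def Good {n : ℕ} (v : ZMod n → ℝ × ℝ) : Prop :=
  n ≤ 4 ∨ (n = 5 ∧ ∃ i, det (v (i + 1) - v i) (v (i + 3) - v (i + 2)) = 0) ∨
    (n = 6 ∧ ∃ i, v (i + 1) - v i = v (i + 3) - v (i + 4))

/-- `x` is the lexicographically largest point of `T` -/
def LexMax (T : Set (ℝ × ℝ)) (x : ℝ × ℝ) : Prop :=
  x ∈ T ∧ ∀ y ∈ T, y.1 < x.1 ∨ (y.1 = x.1 ∧ y.2 ≤ x.2)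

/-- `x` is the lexicographically smallest point of `T` -/
def LexMin (T : Set (ℝ × ℝ)) (x : ℝ × ℝ) : Prop :=
  x ∈ T ∧ ∀ y ∈ T, x.1 < y.1 ∨ (y.1 = x.1 ∧ x.2 ≤ y.2)

section

variable {n : ℕ} {ι : Type}

/-- the tile with index `i` has the vertex `x` -/
def HasVtx (v : ZMod n → ℝ × ℝ) (t : ι → ℝ × ℝ) (s : ι → ℝ) (i : ι) (x : ℝ × ℝ) : Prop :=
  ∃ p, t i + s i • v p = x

/-- number of tiles with the vertex `x` -/
noncomputable def wc (v : ZMod n → ℝ × ℝ) (t : ι → ℝ × ℝ) (s : ι → ℝ) (x : ℝ × ℝ) : ℕ :=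
  Set.ncard {i : ι | HasVtx v t s i x}

/-- number of tiles for which `x` is the lexicographically largest or smallest point -/
noncomputable def lc (v : ZMod n → ℝ × ℝ) (t : ι → ℝ × ℝ) (s : ι → ℝ) (x : ℝ × ℝ) : ℕ :=
  Set.ncard {i : ι | LexMax (tile (body v) (t i) (s i)) x} +
    Set.ncard {i : ι | LexMin (tile (body v) (t i) (s i)) x}

/-- exactly three tiles contain `x`, and `x` is a vertex of all three -/
def Triple (v : ZMod n → ℝ × ℝ) (t : ι → ℝ × ℝ) (s : ι → ℝ) (x : ℝ × ℝ) : Prop :=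
  ∃ f : Fin 3 → ι, Function.Injective f ∧ (∀ i, x ∈ tile (body v) (t i) (s i) ↔ ∃ k, f k = i) ∧
    ∀ k, HasVtx v t s (f k) x

end

end Pool.PT56
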