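import Pool.Agent.PT56.PolyH

set_option autoImplicit false
set_option linter.unusedSectionVars false

/-!
# PT56/PolyF: directions of the sides of a convex polygon

`d i = side v i`, `g i x = det (d i) x`: the minimum of `g i` over the body is attained exactly on side `i`
(`mem_body_iff`, `min_side`).
`side_inj`: `d i = c • d j`, `c > 0`: `g i` and `g j` have the same minimum set, so
`{v i, v (i+1)} = {v j, v (j+1)}` (endpoints), and the direction gives `i = j`.
`side_anti_ne`: from `turn`.
`parallel_cases`: two nonzero parallel vectors are proportional, a positive factor is excluded.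
`between`: if `0 < det (d i) (d l)` and `0 < det (d l) (d (i+1))` then `g l` is strictly smaller at `v (i+1)`
than everywhere else in the body (`in_cone`), but it takes its minimum at the two points `v l`, `v (l+1)`.
`next_between`: if `det (d (j+1)) (d l) < 0` this is `between` for `j`, `l`; `= 0` is excluded by
`parallel_cases`.
-/

namespace Pool.PT56

open Set Filter Topology

section

variable {n : ℕ} {v : ZMod n → ℝ × ℝ}

theorem IsPoly.one_ne_F (hv : IsPoly v) : (1 : ZMod n) ≠ 0 := by
  have h3 := hv.three
  have : Fact (1 < n) := ⟨by omega⟩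
  exact one_ne_zero

theorem IsPoly.two_ne_F (hv : IsPoly v) : (1 : ZMod n) + 1 ≠ 0 := by
  have h3 := hv.three
  intro h
  have h2 : ((2 : ℕ) : ZMod n) = 0 := by push_cast; rw [← h]; norm_num
  rw [ZMod.natCast_eq_zero_iff] at h2
  exact absurd (Nat.le_of_dvd (by norm_num) h2) (by omega)

theorem IsPoly.det_nonneg_F (hv : IsPoly v) (i j : ZMod n) : 0 ≤ det (side v i) (v j - v i) := by
  by_cases h1 : j = i
  · rw [h1]; simp [det]
  · by_cases h2 : j = i + 1
    · rw [h2]; simp only [det, side, Prod.fst_sub, Prod.snd_sub]; apply le_of_eq; ring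
    · exact (hv.pos i j h1 h2).le

theorem IsPoly.det_eq_zero_F (hv : IsPoly v) {i j : ZMod n} (h : det (side v i) (v j - v i) = 0) :
    j = i ∨ j = i + 1 := by
  by_contra hcon
  rw [not_or] at hcon
  exact absurd h (hv.pos i j hcon.1 hcon.2).ne'

theorem det_swap_F (a b : ℝ × ℝ) : det a b = -det b a := by
  simp only [det]; ring

theorem IsPoly.side_inj (hv : IsPoly v) {i j : ZMod n} (h : Dir (side v i) (side v j)) : i = j := by
  obtain ⟨c, hc, h⟩ := h
  have h1 := hv.det_nonneg_F i j
  have h2 := hv.det_nonneg_F j i
  have h3 : det (side v i) (v j - v i) = -(c * det (side v j) (v i - v j)) := by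
    rw [h]
    simp only [det, Prod.smul_fst, Prod.smul_snd, Prod.fst_sub, Prod.snd_sub, smul_eq_mul]
    ring
  have h4 : 0 ≤ c * det (side v j) (v i - v j) := mul_nonneg hc.le h2
  have h5 : det (side v i) (v j - v i) = 0 := by linarith
  have h6 : det (side v j) (v i - v j) = 0 := by
    have : c * det (side v j) (v i - v j) = 0 := by linarith
    rcases mul_eq_zero.1 this with h | h
    · exact absurd h hc.ne'
    · exact h
  rcases hv.det_eq_zero_F h5 with h7 | h7
  · exact h7.symm
  · rcases hv.det_eq_zero_F h6 with h8 | h8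
    · exact h8
    · exfalso
      rw [h7] at h8
      apply hv.two_ne_F
      have : i + (1 + 1) = i + 0 := by rw [← add_assoc, add_zero]; exact h8.symm
      exact add_left_cancel this

theorem IsPoly.side_anti_ne (hv : IsPoly v) {i j : ZMod n} (h : Dir (-side v i) (side v j)) :
    i ≠ j ∧ j ≠ i + 1 ∧ i ≠ j + 1 := by
  obtain ⟨c, hc, h⟩ := h
  have hdet : det (side v i) (side v j) = 0 := by
    have h1 : det (-side v i) (side v j) = 0 := by
      rw [h]
      simp only [det, Prod.smul_fst, Prod.smul_snd, smul_eq_mul]
      ring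
    simp only [det, Prod.fst_neg, Prod.snd_neg] at h1 ⊢
    linarith
  refine ⟨?_, ?_, ?_⟩
  · rintro rfl
    apply hv.side_ne i
    have h1 : (1 + c) • side v i = 0 := by
      rw [add_smul, one_smul, ← h]; simp
    rcases smul_eq_zero.1 h1 with h2 | h2
    · linarith
    · exact h2
  · rintro rfl
    exact absurd hdet (hv.turn i).ne'
  · rintro rfl
    rw [det_swap_F] at hdet
    have := hv.turn j
    linarith

theorem exists_smul_F {a b : ℝ × ℝ} (hb : b ≠ 0) (h : det a b = 0) : ∃ c : ℝ, a = c • b := by
  have hb2 : b.1 ^ 2 + b.2 ^ 2 ≠ 0 := by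
    intro h0
    apply hb
    have h1 : b.1 = 0 := by nlinarith [sq_nonneg b.1, sq_nonneg b.2]
    have h2 : b.2 = 0 := by nlinarith [sq_nonneg b.1, sq_nonneg b.2]
    exact Prod.ext h1 h2
  refine ⟨(a.1 * b.1 + a.2 * b.2) / (b.1 ^ 2 + b.2 ^ 2), ?_⟩
  simp only [det] at h
  apply Prod.ext
  · simp only [Prod.smul_fst, smul_eq_mul]
    field_simp
    linear_combination b.2 * h
  · simp only [Prod.smul_snd, smul_eq_mul]
    field_simp
    linear_combination (-b.1) * h

theorem IsPoly.parallel_cases (hv : IsPoly v) {i j : ZMod n} (hij : i ≠ j)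
    (h : det (side v i) (side v j) = 0) : Dir (-side v i) (side v j) := by
  obtain ⟨c, hc⟩ := exists_smul_F (hv.side_ne j) h
  rcases lt_trichotomy c 0 with h0 | h0 | h0
  · exact ⟨-c, by linarith, by rw [hc, neg_smul]⟩
  · exfalso
    apply hv.side_ne i
    rw [hc, h0, zero_smul]
  · exact absurd (hv.side_inj ⟨c, h0, hc⟩) hij

theorem IsPoly.between (hv : IsPoly v) (i l : ZMod n) :
    ¬ (0 < det (side v i) (side v l) ∧ 0 < det (side v l) (side v (i + 1))) := by
  rintro ⟨h1, h2⟩
  -- a point of the body where `g l` is at most its value at `v (i+1)` is `v (i+1)`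
  have key : ∀ x ∈ body v, det (side v l) (x - v (i + 1)) ≤ 0 → x = v (i + 1) := by
    intro x hx hle
    obtain ⟨a, b, ha, hb, hxe⟩ := hv.in_cone i hx
    have h3 : det (side v l) (x - v (i + 1)) =
        a * det (side v l) (side v (i + 1)) + b * det (side v i) (side v l) := by
      rw [hxe]
      simp only [det, Prod.smul_fst, Prod.smul_snd, Prod.fst_sub, Prod.snd_sub, Prod.fst_add,
        Prod.snd_add, smul_eq_mul]
      ring
    rw [h3] at hle
    have h4 := mul_nonneg ha h2.le
    have h5 := mul_nonneg hb h1.le
    have h6 : a = 0 := by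
      have : a * det (side v l) (side v (i + 1)) = 0 := by linarith
      rcases mul_eq_zero.1 this with h | h
      · exact h
      · exact absurd h h2.ne'
    have h7 : b = 0 := by
      have : b * det (side v i) (side v l) = 0 := by linarith
      rcases mul_eq_zero.1 this with h | h
      · exact h
      · exact absurd h h1.ne'
    rw [hxe, h6, h7]
    simp
  have h8 := hv.det_nonneg_F l (i + 1)
  have h9 : v l = v (i + 1) := by
    apply key _ (vtx_mem_body v l)
    simp only [det, Prod.fst_sub, Prod.snd_sub] at h8 ⊢
    linarith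
  have h10 : v (l + 1) = v (i + 1) := by
    apply key _ (vtx_mem_body v (l + 1))
    simp only [det, side, Prod.fst_sub, Prod.snd_sub] at h8 ⊢
    nlinarith
  apply hv.side_ne l
  rw [side, h9, h10, sub_self]

theorem IsPoly.next_between (hv : IsPoly v) {j l : ZMod n}
    (h : 0 < det (side v j) (side v l)) (hl : l ≠ j + 1) :
    0 < det (side v (j + 1)) (side v l) := by
  rcases lt_trichotomy (det (side v (j + 1)) (side v l)) 0 with h1 | h1 | h1
  · exfalso
    apply hv.between j l
    refine ⟨h, ?_⟩
    rw [det_swap_F]
    linarith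
  · exfalso
    obtain ⟨c, hc, h2⟩ := hv.parallel_cases (Ne.symm hl) h1
    have h3 := hv.turn j
    have h4 : det (side v j) (-side v (j + 1)) = c * det (side v j) (side v l) := by
      rw [h2]
      simp only [det, Prod.smul_fst, Prod.smul_snd, smul_eq_mul]
      ring
    have h5 : det (side v j) (-side v (j + 1)) = -det (side v j) (side v (j + 1)) := by
      simp only [det, Prod.fst_neg, Prod.snd_neg]
      ring
    have h6 := mul_pos hc h
    linarith
  · exact h1

end

end Pool.PT56
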