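import Pool.Agent.PT56.PolyBase

set_option autoImplicit false
set_option linter.unusedSectionVars false

/-!
# PT56/PolyH: the half-plane description of a convex polygon

`d i = side v i`.  `det (d (i-1)) (d i) > 0` (`pos (i-1) (i+1)`).
`mem_body_iff`: left to right: every vertex satisfies the inequality `i` (value `0` at `v i` and `v (i+1)`,
`pos` otherwise) and the set of solutions is convex.  Right to left: if `x` is not in the (compact
convex) hull, take a linear functional `f` with `f y < f x` for all `y` in the hull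
(`geometric_hahn_banach_closed_point` or the like), and a vertex `v i` where `f` is maximal among the
vertices.  With `w = x - v i`, `det (d (i-1)) w ≥ 0` (note `x - v (i-1) = w + d (i-1)`) and
`det (d i) w ≥ 0` give `w = a • d i - b • d (i-1)` with `a, b ≥ 0` (Cramer), so `f w ≤ 0`, contradiction.
`mem_interior_body_iff`: strict inequalities define an open subset of the body; conversely at an
interior point `x` move a little against the inequality `i` (direction `v i - (some third vertex)` or
any `w` with `det (d i) w < 0`).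
`near_vertex`, `near_side`: all the other inequalities are strict at that point, hence hold nearby.
`mem_cases`: if some inequality `i` is an equality at `x`, then `x = v i + r • d i`; the inequalities
`i - 1` and `i + 1` give `0 ≤ r ≤ 1`; use `v i + 1 • d i = v (i + 1)`.
-/

namespace Pool.PT56

open Set Filter Topology

/-! ## linear algebra of the determinant -/

theorem polyH_det_self (a : ℝ × ℝ) : det a a = 0 := by simp [det]; ring

theorem polyH_det_zero (a : ℝ × ℝ) : det a 0 = 0 := by simp [det]

theorem polyH_det_add (a b c : ℝ × ℝ) : det a (b + c) = det a b + det a c := by simp [det]; ring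

theorem polyH_det_sub (a b c : ℝ × ℝ) : det a (b - c) = det a b - det a c := by simp [det]; ring

theorem polyH_det_smul (a b : ℝ × ℝ) (r : ℝ) : det a (r • b) = r * det a b := by simp [det]; ring

theorem polyH_det_swap (a b : ℝ × ℝ) : det a b = - det b a := by simp only [det]; ring

theorem polyH_det_cont (a : ℝ × ℝ) : Continuous (fun x : ℝ × ℝ => det a x) := by
  unfold det; fun_prop

theorem polyH_parallel {a b : ℝ × ℝ} (ha : a ≠ 0) (h : det a b = 0) : ∃ r : ℝ, b = r • a := by
  have hpos : 0 < a.1 ^ 2 + a.2 ^ 2 := by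
    rcases eq_or_ne a.1 0 with h1 | h1
    · have h2 : a.2 ≠ 0 := fun h2 => ha (Prod.ext h1 h2)
      positivity
    · positivity
  refine ⟨(a.1 * b.1 + a.2 * b.2) / (a.1 ^ 2 + a.2 ^ 2), ?_⟩
  unfold det at h
  apply Prod.ext
  · simp only [Prod.smul_fst, smul_eq_mul]
    rw [div_mul_eq_mul_div, eq_div_iff hpos.ne']
    linear_combination a.2 * (-h)
  · simp only [Prod.smul_snd, smul_eq_mul]
    rw [div_mul_eq_mul_div, eq_div_iff hpos.ne']
    linear_combination a.1 * h

/-- Cramer: a vector on the left of `d` and of `e`, `det d e > 0` -/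
theorem polyH_cramer {d e w : ℝ × ℝ} (hD : 0 < det d e) (h1 : 0 ≤ det d w) (h2 : 0 ≤ det e w) :
    ∃ a b : ℝ, 0 ≤ a ∧ 0 ≤ b ∧ w = a • e - b • d := by
  refine ⟨det d w / det d e, det e w / det d e, div_nonneg h1 hD.le, div_nonneg h2 hD.le, ?_⟩
  have hD' : det d e ≠ 0 := hD.ne'
  apply Prod.ext
  · simp only [Prod.fst_sub, Prod.smul_fst, smul_eq_mul]
    rw [div_mul_eq_mul_div, div_mul_eq_mul_div, ← sub_div, eq_div_iff hD']
    simp only [det]; ring
  · simp only [Prod.snd_sub, Prod.smul_snd, smul_eq_mul]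
    rw [div_mul_eq_mul_div, div_mul_eq_mul_div, ← sub_div, eq_div_iff hD']
    simp only [det]; ring

section

variable {n : ℕ} {v : ZMod n → ℝ × ℝ}

theorem polyH_one_ne (hn : 3 ≤ n) : (1 : ZMod n) ≠ 0 := by
  have : Fact (1 < n) := ⟨by omega⟩
  exact one_ne_zero

theorem polyH_two_ne (hn : 3 ≤ n) : (1 + 1 : ZMod n) ≠ 0 := by
  intro h
  have h2 : ((2 : ℕ) : ZMod n) = 0 := by
    push_cast
    rw [← h]; norm_num
  rw [ZMod.natCast_eq_zero_iff] at h2
  exact absurd (Nat.le_of_dvd (by norm_num) h2) (by omega)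

theorem polyH_ne1 (hn : 3 ≤ n) (i : ZMod n) : i + 1 ≠ i := by
  intro h
  exact polyH_one_ne hn (by simpa using h)

theorem polyH_ne2 (hn : 3 ≤ n) (i : ZMod n) : i + 1 + 1 ≠ i := by
  intro h
  rw [add_assoc] at h
  exact polyH_two_ne hn (by simpa using h)

theorem IsPoly.turn (hv : IsPoly v) (i : ZMod n) : 0 < det (side v i) (side v (i + 1)) := by
  have h := hv.pos i (i + 1 + 1) (polyH_ne2 hv.three i) (polyH_ne1 hv.three (i + 1))
  have e : side v (i + 1) = (v (i + 1 + 1) - v i) - side v i := by
    unfold side; abel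
  rw [e, polyH_det_sub, polyH_det_self, sub_zero]
  exact h

theorem IsPoly.side_ne (hv : IsPoly v) (i : ZMod n) : side v i ≠ 0 := by
  intro h
  have := hv.turn i
  rw [h] at this
  simp [det] at this

theorem IsPoly.inj (hv : IsPoly v) : Function.Injective v := by
  intro i j hij
  by_contra hne
  by_cases h1 : j = i + 1
  · apply hv.side_ne i
    rw [side, ← h1, hij, sub_self]
  · have := hv.pos i j (fun h => hne h.symm) h1
    rw [hij, sub_self, polyH_det_zero] at this
    exact lt_irrefl _ this

theorem IsPoly.nonneg_vtx (hv : IsPoly v) (i j : ZMod n) : 0 ≤ det (side v i) (v j - v i) := by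
  by_cases h0 : j = i
  · rw [h0, sub_self, polyH_det_zero]
  by_cases h1 : j = i + 1
  · rw [h1]
    show 0 ≤ det (side v i) (side v i)
    rw [polyH_det_self]
  · exact (hv.pos i j h0 h1).le

theorem IsPoly.isCompact (hv : IsPoly v) : IsCompact (body v) := by
  have : NeZero n := ⟨by have := hv.three; omega⟩
  exact Set.Finite.isCompact_convexHull (𝕜 := ℝ) (Set.finite_range v)

theorem convex_body (v : ZMod n → ℝ × ℝ) : Convex ℝ (body v) := convex_convexHull ℝ _

theorem vtx_mem_body (v : ZMod n → ℝ × ℝ) (i : ZMod n) : v i ∈ body v :=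
  subset_convexHull ℝ _ ⟨i, rfl⟩

theorem IsPoly.mem_body_iff (hv : IsPoly v) (x : ℝ × ℝ) :
    x ∈ body v ↔ ∀ i, 0 ≤ det (side v i) (x - v i) := by
  have : NeZero n := ⟨by have := hv.three; omega⟩
  constructor
  · intro hx i
    have hconv : Convex ℝ {y : ℝ × ℝ | 0 ≤ det (side v i) (y - v i)} := by
      intro y hy z hz a b ha hb hab
      have hy' : 0 ≤ det (side v i) (y - v i) := hy
      have hz' : 0 ≤ det (side v i) (z - v i) := hz
      show 0 ≤ det (side v i) (a • y + b • z - v i)
      have e : a • y + b • z - v i = a • (y - v i) + b • (z - v i) := by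
        have : v i = a • v i + b • v i := by rw [← add_smul, hab, one_smul]
        nth_rw 1 [this]
        rw [smul_sub, smul_sub]; abel
      rw [e, polyH_det_add, polyH_det_smul, polyH_det_smul]
      positivity
    have hsub : body v ⊆ {y : ℝ × ℝ | 0 ≤ det (side v i) (y - v i)} := by
      apply convexHull_min _ hconv
      rintro _ ⟨j, rfl⟩
      exact hv.nonneg_vtx i j
    exact hsub hx
  · intro hx
    by_contra hnot
    obtain ⟨f, c, hf1, hf2⟩ :=
      geometric_hahn_banach_closed_point (convex_body v) hv.isCompact.isClosed hnot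
    obtain ⟨i, hi⟩ := Finite.exists_max (fun j : ZMod n => f (v j))
    obtain ⟨j, rfl⟩ : ∃ j, i = j + 1 := ⟨i - 1, by ring⟩
    have h1 : 0 ≤ det (side v j) (x - v (j + 1)) := by
      have h := hx j
      have e : x - v j = (x - v (j + 1)) + side v j := by unfold side; abel
      rwa [e, polyH_det_add, polyH_det_self, add_zero] at h
    obtain ⟨a, b, ha, hb, hw⟩ := polyH_cramer (hv.turn j) h1 (hx (j + 1))
    have hf3 : f (x - v (j + 1)) ≤ 0 := by
      rw [hw, map_sub, map_smul, map_smul, smul_eq_mul, smul_eq_mul]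
      have h3 : f (side v (j + 1)) ≤ 0 := by
        have := hi (j + 1 + 1)
        rw [side, map_sub]; linarith
      have h4 : 0 ≤ f (side v j) := by
        have := hi j
        rw [side, map_sub]; linarith
      nlinarith [mul_nonneg ha (neg_nonneg.2 h3), mul_nonneg hb h4]
    rw [map_sub] at hf3
    have := hf1 _ (vtx_mem_body v (j + 1))
    linarith

theorem IsPoly.mem_interior_body_iff (hv : IsPoly v) (x : ℝ × ℝ) :
    x ∈ interior (body v) ↔ ∀ i, 0 < det (side v i) (x - v i) := by
  have : NeZero n := ⟨by have := hv.three; omega⟩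
  constructor
  · intro hx i
    have h0 := (hv.mem_body_iff x).1 (interior_subset hx) i
    rcases h0.lt_or_eq with h | h
    · exact h
    exfalso
    set d := side v i with hd
    have hdne : d ≠ 0 := hv.side_ne i
    have hpos : 0 < d.1 ^ 2 + d.2 ^ 2 := by
      rcases eq_or_ne d.1 0 with h1 | h1
      · have h2 : d.2 ≠ 0 := fun h2 => hdne (Prod.ext h1 h2)
        positivity
      · positivity
    have hev : ∀ᶠ δ : ℝ in 𝓝 0, x + δ • ((d.2, -d.1) : ℝ × ℝ) ∈ interior (body v) := by
      have hc : ContinuousAt (fun δ : ℝ => x + δ • ((d.2, -d.1) : ℝ × ℝ)) 0 := by fun_prop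
      apply hc.eventually
      apply isOpen_interior.mem_nhds
      simpa using hx
    obtain ⟨δ, hδ0, hδ⟩ : ∃ δ : ℝ, 0 < δ ∧ x + δ • ((d.2, -d.1) : ℝ × ℝ) ∈ interior (body v) := by
      have h2 : ∀ᶠ δ : ℝ in 𝓝[>] 0, x + δ • ((d.2, -d.1) : ℝ × ℝ) ∈ interior (body v) :=
        hev.filter_mono nhdsWithin_le_nhds
      obtain ⟨δ, h3, h4⟩ := (h2.and self_mem_nhdsWithin).exists
      exact ⟨δ, h4, h3⟩
    have h5 := (hv.mem_body_iff _).1 (interior_subset hδ) i
    have e : x + δ • ((d.2, -d.1) : ℝ × ℝ) - v i = (x - v i) + δ • ((d.2, -d.1) : ℝ × ℝ) := by abel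
    rw [e, ← hd, polyH_det_add, polyH_det_smul, ← h] at h5
    have e2 : det d ((d.2, -d.1) : ℝ × ℝ) = -(d.1 ^ 2 + d.2 ^ 2) := by
      simp only [det]; ring
    rw [e2] at h5
    nlinarith [mul_pos hδ0 hpos]
  · intro hx
    have hopen : IsOpen {y : ℝ × ℝ | ∀ i, 0 < det (side v i) (y - v i)} := by
      have : {y : ℝ × ℝ | ∀ i, 0 < det (side v i) (y - v i)} =
          ⋂ i, {y : ℝ × ℝ | 0 < det (side v i) (y - v i)} := by
        ext y; simp
      rw [this]
      refine isOpen_iInter_of_finite fun i => ?_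
      apply isOpen_lt continuous_const
      exact (polyH_det_cont _).comp (by fun_prop)
    have hsub : {y : ℝ × ℝ | ∀ i, 0 < det (side v i) (y - v i)} ⊆ body v :=
      fun y hy => (hv.mem_body_iff y).2 fun i => (hy i).le
    exact interior_maximal hsub hopen hx

theorem IsPoly.interior_nonempty (hv : IsPoly v) : (interior (body v)).Nonempty := by
  refine ⟨v 0 + ((1 / 3 : ℝ) • (v 1 - v 0) + (1 / 3 : ℝ) • (v (1 + 1) - v 0)), ?_⟩
  rw [hv.mem_interior_body_iff]
  intro i
  have e : v 0 + ((1 / 3 : ℝ) • (v 1 - v 0) + (1 / 3 : ℝ) • (v (1 + 1) - v 0)) - v i =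
      (1 / 3 : ℝ) • (v 0 - v i) + (1 / 3 : ℝ) • (v 1 - v i) + (1 / 3 : ℝ) • (v (1 + 1) - v i) := by
    ext <;> simp <;> ring
  rw [e, polyH_det_add, polyH_det_add, polyH_det_smul, polyH_det_smul, polyH_det_smul]
  have a0 := hv.nonneg_vtx i 0
  have a1 := hv.nonneg_vtx i 1
  have a2 := hv.nonneg_vtx i (1 + 1)
  have h10 : (1 : ZMod n) ≠ 0 := polyH_one_ne hv.three
  have h20 : (1 + 1 : ZMod n) ≠ 0 := polyH_two_ne hv.three
  have h21 : (1 + 1 : ZMod n) ≠ 1 := polyH_ne1 hv.three 1
  have hpos : 0 < det (side v i) (v 0 - v i) ∨ 0 < det (side v i) (v 1 - v i) ∨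
      0 < det (side v i) (v (1 + 1) - v i) := by
    by_cases c0 : (0 : ZMod n) = i
    · right; right
      subst c0
      exact hv.pos 0 (1 + 1) h20 (by rw [zero_add]; exact h21)
    by_cases c0' : (0 : ZMod n) = i + 1
    · by_cases c1 : (1 : ZMod n) = i
      · exact absurd (by rw [c0', ← c1]) h20
      by_cases c1' : (1 : ZMod n) = i + 1
      · exact absurd (c1'.trans c0'.symm) h10
      · right; left; exact hv.pos i 1 c1 c1'
    · left; exact hv.pos i 0 c0 c0'
  generalize det (side v i) (v 0 - v i) = A at *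
  generalize det (side v i) (v 1 - v i) = B at *
  generalize det (side v i) (v (1 + 1) - v i) = C at *
  rcases hpos with h | h | h <;> linarith

/-- all vertices except `v i`, `v (i + 1)` are strictly on the left of side `i` -/
theorem IsPoly.min_side (hv : IsPoly v) (i : ZMod n) {x : ℝ × ℝ} (hx : x ∈ body v)
    (h : det (side v i) (x - v i) = 0) : ∃ r : ℝ, 0 ≤ r ∧ r ≤ 1 ∧ x = v i + r • side v i := by
  obtain ⟨r, hr⟩ := polyH_parallel (hv.side_ne i) h
  have hxe : x = v i + r • side v i := by rw [← hr]; abel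
  refine ⟨r, ?_, ?_, hxe⟩
  · obtain ⟨j, rfl⟩ : ∃ j, i = j + 1 := ⟨i - 1, by ring⟩
    have h1 := (hv.mem_body_iff x).1 hx j
    have e : x - v j = side v j + r • side v (j + 1) := by
      rw [hxe]; unfold side; abel
    rw [e, polyH_det_add, polyH_det_self, polyH_det_smul, zero_add] at h1
    exact nonneg_of_mul_nonneg_left h1 (hv.turn j)
  · have h1 := (hv.mem_body_iff x).1 hx (i + 1)
    have e : x - v (i + 1) = (r - 1) • side v i := by
      rw [hxe, sub_smul, one_smul]
      have : v (i + 1) = v i + side v i := by unfold side; abel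
      rw [this]; abel
    rw [e, polyH_det_smul, polyH_det_swap] at h1
    have := hv.turn i
    nlinarith

theorem IsPoly.mem_cases (hv : IsPoly v) {x : ℝ × ℝ} (hx : x ∈ body v) :
    x ∈ interior (body v) ∨ (∃ i, x = v i) ∨
      ∃ i, ∃ r : ℝ, 0 < r ∧ r < 1 ∧ x = v i + r • side v i := by
  by_cases hall : ∀ i, 0 < det (side v i) (x - v i)
  · left; exact (hv.mem_interior_body_iff x).2 hall
  right
  push Not at hall
  obtain ⟨i, hi⟩ := hall
  have h0 : det (side v i) (x - v i) = 0 := le_antisymm hi ((hv.mem_body_iff x).1 hx i)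
  obtain ⟨r, hr0, hr1, hxe⟩ := hv.min_side i hx h0
  rcases hr0.lt_or_eq with h | h
  · rcases hr1.lt_or_eq with h' | h'
    · right; exact ⟨i, r, h, h', hxe⟩
    · left
      refine ⟨i + 1, ?_⟩
      rw [hxe, h', one_smul]
      unfold side; abel
  · left
    refine ⟨i, ?_⟩
    rw [hxe, ← h, zero_smul, add_zero]

/-- the polygon near the vertex `v (i + 1)` -/
theorem IsPoly.near_vertex (hv : IsPoly v) (i : ZMod n) :
    ∀ᶠ w : ℝ × ℝ in 𝓝 0, (v (i + 1) + w ∈ body v ↔
      0 ≤ det (side v i) w ∧ 0 ≤ det (side v (i + 1)) w) := by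
  have : NeZero n := ⟨by have := hv.three; omega⟩
  have hev : ∀ᶠ w : ℝ × ℝ in 𝓝 0, ∀ j : ZMod n, j ≠ i → j ≠ i + 1 →
      0 < det (side v j) (v (i + 1) + w - v j) := by
    rw [eventually_all]
    intro j
    by_cases h0 : j = i
    · exact Eventually.of_forall fun w h => absurd h0 h
    by_cases h1 : j = i + 1
    · exact Eventually.of_forall fun w _ h => absurd h1 h
    have hp : 0 < det (side v j) (v (i + 1) - v j) :=
      hv.pos j (i + 1) (fun h => h1 h.symm) (fun h => h0 (add_right_cancel h).symm)
    have hc : ContinuousAt (fun w : ℝ × ℝ => det (side v j) (v (i + 1) + w - v j)) 0 :=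
      ((polyH_det_cont _).comp (by fun_prop)).continuousAt
    have : ∀ᶠ w : ℝ × ℝ in 𝓝 0, 0 < det (side v j) (v (i + 1) + w - v j) := by
      apply hc.eventually (lt_mem_nhds _)
      simpa using hp
    exact this.mono fun w h _ _ => h
  filter_upwards [hev] with w hw
  rw [hv.mem_body_iff]
  have e0 : det (side v i) (v (i + 1) + w - v i) = det (side v i) w := by
    have : v (i + 1) + w - v i = side v i + w := by unfold side; abel
    rw [this, polyH_det_add, polyH_det_self, zero_add]
  have e1 : det (side v (i + 1)) (v (i + 1) + w - v (i + 1)) = det (side v (i + 1)) w := by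
    rw [add_sub_cancel_left]
  constructor
  · intro h
    exact ⟨e0 ▸ h i, e1 ▸ h (i + 1)⟩
  · rintro ⟨h0, h1⟩ j
    by_cases c0 : j = i
    · rw [c0, e0]; exact h0
    by_cases c1 : j = i + 1
    · rw [c1, e1]; exact h1
    exact (hw j c0 c1).le

/-- the polygon is contained in the cone at the vertex `v (i + 1)` -/
theorem IsPoly.in_cone (hv : IsPoly v) (i : ZMod n) {x : ℝ × ℝ} (hx : x ∈ body v) :
    ∃ a b : ℝ, 0 ≤ a ∧ 0 ≤ b ∧ x = v (i + 1) + a • side v (i + 1) - b • side v i := by
  have hm := (hv.mem_body_iff x).1 hx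
  have h1 : 0 ≤ det (side v i) (x - v (i + 1)) := by
    have h := hm i
    have e : x - v i = (x - v (i + 1)) + side v i := by unfold side; abel
    rwa [e, polyH_det_add, polyH_det_self, add_zero] at h
  obtain ⟨a, b, ha, hb, hw⟩ := polyH_cramer (hv.turn i) h1 (hm (i + 1))
  refine ⟨a, b, ha, hb, ?_⟩
  rw [add_sub_assoc, ← hw]; abel

/-- the polygon near a point of the open side `i` -/
theorem IsPoly.near_side (hv : IsPoly v) (i : ZMod n) {r : ℝ} (h0 : 0 < r) (h1 : r < 1) :
    ∀ᶠ w : ℝ × ℝ in 𝓝 0, (v i + r • side v i + w ∈ body v ↔ 0 ≤ det (side v i) w) := by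
  have : NeZero n := ⟨by have := hv.three; omega⟩
  have hev : ∀ᶠ w : ℝ × ℝ in 𝓝 0, ∀ j : ZMod n, j ≠ i →
      0 < det (side v j) (v i + r • side v i + w - v j) := by
    rw [eventually_all]
    intro j
    by_cases c0 : j = i
    · exact Eventually.of_forall fun w h => absurd c0 h
    have hp : 0 < det (side v j) (v i + r • side v i - v j) := by
      have e : v i + r • side v i - v j = (1 - r) • (v i - v j) + r • (v (i + 1) - v j) := by
        unfold side
        ext <;> simp <;> ring
      rw [e, polyH_det_add, polyH_det_smul, polyH_det_smul]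
      have p0 := hv.nonneg_vtx j i
      have p1 := hv.nonneg_vtx j (i + 1)
      have h1' : 0 < 1 - r := by linarith
      by_cases c1 : i = j + 1
      · have c2 : i + 1 ≠ j := by rw [c1]; exact polyH_ne2 hv.three j
        have c3 : i + 1 ≠ j + 1 := fun h => c0 (add_right_cancel h).symm
        have := hv.pos j (i + 1) c2 c3
        have q0 := mul_nonneg h1'.le p0
        have q1 : 0 < r * det (side v j) (v (i + 1) - v j) := mul_pos h0 this
        linarith
      · have := hv.pos j i (fun h => c0 h.symm) c1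
        have q0 : 0 < (1 - r) * det (side v j) (v i - v j) := mul_pos h1' this
        have q1 := mul_nonneg h0.le p1
        linarith
    have hc : ContinuousAt (fun w : ℝ × ℝ => det (side v j) (v i + r • side v i + w - v j)) 0 :=
      ((polyH_det_cont _).comp (by fun_prop)).continuousAt
    have : ∀ᶠ w : ℝ × ℝ in 𝓝 0, 0 < det (side v j) (v i + r • side v i + w - v j) := by
      apply hc.eventually (lt_mem_nhds _)
      simpa using hp
    exact this.mono fun w h _ => h
  filter_upwards [hev] with w hw
  rw [hv.mem_body_iff]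
  have e0 : det (side v i) (v i + r • side v i + w - v i) = det (side v i) w := by
    have : v i + r • side v i + w - v i = r • side v i + w := by abel
    rw [this, polyH_det_add, polyH_det_smul, polyH_det_self, mul_zero, zero_add]
  constructor
  · intro h
    exact e0 ▸ h i
  · intro h j
    by_cases c0 : j = i
    · rw [c0, e0]; exact h
    exact (hw j c0).le

end

end Pool.PT56
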