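import Pool.Agent.PT56.Final
import Pool.Agent.PT56.Nec
import Pool.Agent.PT56.ToNF
import Pool.Agent.PT56.FConv
import Pool.Agent.PT56.Aff

set_option autoImplicit false
set_option linter.unusedSectionVars false

/-!
# PT56/PolyMain: direct sums of polygons and segments

`tiles_body_iff`: the plane case.  `not_both`: two polygons that are not centrally symmetric
cannot both be factors (`balG`, `mink` after the linear identification of `ℝ × ℝ` with
`EuclideanSpace ℝ (Fin 2)`).  `polygons`: `sect` gives a tiling by the product of the polygons,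
`sect_one` and `sect_two` the factors and pairs of factors; conversely `tiles_pi`, `tiles_prod`.
-/

namespace Pool.PT56

open Set Filter Topology

theorem tiles_body_iff {n : ℕ} {v : ZMod n → ℝ × ℝ} (hv : IsPoly v) :
    Tiles (body v) ↔ Good v :=
  ⟨good_of_tiles hv, tiles_of_good hv⟩

/-- the plane as a Euclidean space -/
noncomputable def toE2 : (ℝ × ℝ) ≃L[ℝ] EuclideanSpace ℝ (Fin 2) :=
  (LinearEquiv.ofFinrankEq (ℝ × ℝ) (EuclideanSpace ℝ (Fin 2)) (by simp)).toContinuousLinearEquiv

theorem polytope_image {V W : Type} [NormedAddCommGroup V] [NormedSpace ℝ V]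
    [NormedAddCommGroup W] [NormedSpace ℝ W] (e : V ≃L[ℝ] W) {P : Set V} (hP : Polytope P) :
    Polytope (e '' P) := by
  obtain ⟨⟨S, hS, rfl⟩, hi⟩ := hP
  refine ⟨⟨e '' S, hS.image _, ?_⟩, ?_⟩
  · exact (e : V →L[ℝ] W).toLinearMap.image_convexHull S
  · have := e.toHomeomorph.image_interior (convexHull ℝ S)
    have h2 : (e.toHomeomorph '' interior (convexHull ℝ S)).Nonempty := hi.image _
    rw [this] at h2
    exact h2

theorem csym_of_image {V W : Type} [NormedAddCommGroup V] [NormedSpace ℝ V]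
    [NormedAddCommGroup W] [NormedSpace ℝ W] (e : V ≃L[ℝ] W) {P : Set V} (h : CSym (e '' P)) :
    CSym P := by
  obtain ⟨c, hc⟩ := h
  refine ⟨e.symm c, fun x hx => ?_⟩
  obtain ⟨y, hy, hyx⟩ := hc (e x) ⟨x, hx, rfl⟩
  have : e.symm c - x = y := by
    apply e.injective
    rw [map_sub, e.apply_symm_apply, hyx]
  rw [this]
  exact hy

theorem polytope_body {n : ℕ} {v : ZMod n → ℝ × ℝ} (hv : IsPoly v) : Polytope (body v) := by
  have : NeZero n := ⟨by have := hv.three; omega⟩
  exact ⟨⟨Set.range v, Set.finite_range v, rfl⟩, hv.interior_nonempty⟩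

theorem not_both {n n' : ℕ} {v : ZMod n → ℝ × ℝ} {v' : ZMod n' → ℝ × ℝ} (hv : IsPoly v)
    (hv' : IsPoly v') (h : Tiles (body v ×ˢ body v')) : CSym (body v) ∨ CSym (body v') := by
  have h1 : Tiles ((toE2 '' body v) ×ˢ (toE2 '' body v')) := by
    have h2 := (tiles_image (toE2.prodCongr toE2) (body v ×ˢ body v')).2 h
    have h3 : (toE2.prodCongr toE2) '' (body v ×ˢ body v') =
        (toE2 '' body v) ×ˢ (toE2 '' body v') := by
      rw [Set.prod_image_image_eq]
      rfl
    rwa [h3] at h2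
  have hp := polytope_image toE2 (polytope_body hv)
  have hp' := polytope_image toE2 (polytope_body hv')
  rcases balG (hp.isCompact) (hp.convex) hp.2 hp'.isCompact hp'.convex hp'.2 h1 with hb | hb
  · exact Or.inl (csym_of_image toE2 (mink hp hb))
  · exact Or.inr (csym_of_image toE2 (mink hp' hb))

theorem polygons {k m : ℕ} {n : Fin k → ℕ} {v : ∀ j, ZMod (n j) → ℝ × ℝ}
    (hv : ∀ j, IsPoly (v j)) :
    Tiles {x : (Fin k → ℝ × ℝ) × (Fin m → ℝ) |
      (∀ j, x.1 j ∈ body (v j)) ∧ ∀ i, 0 ≤ x.2 i ∧ x.2 i ≤ 1} ↔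
    (∀ j, Good (v j)) ∧ ∀ j j', ¬ CSym (body (v j)) → ¬ CSym (body (v j')) → j = j' := by
  constructor
  · intro h
    have hcl : ∀ j, IsClosed (body (v j)) := fun j => (hv j).isCompact.isClosed
    have hcv : ∀ j, Convex ℝ (body (v j)) := fun j => convex_body (v j)
    have hin : ∀ j, (interior (body (v j))).Nonempty := fun j => (hv j).interior_nonempty
    have hpi : Tiles (univ.pi fun j => body (v j)) := by
      refine sect (ContinuousLinearMap.fst ℝ (Fin k → ℝ × ℝ) (Fin m → ℝ))
        (ContinuousLinearMap.inl ℝ (Fin k → ℝ × ℝ) (Fin m → ℝ)) (fun u => rfl)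
        (K := univ.pi fun j => body (v j))
        (L := {x : (Fin k → ℝ × ℝ) × (Fin m → ℝ) | x.2 ∈ Icc (0 : Fin m → ℝ) 1})
        (isClosed_set_pi fun j _ => hcl j) (convex_pi fun j _ => hcv j) ?_ ?_ ?_ ?_ ?_ ?_
      · rw [interior_pi_set finite_univ]
        rw [Set.univ_pi_nonempty_iff]
        exact hin
      · exact isClosed_Icc.preimage continuous_snd
      · exact (convex_Icc (0 : Fin m → ℝ) 1).linear_preimage
          (LinearMap.snd ℝ (Fin k → ℝ × ℝ) (Fin m → ℝ))
      · refine ⟨(0, fun _ => 1 / 2), ?_⟩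
        rw [mem_interior]
        refine ⟨{x | x.2 ∈ univ.pi fun _ : Fin m => Ioo (0 : ℝ) 1}, ?_, ?_, ?_⟩
        · intro x hx
          have hx' : ∀ i, x.2 i ∈ Ioo (0 : ℝ) 1 := fun i => hx i trivial
          exact ⟨fun i => (hx' i).1.le, fun i => (hx' i).2.le⟩
        · exact (isOpen_set_pi finite_univ fun _ _ => isOpen_Ioo).preimage continuous_snd
        · intro i _
          constructor <;> norm_num
      · intro x hx u
        simpa using hx
      · have : {x : (Fin k → ℝ × ℝ) × (Fin m → ℝ) |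
            ContinuousLinearMap.fst ℝ (Fin k → ℝ × ℝ) (Fin m → ℝ) x ∈
              univ.pi (fun j => body (v j)) ∧
            x ∈ {x : (Fin k → ℝ × ℝ) × (Fin m → ℝ) | x.2 ∈ Icc (0 : Fin m → ℝ) 1}} =
            {x : (Fin k → ℝ × ℝ) × (Fin m → ℝ) |
              (∀ j, x.1 j ∈ body (v j)) ∧ ∀ i, 0 ≤ x.2 i ∧ x.2 i ≤ 1} := by
          ext x
          simp only [ContinuousLinearMap.coe_fst', Set.mem_ofPred_eq, Set.mem_pi, Set.mem_univ,
            true_implies, Set.mem_Icc, Pi.le_def, Pi.zero_apply, Pi.one_apply]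
          constructor
          · rintro ⟨h1, h2, h3⟩
            exact ⟨h1, fun i => ⟨h2 i, h3 i⟩⟩
          · rintro ⟨h1, h2⟩
            exact ⟨h1, fun i => (h2 i).1, fun i => (h2 i).2⟩
        rw [this]
        exact h
    refine ⟨fun j => good_of_tiles (hv j) (sect_one hcl hcv hin hpi j), fun j j' hj hj' => ?_⟩
    by_contra hne
    rcases not_both (hv j) (hv j') (sect_two hcl hcv hin hpi hne) with hs | hs
    · exact hj hs
    · exact hj' hs
  · rintro ⟨h1, h2⟩
    have hpi : Tiles (univ.pi fun j => body (v j)) :=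
      tiles_pi (fun j => tiles_of_good (hv j) (h1 j)) h2
    have hcube := tiles_cube m
    have hsym : CSym {x : Fin m → ℝ | ∀ i, 0 ≤ x i ∧ x i ≤ 1} := by
      refine ⟨fun _ => 1, fun x hx i => ?_⟩
      have := hx i
      simp only [Pi.sub_apply]
      constructor <;> linarith [this.1, this.2]
    have := tiles_prod hpi hcube hsym
    have he : (univ.pi fun j => body (v j)) ×ˢ {x : Fin m → ℝ | ∀ i, 0 ≤ x i ∧ x i ≤ 1} =
        {x : (Fin k → ℝ × ℝ) × (Fin m → ℝ) |
          (∀ j, x.1 j ∈ body (v j)) ∧ ∀ i, 0 ≤ x.2 i ∧ x.2 i ≤ 1} := by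
      ext x
      simp only [Set.mem_prod, Set.mem_pi, Set.mem_univ, true_implies, Set.mem_ofPred_eq]
    rw [he] at this
    exact this

end Pool.PT56
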