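import Pool.Agent.PT56.Base
import Pool.Agent.Mink24.Cent

set_option autoImplicit false
set_option linter.unusedSectionVars false

/-!
# PT56/SymE: if the half difference body is not larger than `K` then `K` is centrally symmetric

The proof is in `Pool/Agent/Mink24` (Sym1, Sym1b: one-dimensional symmetry theorem; LogC: log-concavity from
the midpoint inequality; Sym: section functions; Cent: centroid and separation).
-/

namespace Pool.PT56

open Set Filter Topology MeasureTheory
open scoped RealInnerProductSpace ENNReal Pointwise

variable {E : Type} [NormedAddCommGroup E] [InnerProductSpace ℝ E] [FiniteDimensional ℝ E]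
  [MeasurableSpace E] [BorelSpace E]

theorem csym_of_mid {K : Set E} (hc : IsCompact K) (hconv : Convex ℝ K)
    (hint : (interior K).Nonempty) (hm : volume (mid K (-K)) ≤ volume K) : CSym K := by
  apply Mink24.symmetric_of_vol_le hc hconv hint
  have e : (1 / 2 : ℝ) • (K + -K) = mid K (-K) := by
    ext x
    constructor
    · rintro ⟨_, ⟨p, hp, q, hq, rfl⟩, rfl⟩
      exact ⟨p, hp, q, hq, rfl⟩
    · rintro ⟨p, hp, q, hq, rfl⟩
      exact ⟨_, ⟨p, hp, q, hq, rfl⟩, rfl⟩
  rw [e]
  exact hm

end Pool.PT56
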