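import Pool.Agent.PT56.PolyH
import Pool.Agent.PT56.NF
import Pool.Agent.PT56.ProdS

set_option autoImplicit false
set_option linter.unusedSectionVars false

/-!
# PT56/ToNFa: affine images, relabelling, triangles and quadrilaterals

The first part of `ToNF`: `tiles_affine`, `tri_NF`, `quad_NF`, `IsPoly.rot`, `body_rot`.
-/

namespace Pool.PT56

open Set Filter Topology

theorem tiles_translate {V : Type} [AddCommGroup V] [Module ℝ V] [TopologicalSpace V]
    {K : Set V} (p : V) (hK : Tiles K) : Tiles ((fun x : V => p + x) '' K) := by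
  rw [tiles_iff] at hK ⊢
  obtain ⟨ι, t, s, h⟩ := hK
  have key : ∀ i, tile ((fun x : V => p + x) '' K) (t i - s i • p) (s i) = tile K (t i) (s i) := by
    intro i
    unfold tile
    rw [Set.image_image]
    refine Set.image_congr fun x _ => ?_
    rw [smul_add]
    abel
  refine ⟨ι, fun i => t i - s i • p, s, h.sgn, ?_, ?_⟩
  · intro x
    obtain ⟨i, hi⟩ := h.cov x
    exact ⟨i, by rw [key]; exact hi⟩
  · intro i j hij
    rw [key, key]
    exact h.dis i j hij

/-- coordinates with respect to `e1` and `e2` -/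
noncomputable def coordEquiv (e1 e2 : ℝ × ℝ) (h : det e1 e2 ≠ 0) : (ℝ × ℝ) ≃ₗ[ℝ] (ℝ × ℝ) where
  toFun x := x.1 • e1 + x.2 • e2
  map_add' x y := by
    simp only [Prod.fst_add, Prod.snd_add, add_smul]
    abel
  map_smul' c x := by
    simp only [Prod.smul_fst, Prod.smul_snd, smul_eq_mul, mul_smul, RingHom.id_apply, smul_add]
  invFun y := (det y e2 / det e1 e2, det e1 y / det e1 e2)
  left_inv x := by
    have h1 : det (x.1 • e1 + x.2 • e2) e2 / det e1 e2 = x.1 := by
      rw [div_eq_iff h]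
      simp only [det, Prod.fst_add, Prod.snd_add, Prod.smul_fst, Prod.smul_snd, smul_eq_mul]
      ring
    have h2 : det e1 (x.1 • e1 + x.2 • e2) / det e1 e2 = x.2 := by
      rw [div_eq_iff h]
      simp only [det, Prod.fst_add, Prod.snd_add, Prod.smul_fst, Prod.smul_snd, smul_eq_mul]
      ring
    exact Prod.ext h1 h2
  right_inv y := by
    have h1 : det y e2 / det e1 e2 * e1.1 + det e1 y / det e1 e2 * e2.1 = y.1 := by
      rw [div_mul_eq_mul_div, div_mul_eq_mul_div, ← add_div, div_eq_iff h]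
      simp only [det]
      ring
    have h2 : det y e2 / det e1 e2 * e1.2 + det e1 y / det e1 e2 * e2.2 = y.2 := by
      rw [div_mul_eq_mul_div, div_mul_eq_mul_div, ← add_div, div_eq_iff h]
      simp only [det]
      ring
    exact Prod.ext h1 h2

theorem coordEquiv_apply (e1 e2 : ℝ × ℝ) (h : det e1 e2 ≠ 0) (x : ℝ × ℝ) :
    coordEquiv e1 e2 h x = x.1 • e1 + x.2 • e2 := rfl

theorem tiles_affine {K : Set (ℝ × ℝ)} (p0 e1 e2 : ℝ × ℝ) (h : det e1 e2 ≠ 0) (hK : Tiles K) :
    Tiles ((fun x : ℝ × ℝ => p0 + x.1 • e1 + x.2 • e2) '' K) := by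
  have h1 := (tiles_image (coordEquiv e1 e2 h).toContinuousLinearEquiv K).mpr hK
  have h2 := tiles_translate p0 h1
  rw [Set.image_image] at h2
  have h3 : (fun x : ℝ × ℝ => p0 + x.1 • e1 + x.2 • e2) =
      fun x => p0 + (coordEquiv e1 e2 h).toContinuousLinearEquiv x := by
    funext x
    have : (coordEquiv e1 e2 h).toContinuousLinearEquiv x = x.1 • e1 + x.2 • e2 := rfl
    rw [this]
    abel
  rw [h3]
  exact h2

theorem pos_of_mul_pos_right' {x y : ℝ} (h : 0 < x * y) (hx : 0 < x) : 0 < y :=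
  (mul_pos_iff_of_pos_left hx).mp h

/-- a set is an affine image if it is so in coordinates -/
theorem eq_image_of_coord {A K : Set (ℝ × ℝ)} (p0 e1 e2 : ℝ × ℝ) (h : det e1 e2 ≠ 0)
    (hA : ∀ s t : ℝ, p0 + s • e1 + t • e2 ∈ A ↔ ((s, t) : ℝ × ℝ) ∈ K) :
    A = (fun x : ℝ × ℝ => p0 + x.1 • e1 + x.2 • e2) '' K := by
  ext x
  constructor
  · intro hx
    obtain ⟨p, hp⟩ := (coordEquiv e1 e2 h).surjective (x - p0)
    rw [coordEquiv_apply] at hp
    have hx' : p0 + p.1 • e1 + p.2 • e2 = x := by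
      rw [add_assoc, hp]
      abel
    refine ⟨p, ?_, hx'⟩
    have := (hA p.1 p.2).mp (by rw [hx']; exact hx)
    simpa using this
  · rintro ⟨p, hp, rfl⟩
    exact (hA p.1 p.2).mpr (by simpa using hp)

theorem tri_NF {v : ZMod 3 → ℝ × ℝ} (hv : IsPoly v) : ∃ p0 e1 e2 : ℝ × ℝ, ∃ w a b α β : ℝ,
    det e1 e2 ≠ 0 ∧ 0 ≤ w ∧ 0 ≤ a ∧ 0 ≤ b ∧ 0 < w + a + b ∧
      body v = (fun x : ℝ × ℝ => p0 + x.1 • e1 + x.2 • e2) '' NF w a b α β := by
  have hD : 0 < det (v 1 - v 0) (v 2 - v 0) := by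
    have := hv.pos 0 2 (by decide) (by decide)
    rwa [zero_add] at this
  refine ⟨v 0, v 1 - v 0, v 2 - v 0, 0, 1, 0, 0, 0, hD.ne', le_rfl, zero_le_one, le_rfl,
    by norm_num, ?_⟩
  refine eq_image_of_coord _ _ _ hD.ne' ?_
  intro s t
  rw [hv.mem_body_iff]
  have e0 : (0 : ZMod 3) + 1 = 1 := by decide
  have e1 : (1 : ZMod 3) + 1 = 2 := by decide
  have e2 : (2 : ZMod 3) + 1 = 0 := by decide
  set D := det (v 1 - v 0) (v 2 - v 0) with hDdef
  have i0 : det (side v 0) (v 0 + s • (v 1 - v 0) + t • (v 2 - v 0) - v 0) = D * t := by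
    simp only [side, e0, hDdef, det, Prod.fst_add, Prod.snd_add, Prod.fst_sub, Prod.snd_sub,
      Prod.smul_fst, Prod.smul_snd, smul_eq_mul]
    ring
  have i1 : det (side v 1) (v 0 + s • (v 1 - v 0) + t • (v 2 - v 0) - v 1) = D * (1 - s - t) := by
    simp only [side, e1, hDdef, det, Prod.fst_add, Prod.snd_add, Prod.fst_sub, Prod.snd_sub,
      Prod.smul_fst, Prod.smul_snd, smul_eq_mul]
    ring
  have i2 : det (side v 2) (v 0 + s • (v 1 - v 0) + t • (v 2 - v 0) - v 2) = D * s := by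
    simp only [side, e2, hDdef, det, Prod.fst_add, Prod.snd_add, Prod.fst_sub, Prod.snd_sub,
      Prod.smul_fst, Prod.smul_snd, smul_eq_mul]
    ring
  have hall : (∀ i, 0 ≤ det (side v i) (v 0 + s • (v 1 - v 0) + t • (v 2 - v 0) - v i)) ↔
      0 ≤ t ∧ 0 ≤ 1 - s - t ∧ 0 ≤ s := by
    constructor
    · intro h
      have h0 := h 0
      have h1 := h 1
      have h2 := h 2
      rw [i0] at h0
      rw [i1] at h1
      rw [i2] at h2
      exact ⟨nonneg_of_mul_nonneg_right h0 hD, nonneg_of_mul_nonneg_right h1 hD,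
        nonneg_of_mul_nonneg_right h2 hD⟩
    · rintro ⟨h0, h1, h2⟩ i
      have hi : i = 0 ∨ i = 1 ∨ i = 2 := by
        revert i
        decide
      rcases hi with rfl | rfl | rfl
      · rw [i0]; exact mul_nonneg hD.le h0
      · rw [i1]; exact mul_nonneg hD.le h1
      · rw [i2]; exact mul_nonneg hD.le h2
  rw [hall]
  simp only [NF, Set.mem_ofPred_eq]
  constructor
  · rintro ⟨h0, h1, h2⟩
    right; right
    refine ⟨zero_lt_one, h2, by linarith, by linarith, by linarith⟩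
  · rintro (⟨h, _⟩ | ⟨h1, h2, h3, h4⟩ | ⟨_, h1, h2, h3, h4⟩)
    · exact absurd h (lt_irrefl _)
    · exact ⟨h3, by linarith, h1⟩
    · exact ⟨by linarith, by linarith, h1⟩

theorem quad_NF {v : ZMod 4 → ℝ × ℝ} (hv : IsPoly v) : ∃ p0 e1 e2 : ℝ × ℝ, ∃ w a b α β : ℝ,
    det e1 e2 ≠ 0 ∧ 0 ≤ w ∧ 0 ≤ a ∧ 0 ≤ b ∧ 0 < w + a + b ∧
      body v = (fun x : ℝ × ℝ => p0 + x.1 • e1 + x.2 • e2) '' NF w a b α β := by
  have e0 : (0 : ZMod 4) + 1 = 1 := by decide
  have e1 : (1 : ZMod 4) + 1 = 2 := by decide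
  have e2 : (2 : ZMod 4) + 1 = 3 := by decide
  have e3 : (3 : ZMod 4) + 1 = 0 := by decide
  have hD : 0 < det (v 1 - v 0) (v 2 - v 0) := by
    have := hv.pos 0 2 (by decide) (by decide)
    rwa [e0] at this
  set D := det (v 1 - v 0) (v 2 - v 0) with hDdef
  -- the coordinates of `v 3`
  obtain ⟨q, hq⟩ := (coordEquiv (v 1 - v 0) (v 2 - v 0) hD.ne').surjective (v 3 - v 0)
  rw [coordEquiv_apply] at hq
  obtain ⟨b, β, hv3⟩ : ∃ b β : ℝ, v 3 = v 0 - b • (v 1 - v 0) + β • (v 2 - v 0) := by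
    refine ⟨-q.1, q.2, ?_⟩
    have : v 3 = v 0 + (v 3 - v 0) := by abel
    rw [this, ← hq, neg_smul, sub_neg_eq_add, add_assoc]
  have hv31 : (v 3).1 = (v 0).1 - b * ((v 1).1 - (v 0).1) + β * ((v 2).1 - (v 0).1) := by
    have := congrArg Prod.fst hv3
    simpa using this
  have hv32 : (v 3).2 = (v 0).2 - b * ((v 1).2 - (v 0).2) + β * ((v 2).2 - (v 0).2) := by
    have := congrArg Prod.snd hv3
    simpa using this
  have hb : 0 < b := by
    have h := hv.pos 2 0 (by decide) (by decide)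
    rw [e2] at h
    have : det (v 3 - v 2) (v 0 - v 2) = D * b := by
      simp only [hDdef, det, Prod.fst_sub, Prod.snd_sub, hv31, hv32]
      ring
    rw [this] at h
    exact pos_of_mul_pos_right' h hD
  have hβ : 0 < β := by
    have h := hv.pos 0 3 (by decide) (by decide)
    rw [e0] at h
    have : det (v 1 - v 0) (v 3 - v 0) = D * β := by
      simp only [hDdef, det, Prod.fst_sub, Prod.snd_sub, hv31, hv32]
      ring
    rw [this] at h
    exact pos_of_mul_pos_right' h hD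
  have hbβ : 0 < b + 1 - β := by
    have h := hv.pos 1 3 (by decide) (by decide)
    rw [e1] at h
    have : det (v 2 - v 1) (v 3 - v 1) = D * (b + 1 - β) := by
      simp only [hDdef, det, Prod.fst_sub, Prod.snd_sub, hv31, hv32]
      ring
    rw [this] at h
    exact pos_of_mul_pos_right' h hD
  refine ⟨v 0, v 1 - v 0, v 2 - v 0, 0, 1, b, 0, β, hD.ne', le_rfl, zero_le_one, hb.le,
    by linarith, ?_⟩
  refine eq_image_of_coord _ _ _ hD.ne' ?_
  intro s t
  rw [hv.mem_body_iff]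
  have i0 : det (side v 0) (v 0 + s • (v 1 - v 0) + t • (v 2 - v 0) - v 0) = D * t := by
    simp only [side, e0, hDdef, det, Prod.fst_add, Prod.snd_add, Prod.fst_sub, Prod.snd_sub,
      Prod.smul_fst, Prod.smul_snd, smul_eq_mul]
    ring
  have i1 : det (side v 1) (v 0 + s • (v 1 - v 0) + t • (v 2 - v 0) - v 1) = D * (1 - s - t) := by
    simp only [side, e1, hDdef, det, Prod.fst_add, Prod.snd_add, Prod.fst_sub, Prod.snd_sub,
      Prod.smul_fst, Prod.smul_snd, smul_eq_mul]
    ring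
  have i2 : det (side v 2) (v 0 + s • (v 1 - v 0) + t • (v 2 - v 0) - v 2) =
      D * (b - b * t - (β - 1) * s) := by
    simp only [side, e2, hDdef, det, Prod.fst_add, Prod.snd_add, Prod.fst_sub, Prod.snd_sub,
      Prod.smul_fst, Prod.smul_snd, smul_eq_mul, hv31, hv32]
    ring
  have i3 : det (side v 3) (v 0 + s • (v 1 - v 0) + t • (v 2 - v 0) - v 3) =
      D * (b * t + β * s) := by
    simp only [side, e3, hDdef, det, Prod.fst_add, Prod.snd_add, Prod.fst_sub, Prod.snd_sub,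
      Prod.smul_fst, Prod.smul_snd, smul_eq_mul, hv31, hv32]
    ring
  have hall : (∀ i, 0 ≤ det (side v i) (v 0 + s • (v 1 - v 0) + t • (v 2 - v 0) - v i)) ↔
      0 ≤ t ∧ 0 ≤ 1 - s - t ∧ 0 ≤ b - b * t - (β - 1) * s ∧ 0 ≤ b * t + β * s := by
    constructor
    · intro h
      have h0 := h 0
      have h1 := h 1
      have h2 := h 2
      have h3 := h 3
      rw [i0] at h0
      rw [i1] at h1
      rw [i2] at h2
      rw [i3] at h3
      exact ⟨nonneg_of_mul_nonneg_right h0 hD, nonneg_of_mul_nonneg_right h1 hD,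
        nonneg_of_mul_nonneg_right h2 hD, nonneg_of_mul_nonneg_right h3 hD⟩
    · rintro ⟨h0, h1, h2, h3⟩ i
      have hi : i = 0 ∨ i = 1 ∨ i = 2 ∨ i = 3 := by
        revert i
        decide
      rcases hi with rfl | rfl | rfl | rfl
      · rw [i0]; exact mul_nonneg hD.le h0
      · rw [i1]; exact mul_nonneg hD.le h1
      · rw [i2]; exact mul_nonneg hD.le h2
      · rw [i3]; exact mul_nonneg hD.le h3
  rw [hall]
  simp only [NF, Set.mem_ofPred_eq]
  constructor
  · rintro ⟨h0, h1, h2, h3⟩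
    rcases le_total s 0 with hs | hs
    · left
      refine ⟨hb, by linarith, hs, by linarith, by linarith⟩
    · right; right
      refine ⟨zero_lt_one, hs, by linarith, by linarith, by linarith⟩
  · rintro (⟨_, h1, h2, h3, h4⟩ | ⟨h1, h2, h3, h4⟩ | ⟨_, h1, h2, h3, h4⟩)
    · have hs : 0 ≤ β * (-s) := mul_nonneg hβ.le (by linarith)
      have ht : 0 ≤ t := by
        by_contra hneg
        have := mul_neg_of_pos_of_neg hb (not_le.mp hneg)
        linarith
      have hs2 : s * (b + 1 - β) ≤ 0 := mul_nonpos_of_nonpos_of_nonneg h2 hbβ.le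
      refine ⟨ht, ?_, by linarith, by linarith⟩
      by_contra hneg
      have hneg' := not_le.mp hneg
      have := mul_neg_of_pos_of_neg hb hneg'
      nlinarith
    · have hs0 : s = 0 := le_antisymm h2 h1
      subst hs0
      have hbt : 0 ≤ b * t := mul_nonneg hb.le h3
      have hbt2 : 0 ≤ b * (1 - t) := mul_nonneg hb.le (by linarith)
      refine ⟨h3, by linarith, by linarith, by linarith⟩
    · have ht : 0 ≤ t := by linarith
      have hst : 0 ≤ 1 - s - t := by linarith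
      have h5 : 0 ≤ b * (1 - s - t) := mul_nonneg hb.le hst
      have h6 : 0 ≤ s * (b + 1 - β) := mul_nonneg h1 hbβ.le
      have h7 : 0 ≤ b * t := mul_nonneg hb.le ht
      have h8 : 0 ≤ β * s := mul_nonneg hβ.le h1
      refine ⟨ht, hst, by nlinarith, by linarith⟩

section

variable {n : ℕ} {v : ZMod n → ℝ × ℝ}

/-- relabelling -/
theorem IsPoly.rot (hv : IsPoly v) (k : ZMod n) : IsPoly fun i => v (k + i) := by
  refine ⟨hv.three, ?_⟩
  intro i j h1 h2
  have := hv.pos (k + i) (k + j) (fun h => h1 (add_left_cancel h))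
    (fun h => h2 (add_left_cancel (h.trans (add_assoc k i 1))))
  rw [add_assoc] at this
  exact this

theorem body_rot (v : ZMod n → ℝ × ℝ) (k : ZMod n) : body (fun i => v (k + i)) = body v := by
  unfold body
  congr 1
  ext x
  constructor
  · rintro ⟨i, rfl⟩
    exact ⟨k + i, rfl⟩
  · rintro ⟨i, rfl⟩
    refine ⟨-k + i, ?_⟩
    simp only [add_neg_cancel_left]

end

end Pool.PT56
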