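import Pool.Agent.PT56.PolyH

set_option autoImplicit false
set_option linter.unusedSectionVars false

/-!
# PT56/Vol: how many tiles meet a ball

`K = body v` is compact, convex, with interior; `0 < volume K < ∞`; every tile has the same volume, its
interior has full volume (`Convex.addHaar_frontier`), and diameter at most `D = diam K`.  The metric of
`ℝ × ℝ` is the sup metric, `volume (closedBall c r) = (2 r) ^ 2`.  `κ = volume K / 4`.
(a) tiles meeting `closedBall c r` lie in `closedBall c (r + D)`, their interiors are disjoint;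
(b) the tiles contained in `closedBall 0 r` cover `closedBall 0 (r - D)`.
-/

namespace Pool.PT56

open Set Filter Topology Metric MeasureTheory
open scoped ENNReal Pointwise

theorem vol_ball2 (c : ℝ × ℝ) {r : ℝ} (hr : 0 ≤ r) :
    volume (closedBall c r) = ENNReal.ofReal ((2 * r) ^ 2) := by
  rw [← closedBall_prod_same, Measure.volume_eq_prod, Measure.prod_prod, Real.volume_closedBall,
    Real.volume_closedBall, ← ENNReal.ofReal_mul (by linarith)]
  congr 1
  ring

theorem tile_eq_image (P : Set (ℝ × ℝ)) (t : ℝ × ℝ) (s : ℝ) :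
    tile P t s = (fun x => t + x) '' (s • P) := by
  ext x
  constructor
  · rintro ⟨y, hy, rfl⟩
    exact ⟨s • y, ⟨y, hy, rfl⟩, rfl⟩
  · rintro ⟨_, ⟨y, hy, rfl⟩, rfl⟩
    exact ⟨y, hy, rfl⟩

theorem vol_tile (P : Set (ℝ × ℝ)) (t : ℝ × ℝ) {s : ℝ} (hs : s = 1 ∨ s = -1) :
    volume (tile P t s) = volume P := by
  rw [tile_eq_image, image_add_left, measure_preimage_add, Measure.addHaar_smul]
  have : |s ^ Module.finrank ℝ (ℝ × ℝ)| = 1 := by
    rcases hs with rfl | rfl <;> simp
  rw [this]
  simp

theorem convex_tile {P : Set (ℝ × ℝ)} (hP : Convex ℝ P) (t : ℝ × ℝ) (s : ℝ) :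
    Convex ℝ (tile P t s) := by
  rw [tile_eq_image]
  exact (hP.smul s).translate t

theorem vol_interior_tile {P : Set (ℝ × ℝ)} (hP : Convex ℝ P) (t : ℝ × ℝ) {s : ℝ}
    (hs : s = 1 ∨ s = -1) : volume (interior (tile P t s)) = volume P := by
  rw [← vol_tile P t hs]
  have := (convex_tile hP t s).addHaar_frontier volume
  apply le_antisymm (measure_mono interior_subset)
  have hsub : tile P t s ⊆ interior (tile P t s) ∪ frontier (tile P t s) := by
    intro x hx
    by_cases hxi : x ∈ interior (tile P t s)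
    · exact Or.inl hxi
    · exact Or.inr ⟨subset_closure hx, hxi⟩
  calc volume (tile P t s) ≤ volume (interior (tile P t s) ∪ frontier (tile P t s)) :=
        measure_mono hsub
    _ ≤ volume (interior (tile P t s)) + volume (frontier (tile P t s)) := measure_union_le _ _
    _ = volume (interior (tile P t s)) := by rw [this, add_zero]

theorem card_mul_le2 {P : Set (ℝ × ℝ)} (hP : Convex ℝ P) {ι : Type} {t : ι → ℝ × ℝ} {s : ι → ℝ}
    (hT : Tiling P t s) (I : Finset ι) {c : ℝ × ℝ} {r : ℝ}
    (hI : ∀ i ∈ I, tile P (t i) (s i) ⊆ closedBall c r) :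
    (I.card : ℝ≥0∞) * volume P ≤ volume (closedBall c r) := by
  have h1 : volume (⋃ i ∈ I, interior (tile P (t i) (s i))) =
      ∑ i ∈ I, volume (interior (tile P (t i) (s i))) := by
    apply measure_biUnion_finset
    · intro i _ j _ hij
      exact hT.dis i j hij
    · intro i _
      exact isOpen_interior.measurableSet
  have h2 : ∀ i, volume (interior (tile P (t i) (s i))) = volume P :=
    fun i => vol_interior_tile hP _ (hT.sgn i)
  simp only [h2, Finset.sum_const, nsmul_eq_mul] at h1
  rw [← h1]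
  apply measure_mono
  intro x hx
  simp only [mem_iUnion, exists_prop] at hx
  obtain ⟨i, hi, hxi⟩ := hx
  exact hI i hi (interior_subset hxi)

theorem dist_tile {P : Set (ℝ × ℝ)} (hP : IsCompact P) (t : ℝ × ℝ) {s : ℝ}
    (hs : s = 1 ∨ s = -1) : ∀ x ∈ tile P t s, ∀ y ∈ tile P t s, dist x y ≤ diam P := by
  rintro _ ⟨x, hx, rfl⟩ _ ⟨y, hy, rfl⟩
  have h1 : dist (t + s • x) (t + s • y) = dist x y := by
    rw [dist_add_left, dist_smul₀, Real.norm_eq_abs]
    rcases hs with rfl | rfl <;> simp
  show dist (t + s • x) (t + s • y) ≤ diam P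
  rw [h1]
  exact dist_le_diam_of_mem hP.isBounded hx hy

theorem exists_bounds {n : ℕ} {v : ZMod n → ℝ × ℝ} (hv : IsPoly v) {ι : Type} {t : ι → ℝ × ℝ}
    {s : ι → ℝ} (hT : Tiling (body v) t s) : ∃ D κ : ℝ, 0 ≤ D ∧ 0 < κ ∧
    (∀ i, ∀ x ∈ tile (body v) (t i) (s i), ∀ y ∈ tile (body v) (t i) (s i), dist x y ≤ D) ∧
    (∀ (c : ℝ × ℝ) (r : ℝ), {i | (tile (body v) (t i) (s i) ∩ closedBall c r).Nonempty}.Finite) ∧
    (∀ (c : ℝ × ℝ) (r : ℝ), 0 ≤ r →
      κ * Set.ncard {i | (tile (body v) (t i) (s i) ∩ closedBall c r).Nonempty} ≤ (r + D) ^ 2) ∧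
    (∀ r : ℝ, D ≤ r →
      (r - D) ^ 2 ≤ κ * Set.ncard {i | tile (body v) (t i) (s i) ⊆ closedBall 0 r}) := by
  have hK := hv.isCompact
  have hC := convex_body v
  have hV0 : volume (body v) ≠ 0 := by
    have h1 := isOpen_interior.measure_pos volume hv.interior_nonempty
    exact (h1.trans_le (measure_mono interior_subset)).ne'
  have hVf : volume (body v) ≠ ∞ := hK.measure_lt_top.ne
  have hV : 0 < (volume (body v)).toReal := ENNReal.toReal_pos hV0 hVf
  set V := (volume (body v)).toReal with hVdef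
  have hD := fun i => dist_tile hK (t i) (hT.sgn i)
  set D := diam (body v) with hDdef
  have hD0 : 0 ≤ D := diam_nonneg
  have hsub : ∀ i (c : ℝ × ℝ) (r : ℝ), (tile (body v) (t i) (s i) ∩ closedBall c r).Nonempty →
      tile (body v) (t i) (s i) ⊆ closedBall c (r + D) := by
    rintro i c r ⟨x, hx, hxr⟩ y hy
    rw [mem_closedBall] at hxr ⊢
    have := hD i y hy x hx
    have := dist_triangle y x c
    linarith
  have hfin : ∀ (c : ℝ × ℝ) (r : ℝ),
      {i | (tile (body v) (t i) (s i) ∩ closedBall c r).Nonempty}.Finite := by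
    intro c r
    by_contra hinf
    have hb : volume (closedBall c (r + D)) ≠ ⊤ := measure_closedBall_lt_top.ne
    obtain ⟨n, hn⟩ := ENNReal.exists_nat_mul_gt hV0 hb
    obtain ⟨I, hI, hIc⟩ := Set.Infinite.exists_subset_card_eq hinf n
    have := card_mul_le2 hC hT I (c := c) (r := r + D) (fun i hi => hsub i c r (hI hi))
    rw [hIc] at this
    exact absurd this (not_le.2 hn)
  refine ⟨D, V / 4, hD0, by positivity, hD, hfin, ?_, ?_⟩
  · intro c r hr
    have h1 := card_mul_le2 hC hT (hfin c r).toFinset (c := c) (r := r + D)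
      (fun i hi => hsub i c r ((hfin c r).mem_toFinset.mp hi))
    rw [vol_ball2 c (by linarith), ← Set.ncard_eq_toFinset_card _ (hfin c r)] at h1
    have h2 := ENNReal.toReal_mono ENNReal.ofReal_ne_top h1
    rw [ENNReal.toReal_mul, ENNReal.toReal_ofReal (by positivity), ENNReal.toReal_natCast] at h2
    rw [← hVdef] at h2
    nlinarith
  · intro r hr
    have hne : ∀ i, (tile (body v) (t i) (s i)).Nonempty := fun i =>
      ⟨_, v 0, vtx_mem_body v 0, rfl⟩
    have hfin2 : {i | tile (body v) (t i) (s i) ⊆ closedBall 0 r}.Finite := by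
      apply (hfin 0 r).subset
      intro i hi
      obtain ⟨x, hx⟩ := hne i
      exact ⟨x, hx, hi hx⟩
    have hcov : closedBall (0 : ℝ × ℝ) (r - D) ⊆
        ⋃ i ∈ hfin2.toFinset, tile (body v) (t i) (s i) := by
      intro x hx
      obtain ⟨i, hi⟩ := hT.cov x
      simp only [mem_iUnion]
      refine ⟨i, ?_, hi⟩
      rw [hfin2.mem_toFinset]
      have := hsub i 0 (r - D) ⟨x, hi, hx⟩
      rwa [sub_add_cancel] at this
    have h1 : volume (closedBall (0 : ℝ × ℝ) (r - D)) ≤
        (hfin2.toFinset.card : ℝ≥0∞) * volume (body v) := by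
      refine (measure_mono hcov).trans ?_
      refine (measure_biUnion_finset_le _ _).trans ?_
      rw [Finset.sum_congr rfl (fun i _ => vol_tile (body v) (t i) (hT.sgn i))]
      simp
    rw [vol_ball2 0 (by linarith), ← Set.ncard_eq_toFinset_card _ hfin2] at h1
    have h2 := ENNReal.toReal_mono
      (ENNReal.mul_ne_top (ENNReal.natCast_ne_top _) hVf) h1
    rw [ENNReal.toReal_mul, ENNReal.toReal_ofReal (by positivity), ENNReal.toReal_natCast] at h2
    rw [← hVdef] at h2
    nlinarith

end Pool.PT56
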